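import Pool.Agent.Lib.MP_a53fda_al.Defs

set_option autoImplicit false

namespace Pool.Agent.Lib.MP_a53fda_al

universe u

section Act

variable {S : Type u} [Ring S] {N P : Type u} [AddCommGroup N] [Module S N] [AddCommGroup P]
  [Module S P]

theorem act_apply {n m : ℕ} (r : Matrix (Fin n) (Fin m) S) (y : Fin m → N) (j : Fin n) :
    act r y j = ∑ i, r j i • y i := rfl

theorem act_mul {q n m : ℕ} (z : Matrix (Fin q) (Fin n) S) (r : Matrix (Fin n) (Fin m) S)
    (y : Fin m → N) : act (z * r) y = act z (act r y) := by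
  funext j
  simp only [act_apply, Matrix.mul_apply, Finset.sum_smul, Finset.smul_sum, mul_smul]
  exact Finset.sum_comm

theorem map_act (f : N →ₗ[S] P) {n m : ℕ} (r : Matrix (Fin n) (Fin m) S) (y : Fin m → N) :
    (fun j => f (act r y j)) = act r (fun i => f (y i)) := by
  funext j
  simp [act_apply]

/-- The subgroup `r N^m` of `N^n`. -/
def rng {n m : ℕ} (r : Matrix (Fin n) (Fin m) S) (N : Type u) [AddCommGroup N] [Module S N] :
    AddSubgroup (Fin n → N) := (act r : (Fin m → N) →+ (Fin n → N)).range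

theorem mem_rng {n m : ℕ} {r : Matrix (Fin n) (Fin m) S} {x : Fin n → N} :
    x ∈ rng r N ↔ ∃ y : Fin m → N, act r y = x := Iff.rfl

theorem act_mem_rng {n m : ℕ} (r : Matrix (Fin n) (Fin m) S) (y : Fin m → N) :
    act r y ∈ rng r N := ⟨y, rfl⟩

theorem rng_mor {n m n' m' : ℕ} {r : Matrix (Fin n) (Fin m) S} {r' : Matrix (Fin n') (Fin m') S}
    {z : Matrix (Fin n') (Fin n) S} {w : Matrix (Fin m') (Fin m) S} (h : z * r = r' * w)
    {x : Fin n → N} (hx : x ∈ rng r N) : act z x ∈ rng r' N := by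
  obtain ⟨y, rfl⟩ := hx
  exact ⟨act w y, by rw [← act_mul, ← act_mul, h]⟩

theorem map_mem_rng (f : N →ₗ[S] P) {n m : ℕ} {r : Matrix (Fin n) (Fin m) S} {x : Fin n → N}
    (hx : x ∈ rng r N) : (fun j => f (x j)) ∈ rng r P := by
  obtain ⟨y, rfl⟩ := hx
  exact ⟨fun i => f (y i), (map_act f r y).symm⟩

theorem rng_zero_cols {n : ℕ} {r : Matrix (Fin n) (Fin 0) S} {x : Fin n → N}
    (hx : x ∈ rng r N) : x = 0 := by
  obtain ⟨y, rfl⟩ := hx
  funext j
  simp [act_apply]

theorem PPFormula.holds_iff (φ : PPFormula S) (x : N) :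
    φ.Holds x ↔ (fun j => φ.s j • x) ∈ rng φ.r N := by
  constructor
  · rintro ⟨y, hy⟩
    exact ⟨y, by funext j; rw [act_apply, hy j]⟩
  · rintro ⟨y, hy⟩
    exact ⟨y, fun j => by rw [← act_apply, hy]⟩

theorem PPFormula.Holds.map {φ : PPFormula S} {x : N} (h : φ.Holds x) (f : N →ₗ[S] P) :
    φ.Holds (f x) := by
  obtain ⟨y, hy⟩ := h
  refine ⟨fun i => f (y i), fun j => ?_⟩
  rw [← map_smul, hy j, map_sum]
  simp

theorem PPFormula.Holds.zero (φ : PPFormula S) : φ.Holds (0 : N) :=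
  ⟨fun _ => 0, fun j => by simp⟩

theorem PPFormula.Holds.add {φ : PPFormula S} {x x' : N} (h : φ.Holds x) (h' : φ.Holds x') :
    φ.Holds (x + x') := by
  obtain ⟨y, hy⟩ := h
  obtain ⟨y', hy'⟩ := h'
  refine ⟨fun i => y i + y' i, fun j => ?_⟩
  simp [smul_add, hy, hy', Finset.sum_add_distrib]

theorem PPFormula.Holds.neg {φ : PPFormula S} {x : N} (h : φ.Holds x) : φ.Holds (-x) := by
  have := h.map (-(LinearMap.id : N →ₗ[S] N))
  simpa using this

theorem PPFormula.Holds.sub {φ : PPFormula S} {x x' : N} (h : φ.Holds x) (h' : φ.Holds x') :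
    φ.Holds (x - x') := by
  rw [sub_eq_add_neg]
  exact h.add h'.neg

end Act

section Pure

variable {S : Type u} [Ring S] {A B C P N : Type u} [AddCommGroup A] [Module S A]
  [AddCommGroup B] [Module S B] [AddCommGroup C] [Module S C] [AddCommGroup P] [Module S P]
  [AddCommGroup N] [Module S N]

theorem IsPure.mem_rng {f : A →ₗ[S] B} (hf : IsPure f) {n m : ℕ} {r : Matrix (Fin n) (Fin m) S}
    {c : Fin n → A} (h : (fun j => f (c j)) ∈ rng r B) : c ∈ rng r A :=
  hf n m r c h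

theorem isPure_iff {f : A →ₗ[S] B} : IsPure f ↔ ∀ (n m : ℕ) (r : Matrix (Fin n) (Fin m) S)
    (c : Fin n → A), (fun j => f (c j)) ∈ rng r B → c ∈ rng r A := Iff.rfl

theorem IsPure.injective {f : A →ₗ[S] B} (hf : IsPure f) : Function.Injective f := by
  rw [injective_iff_map_eq_zero]
  intro a ha
  have h := hf 1 0 0 (fun _ => a) ⟨fun _ => 0, by funext j; simp [ha, act_apply]⟩
  obtain ⟨y, hy⟩ := h
  have := congrFun hy 0
  simpa [act_apply] using this.symm

theorem IsPure.comp {f : A →ₗ[S] B} {g : B →ₗ[S] C} (hg : IsPure g) (hf : IsPure f) :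
    IsPure (g ∘ₗ f) := fun n m r c h => hf n m r c (hg n m r _ h)

theorem IsPure.of_comp {f : A →ₗ[S] B} {g : B →ₗ[S] C} (h : IsPure (g ∘ₗ f)) : IsPure f := by
  intro n m r c hc
  exact h n m r c (map_mem_rng g hc)

theorem isPure_of_retraction {f : A →ₗ[S] B} {g : B →ₗ[S] A} (h : ∀ a, g (f a) = a) :
    IsPure f := by
  intro n m r c hc
  have := map_mem_rng g hc
  simp only [h] at this
  exact this

theorem IsPure.holds_iff {f : A →ₗ[S] B} (hf : IsPure f) (φ : PPFormula S) (a : A) :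
    φ.Holds (f a) ↔ φ.Holds a := by
  constructor
  · intro h
    rw [PPFormula.holds_iff] at h ⊢
    apply hf.mem_rng
    simpa using h
  · intro h
    exact h.map f

theorem IsPureInjective.exists_retraction (hP : IsPureInjective S P) {i : P →ₗ[S] B}
    (hi : IsPure i) : ∃ g : B →ₗ[S] P, ∀ a, g (i a) = a := by
  obtain ⟨g, hg⟩ := hP P B i hi LinearMap.id
  exact ⟨g, by simpa using hg⟩

theorem IsPureInjective.of_retract (hP : IsPureInjective S P) (i : N →ₗ[S] P) (p : P →ₗ[S] N)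
    (h : ∀ x, p (i x) = x) : IsPureInjective S N := by
  intro A B _ _ _ _ j hj f
  obtain ⟨g, hg⟩ := hP A B j hj (i ∘ₗ f)
  refine ⟨p ∘ₗ g, fun a => ?_⟩
  simp [hg, h]

theorem IsPureInjective.of_equiv (hP : IsPureInjective S P) (e : P ≃ₗ[S] N) :
    IsPureInjective S N :=
  hP.of_retract e.symm.toLinearMap e.toLinearMap (by simp)

theorem isPureInjective_of_injective [hinj : Module.Injective S N] : IsPureInjective S N := by
  intro A B _ _ _ _ j hj f
  obtain ⟨g, hg⟩ := hinj.out j hj.injective f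
  exact ⟨g, hg⟩

end Pure

end Pool.Agent.Lib.MP_a53fda_al
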