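import Pool.Agent.Lib.MP_a53fda_al.Defs

/-!
# Cantor-Bendixson rank: basic lemmas
-/

set_option autoImplicit false

namespace Pool.Agent.Lib.MP_a53fda_al

universe u

theorem removeIsolated_subset {X : Type*} [TopologicalSpace X] (A : Set X) :
    removeIsolated A ⊆ A := fun _ hx => hx.1

theorem removeIsolated_empty {X : Type*} [TopologicalSpace X] :
    removeIsolated (∅ : Set X) = ∅ :=
  Set.subset_empty_iff.1 (removeIsolated_subset _)

theorem removeIsolated_singleton {X : Type*} [TopologicalSpace X] (q : X) :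
    removeIsolated ({q} : Set X) = ∅ := by
  ext x
  simp only [removeIsolated, Set.mem_ofPred_eq, Set.mem_singleton_iff, Set.mem_empty_iff_false,
    iff_false, not_and, not_not]
  intro hx
  refine ⟨Set.univ, isOpen_univ, ?_⟩
  rw [Set.univ_inter, hx]

section

variable {X : Type u} [TopologicalSpace X]

variable (X) in
theorem cbLevel_zero : cbLevel X 0 = Set.univ := by
  unfold cbLevel
  exact Ordinal.limitRecOn_zero _ _ _

variable (X) in
theorem cbLevel_add_one (α : Ordinal.{u}) :
    cbLevel X (α + 1) = removeIsolated (cbLevel X α) := by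
  unfold cbLevel
  exact Ordinal.limitRecOn_add_one _ _ _ _

variable (X) in
theorem cbLevel_limit (α : Ordinal.{u}) (h : Order.IsSuccLimit α) :
    cbLevel X α = ⋂ γ : Set.Iio α, cbLevel X γ.1 := by
  unfold cbLevel
  exact Ordinal.limitRecOn_limit _ _ _ _ h

theorem cbLevel_antitone : Antitone (cbLevel X) := by
  have key : ∀ β : Ordinal.{u}, ∀ α ≤ β, cbLevel X β ⊆ cbLevel X α := by
    intro β
    induction β using Ordinal.limitRecOn with
    | zero =>
      intro α hα
      rw [nonpos_iff_eq_zero.1 hα]
    | add_one β ih =>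
      intro α hα
      rcases hα.eq_or_lt with h | h
      · rw [h]
      · have h2 : α ≤ β := Order.lt_add_one_iff.1 h
        rw [cbLevel_add_one]
        exact (removeIsolated_subset _).trans (ih α h2)
    | limit β hβ ih =>
      intro α hα
      rcases hα.eq_or_lt with h | h
      · rw [h]
      · rw [cbLevel_limit X β hβ]
        exact Set.iInter_subset (fun γ : Set.Iio β => cbLevel X γ.1) ⟨α, h⟩
  intro α β h
  exact key β α h

end

theorem isCBRank_unique {X : Type u} [TopologicalSpace X] {v w : WithTop Ordinal.{u}}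
    (hv : IsCBRank X v) (hw : IsCBRank X w) : v = w := by
  rcases hv with ⟨h1, h2⟩ | ⟨⟨α, hα⟩, β, h2, h3⟩
  · rcases hw with ⟨_, h4⟩ | ⟨⟨α', hα'⟩, _⟩
    · rw [h2, h4]
    · exact absurd hα' (h1 α').ne_empty
  · rcases hw with ⟨h1, _⟩ | ⟨_, β', h5, h6⟩
    · exact absurd hα (h1 α).ne_empty
    · rw [h2, h5, h3.unique h6]

/-- A level which is empty after the singleton level `β`. -/
theorem isCBRank_of_singleton {X : Type u} [TopologicalSpace X] (q : X) (β : Ordinal.{u})
    (h : cbLevel X β = {q}) : IsCBRank X (β : WithTop Ordinal.{u}) := by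
  have h1 : cbLevel X (β + 1) = ∅ := by
    rw [cbLevel_add_one, h, removeIsolated_singleton]
  refine Or.inr ⟨⟨β + 1, h1⟩, β, rfl, ?_, ?_⟩
  · rw [Set.mem_ofPred_eq, h, h1]
    exact ⟨q, rfl, fun h => h⟩
  · intro γ hγ
    by_contra hlt
    rw [not_le] at hlt
    obtain ⟨x, hx, _⟩ := hγ
    have h2 : cbLevel X γ ⊆ cbLevel X (β + 1) :=
      cbLevel_antitone (Order.add_one_le_of_lt hlt)
    rw [h1] at h2
    exact h2 hx

theorem isCBRank_one {X : Type u} [TopologicalSpace X] (q : X)
    (h : removeIsolated (Set.univ : Set X) = {q}) : IsCBRank X 1 := by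
  have h1 : cbLevel X (1 : Ordinal.{u}) = {q} := by
    have := cbLevel_add_one X (0 : Ordinal.{u})
    rw [zero_add, cbLevel_zero, h] at this
    exact this
  exact isCBRank_of_singleton q 1 h1

theorem isCBRank_two {X : Type u} [TopologicalSpace X] (q : X)
    (h : removeIsolated (removeIsolated (Set.univ : Set X)) = {q}) : IsCBRank X 2 := by
  have h1 : cbLevel X (1 : Ordinal.{u}) = removeIsolated Set.univ := by
    have := cbLevel_add_one X (0 : Ordinal.{u})
    rw [zero_add, cbLevel_zero] at this
    exact this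
  have h2 : cbLevel X (2 : Ordinal.{u}) = {q} := by
    have := cbLevel_add_one X (1 : Ordinal.{u})
    rw [one_add_one_eq_two, h1, h] at this
    exact this
  exact isCBRank_of_singleton q 2 h2

theorem isCBRank_top {X : Type u} [TopologicalSpace X] (Y : Set X) (hY : Y.Nonempty)
    (h : ∀ y ∈ Y, ∀ U : Set X, IsOpen U → y ∈ U → ∃ y' ∈ U ∩ Y, y' ≠ y) : IsCBRank X ⊤ := by
  have key : ∀ α : Ordinal.{u}, Y ⊆ cbLevel X α := by
    intro α
    induction α using Ordinal.limitRecOn with
    | zero =>
      rw [cbLevel_zero]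
      exact Set.subset_univ _
    | add_one β ih =>
      rw [cbLevel_add_one]
      intro y hy
      refine ⟨ih hy, ?_⟩
      rintro ⟨U, hU, hUy⟩
      have hyU : y ∈ U := by
        have : y ∈ U ∩ cbLevel X β := by
          rw [hUy]
          exact rfl
        exact this.1
      obtain ⟨y', hy', hne⟩ := h y hy U hU hyU
      have : y' ∈ U ∩ cbLevel X β := ⟨hy'.1, ih hy'.2⟩
      rw [hUy] at this
      exact hne this
    | limit β hβ ih =>
      rw [cbLevel_limit X β hβ]
      exact Set.subset_iInter fun γ => ih γ.1 γ.2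
  exact Or.inl ⟨fun α => hY.mono (key α), rfl⟩

end Pool.Agent.Lib.MP_a53fda_al
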