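import Pool.Agent.Lib.MP_a53fda_al.Points
import Pool.Agent.Lib.MP_a53fda_al.CB

/-!
# Cases A and B
-/

set_option autoImplicit false

namespace Pool.Agent.Lib.MP_a53fda_al

universe u

section Simple

variable (k : Type u) {S : Type u} [Field k] [Ring S] [DP k S]

theorem simple_generates {S₀ : Type u} [AddCommGroup S₀] [Module S S₀] [IsSimpleModule S S₀]
    {a : S₀} (ha : a ≠ 0) (b : S₀) : ∃ t : S, b = t • a := by
  have h : Submodule.span S {a} = (⊤ : Submodule S S₀) := by
    rcases eq_bot_or_eq_top (Submodule.span S {a}) with h | h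
    · exact absurd (Submodule.span_singleton_eq_bot.mp h) ha
    · exact h
  have hb : b ∈ Submodule.span S {a} := by
    rw [h]
    exact Submodule.mem_top
  obtain ⟨t, ht⟩ := Submodule.mem_span_singleton.mp hb
  exact ⟨t, ht.symm⟩

include k in
/-- Injective hulls of simple torsion modules. -/
theorem exists_hull_simple (S₀ : Type u) [AddCommGroup S₀] [Module S S₀] [IsSimpleModule S S₀]
    (hS₀ : FT S S₀) : ∃ (E : IndecPureInj S) (i : S₀ →ₗ[S] E.carrier), Function.Injective i ∧
      Div S E.carrier ∧ (∀ x : E.carrier, ∃ s : S, s ≠ 0 ∧ s • x = 0) ∧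
        ∀ B : Submodule S E.carrier, B ≠ ⊥ → ∀ a, i a ∈ B := by
  have hSn : Nontrivial S := nontrivial_dp k S
  have hn := IsSimpleModule.nontrivial S S₀
  obtain ⟨E, _, _, i, hE, hi, hess⟩ := exists_essential_hull k (S := S) S₀
  have hess' : ∀ B : Submodule S E, B ≠ ⊥ → ∀ a, i a ∈ B := by
    intro B hB a
    obtain ⟨b, hb, hbB⟩ := hess B hB
    obtain ⟨t, rfl⟩ := simple_generates (S := S) hb a
    rw [map_smul]
    exact Submodule.smul_mem _ _ hbB
  have htor : ∀ x : E, ∃ s : S, s ≠ 0 ∧ s • x = 0 := by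
    intro x
    by_cases hx : x = 0
    · exact ⟨1, one_ne_zero, by rw [hx, smul_zero]⟩
    · obtain ⟨a, ha, hax⟩ := hess (Submodule.span S {x}) (by
        rw [Ne, Submodule.span_singleton_eq_bot]
        exact hx)
      obtain ⟨t, ht⟩ := Submodule.mem_span_singleton.mp hax
      obtain ⟨s, hs, hsa⟩ := hS₀.2 a
      have ht0 : t ≠ 0 := by
        rintro rfl
        rw [zero_smul] at ht
        exact ha (hi (ht.symm.trans (map_zero i).symm))
      exact ⟨s * t, mul_ne_zero_dp k hs ht0, by
        rw [mul_smul, ht, ← map_smul, hsa, map_zero]⟩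
  have hind : IsIndecomposable S E := by
    refine ⟨hi.nontrivial, ?_⟩
    intro A B hAB
    by_contra hcon
    rw [not_or] at hcon
    obtain ⟨a, ha⟩ := exists_ne (0 : S₀)
    have h3 := (Submodule.disjoint_def.mp hAB.disjoint) _ (hess' A hcon.1 a) (hess' B hcon.2 a)
    exact ha (hi (h3.trans (map_zero i).symm))
  exact ⟨⟨E, isPureInjective_of_injective, hind⟩, i, hi, div_of_injective k, htor, hess'⟩

include k in
theorem exists_torsion_div (S : Type u) [Ring S] [DP k S] :
    ∃ N : IndecPureInj S, Div S N.carrier ∧ ¬ TF S N.carrier := by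
  obtain ⟨V, _, _, hV, hsimple⟩ := exists_simple k S
  have hn := IsSimpleModule.nontrivial S V
  obtain ⟨E, i, hi, hdiv, htor, -⟩ := exists_hull_simple k V hV
  refine ⟨E, hdiv, fun htf => ?_⟩
  obtain ⟨a, ha⟩ := exists_ne (0 : V)
  obtain ⟨s, hs, hsa⟩ := htor (i a)
  rcases htf s (i a) hsa with h | h
  · exact hs h
  · exact ha (hi (h.trans (map_zero i).symm))

include k in
/-- A module which is not torsion-free contains a simple torsion module. -/
theorem exists_simple_sub {N : Type u} [AddCommGroup N] [Module S N] (h : ¬ TF S N) :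
    ∃ (S₀ : Type u) (_ : AddCommGroup S₀) (_ : Module S S₀) (_ : IsSimpleModule S S₀)
      (j : S₀ →ₗ[S] N), FT S S₀ ∧ Function.Injective j := by
  unfold TF at h
  push Not at h
  obtain ⟨s, x, hsx, hs, hx⟩ := h
  let A : Submodule S N := Submodule.span S {x}
  have hA : FT S A := ft_span_singleton k ⟨s, hs, hsx⟩
  have := hA.isArtinian k
  have hne : (⊤ : Submodule S A) ≠ ⊥ := by
    intro htop
    have h1 : (⟨x, Submodule.mem_span_singleton_self x⟩ : A) ∈ (⊤ : Submodule S A) :=
      Submodule.mem_top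
    rw [htop] at h1
    have h2 : (⟨x, Submodule.mem_span_singleton_self x⟩ : A) = 0 := by simpa using h1
    exact hx (congrArg Subtype.val h2)
  have hat : IsAtomic (Submodule S A) := inferInstance
  obtain ⟨B, hB, -⟩ := (eq_bot_or_exists_atom_le (⊤ : Submodule S A)).resolve_left hne
  refine ⟨B, inferInstance, inferInstance, isSimpleModule_iff_isAtom.mpr hB,
    A.subtype ∘ₗ B.subtype, hA.of_injective k B.subtype B.injective_subtype, ?_⟩
  exact A.injective_subtype.comp B.injective_subtype

end Simple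

section CaseA

variable {k S : Type u} [Field k] [CharZero k] [Ring S] [DP k S]

theorem caseA_div (hA : CondA (dδ k S)) (N : IndecPureInj S) (h : ¬ TF S N.carrier) :
    Div S N.carrier := by
  obtain ⟨S₀, _, _, _, j, hS₀, hj⟩ := exists_simple_sub k h
  have hn := IsSimpleModule.nontrivial S S₀
  have hdiv : Div S S₀ := fun s m hs => divisible_of_condA_ft hA hS₀ s m hs
  have hinj := hdiv.injective k
  obtain ⟨ρ, hρ⟩ := hinj.out j hj LinearMap.id
  have hb := bijective_of_pure isPureInjective_of_injective hn N.indecomposable j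
    (isPure_of_retraction hρ)
  exact div_of_equiv (LinearEquiv.ofBijective j hb) hdiv

/-- **Case A.** -/
theorem rank_one (hA : CondA (dδ k S)) : IsCBRank (Zg S) 1 := by
  obtain ⟨Q, hQtf, hQdiv, huniq, hlim⟩ := exists_generic k (S := S)
  obtain ⟨N₀, hN₀div, hN₀tf⟩ := exists_torsion_div k S
  apply isCBRank_one (pt Q)
  ext p
  rw [Set.mem_singleton_iff]
  constructor
  · rintro ⟨-, hp⟩
    obtain ⟨N, rfl⟩ := exists_pt p
    by_contra hne
    apply hp
    by_cases hdiv : Div S N.carrier
    · by_cases htf : TF S N.carrier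
      · exact absurd (huniq N htf hdiv) hne
      · obtain ⟨φ, ψ, hmem, hsep⟩ := exists_sep_div k N hdiv htf
        refine ⟨basicOpen φ ψ, isOpen_basicOpen φ ψ, ?_⟩
        rw [Set.inter_univ]
        ext q
        rw [Set.mem_singleton_iff]
        constructor
        · intro hq
          obtain ⟨N', rfl⟩ := exists_pt q
          obtain ⟨h1, h2⟩ := hsep N' hq
          exact h2 (caseA_div hA N' h1)
        · rintro rfl
          exact hmem
    · by_cases htf : TF S N.carrier
      · obtain ⟨φ, ψ, hmem, hsep⟩ := exists_sep_tf k N htf hdiv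
        refine ⟨basicOpen φ ψ, isOpen_basicOpen φ ψ, ?_⟩
        rw [Set.inter_univ]
        ext q
        rw [Set.mem_singleton_iff]
        constructor
        · intro hq
          obtain ⟨N', rfl⟩ := exists_pt q
          obtain ⟨h1, h2⟩ := hsep N' hq
          apply h2
          by_contra h3
          exact h1 (caseA_div hA N' h3)
        · rintro rfl
          exact hmem
      · exact absurd (caseA_div hA N htf) hdiv
  · rintro rfl
    refine ⟨Set.mem_univ _, ?_⟩
    rintro ⟨U, hU, hUQ⟩
    rw [Set.inter_univ] at hUQ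
    obtain ⟨φ, ψ, hmem, hsub⟩ := exists_basicOpen_subset hU (p := pt Q) (by
      rw [hUQ]
      exact Set.mem_singleton _)
    have h1 := hsub (hlim N₀ hN₀div φ ψ hmem)
    rw [hUQ, Set.mem_singleton_iff, pt_eq] at h1
    obtain ⟨e⟩ := h1
    exact hN₀tf (tf_of_equiv e.symm hQtf)

end CaseA

section Formula

variable {S : Type u} [Ring S] [IsNoetherianRing S]

/-- The pp type of an element of a finitely generated module is given by one formula. -/
theorem exists_formula {M : Type u} [AddCommGroup M] [Module S M] [Module.Finite S M] (a : M) :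
    ∃ φ : PPFormula S, ∀ (N : Type u) [AddCommGroup N] [Module S N] (x : N),
      φ.Holds x ↔ ∃ f : M →ₗ[S] N, f a = x := by
  classical
  obtain ⟨p, g, hg⟩ := Module.Finite.exists_fin (R := S) (M := M)
  let G : (Fin p →₀ S) →ₗ[S] M := Finsupp.linearCombination S g
  have hG : Function.Surjective G := by
    rw [← LinearMap.range_eq_top, Finsupp.range_linearCombination, hg]
  obtain ⟨E, hE⟩ := IsNoetherian.noetherian (LinearMap.ker G)
  obtain ⟨α, hα⟩ := hG a
  -- equations: one for `a`, one for each relation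
  let q := E.card
  let ε : Fin q ≃ E := E.equivFin.symm
  let φ : PPFormula S := mkFormula (ι := Unit ⊕ Fin q) (κ := Fin p)
    (fun j => match j with
      | Sum.inl _ => 1
      | Sum.inr _ => 0)
    (fun j i => match j with
      | Sum.inl _ => α i
      | Sum.inr j => (ε j : Fin p →₀ S) i)
  have hlc : ∀ {N : Type u} [AddCommGroup N] [Module S N] (y : Fin p → N) (e : Fin p →₀ S),
      Finsupp.linearCombination S y e = ∑ i, e i • y i := by
    intro N _ _ y e
    rw [Finsupp.linearCombination_apply, Finsupp.sum_fintype]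
    simp
  refine ⟨φ, ?_⟩
  intro N _ _ x
  rw [holds_mkFormula]
  constructor
  · rintro ⟨y, hy⟩
    let Y : (Fin p →₀ S) →ₗ[S] N := Finsupp.linearCombination S y
    have hker : LinearMap.ker G ≤ LinearMap.ker Y := by
      rw [← hE, Submodule.span_le]
      intro e he
      have := hy (Sum.inr (ε.symm ⟨e, he⟩))
      simp only [Equiv.apply_symm_apply, zero_smul] at this
      rw [SetLike.mem_coe, LinearMap.mem_ker]
      change Finsupp.linearCombination S y e = 0
      rw [hlc]
      exact this.symm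
    let f : M →ₗ[S] N := ((LinearMap.ker G).liftQ Y hker) ∘ₗ
      (G.quotKerEquivOfSurjective hG).symm.toLinearMap
    have hf : ∀ e, f (G e) = Y e := by
      intro e
      have : (G.quotKerEquivOfSurjective hG).symm (G e) = Submodule.Quotient.mk e := by
        rw [LinearEquiv.symm_apply_eq]
        rfl
      change ((LinearMap.ker G).liftQ Y hker) ((G.quotKerEquivOfSurjective hG).symm (G e)) = Y e
      rw [this]
      rfl
    refine ⟨f, ?_⟩
    rw [← hα, hf]
    change Finsupp.linearCombination S y α = x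
    rw [hlc]
    have := hy (Sum.inl ())
    simp only [one_smul] at this
    exact this.symm
  · rintro ⟨f, rfl⟩
    refine ⟨fun i => f (g i), ?_⟩
    have hfG : ∀ e : Fin p →₀ S, ∑ i, e i • f (g i) = f (G e) := by
      intro e
      rw [← hlc (fun i => f (g i)) e]
      change _ = f (Finsupp.linearCombination S g e)
      rw [Finsupp.linearCombination_apply, Finsupp.linearCombination_apply, map_finsuppSum]
      simp
    rintro (j | j)
    · simp only [one_smul]
      rw [hfG, hα]
    · simp only [zero_smul]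
      rw [hfG]
      have : ((ε j : E) : Fin p →₀ S) ∈ LinearMap.ker G := by
        rw [← hE]
        exact Submodule.subset_span (ε j).2
      rw [LinearMap.mem_ker.mp this, map_zero]

end Formula

section CaseB

variable {k S : Type u} [Field k] [CharZero k] [Ring S] [DP k S]

/-- In case B, the points which are neither divisible nor torsion-free are isolated. -/
theorem exists_sep_mixed (hB : CondB (dδ k S)) (N : IndecPureInj S) (hdiv : ¬ Div S N.carrier)
    (htf : ¬ TF S N.carrier) :
    ∃ φ ψ : PPFormula S, pt N ∈ basicOpen φ ψ ∧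
      ∀ N' : IndecPureInj S, pt N' ∈ basicOpen φ ψ → pt N' = pt N := by
  classical
  have hnoeth := isNoetherianRing_dp k (S := S)
  obtain ⟨S₀, _, _, hsimple, j, hS₀, hj⟩ := exists_simple_sub k htf
  have hn := IsSimpleModule.nontrivial S S₀
  obtain ⟨a₁, ha₁⟩ := exists_ne (0 : S₀)
  obtain ⟨E, i, hi, hEdiv, hEtor, hess⟩ := exists_hull_simple k S₀ hS₀
  have hEinj := hEdiv.injective k
  -- finitely generated submodules of `E` are torsion modules of finite type
  have hft : ∀ A : Submodule S E.carrier, A.FG → FT S A := fun A hA =>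
    ⟨Module.Finite.of_fg hA, fun x => by
      obtain ⟨s, hs, hsx⟩ := hEtor x
      exact ⟨s, hs, Subtype.ext hsx⟩⟩
  -- extension predicate
  let Ext : Submodule S E.carrier → Prop := fun A =>
    ∃ g : A →ₗ[S] N.carrier, ∀ (a : S₀) (h : i a ∈ A), g ⟨i a, h⟩ = j a
  -- no extension to `E`
  have hno : ¬ ∃ f : E.carrier →ₗ[S] N.carrier, ∀ a, f (i a) = j a := by
    rintro ⟨f, hf⟩
    have hfi : Function.Injective f := by
      rw [← LinearMap.ker_eq_bot]
      by_contra hne
      have h1 := hess _ hne a₁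
      rw [LinearMap.mem_ker, hf] at h1
      exact ha₁ (hj (h1.trans (map_zero j).symm))
    obtain ⟨ρ, hρ⟩ := hEinj.out f hfi LinearMap.id
    have hb := bijective_of_pure E.pureInjective E.indecomposable.1 N.indecomposable f
      (isPure_of_retraction hρ)
    exact hdiv (div_of_equiv (LinearEquiv.ofBijective f hb) hEdiv)
  have hrfg : (LinearMap.range i).FG := by
    have := hS₀.1
    rw [LinearMap.range_eq_map]
    exact Module.Finite.fg_top.map i
  -- compactness
  have hex : ∃ A : Submodule S E.carrier, A.FG ∧ LinearMap.range i ≤ A ∧ ¬ Ext A := by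
    by_contra hcon
    push Not at hcon
    apply hno
    let Γ : PPRel S E.carrier N.carrier :=
      { R := fun {n m} r x p => ∃ s : Fin n → S₀, x = (fun l => i (s l)) ∧ p = fun l => j (s l)
        zero := fun r => ⟨0, by funext l; simp, by funext l; simp⟩
        add := by
          rintro n m r x x' p p' ⟨s, rfl, rfl⟩ ⟨s', rfl, rfl⟩
          exact ⟨s + s', by funext l; simp, by funext l; simp⟩
        mor := by
          rintro n m n' m' r r' z w hzw x p ⟨s, rfl, rfl⟩
          exact ⟨act z s, (map_act i z s).symm, (map_act j z s).symm⟩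
        sep := by
          rintro n m r x p ⟨s, rfl, rfl⟩ ⟨y, hy⟩
          let A : Submodule S E.carrier := LinearMap.range i ⊔ Submodule.span S (Set.range y)
          have hAfg : A.FG := Submodule.FG.sup hrfg (Submodule.fg_span (Set.finite_range y))
          obtain ⟨g, hg⟩ := hcon A hAfg le_sup_left
          let yA : Fin m → A := fun l =>
            ⟨y l, Submodule.mem_sup_right (Submodule.subset_span ⟨l, rfl⟩)⟩
          have h1 : act r yA = fun l => (⟨i (s l), Submodule.mem_sup_left ⟨s l, rfl⟩⟩ : A) := by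
            funext l
            apply Subtype.ext
            have h2 := congrFun hy l
            rw [act_apply] at h2 ⊢
            simp only [Submodule.coe_sum, Submodule.coe_smul]
            exact h2
          refine ⟨fun l => g (yA l), ?_⟩
          rw [← map_act g r yA, h1]
          funext l
          exact hg (s l) _ }
    obtain ⟨f, hf⟩ := Γ.exists_hom N.pureInjective
    refine ⟨f, fun a => ?_⟩
    have h1 := hf 1 0 (0 : Matrix (Fin 1) (Fin 0) S) (fun _ => i a) (fun _ => j a)
      ⟨fun _ => a, rfl, rfl⟩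
    have h2 := congrFun (rng_zero_cols h1) 0
    rwa [Pi.zero_apply, sub_eq_zero] at h2
  -- choose one of minimal length
  obtain ⟨M₀, ⟨hM₀fg, hM₀i, hM₀⟩, hmin⟩ : ∃ A : Submodule S E.carrier,
      (A.FG ∧ LinearMap.range i ≤ A ∧ ¬ Ext A) ∧ ∀ B : Submodule S E.carrier,
        (B.FG ∧ LinearMap.range i ≤ B ∧ ¬ Ext B) → ¬ Module.length S B < Module.length S A := by
    let Z : Set (Submodule S E.carrier) := {A | A.FG ∧ LinearMap.range i ≤ A ∧ ¬ Ext A}
    have hwf : WellFounded (InvImage (· < ·) fun A : Submodule S E.carrier =>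
      Module.length S A) := InvImage.wf _ wellFounded_lt
    obtain ⟨A, hA, hAmin⟩ := hwf.has_min Z hex
    exact ⟨A, hA, fun B hB => hAmin B hB⟩
  have hM₀ft : FT S M₀ := hft M₀ hM₀fg
  have hM₀fin := hM₀ft.1
  have := hM₀ft.isNoetherian k
  have := hM₀ft.isArtinian k
  let i' : S₀ →ₗ[S] M₀ := i.codRestrict M₀ (fun a => hM₀i ⟨a, rfl⟩)
  have hi' : Function.Injective i' := by
    intro x y hxy
    exact hi (congrArg Subtype.val hxy)
  let S₀' : Submodule S M₀ := LinearMap.range i'
  have hess' : ∀ A : Submodule S M₀, A ≠ ⊥ → S₀' ≤ A := by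
    intro A hA
    rintro _ ⟨a, rfl⟩
    have h1 : A.map M₀.subtype ≠ ⊥ := by
      intro h2
      apply hA
      apply Submodule.map_injective_of_injective M₀.injective_subtype
      rw [h2, Submodule.map_bot]
    obtain ⟨y, hy, hya⟩ := hess _ h1 a
    have : y = i' a := Subtype.ext hya
    rw [← this]
    exact hy
  have hSS : IsSimpleModule S S₀' := IsSimpleModule.congr (LinearEquiv.ofInjective i' hi').symm
  have hne : S₀' ≠ ⊤ := by
    intro htop
    apply hM₀
    have hb : Function.Bijective i' := ⟨hi', LinearMap.range_eq_top.mp htop⟩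
    let e := LinearEquiv.ofBijective i' hb
    refine ⟨j ∘ₗ e.symm.toLinearMap, fun a h => ?_⟩
    have h1 : e a = ⟨i a, h⟩ := rfl
    rw [LinearMap.comp_apply, LinearEquiv.coe_coe, ← h1, LinearEquiv.symm_apply_apply]
  obtain ⟨M₁, hM₁, h01⟩ := (eq_top_or_exists_le_coatom S₀').resolve_left hne
  -- the extension to `M₁`
  let b₁ : M₁ := ⟨i' a₁, h01 ⟨a₁, rfl⟩⟩
  have hM₁ft : FT S M₁ := hM₀ft.of_injective k M₁.subtype M₁.injective_subtype
  obtain ⟨g₁, hg₁⟩ : ∃ g : M₁ →ₗ[S] N.carrier, g b₁ = j a₁ := by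
    by_contra hcon
    let A : Submodule S E.carrier := M₁.map M₀.subtype
    let e : M₁ ≃ₗ[S] A := Submodule.equivMapOfInjective M₀.subtype M₀.injective_subtype M₁
    have hAft : FT S A := hM₁ft.of_surjective e.toLinearMap e.surjective
    have hlen : Module.length S A < Module.length S M₀ := by
      rw [← e.length_eq]
      exact Submodule.length_lt hM₁.1
    refine hmin A ⟨Module.Finite.iff_fg.mp hAft.1, ?_, ?_⟩ hlen
    · rintro _ ⟨a, rfl⟩
      exact ⟨i' a, h01 ⟨a, rfl⟩, rfl⟩
    · rintro ⟨g, hg⟩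
      apply hcon
      refine ⟨g ∘ₗ e.toLinearMap, ?_⟩
      have h1 : i a₁ ∈ A := ⟨i' a₁, h01 ⟨a₁, rfl⟩, rfl⟩
      have h2 : e b₁ = ⟨i a₁, h1⟩ := rfl
      rw [LinearMap.comp_apply, LinearEquiv.coe_coe, h2, hg]
  have hM₁fin := hM₁ft.1
  obtain ⟨φ, hφ⟩ := exists_formula (S := S) b₁
  obtain ⟨ψ, hψ⟩ := exists_formula (S := S) (i' a₁)
  -- the key claim
  have claim : ∀ (N' : Type u) [AddCommGroup N'] [Module S N'] (f : M₁ →ₗ[S] N'),
      (¬ ∃ g₀ : M₀ →ₗ[S] N', g₀ (i' a₁) = f b₁) → IsPure f := by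
    intro N' _ _ f hf
    by_contra hpure
    unfold IsPure at hpure
    push Not at hpure
    obtain ⟨n, m, r, c, ⟨y, hy⟩, hc⟩ := hpure
    obtain ⟨K, _, _, hKfin, iK, hiK, -, hKext⟩ := exists_solving r c
    obtain ⟨G, hG⟩ := hKext N' f ⟨y, hy⟩
    obtain ⟨T, p, hp, hT⟩ := exists_torsion_retraction k (S := S) (C := K)
    have hTft : FT S T := by
      refine ⟨Module.Finite.of_surjective p fun x => ⟨x, hp x⟩, ?_⟩
      rintro ⟨x, hx⟩
      obtain ⟨s, hs, hsx⟩ := (hT x).mp hx
      exact ⟨s, hs, Subtype.ext hsx⟩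
    have hpi : ∀ x, ((p (iK x) : T) : K) = iK x := by
      intro x
      have hx : iK x ∈ T := by
        rw [hT]
        obtain ⟨s, hs, hsx⟩ := hM₁ft.2 x
        exact ⟨s, hs, by rw [← map_smul, hsx, map_zero]⟩
      exact congrArg Subtype.val (hp ⟨iK x, hx⟩)
    obtain ⟨g₀, hg₀⟩ := ks_ft hB hM₀ft hTft S₀' M₁ hSS hess' h01 hM₁ (p ∘ₗ iK) (by
      rintro ⟨ρ, hρ⟩
      have h1 := map_mem_rng (ρ ∘ₗ p) hiK
      have h2 : (fun l => (ρ ∘ₗ p) (iK (c l))) = c := by
        funext l
        exact hρ (c l)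
      rw [h2] at h1
      obtain ⟨y', hy'⟩ := h1
      exact hc y' hy')
    apply hf
    refine ⟨G ∘ₗ T.subtype ∘ₗ g₀, ?_⟩
    rw [LinearMap.comp_apply, LinearMap.comp_apply, hg₀ (i' a₁) ⟨a₁, rfl⟩]
    change G ((p (iK b₁) : T) : K) = f b₁
    rw [hpi, hG]
  refine ⟨φ, ψ, ?_, ?_⟩
  · rw [pt_mem_basicOpen]
    refine ⟨j a₁, (hφ _ _).mpr ⟨g₁, hg₁⟩, fun h => ?_⟩
    obtain ⟨g, hg⟩ := (hψ _ _).mp h
    apply hM₀
    refine ⟨g, fun a ha => ?_⟩
    obtain ⟨t, rfl⟩ := simple_generates (S := S) ha₁ a
    have h1 : (⟨i (t • a₁), ha⟩ : M₀) = t • i' a₁ := Subtype.ext (map_smul i t a₁)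
    rw [h1, map_smul, map_smul, hg]
  · intro N' hN'
    rw [pt_mem_basicOpen] at hN'
    obtain ⟨x, hx, hx'⟩ := hN'
    obtain ⟨f, rfl⟩ := (hφ _ _).mp hx
    have hf : IsPure f := claim _ f (fun h => hx' ((hψ _ _).mpr h))
    have hg : IsPure g₁ := by
      apply claim
      rintro ⟨g, hg⟩
      apply hM₀
      refine ⟨g, fun a ha => ?_⟩
      obtain ⟨t, rfl⟩ := simple_generates (S := S) ha₁ a
      have h1 : (⟨i (t • a₁), ha⟩ : M₀) = t • i' a₁ := Subtype.ext (map_smul i t a₁)
      rw [h1, map_smul, map_smul, hg, hg₁]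
    have hM₁n : Nontrivial M₁ := ⟨⟨b₁, 0, fun h => ha₁ (hi' (by
      have h1 : i' a₁ = 0 := congrArg Subtype.val h
      rw [h1, map_zero]))⟩⟩
    rw [pt_eq]
    exact iso_of_common_pure N'.pureInjective N'.indecomposable N.pureInjective N.indecomposable
      f hf g₁ hg

/-- In case B, divisible points with torsion are not isolated. -/
theorem exists_near (hA : ¬ CondA (dδ k S)) (N : IndecPureInj S) (hdiv : Div S N.carrier)
    (htf : ¬ TF S N.carrier) (φ ψ : PPFormula S) (hmem : pt N ∈ basicOpen φ ψ) :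
    ∃ N' : IndecPureInj S, pt N' ∈ basicOpen φ ψ ∧ pt N' ≠ pt N := by
  classical
  have hnoeth := isNoetherianRing_dp k (S := S)
  obtain ⟨S₀, _, _, hsimple, j, hS₀, hj⟩ := exists_simple_sub k htf
  have hn := IsSimpleModule.nontrivial S S₀
  obtain ⟨a₁, ha₁⟩ := exists_ne (0 : S₀)
  obtain ⟨E, i, hi, hEdiv, hEtor, hess⟩ := exists_hull_simple k S₀ hS₀
  have hEinj := hEdiv.injective k
  have hNinj := hdiv.injective k
  have heq : pt E = pt N := by
    rw [pt_eq]
    exact iso_of_common E.indecomposable N.indecomposable i hi j hj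
  rw [← heq] at hmem ⊢
  rw [pt_mem_basicOpen] at hmem
  obtain ⟨x, ⟨y, hy⟩, hx'⟩ := hmem
  let M : Submodule S E.carrier := Submodule.span S (insert x (Set.range y))
  have hMft : FT S M :=
    ⟨Module.Finite.of_fg (Submodule.fg_span ((Set.finite_range y).insert x)), fun z => by
      obtain ⟨s, hs, hsz⟩ := hEtor z
      exact ⟨s, hs, Subtype.ext hsz⟩⟩
  let xM : M := ⟨x, Submodule.subset_span (Set.mem_insert _ _)⟩
  let yM : Fin φ.m → M := fun l =>
    ⟨y l, Submodule.subset_span (Set.mem_insert_of_mem _ ⟨l, rfl⟩)⟩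
  have hφ : φ.Holds xM := ⟨yM, fun l => Subtype.ext (by
    have := hy l
    simpa [xM, yM] using this)⟩
  have hψ : ¬ ψ.Holds xM := fun h => hx' (h.map M.subtype)
  have hxM : xM ≠ 0 := by
    intro h
    apply hψ
    rw [h]
    exact PPFormula.Holds.zero ψ
  have hMn : Nontrivial M := ⟨⟨xM, 0, hxM⟩⟩
  have hMind : IsIndecomposable S M := by
    refine ⟨hMn, fun A B hAB => ?_⟩
    by_contra hcon
    rw [not_or] at hcon
    have h1 : ∀ A : Submodule S M, A ≠ ⊥ → i a₁ ∈ A.map M.subtype := by
      intro A hA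
      apply hess
      intro h2
      apply hA
      apply Submodule.map_injective_of_injective M.injective_subtype
      rw [h2, Submodule.map_bot]
    obtain ⟨u, hu, hua⟩ := h1 A hcon.1
    obtain ⟨v, hv, hva⟩ := h1 B hcon.2
    have huv : u = v := Subtype.ext (hua.trans hva.symm)
    rw [← huv] at hv
    have h3 := (Submodule.disjoint_def.mp hAB.disjoint) _ hu hv
    rw [h3, map_zero] at hua
    exact ha₁ (hi (hua.symm.trans (map_zero i).symm))
  have := hMft.isNoetherian k
  have := hMft.isArtinian k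
  obtain ⟨N', iN, hiN, -⟩ := exists_hull M hMind
  refine ⟨N', ?_, ?_⟩
  · rw [pt_mem_basicOpen]
    exact ⟨iN xM, hφ.map iN, fun h => hψ ((hiN.holds_iff ψ xM).mp h)⟩
  · intro h
    apply hA
    obtain ⟨e⟩ := pt_eq.mp h
    refine condA_of_divisible_ft hMft ?_
    intro s m hs
    obtain ⟨z, hz⟩ := div_of_equiv e.symm hEdiv s (iN m) hs
    obtain ⟨w, hw⟩ := hiN 1 1 (fun _ _ => s) (fun _ => m) ⟨fun _ => z, by
      funext l
      simp only [act_apply, Finset.univ_unique, Fin.default_eq_zero, Fin.isValue,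
        Finset.sum_const, Finset.card_singleton, one_smul]
      exact hz⟩
    refine ⟨w 0, ?_⟩
    have := congrFun hw 0
    simpa only [act_apply, Finset.univ_unique, Fin.default_eq_zero, Fin.isValue,
      Finset.sum_singleton] using this

/-- **Case B.** -/
theorem rank_two (hB : CondB (dδ k S)) : IsCBRank (Zg S) 2 := by
  have hA : ¬ CondA (dδ k S) := not_condA_of_condB hB
  obtain ⟨Q, hQtf, hQdiv, huniq, hlim⟩ := exists_generic k (S := S)
  obtain ⟨N₀, hN₀div, hN₀tf⟩ := exists_torsion_div k S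
  have hN₀Q : pt N₀ ≠ pt Q := by
    intro h
    obtain ⟨e⟩ := pt_eq.mp h
    exact hN₀tf (tf_of_equiv e.symm hQtf)
  -- facts about the first derivative
  have h1 : ∀ N : IndecPureInj S, pt N ∈ removeIsolated (Set.univ : Set (Zg S)) →
      Div S N.carrier ∨ TF S N.carrier := by
    intro N hN
    by_contra hcon
    rw [not_or] at hcon
    apply hN.2
    obtain ⟨φ, ψ, hmem, hsep⟩ := exists_sep_mixed hB N hcon.1 hcon.2
    refine ⟨basicOpen φ ψ, isOpen_basicOpen φ ψ, ?_⟩
    rw [Set.inter_univ]
    ext q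
    rw [Set.mem_singleton_iff]
    constructor
    · intro hq
      obtain ⟨N', rfl⟩ := exists_pt q
      exact hsep N' hq
    · rintro rfl
      exact hmem
  have h2 : ∀ N : IndecPureInj S, Div S N.carrier → ¬ TF S N.carrier →
      pt N ∈ removeIsolated (Set.univ : Set (Zg S)) := by
    intro N hdiv htf
    refine ⟨Set.mem_univ _, ?_⟩
    rintro ⟨U, hU, hUN⟩
    rw [Set.inter_univ] at hUN
    obtain ⟨φ, ψ, hmem, hsub⟩ := exists_basicOpen_subset hU (p := pt N) (by
      rw [hUN]
      exact Set.mem_singleton _)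
    obtain ⟨N', hN', hne⟩ := exists_near hA N hdiv htf φ ψ hmem
    have := hsub hN'
    rw [hUN] at this
    exact hne this
  have h3 : ∀ U : Set (Zg S), IsOpen U → pt Q ∈ U → pt N₀ ∈ U := by
    intro U hU hQU
    obtain ⟨φ, ψ, hmem, hsub⟩ := exists_basicOpen_subset hU hQU
    exact hsub (hlim N₀ hN₀div φ ψ hmem)
  have h4 : pt Q ∈ removeIsolated (Set.univ : Set (Zg S)) := by
    refine ⟨Set.mem_univ _, ?_⟩
    rintro ⟨U, hU, hUQ⟩
    rw [Set.inter_univ] at hUQ
    have := h3 U hU (by
      rw [hUQ]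
      exact Set.mem_singleton _)
    rw [hUQ] at this
    exact hN₀Q this
  apply isCBRank_two (pt Q)
  ext p
  rw [Set.mem_singleton_iff]
  constructor
  · rintro ⟨hp1, hp⟩
    obtain ⟨N, rfl⟩ := exists_pt p
    by_contra hne
    apply hp
    by_cases hdiv : Div S N.carrier
    · by_cases htf : TF S N.carrier
      · exact absurd (huniq N htf hdiv) hne
      · obtain ⟨φ, ψ, hmem, hsep⟩ := exists_sep_div k N hdiv htf
        refine ⟨basicOpen φ ψ, isOpen_basicOpen φ ψ, ?_⟩
        ext q
        rw [Set.mem_singleton_iff]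
        constructor
        · rintro ⟨hq, hq1⟩
          obtain ⟨N', rfl⟩ := exists_pt q
          obtain ⟨h5, h6⟩ := hsep N' hq
          exact h6 ((h1 N' hq1).resolve_right h5)
        · rintro rfl
          exact ⟨hmem, hp1⟩
    · have htf := (h1 N hp1).resolve_left hdiv
      obtain ⟨φ, ψ, hmem, hsep⟩ := exists_sep_tf k N htf hdiv
      refine ⟨basicOpen φ ψ, isOpen_basicOpen φ ψ, ?_⟩
      ext q
      rw [Set.mem_singleton_iff]
      constructor
      · rintro ⟨hq, hq1⟩
        obtain ⟨N', rfl⟩ := exists_pt q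
        obtain ⟨h5, h6⟩ := hsep N' hq
        exact h6 ((h1 N' hq1).resolve_left h5)
      · rintro rfl
        exact ⟨hmem, hp1⟩
  · rintro rfl
    refine ⟨h4, ?_⟩
    rintro ⟨U, hU, hUQ⟩
    have hQU : pt Q ∈ U := by
      have : pt Q ∈ U ∩ removeIsolated (Set.univ : Set (Zg S)) := by
        rw [hUQ]
        exact Set.mem_singleton _
      exact this.1
    have : pt N₀ ∈ U ∩ removeIsolated (Set.univ : Set (Zg S)) :=
      ⟨h3 U hU hQU, h2 N₀ hN₀div hN₀tf⟩
    rw [hUQ] at this
    exact hN₀Q this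

end CaseB

end Pool.Agent.Lib.MP_a53fda_al
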