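import Pool.Agent.Lib.MP_a53fda_al.FT
import Pool.Agent.Lib.MP_a53fda_al.CB

/-!
# Case C: the rank is undefined
-/

set_option autoImplicit false

namespace Pool.Agent.Lib.MP_a53fda_al

universe u

section Good

variable (k : Type u) {S : Type u} [Field k] [Ring S] [DP k S] {M : Type u} [AddCommGroup M]
  [Module S M]

include k in
theorem exists_good (hM : FT S M) (hind : IsIndecomposable S M) (Φ Ψ : M → Prop) (hΨ0 : Ψ 0)
    (hΦ : ∀ (u : M →ₗ[S] M) x, Φ x → Φ (u x)) (h : ∃ x, Φ x ∧ ¬ Ψ x) :
    ∃ a, Φ a ∧ ¬ Ψ a ∧ ∀ u : M →ₗ[S] M, ¬ Function.Bijective u → Ψ (u a) := by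
  by_contra hcon
  push Not at hcon
  letI := kMod k (S := S) M
  have := kMod_tower k (S := S) M
  have := hM.finite_k k
  have := hM.isArtinian k
  let rk : (M →ₗ[S] M) → ℕ := fun g => Module.finrank k (LinearMap.range (g.restrictScalars k))
  have hrk : ∀ g, rk g = Module.finrank k (LinearMap.range (g.restrictScalars k)) := fun _ => rfl
  have key : ∀ n : ℕ, ∃ b, Φ b ∧ ¬ Ψ b ∧
      ∀ g : M →ₗ[S] M, ¬ Function.Bijective g → ¬ Ψ (g b) → n ≤ rk g := by
    intro n
    induction n with
    | zero =>
      obtain ⟨x, hx, hx'⟩ := h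
      exact ⟨x, hx, hx', fun _ _ _ => Nat.zero_le _⟩
    | succ n ih =>
      by_contra hno
      push Not at hno
      obtain ⟨b, hb, hb', hbmin⟩ := ih
      obtain ⟨g₁, hg₁, hgb₁, hlt₁⟩ := hno b hb hb'
      have h1 := hbmin g₁ hg₁ hgb₁
      obtain ⟨g₂, hg₂, hgb₂, hlt₂⟩ := hno (g₁ b) (hΦ g₁ b hb) hgb₁
      have hnb : ¬ Function.Bijective (g₂ ∘ₗ g₁) := by
        intro hbij
        apply hg₁
        have hinj : Function.Injective g₁ := by
          intro x y hxy
          apply hbij.1
          simp [hxy]
        exact ⟨hinj, IsArtinian.surjective_of_injective_endomorphism g₁ hinj⟩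
      have h2 := hbmin (g₂ ∘ₗ g₁) hnb hgb₂
      -- all ranks are `n`
      have h3 : LinearMap.range ((g₂ ∘ₗ g₁).restrictScalars k) =
          (LinearMap.range (g₁.restrictScalars k)).map (g₂.restrictScalars k) := by
        rw [LinearMap.range_eq_map, LinearMap.range_eq_map, ← Submodule.map_comp]
        rfl
      let R := LinearMap.range (g₁.restrictScalars k)
      let q : R →ₗ[k] M := (g₂.restrictScalars k) ∘ₗ R.subtype
      have h4 : LinearMap.range q = LinearMap.range ((g₂ ∘ₗ g₁).restrictScalars k) := by
        rw [h3, LinearMap.range_comp, Submodule.range_subtype]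
      have h5 := LinearMap.finrank_range_add_finrank_ker q
      rw [h4, ← hrk] at h5
      have h6 : Module.finrank k R = rk g₁ := rfl
      have h7 : Module.finrank k (LinearMap.ker q) = 0 := by omega
      have h8 : LinearMap.ker q = ⊥ := Submodule.finrank_eq_zero.mp h7
      have hdisj : Disjoint R (LinearMap.ker (g₂.restrictScalars k)) := by
        rw [Submodule.disjoint_def]
        intro x hx hx'
        have h9 : (⟨x, hx⟩ : R) ∈ LinearMap.ker q := hx'
        rw [h8] at h9
        have h10 : (⟨x, hx⟩ : R) = 0 := by simpa using h9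
        exact congrArg Subtype.val h10
      have h11 := LinearMap.finrank_range_add_finrank_ker (g₂.restrictScalars k)
      rw [← hrk] at h11
      have h12 : rk g₂ = n := by
        have h13 : rk (g₂ ∘ₗ g₁) ≤ rk g₂ := by
          rw [hrk, hrk]
          apply Submodule.finrank_mono
          exact LinearMap.range_comp_le_range _ _
        omega
      have htop : R ⊔ LinearMap.ker (g₂.restrictScalars k) = ⊤ :=
        Submodule.eq_top_of_disjoint _ _ (by omega) hdisj
      have hcompl : IsCompl (LinearMap.range g₁) (LinearMap.ker g₂) := by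
        rw [isCompl_iff, Submodule.disjoint_def, Submodule.codisjoint_iff_exists_add_eq]
        constructor
        · intro x hx hx'
          rw [Submodule.disjoint_def] at hdisj
          exact hdisj x hx hx'
        · intro x
          have hx : x ∈ R ⊔ LinearMap.ker (g₂.restrictScalars k) := by
            rw [htop]
            exact Submodule.mem_top
          obtain ⟨y, hy, z, hz, hyz⟩ := Submodule.mem_sup.mp hx
          exact ⟨y, z, hy, hz, hyz⟩
      rcases hind.2 _ _ hcompl with h13 | h13
      · apply hgb₁
        have : g₁ b ∈ LinearMap.range g₁ := ⟨b, rfl⟩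
        rw [h13] at this
        have h14 : g₁ b = 0 := by simpa using this
        rw [h14]
        exact hΨ0
      · apply hg₂
        have hinj : Function.Injective g₂ := LinearMap.ker_eq_bot.mp h13
        exact ⟨hinj, IsArtinian.surjective_of_injective_endomorphism g₂ hinj⟩
  obtain ⟨b, hb, hb', hbmin⟩ := key (Module.finrank k M + 1)
  obtain ⟨u, hu, hub⟩ := hcon b hb hb'
  have h1 := hbmin u hu hub
  have h2 : rk u ≤ Module.finrank k M := Submodule.finrank_le _
  omega

end Good

section NonSplit

variable (k : Type u) {S : Type u} [Field k] [Ring S] [DP k S] {M : Type u} [AddCommGroup M]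
  [Module S M]

include k in
theorem holds_of_nonsplit (φ ψ : PPFormula S) (a : M) (ha : φ.Holds a)
    (hau : ∀ u : M →ₗ[S] M, ¬ Function.Bijective u → ψ.Holds (u a))
    (hno : ∀ (M' : Type u) [AddCommGroup M'] [Module S M'], FT S M' → IsIndecomposable S M' →
      ¬ Nonempty (M' ≃ₗ[S] M) → ∀ x : M', φ.Holds x → ψ.Holds x)
    {C : Type u} [AddCommGroup C] [Module S C] (hC : FT S C) (f : M →ₗ[S] C)
    (hf : ¬ ∃ ρ : C →ₗ[S] M, ∀ x, ρ (f x) = x) : ψ.Holds (f a) := by
  have hart := hC.isArtinian k
  have key : ∀ Q : Submodule S C, ∀ f : M →ₗ[S] Q,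
      (¬ ∃ ρ : Q →ₗ[S] M, ∀ x, ρ (f x) = x) → ψ.Holds (f a) := by
    intro Q
    induction Q using WellFoundedLT.induction with
    | ind Q ih =>
      intro f hf
      by_cases hsub : Subsingleton Q
      · have : f a = 0 := Subsingleton.elim _ _
        rw [this]
        exact PPFormula.Holds.zero ψ
      · rw [not_subsingleton_iff_nontrivial] at hsub
        by_cases hQ : IsIndecomposable S Q
        · by_cases hiso : Nonempty (Q ≃ₗ[S] M)
          · obtain ⟨e⟩ := hiso
            have h1 : ¬ Function.Bijective (e.toLinearMap ∘ₗ f) := by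
              intro hb
              let e' := LinearEquiv.ofBijective _ hb
              exact hf ⟨e'.symm.toLinearMap ∘ₗ e.toLinearMap, fun x => e'.symm_apply_apply x⟩
            have h2 := (hau _ h1).map e.symm.toLinearMap
            simpa using h2
          · exact hno Q (hC.of_injective k Q.subtype Q.injective_subtype) hQ hiso _ (ha.map f)
        · unfold IsIndecomposable at hQ
          push Not at hQ
          obtain ⟨A, B, hAB, hA, hB⟩ := hQ hsub
          -- the argument for one summand
          have one : ∀ (A B : Submodule S Q) (hAB : IsCompl A B), B ≠ ⊥ →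
              ψ.Holds (A.projectionOnto B hAB (f a)) := by
            intro A B hAB hB
            let e := Submodule.equivMapOfInjective Q.subtype Q.injective_subtype A
            have hlt : A.map Q.subtype < Q := by
              refine lt_of_le_of_ne (Submodule.map_subtype_le Q A) ?_
              intro h
              apply hB
              have hAtop : A = ⊤ := by
                rw [eq_top_iff]
                intro x _
                have hx : (x : C) ∈ A.map Q.subtype := by
                  rw [h]
                  exact x.2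
                obtain ⟨y, hy, hyx⟩ := hx
                have : y = x := Subtype.ext hyx
                rw [← this]
                exact hy
              rw [hAtop] at hAB
              have := hAB.disjoint
              rwa [top_disjoint] at this
            have h1 := ih _ hlt (e.toLinearMap ∘ₗ A.projectionOnto B hAB ∘ₗ f) (by
              rintro ⟨ρ, hρ⟩
              exact hf ⟨ρ ∘ₗ e.toLinearMap ∘ₗ A.projectionOnto B hAB, hρ⟩)
            have h2 := h1.map e.symm.toLinearMap
            simpa using h2
          have h1 := (one A B hAB hB).map A.subtype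
          have h2 := (one B A hAB.symm hA).map B.subtype
          have h3 := h1.add h2
          have h4 : A.subtype (A.projectionOnto B hAB (f a)) +
              B.subtype (B.projectionOnto A hAB.symm (f a)) = f a := by
            have := Submodule.projection_add_projection_eq_self hAB (f a)
            simpa using this
          rw [h4] at h3
          exact h3
  have h1 := key ⊤ ((Submodule.topEquiv (R := S) (M := C)).symm.toLinearMap ∘ₗ f) (by
    rintro ⟨ρ, hρ⟩
    exact hf ⟨ρ ∘ₗ (Submodule.topEquiv (R := S) (M := C)).symm.toLinearMap, hρ⟩)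
  have h2 := h1.map (Submodule.topEquiv (R := S) (M := C)).toLinearMap
  simpa using h2

end NonSplit

section CaseC

variable {k S : Type u} [Field k] [CharZero k] [Ring S] [DP k S]

theorem caseC_step (hA : ¬ CondA (dδ k S)) (hB : ¬ CondB (dδ k S)) {M : Type u}
    [AddCommGroup M] [Module S M] (hM : FT S M) (hind : IsIndecomposable S M)
    (φ ψ : PPFormula S) (h : ∃ x : M, φ.Holds x ∧ ¬ ψ.Holds x) :
    ∃ (M' : Type u) (_ : AddCommGroup M') (_ : Module S M'), FT S M' ∧ IsIndecomposable S M' ∧
      ¬ Nonempty (M' ≃ₗ[S] M) ∧ ∃ x : M', φ.Holds x ∧ ¬ ψ.Holds x := by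
  by_contra hcon
  obtain ⟨a, ha, ha', hau⟩ := exists_good k hM hind (fun x => φ.Holds x) (fun x => ψ.Holds x)
    (PPFormula.Holds.zero ψ) (fun u x hx => PPFormula.Holds.map hx u) h
  have hno : ∀ (M' : Type u) [AddCommGroup M'] [Module S M'], FT S M' → IsIndecomposable S M' →
      ¬ Nonempty (M' ≃ₗ[S] M) → ∀ x : M', φ.Holds x → ψ.Holds x := by
    intro M' _ _ h1 h2 h3 x hx
    by_contra hx'
    exact hcon ⟨M', _, _, h1, h2, h3, x, hx, hx'⟩
  have := hM.1
  have : Nontrivial M := hind.1
  obtain ⟨K, _, _, _, i, hi, -, hK⟩ := exists_solving ψ.r (fun j => ψ.s j • a)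
  have hcond : CondA (dδ k S) ∨ CondB (dδ k S) := by
    refine cond_ft hM i ?_ ?_
    · rintro ⟨ρ, hρ⟩
      apply ha'
      rw [PPFormula.holds_iff]
      have := map_mem_rng ρ hi
      simpa only [hρ] using this
    · intro C _ _ hC f hf
      apply hK
      have h1 := holds_of_nonsplit k φ ψ a ha hau hno hC f hf
      rw [PPFormula.holds_iff] at h1
      simpa only [map_smul] using h1
  rcases hcond with h | h
  · exact hA h
  · exact hB h

theorem rank_top (hA : ¬ CondA (dδ k S)) (hB : ¬ CondB (dδ k S)) : IsCBRank (Zg S) ⊤ := by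
  have := isNoetherianRing_dp k (S := S)
  let Y : Set (Zg S) := {p | ∃ (N : IndecPureInj S) (M : Type u) (_ : AddCommGroup M)
    (_ : Module S M) (i : M →ₗ[S] N.carrier), pt N = p ∧ FT S M ∧ IsIndecomposable S M ∧
      IsPure i ∧ ∀ φ ψ : PPFormula S, (∀ x : M, φ.Holds x → ψ.Holds x) →
        ∀ x : N.carrier, φ.Holds x → ψ.Holds x}
  have hY : ∀ (M : Type u) [AddCommGroup M] [Module S M], FT S M → IsIndecomposable S M →
      ∃ (N : IndecPureInj S) (i : M →ₗ[S] N.carrier), pt N ∈ Y ∧ IsPure i := by
    intro M _ _ hM hind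
    have := hM.isNoetherian k
    have := hM.isArtinian k
    obtain ⟨N, i, hi, hφ⟩ := exists_hull M hind
    exact ⟨N, i, ⟨N, M, _, _, i, rfl, hM, hind, hi, hφ⟩, hi⟩
  apply isCBRank_top Y
  · obtain ⟨V, _, _, hV, hsimple⟩ := exists_simple k S
    have hind : IsIndecomposable S V := by
      have := IsSimpleModule.nontrivial S V
      refine ⟨this, fun A B hAB => ?_⟩
      rcases eq_bot_or_eq_top A with h | h
      · exact Or.inl h
      · right
        rw [h] at hAB
        have := hAB.disjoint
        rwa [top_disjoint] at this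
    obtain ⟨N, i, hN, -⟩ := hY V hV hind
    exact ⟨_, hN⟩
  · rintro y ⟨N, M, _, _, i, rfl, hM, hind, hi, hφ⟩ U hU hyU
    obtain ⟨φ, ψ, hmem, hsub⟩ := exists_basicOpen_subset hU hyU
    rw [pt_mem_basicOpen] at hmem
    have hM' : ∃ x : M, φ.Holds x ∧ ¬ ψ.Holds x := by
      by_contra hcon
      push Not at hcon
      obtain ⟨x, hx, hx'⟩ := hmem
      exact hx' (hφ φ ψ hcon x hx)
    obtain ⟨M', _, _, hM'ft, hM'ind, hiso, x, hx, hx'⟩ := caseC_step hA hB hM hind φ ψ hM'
    obtain ⟨N', i', hN', hi'⟩ := hY M' hM'ft hM'ind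
    refine ⟨pt N', ⟨hsub ?_, hN'⟩, ?_⟩
    · rw [pt_mem_basicOpen]
      exact ⟨i' x, hx.map i', fun h => hx' ((hi'.holds_iff ψ x).mp h)⟩
    · intro heq
      apply hiso
      obtain ⟨e⟩ := pt_eq.mp heq
      have := hM.isNoetherian k
      have := hM.isArtinian k
      have := hM'ft.isNoetherian k
      have := hM'ft.isArtinian k
      refine iso_of_pure_pure hind hM'ind N.pureInjective N.indecomposable i hi
        (e.toLinearMap ∘ₗ i') ?_
      refine IsPure.comp ?_ hi'
      exact isPure_of_retraction (g := e.symm.toLinearMap) (fun a => e.symm_apply_apply a)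

end CaseC

end Pool.Agent.Lib.MP_a53fda_al
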