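import Mathlib

/-!
# The trichotomy conditions for a differential field
-/

set_option autoImplicit false

namespace Pool.Agent.Lib.MP_a53fda_al

universe u

/-- `D` is a connection on the `k`-space `Z`: `D (a z) = a D z + δ(a) z`. -/
def IsConn {k : Type u} [Field k] (δ : Derivation ℤ k k) {Z : Type u} [AddCommGroup Z]
    [Module k Z] (D : Z →+ Z) : Prop :=
  ∀ (a : k) (z : Z), D (a • z) = a • D z + δ a • z

/-- Condition A: every connection on a finite-dimensional space is surjective. -/
def CondA {k : Type u} [Field k] (δ : Derivation ℤ k k) : Prop :=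
  ∀ (Z : Type u) [AddCommGroup Z] [Module k Z] [Module.Finite k Z] (D : Z →+ Z), IsConn δ D →
    ∀ z : Z, ∃ z', D z' = z

/-- Condition B: there is a rank one connection `(k, δ + c)` with a class `e` which is not in the
image of `δ + c`, such that every element `z` outside the image of a finite-dimensional connection
`(Z, D)` is mapped to `e` (modulo the image) by a horizontal map `Z → (k, δ + c)`. -/
def CondB {k : Type u} [Field k] (δ : Derivation ℤ k k) : Prop :=
  ∃ c e : k, (∀ a : k, δ a + c * a ≠ e) ∧
    ∀ (Z : Type u) [AddCommGroup Z] [Module k Z] [Module.Finite k Z] (D : Z →+ Z), IsConn δ D →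
      ∀ z : Z, (∀ z', D z' ≠ z) →
        ∃ θ : Z →ₗ[k] k, (∀ x, θ (D x) = δ (θ x) + c * θ x) ∧
          ∃ a : k, θ z = e + (δ a + c * a)

end Pool.Agent.Lib.MP_a53fda_al
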