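import Pool.Agent.Lib.MP_a53fda_al.DP

/-!
# Connections are modules over the differential polynomial ring
-/

set_option autoImplicit false

namespace Pool.Agent.Lib.MP_a53fda_al

universe u

open Polynomial

section

variable {k S : Type u} [Field k] [Ring S] [DP k S]

variable (k S) in
/-- The evaluation `p ↦ ∑ p_i X^i`. -/
noncomputable def evS : k[X] →ₗ[k] S :=
  Polynomial.lsum fun i => LinearMap.toSpanSingleton k S (dX k S ^ i)

theorem evS_apply (p : k[X]) : evS k S p = p.sum fun i a => a • dX k S ^ i := rfl

theorem evS_monomial (i : ℕ) (a : k) : evS k S (monomial i a) = a • dX k S ^ i := by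
  rw [evS_apply, Polynomial.sum_monomial_index]
  rw [zero_smul]

theorem evS_bijective : Function.Bijective (evS k S) := by
  rw [Function.bijective_iff_existsUnique]
  intro s
  obtain ⟨p, hp, hu⟩ := DP.repr (k := k) s
  refine ⟨p, hp.symm, fun q hq => hu q ?_⟩
  exact hq.symm

/-- Induction over the differential polynomial ring. -/
theorem dp_induction {P : S → Prop} (hadd : ∀ s t, P s → P t → P (s + t))
    (hmon : ∀ (i : ℕ) (a : k), P (a • dX k S ^ i)) (s : S) : P s := by
  obtain ⟨p, rfl⟩ := (evS_bijective (k := k) (S := S)).2 s
  induction p using Polynomial.induction_on' with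
  | add p q hp hq =>
    rw [map_add]
    exact hadd _ _ hp hq
  | monomial n a =>
    rw [evS_monomial]
    exact hmon n a

theorem dX_mul_smul (a : k) (s : S) :
    dX k S * (a • s) = a • (dX k S * s) + dδ k S a • s := by
  have h := dX_smul (k := k) (S := S) (M := S) a s
  simpa only [smul_eq_mul] using h

end

section

variable {k : Type u} [Field k]

/-- The action of polynomials. -/
noncomputable def evV {V : Type u} [AddCommGroup V] [Module k V] (D : AddMonoid.End V) :
    k[X] →+ AddMonoid.End V where
  toFun p := p.sum fun i a => Module.toAddMonoidEnd k V a * D ^ i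
  map_zero' := by simp
  map_add' p q := by
    rw [Polynomial.sum_add_index]
    · intro i
      rw [map_zero, zero_mul]
    · intro a b₁ b₂
      rw [map_add, add_mul]

theorem evV_monomial {V : Type u} [AddCommGroup V] [Module k V] (D : AddMonoid.End V) (i : ℕ)
    (a : k) : evV D (monomial i a) = Module.toAddMonoidEnd k V a * D ^ i := by
  change (monomial i a).sum (fun i a => Module.toAddMonoidEnd k V a * D ^ i) = _
  rw [Polynomial.sum_monomial_index]
  rw [map_zero, zero_mul]

theorem evV_smul {V : Type u} [AddCommGroup V] [Module k V] (D : AddMonoid.End V) (a : k)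
    (p : k[X]) : evV D (a • p) = Module.toAddMonoidEnd k V a * evV D p := by
  induction p using Polynomial.induction_on' with
  | add p q hp hq => rw [smul_add, map_add, hp, hq, map_add, mul_add]
  | monomial n b =>
    rw [Polynomial.smul_monomial, evV_monomial, evV_monomial, smul_eq_mul, map_mul, mul_assoc]

variable (k) (S : Type u) [Ring S] [DP k S]

/-- The action of the ring `S`. -/
noncomputable def actV {V : Type u} [AddCommGroup V] [Module k V] (D : AddMonoid.End V) :
    S →+ AddMonoid.End V :=
  (evV (k := k) D).comp
    (LinearEquiv.ofBijective (evS k S) evS_bijective).symm.toLinearMap.toAddMonoidHom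

theorem actV_evS {V : Type u} [AddCommGroup V] [Module k V] (D : AddMonoid.End V) (p : k[X]) :
    actV k S D (evS k S p) = evV D p := by
  have h : (LinearEquiv.ofBijective (evS k S) evS_bijective).symm (evS k S p) = p := by
    rw [LinearEquiv.symm_apply_eq]
    rfl
  change evV D ((LinearEquiv.ofBijective (evS k S) evS_bijective).symm (evS k S p)) = _
  rw [h]

theorem actV_monomial {V : Type u} [AddCommGroup V] [Module k V] (D : AddMonoid.End V) (i : ℕ)
    (a : k) : actV k S D (a • dX k S ^ i) = Module.toAddMonoidEnd k V a * D ^ i := by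
  rw [← evS_monomial, actV_evS, evV_monomial]

theorem actV_smul {V : Type u} [AddCommGroup V] [Module k V] (D : AddMonoid.End V) (a : k)
    (s : S) : actV k S D (a • s) = Module.toAddMonoidEnd k V a * actV k S D s := by
  obtain ⟨p, rfl⟩ := (evS_bijective (k := k) (S := S)).2 s
  rw [← map_smul, actV_evS, actV_evS, evV_smul]

theorem actV_dX_mul {V : Type u} [AddCommGroup V] [Module k V] (D : AddMonoid.End V)
    (hD : IsConn (dδ k S) D) (s : S) : actV k S D (dX k S * s) = D * actV k S D s := by
  refine dp_induction (k := k) (P := fun s => actV k S D (dX k S * s) = D * actV k S D s)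
    ?_ ?_ s
  · intro s t hs ht
    rw [mul_add, map_add, map_add, hs, ht, mul_add]
  · intro i a
    rw [dX_mul_smul, map_add, ← pow_succ', actV_monomial, actV_monomial, actV_monomial]
    rw [pow_succ' D i, ← mul_assoc, ← mul_assoc, ← add_mul]
    congr 1
    ext v
    exact (hD a v).symm

theorem actV_mul {V : Type u} [AddCommGroup V] [Module k V] (D : AddMonoid.End V)
    (hD : IsConn (dδ k S) D) (s t : S) : actV k S D (s * t) = actV k S D s * actV k S D t := by
  refine dp_induction (k := k)
    (P := fun s => actV k S D (s * t) = actV k S D s * actV k S D t) ?_ ?_ s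
  · intro s s' hs hs'
    rw [add_mul, map_add, map_add, hs, hs', add_mul]
  · intro i a
    rw [smul_mul_assoc, actV_smul, actV_monomial, mul_assoc]
    congr 1
    induction i with
    | zero => rw [pow_zero, pow_zero, one_mul, one_mul]
    | succ n ih => rw [pow_succ', mul_assoc, actV_dX_mul k S D hD, ih, pow_succ', mul_assoc]

theorem actV_one {V : Type u} [AddCommGroup V] [Module k V] (D : AddMonoid.End V) :
    actV k S D (1 : S) = 1 := by
  have h := actV_monomial k S D 0 1
  rw [pow_zero, pow_zero, one_smul, map_one (Module.toAddMonoidEnd k V), one_mul] at h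
  exact h

end

theorem exists_module_of_conn {k : Type u} (S : Type u) [Field k] [Ring S] [DP k S]
    {V : Type u} [AddCommGroup V] [Module k V] (D : V →+ V) (hD : IsConn (dδ k S) D) :
    ∃ (_ : Module S V), IsScalarTower k S V ∧ ∀ v : V, dX k S • v = D v := by
  let D' : AddMonoid.End V := D
  let Φ : S →+* AddMonoid.End V :=
    { toFun := actV k S D'
      map_one' := actV_one k S D'
      map_mul' := actV_mul k S D' hD
      map_zero' := map_zero _
      map_add' := map_add _ }
  have hΦ : ∀ s, Φ s = actV k S D' s := fun s => rfl
  let iM : Module S V := Module.compHom V Φ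
  have h1 : ∀ (s : S) (v : V), s • v = Φ s v := fun s v => rfl
  refine ⟨iM, ⟨?_⟩, ?_⟩
  · intro a s v
    rw [h1, h1, hΦ, hΦ, actV_smul]
    rfl
  · intro v
    rw [h1]
    have h := actV_monomial k S D' 1 1
    rw [pow_one, pow_one, one_smul, map_one (Module.toAddMonoidEnd k V), one_mul] at h
    rw [hΦ, h]
    rfl

theorem exists_linearMap {k S : Type u} [Field k] [Ring S] [DP k S]
    {M N : Type u} [AddCommGroup M] [Module S M] [Module k M] [IsScalarTower k S M]
    [AddCommGroup N] [Module S N] [Module k N] [IsScalarTower k S N]
    (f : M →ₗ[k] N) (hf : ∀ m, f (dX k S • m) = dX k S • f m) :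
    ∃ g : M →ₗ[S] N, ∀ m, g m = f m := by
  have hX : ∀ (i : ℕ) (m : M), f (dX k S ^ i • m) = dX k S ^ i • f m := by
    intro i
    induction i with
    | zero =>
      intro m
      rw [pow_zero, one_smul, one_smul]
    | succ n ih =>
      intro m
      rw [pow_succ', mul_smul, hf, ih, mul_smul]
  have h : ∀ (s : S) (m : M), f (s • m) = s • f m := by
    intro s
    refine dp_induction (k := k) (P := fun s => ∀ m : M, f (s • m) = s • f m) ?_ ?_ s
    · intro s t hs ht m
      rw [add_smul s t m, map_add, hs, ht, add_smul s t]
    · intro i a m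
      rw [smul_assoc, smul_assoc, map_smul]
      exact congrArg (fun x => a • x) (hX i m)
  exact ⟨{ toFun := f, map_add' := map_add f, map_smul' := h }, fun _ => rfl⟩

end Pool.Agent.Lib.MP_a53fda_al
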