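import Pool.Agent.Lib.MP_a53fda_al.Defs
import Pool.Agent.Lib.MP_a53fda_al.Cond

/-!
# Differential polynomial rings as a class, and the interface statements

`DP k S` says that `S` is the differential polynomial ring `k[X; δ]`, seen as a left `k`-module.
An `S`-module `M` is used together with its `k`-module structure, `[Module k M]` and
`[IsScalarTower k S M]`.
-/

set_option autoImplicit false

namespace Pool.Agent.Lib.MP_a53fda_al

universe u

/-- `S` is the differential polynomial ring `k[X; δ]`. -/
class DP (k S : Type u) [Field k] [Ring S] extends Module k S, IsScalarTower k S S where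
  /-- the derivation -/
  der : Derivation ℤ k k
  /-- the variable -/
  var : S
  comm : ∀ a : k, var * (a • (1 : S)) - (a • (1 : S)) * var = der a • (1 : S)
  repr : ∀ s : S, ∃! p : Polynomial k, s = p.sum fun i a => a • var ^ i

/-- The derivation of `k`. -/
abbrev dδ (k S : Type u) [Field k] [Ring S] [DP k S] : Derivation ℤ k k := DP.der S

/-- The variable. -/
abbrev dX (k S : Type u) [Field k] [Ring S] [DP k S] : S := DP.var k

section

variable {k S : Type u} [Field k] [Ring S]

/-- The instance attached to `IsDiffPolyRing`. -/
noncomputable abbrev dpOf {δ : Derivation ℤ k k} {ι : k →+* S} {X : S}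
    (h : IsDiffPolyRing δ ι X) : DP k S :=
  letI : Module k S := Module.compHom S ι
  have h1 : ∀ (a : k) (s : S), a • s = ι a * s := fun _ _ => rfl
  { toIsScalarTower := ⟨fun a s t => by
      rw [h1, h1, smul_eq_mul, smul_eq_mul, mul_assoc]⟩
    der := δ
    var := X
    comm := fun a => by
      rw [h1, h1, mul_one, mul_one]
      exact h.comm a
    repr := fun s => by
      simp only [h1]
      exact h.repr s }

variable [DP k S]

theorem smul_eq (a : k) (s : S) : a • s = (a • (1 : S)) * s := by
  rw [smul_mul_assoc, one_mul]

section Module

variable {M : Type u} [AddCommGroup M] [Module S M] [Module k M] [IsScalarTower k S M]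

theorem smul_one_smul' (a : k) (m : M) : (a • (1 : S)) • m = a • m := by
  rw [smul_assoc, one_smul]

/-- `X (a m) = a (X m) + δ(a) m`. -/
theorem dX_smul (a : k) (m : M) :
    dX k S • (a • m) = a • (dX k S • m) + dδ k S a • m := by
  have h := DP.comm (S := S) a
  have h2 := congrArg (fun s : S => s • m) h
  simp only [sub_smul, mul_smul, smul_one_smul'] at h2
  rw [sub_eq_iff_eq_add] at h2
  rw [h2]
  abel

variable (k S M) in
/-- The connection attached to an `S`-module. -/
noncomputable def conn : M →+ M := DistribSMul.toAddMonoidHom M (dX k S)

theorem conn_apply (m : M) : conn k S M m = dX k S • m := rfl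

theorem isConn_conn : IsConn (dδ k S) (conn k S M) := fun a m => dX_smul a m

end Module

end

end Pool.Agent.Lib.MP_a53fda_al
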