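import Pool.Agent.Lib.MP_a53fda_al.DPRing

/-!
# Modules over differential polynomial rings

Finitely generated torsion-free modules are free, the torsion submodule of a finitely generated
module splits off, divisible modules are injective, and essential injective hulls exist.
-/

set_option autoImplicit false

namespace Pool.Agent.Lib.MP_a53fda_al

universe u

section Euclid

variable {S : Type u} [Ring S]

/-- Over a ring with a euclidean function for the division `a = b q + r`, a finitely generated
module without torsion is free. -/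
theorem free_of_torsionFree_aux (d : S → ℕ)
    (hR : ∀ a b : S, b ≠ 0 → ∃ q r : S, a = b * q + r ∧ (r = 0 ∨ d r < d b))
    {M : Type u} [AddCommGroup M] [Module S M] [Module.Finite S M]
    (h : ∀ (s : S) (m : M), s • m = 0 → s = 0 ∨ m = 0) :
    ∃ n : ℕ, Nonempty (M ≃ₗ[S] (Fin n → S)) := by
  classical
  have hex : ∃ n : ℕ, ∃ x : Fin n → M, Submodule.span S (Set.range x) = ⊤ := by
    obtain ⟨n, x, hx⟩ := Module.Finite.exists_fin (R := S) (M := M)
    exact ⟨n, x, hx⟩
  obtain ⟨n, ⟨x₀, hx₀⟩, hmin⟩ : ∃ n : ℕ,
      (∃ x : Fin n → M, Submodule.span S (Set.range x) = ⊤) ∧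
      ∀ m : ℕ, m < n → ¬ ∃ x : Fin m → M, Submodule.span S (Set.range x) = ⊤ :=
    ⟨Nat.find hex, Nat.find_spec hex, fun m hm => Nat.find_min hex hm⟩
  have hmin' : ∀ s : Finset M, Submodule.span S (s : Set M) = ⊤ → n ≤ s.card := by
    intro s hs
    by_contra hlt
    rw [not_le] at hlt
    refine hmin _ hlt ⟨fun i => (s.equivFin.symm i : M), ?_⟩
    rw [← hs]
    congr 1
    ext m
    constructor
    · rintro ⟨i, rfl⟩
      exact (s.equivFin.symm i).2
    · intro hm
      exact ⟨s.equivFin ⟨m, hm⟩, by simp⟩
  have key : ∀ D : ℕ, ∀ x : Fin n → M, Submodule.span S (Set.range x) = ⊤ →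
      ∀ a : Fin n → S, ∑ l, a l • x l = 0 → ∀ i, a i ≠ 0 → d (a i) = D → False := by
    intro D
    induction D using Nat.strong_induction_on with
    | _ D ih =>
      intro x hx a ha i hi hD
      choose q r hq hr using fun j : Fin n => hR (a j) (a i) hi
      by_cases hall : ∀ j, j ≠ i → r j = 0
      · -- every coefficient is divisible by `a i`
        have h1 : a i • (x i + ∑ l ∈ Finset.univ.erase i, q l • x l) = 0 := by
          rw [smul_add, Finset.smul_sum, ← ha, ← Finset.add_sum_erase _ _ (Finset.mem_univ i)]
          congr 1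
          refine Finset.sum_congr rfl fun l hl => ?_
          rw [smul_smul, hq l, hall l (Finset.ne_of_mem_erase hl), add_zero]
        rcases h _ _ h1 with h2 | h2
        · exact hi h2
        · have h3 : Submodule.span S
              (((Finset.univ.erase i).image x : Finset M) : Set M) = ⊤ := by
            rw [eq_top_iff, ← hx, Submodule.span_le]
            rintro _ ⟨l, rfl⟩
            by_cases hl : l = i
            · have h4 : x l = - ∑ l ∈ Finset.univ.erase i, q l • x l := by
                rw [hl]
                exact eq_neg_of_add_eq_zero_left h2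
              rw [SetLike.mem_coe, h4]
              refine Submodule.neg_mem _ (Submodule.sum_mem _ fun l hl => ?_)
              refine Submodule.smul_mem _ _ (Submodule.subset_span ?_)
              exact Finset.mem_coe.2 (Finset.mem_image_of_mem _ hl)
            · refine Submodule.subset_span ?_
              exact Finset.mem_coe.2 (Finset.mem_image_of_mem _
                (Finset.mem_erase.2 ⟨hl, Finset.mem_univ _⟩))
          have h5 := hmin' _ h3
          have h6 : ((Finset.univ.erase i).image x).card ≤ (Finset.univ.erase i).card :=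
            Finset.card_image_le
          rw [Finset.card_erase_of_mem (Finset.mem_univ _), Finset.card_univ,
            Fintype.card_fin] at h6
          have h7 := i.pos
          omega
      · -- a smaller coefficient
        push Not at hall
        obtain ⟨j, hji, hj⟩ := hall
        have hlt : d (r j) < d (a i) := by
          rcases hr j with h1 | h1
          · exact absurd h1 hj
          · exact h1
        let x' : Fin n → M := Function.update x i (x i + q j • x j)
        let a' : Fin n → S := Function.update a j (r j)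
        have hx'i : x' i = x i + q j • x j := Function.update_self _ _ _
        have hx'l : ∀ l, l ≠ i → x' l = x l := fun l hl => Function.update_of_ne hl _ _
        have ha'j : a' j = r j := Function.update_self _ _ _
        have ha'l : ∀ l, l ≠ j → a' l = a l := fun l hl => Function.update_of_ne hl _ _
        refine ih (d (r j)) (hD ▸ hlt) x' ?_ a' ?_ j ?_ ?_
        · rw [eq_top_iff, ← hx, Submodule.span_le]
          have hj' : x j ∈ Submodule.span S (Set.range x') := by
            rw [← hx'l j hji]
            exact Submodule.subset_span ⟨j, rfl⟩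
          rintro _ ⟨l, rfl⟩
          by_cases hl : l = i
          · have h4 : x l = x' i - q j • x j := by
              rw [hl, hx'i, add_sub_cancel_right]
            rw [SetLike.mem_coe, h4]
            exact Submodule.sub_mem _ (Submodule.subset_span ⟨i, rfl⟩)
              (Submodule.smul_mem _ _ hj')
          · rw [← hx'l l hl]
            exact Submodule.subset_span ⟨l, rfl⟩
        · have h1 : ∑ l, a' l • x' l = ∑ l, a l • x l := by
            rw [← Finset.add_sum_erase _ _ (Finset.mem_univ i),
              ← Finset.add_sum_erase (Finset.univ.erase i) _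
                (Finset.mem_erase.2 ⟨hji, Finset.mem_univ j⟩),
              ← Finset.add_sum_erase Finset.univ (fun l => a l • x l) (Finset.mem_univ i),
              ← Finset.add_sum_erase (Finset.univ.erase i) (fun l => a l • x l)
                (Finset.mem_erase.2 ⟨hji, Finset.mem_univ j⟩)]
            have h2 : ∑ l ∈ (Finset.univ.erase i).erase j, a' l • x' l =
                ∑ l ∈ (Finset.univ.erase i).erase j, a l • x l := by
              refine Finset.sum_congr rfl fun l hl => ?_
              rw [ha'l l (Finset.ne_of_mem_erase hl),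
                hx'l l (Finset.ne_of_mem_erase (Finset.mem_of_mem_erase hl))]
            rw [h2, ha'l i hji.symm, hx'i, ha'j, hx'l j hji]
            have h3 : a j • x j = a i • q j • x j + r j • x j := by
              conv_lhs => rw [hq j]
              rw [add_smul, mul_smul]
            rw [h3, smul_add]
            abel
          rw [h1, ha]
        · rw [ha'j]
          exact hj
        · rw [ha'j]
  have hli : LinearIndependent S x₀ := by
    rw [Fintype.linearIndependent_iff]
    intro g hg i
    by_contra hi
    exact key _ x₀ hx₀ g hg i hi rfl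
  exact ⟨n, ⟨(Module.Basis.mk hli hx₀.ge).equivFun⟩⟩

/-- Left ideals are principal. -/
theorem isPrincipalIdealRing_aux (d : S → ℕ)
    (hL : ∀ a b : S, b ≠ 0 → ∃ q r : S, a = q * b + r ∧ (r = 0 ∨ d r < d b)) :
    IsPrincipalIdealRing S := by
  classical
  refine ⟨fun I => ?_⟩
  by_cases hI : ∃ b ∈ I, b ≠ 0
  · have hex : ∃ n : ℕ, ∃ b ∈ I, b ≠ 0 ∧ d b = n := by
      obtain ⟨b, hb, hb0⟩ := hI
      exact ⟨d b, b, hb, hb0, rfl⟩
    obtain ⟨b, hb, hb0, hdb⟩ := Nat.find_spec hex
    refine ⟨b, le_antisymm ?_ ?_⟩
    · intro a ha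
      obtain ⟨q, r, hqr, hr⟩ := hL a b hb0
      have hrI : r ∈ I := by
        have : r = a - q * b := by rw [hqr]; abel
        rw [this]
        exact I.sub_mem ha (I.mul_mem_left q hb)
      have hr0 : r = 0 := by
        rcases hr with h | h
        · exact h
        · by_contra hne
          rw [hdb] at h
          exact Nat.find_min hex h ⟨r, hrI, hne, rfl⟩
      rw [Submodule.mem_span_singleton]
      exact ⟨q, by rw [hqr, hr0, add_zero, smul_eq_mul]⟩
    · rw [Submodule.span_singleton_le_iff_mem]
      exact hb
  · push Not at hI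
    refine ⟨0, ?_⟩
    rw [Submodule.span_zero_singleton, eq_bot_iff]
    intro a ha
    rw [Submodule.mem_bot]
    exact hI a ha

/-- The left Ore condition. -/
theorem leftOre_aux [IsDomain S] [IsPrincipalIdealRing S] (s t : S) (ht : t ≠ 0) :
    ∃ u v : S, u ≠ 0 ∧ u * s = v * t := by
  have h1 : Nonempty (OreLocalization.OreSet (nonZeroDivisors S)) :=
    nonempty_oreSet_of_strongRankCondition
  rw [OreLocalization.nonempty_oreSet_iff_of_noZeroDivisors] at h1
  obtain ⟨v, u, h2⟩ := h1 s ⟨t, mem_nonZeroDivisors_iff_ne_zero.2 ht⟩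
  exact ⟨u, v, nonZeroDivisors.ne_zero u.2, h2⟩

theorem exists_torsion_retraction_aux [IsDomain S] [IsPrincipalIdealRing S] (d : S → ℕ)
    (hR : ∀ a b : S, b ≠ 0 → ∃ q r : S, a = b * q + r ∧ (r = 0 ∨ d r < d b))
    {C : Type u} [AddCommGroup C] [Module S C] [Module.Finite S C] :
    ∃ (T : Submodule S C) (p : C →ₗ[S] T), (∀ x : T, p x = x) ∧
      ∀ x : C, x ∈ T ↔ ∃ s : S, s ≠ 0 ∧ s • x = 0 := by
  let T : Submodule S C :=
    { carrier := {x | ∃ s : S, s ≠ 0 ∧ s • x = 0}
      add_mem' := by
        rintro x y ⟨s, hs, hsx⟩ ⟨t, ht, hty⟩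
        obtain ⟨u, v, hu, huv⟩ := leftOre_aux s t ht
        refine ⟨u * s, mul_ne_zero hu hs, ?_⟩
        rw [smul_add, mul_smul, hsx, smul_zero, zero_add, huv, mul_smul, hty, smul_zero]
      zero_mem' := ⟨1, one_ne_zero, smul_zero _⟩
      smul_mem' := by
        rintro r x ⟨s, hs, hsx⟩
        obtain ⟨u, v, hu, huv⟩ := leftOre_aux r s hs
        refine ⟨u, hu, ?_⟩
        rw [smul_smul, huv, mul_smul, hsx, smul_zero] }
  have hT : ∀ x : C, x ∈ T ↔ ∃ s : S, s ≠ 0 ∧ s • x = 0 := fun x => Iff.rfl
  have h1 : ∀ (s : S) (m : C ⧸ T), s • m = 0 → s = 0 ∨ m = 0 := by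
    intro s m hm
    obtain ⟨x, rfl⟩ := T.mkQ_surjective m
    by_cases hs : s = 0
    · exact Or.inl hs
    · right
      rw [← map_smul, Submodule.mkQ_apply, Submodule.Quotient.mk_eq_zero, hT] at hm
      obtain ⟨t, ht, htx⟩ := hm
      rw [Submodule.mkQ_apply, Submodule.Quotient.mk_eq_zero, hT]
      exact ⟨t * s, mul_ne_zero ht hs, by rw [mul_smul, htx]⟩
  obtain ⟨n, ⟨e⟩⟩ := free_of_torsionFree_aux d hR h1
  have h2 : Module.Projective S (C ⧸ T) := Module.Projective.of_equiv e.symm
  obtain ⟨g, hg⟩ := Module.projective_lifting_property T.mkQ LinearMap.id T.mkQ_surjective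
  have hg' : ∀ y, T.mkQ (g y) = y := fun y => LinearMap.congr_fun hg y
  refine ⟨T, LinearMap.codRestrict T (LinearMap.id - g ∘ₗ T.mkQ) ?_, ?_, hT⟩
  · intro x
    rw [← Submodule.Quotient.mk_eq_zero, ← Submodule.mkQ_apply]
    simp only [LinearMap.sub_apply, LinearMap.id_apply, LinearMap.comp_apply, map_sub, hg',
      sub_self]
  · rintro ⟨x, hx⟩
    apply Subtype.ext
    have h3 : T.mkQ x = 0 := by
      rw [Submodule.mkQ_apply, Submodule.Quotient.mk_eq_zero]
      exact hx
    simp only [LinearMap.codRestrict_apply, LinearMap.sub_apply, LinearMap.id_apply,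
      LinearMap.comp_apply, h3, map_zero, sub_zero]

theorem injective_of_divisible_aux [IsPrincipalIdealRing S]
    {M : Type u} [AddCommGroup M] [Module S M]
    (h : ∀ (s : S) (m : M), s ≠ 0 → ∃ m', s • m' = m) : Module.Injective S M := by
  apply Module.Baer.injective
  intro I g
  obtain ⟨b, hb⟩ := (IsPrincipalIdealRing.principal I).principal
  have hbI : b ∈ I := by
    rw [hb]
    exact Submodule.mem_span_singleton_self b
  by_cases hb0 : b = 0
  · refine ⟨0, fun x hx => ?_⟩
    have hx0 : x = 0 := by
      rw [hb, hb0, Submodule.span_zero_singleton] at hx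
      exact (Submodule.mem_bot S).1 hx
    have : (⟨x, hx⟩ : I) = 0 := Subtype.ext hx0
    rw [this, map_zero, LinearMap.zero_apply]
  · obtain ⟨m', hm'⟩ := h b (g ⟨b, hbI⟩) hb0
    refine ⟨LinearMap.toSpanSingleton S M m', fun x hx => ?_⟩
    have hx' := hx
    rw [hb, Submodule.mem_span_singleton] at hx'
    obtain ⟨r, hr⟩ := hx'
    have h2 : (⟨x, hx⟩ : I) = r • ⟨b, hbI⟩ := Subtype.ext hr.symm
    rw [h2, map_smul, ← hm', LinearMap.toSpanSingleton_apply, ← hr, smul_assoc]

theorem divisible_of_injective_aux [IsDomain S]
    {M : Type u} [AddCommGroup M] [Module S M] [Module.Injective S M]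
    (s : S) (m : M) (hs : s ≠ 0) : ∃ m', s • m' = m := by
  obtain ⟨h, hh⟩ := Module.Injective.out (R := S) (Q := M) (LinearMap.toSpanSingleton S S s)
    (by
      intro x y hxy
      simp only [LinearMap.toSpanSingleton_apply, smul_eq_mul] at hxy
      exact mul_right_cancel₀ hs hxy)
    (LinearMap.toSpanSingleton S M m)
  refine ⟨h 1, ?_⟩
  have h1 := hh 1
  rw [LinearMap.toSpanSingleton_apply, LinearMap.toSpanSingleton_apply, one_smul, one_smul] at h1
  rw [← map_smul, smul_eq_mul, mul_one, h1]

theorem exists_essential_hull_aux [IsDomain S] [IsPrincipalIdealRing S]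
    (A : Type u) [AddCommGroup A] [Module S A] :
    ∃ (E : Type u) (_ : AddCommGroup E) (_ : Module S E) (i : A →ₗ[S] E), Module.Injective S E ∧
      Function.Injective i ∧ ∀ B : Submodule S E, B ≠ ⊥ → ∃ a : A, a ≠ 0 ∧ i a ∈ B := by
  obtain ⟨I, hI1, hI2, j, hI3, hj⟩ : ∃ (I : Type u) (_ : AddCommGroup I) (_ : Module S I)
      (j : A →ₗ[S] I), Module.Injective S I ∧ Function.Injective j := by
    obtain ⟨⟨J, hJ, f, hf⟩⟩ := CategoryTheory.EnoughInjectives.presentation (ModuleCat.of S A)
    have hJ' : CategoryTheory.Injective (ModuleCat.of S J) := hJ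
    have hinj : Module.Injective S J := Module.injective_module_of_injective_object S J
    exact ⟨J, inferInstance, inferInstance, f.hom, hinj, (ModuleCat.mono_iff_injective f).1 hf⟩
  obtain ⟨K, -, hK⟩ := zorn_le_nonempty₀ {K : Submodule S I | Disjoint K (LinearMap.range j)}
    (by
      intro c hc hchain y hy
      refine ⟨sSup c, ?_, fun z hz => le_sSup hz⟩
      exact (DirectedOn.disjoint_sSup_left hchain.directedOn).2 fun K hK => hc hK)
    ⊥ disjoint_bot_left
  have hdisj : Disjoint K (LinearMap.range j) := hK.prop
  refine ⟨I ⧸ K, inferInstance, inferInstance, K.mkQ ∘ₗ j, ?_, ?_, ?_⟩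
  · apply injective_of_divisible_aux
    intro s m hs
    obtain ⟨x, rfl⟩ := K.mkQ_surjective m
    obtain ⟨x', hx'⟩ := divisible_of_injective_aux s x hs
    exact ⟨K.mkQ x', by rw [← map_smul, hx']⟩
  · rw [injective_iff_map_eq_zero]
    intro a ha
    rw [LinearMap.comp_apply, Submodule.mkQ_apply, Submodule.Quotient.mk_eq_zero] at ha
    have h1 := Submodule.disjoint_def.1 hdisj (j a) ha ⟨a, rfl⟩
    exact hj (h1.trans (map_zero j).symm)
  · intro B hB
    by_contra hcon
    push Not at hcon
    have h1 : Disjoint (B.comap K.mkQ) (LinearMap.range j) := by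
      rw [Submodule.disjoint_def]
      rintro _ hx ⟨a, rfl⟩
      by_contra hne
      have ha : a ≠ 0 := by
        rintro rfl
        exact hne (map_zero j)
      exact hcon a ha hx
    have h2 : K ≤ B.comap K.mkQ := by
      intro x hx
      rw [Submodule.mem_comap, Submodule.mkQ_apply, (Submodule.Quotient.mk_eq_zero K).2 hx]
      exact B.zero_mem
    have h3 : B.comap K.mkQ ≤ K := hK.le_of_ge h1 h2
    apply hB
    rw [eq_bot_iff]
    intro y hy
    obtain ⟨x, rfl⟩ := K.mkQ_surjective y
    have h4 : x ∈ K := h3 hy
    rw [Submodule.mem_bot, Submodule.mkQ_apply, Submodule.Quotient.mk_eq_zero]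
    exact h4

end Euclid

section DP

/-- A differential polynomial ring is nontrivial. -/
theorem dp_nontrivial (k S : Type u) [Field k] [Ring S] [DP k S] : Nontrivial S := by
  by_contra hn
  rw [not_nontrivial_iff_subsingleton] at hn
  obtain ⟨p, -, hp⟩ := DP.repr (k := k) (0 : S)
  have h1 := hp 0 (Subsingleton.elim _ _)
  have h2 := hp 1 (Subsingleton.elim _ _)
  exact zero_ne_one (h1.trans h2.symm)

theorem dp_isDomain (k S : Type u) [Field k] [Ring S] [DP k S] : IsDomain S := by
  have h1 := dp_nontrivial k S
  obtain ⟨d, -, hd, -⟩ := exists_degree k S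
  have h2 : NoZeroDivisors S := ⟨fun {a b} hab => by
    by_contra hne
    push Not at hne
    exact (hd a b hne.1 hne.2).1 hab⟩
  exact NoZeroDivisors.to_isDomain S

theorem dp_isPrincipalIdealRing (k S : Type u) [Field k] [Ring S] [DP k S] :
    IsPrincipalIdealRing S := by
  obtain ⟨d, -, -, -, hL, -⟩ := exists_degree k S
  exact isPrincipalIdealRing_aux d hL

/-- Finitely generated torsion-free modules over a differential polynomial ring are free. -/
theorem free_of_torsionFree (k : Type u) {S : Type u} [Field k] [Ring S] [DP k S] {M : Type u}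
    [AddCommGroup M] [Module S M] [Module.Finite S M]
    (h : ∀ (s : S) (m : M), s • m = 0 → s = 0 ∨ m = 0) :
    ∃ n : ℕ, Nonempty (M ≃ₗ[S] (Fin n → S)) := by
  obtain ⟨d, -, -, -, -, hR⟩ := exists_degree k S
  exact free_of_torsionFree_aux d hR h

/-- The torsion submodule of a finitely generated module splits off. -/
theorem exists_torsion_retraction (k : Type u) {S : Type u} [Field k] [Ring S] [DP k S]
    {C : Type u} [AddCommGroup C] [Module S C] [Module.Finite S C] :
    ∃ (T : Submodule S C) (p : C →ₗ[S] T), (∀ x : T, p x = x) ∧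
      ∀ x : C, x ∈ T ↔ ∃ s : S, s ≠ 0 ∧ s • x = 0 := by
  have := dp_isDomain k S
  have := dp_isPrincipalIdealRing k S
  obtain ⟨d, -, -, -, -, hR⟩ := exists_degree k S
  exact exists_torsion_retraction_aux d hR

/-- Divisible modules are injective. -/
theorem injective_of_divisible (k : Type u) {S : Type u} [Field k] [Ring S] [DP k S]
    {M : Type u} [AddCommGroup M] [Module S M]
    (h : ∀ (s : S) (m : M), s ≠ 0 → ∃ m', s • m' = m) : Module.Injective S M := by
  have := dp_isPrincipalIdealRing k S
  exact injective_of_divisible_aux h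

/-- Injective modules are divisible. -/
theorem divisible_of_injective (k : Type u) {S : Type u} [Field k] [Ring S] [DP k S]
    {M : Type u} [AddCommGroup M] [Module S M] [Module.Injective S M]
    (s : S) (m : M) (hs : s ≠ 0) : ∃ m', s • m' = m := by
  have := dp_isDomain k S
  exact divisible_of_injective_aux s m hs

/-- Every module has an injective hull. -/
theorem exists_essential_hull (k : Type u) {S : Type u} [Field k] [Ring S] [DP k S]
    (A : Type u) [AddCommGroup A] [Module S A] :
    ∃ (E : Type u) (_ : AddCommGroup E) (_ : Module S E) (i : A →ₗ[S] E), Module.Injective S E ∧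
      Function.Injective i ∧ ∀ B : Submodule S E, B ≠ ⊥ → ∃ a : A, a ≠ 0 ∧ i a ∈ B := by
  have := dp_isDomain k S
  have := dp_isPrincipalIdealRing k S
  exact exists_essential_hull_aux A

end DP

end Pool.Agent.Lib.MP_a53fda_al
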