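import Pool.Agent.Lib.MP_a53fda_al.DP

/-!
# Differential polynomial rings: degree, euclidean divisions, torsion modules, opposite ring
-/

set_option autoImplicit false

namespace Pool.Agent.Lib.MP_a53fda_al

universe u

open Polynomial

section Ring

variable (k S : Type u) [Field k] [Ring S] [DP k S]

/-- The map `p ↦ ∑ p_i X^i` as a linear map. -/
noncomputable def evL : k[X] →ₗ[k] S :=
  Polynomial.lsum fun i => LinearMap.toSpanSingleton k S (dX k S ^ i)

theorem evL_apply (p : k[X]) : evL k S p = p.sum fun i a => a • dX k S ^ i := by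
  simp [evL, Polynomial.lsum_apply]

theorem evL_bijective : Function.Bijective (evL k S) := by
  constructor
  · intro p q h
    obtain ⟨r, _, hr⟩ := DP.repr (k := k) (evL k S p)
    rw [hr p (evL_apply k S p), hr q (by rw [h]; exact evL_apply k S q)]
  · intro s
    obtain ⟨r, hr, _⟩ := DP.repr (k := k) s
    exact ⟨r, by rw [evL_apply]; exact hr.symm⟩

/-- The equivalence between polynomials and the ring. -/
noncomputable def evE : k[X] ≃ₗ[k] S := LinearEquiv.ofBijective (evL k S) (evL_bijective k S)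

theorem evE_apply (p : k[X]) : evE k S p = p.sum fun i a => a • dX k S ^ i := evL_apply k S p

theorem evE_monomial (n : ℕ) (a : k) : evE k S (monomial n a) = a • dX k S ^ n := by
  rw [evE_apply, Polynomial.sum_monomial_index _ _ (by simp)]

/-- The elements of degree less than `n`. -/
noncomputable def LT (n : ℕ) : Submodule k S := Submodule.span k ((fun i => dX k S ^ i) '' Set.Iio n)

variable {k S}

theorem LT_mono {m n : ℕ} (h : m ≤ n) : LT k S m ≤ LT k S n :=
  Submodule.span_mono (Set.image_mono (Set.Iio_subset_Iio h))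

theorem pow_mem_LT {i n : ℕ} (h : i < n) : dX k S ^ i ∈ LT k S n :=
  Submodule.subset_span ⟨i, h, rfl⟩

theorem LT_zero : LT k S 0 = ⊥ := by
  simp [LT]

theorem mem_LT_iff (n : ℕ) (s : S) : s ∈ LT k S n ↔ (evE k S).symm s ∈ degreeLT k n := by
  classical
  have h : LT k S n = (degreeLT k n).map (evE k S).toLinearMap := by
    rw [degreeLT_eq_span_X_pow, Submodule.map_span, LT]
    congr 1
    ext x
    simp only [Set.mem_image, Set.mem_Iio, Finset.coe_image, Finset.coe_range,
      LinearEquiv.coe_coe]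
    constructor
    · rintro ⟨i, hi, rfl⟩
      refine ⟨X ^ i, ⟨i, hi, rfl⟩, ?_⟩
      rw [← monomial_one_right_eq_X_pow, evE_monomial, one_smul]
    · rintro ⟨_, ⟨i, hi, rfl⟩, rfl⟩
      refine ⟨i, hi, ?_⟩
      rw [← monomial_one_right_eq_X_pow, evE_monomial, one_smul]
  rw [h, Submodule.mem_map_equiv]

theorem mem_LT_succ {n : ℕ} {s : S} (h : s ∈ LT k S (n + 1)) :
    ∃ c : k, s - c • dX k S ^ n ∈ LT k S n := by
  induction h using Submodule.span_induction with
  | mem x hx =>
    obtain ⟨i, hi, rfl⟩ := hx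
    rcases Nat.lt_succ_iff_lt_or_eq.1 hi with h | rfl
    · exact ⟨0, by simpa using pow_mem_LT h⟩
    · exact ⟨1, by simp⟩
  | zero => exact ⟨0, by simp⟩
  | add x y _ _ hx hy =>
    obtain ⟨c, hc⟩ := hx
    obtain ⟨c', hc'⟩ := hy
    refine ⟨c + c', ?_⟩
    have := (LT k S n).add_mem hc hc'
    rw [add_smul]
    have e : x + y - (c • dX k S ^ n + c' • dX k S ^ n) =
        (x - c • dX k S ^ n) + (y - c' • dX k S ^ n) := by abel
    rwa [e]
  | smul a x _ hx =>
    obtain ⟨c, hc⟩ := hx
    refine ⟨a * c, ?_⟩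
    have := (LT k S n).smul_mem a hc
    rwa [smul_sub, smul_smul] at this

theorem var_mul_smul (a : k) (s : S) : dX k S * (a • s) = a • (dX k S * s) + dδ k S a • s := by
  have := dX_smul (S := S) (M := S) a s
  simpa [smul_eq_mul] using this

theorem var_mul_mem {n : ℕ} {s : S} (h : s ∈ LT k S n) : dX k S * s ∈ LT k S (n + 1) := by
  induction h using Submodule.span_induction with
  | mem x hx =>
    obtain ⟨i, hi, rfl⟩ := hx
    simp only [← pow_succ']
    exact pow_mem_LT (Nat.succ_lt_succ hi)
  | zero => simp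
  | add x y _ _ hx hy => rw [mul_add]; exact add_mem hx hy
  | smul a x hx' hx =>
    rw [var_mul_smul]
    exact add_mem (Submodule.smul_mem _ _ hx) (Submodule.smul_mem _ _ (LT_mono (Nat.le_succ n) hx'))

theorem pow_mul_mem {m n : ℕ} {s : S} (h : s ∈ LT k S n) : dX k S ^ m * s ∈ LT k S (n + m) := by
  induction m with
  | zero => simpa using h
  | succ m ih =>
    rw [pow_succ', mul_assoc, ← add_assoc]
    exact var_mul_mem ih

theorem mul_mem_LT {m n : ℕ} {s t : S} (hs : s ∈ LT k S (m + 1)) (ht : t ∈ LT k S n) :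
    s * t ∈ LT k S (m + n) := by
  induction hs using Submodule.span_induction with
  | mem x hx =>
    obtain ⟨i, hi, rfl⟩ := hx
    exact LT_mono (by have := Set.mem_Iio.1 hi; omega) (pow_mul_mem (m := i) ht)
  | zero => simp
  | add x y _ _ hx hy => rw [add_mul]; exact add_mem hx hy
  | smul a x _ hx => rw [smul_mul_assoc]; exact Submodule.smul_mem _ _ hx

theorem mul_mem_LT' {m n : ℕ} {s t : S} (hs : s ∈ LT k S m) (ht : t ∈ LT k S (n + 1)) :
    s * t ∈ LT k S (m + n) := by
  cases m with
  | zero =>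
    rw [LT_zero, Submodule.mem_bot] at hs
    simp [hs]
  | succ m =>
    have := mul_mem_LT hs ht
    rwa [show m + 1 + n = m + (n + 1) by omega]

/-- `s` is `c X^n` plus terms of degree less than `n`. -/
def Lead (n : ℕ) (c : k) (s : S) : Prop := s - c • dX k S ^ n ∈ LT k S n

theorem Lead.mem {n : ℕ} {c : k} {s : S} (h : Lead n c s) : s ∈ LT k S (n + 1) := by
  have h1 := LT_mono (Nat.le_succ n) h
  have h2 : c • dX k S ^ n ∈ LT k S (n + 1) := Submodule.smul_mem _ _ (pow_mem_LT (Nat.lt_succ_self n))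
  have := add_mem h1 h2
  rwa [sub_add_cancel] at this

theorem lead_pow_smul (m n : ℕ) (c : k) : Lead (m + n) c (dX k S ^ m * (c • dX k S ^ n)) := by
  induction m with
  | zero => simp [Lead]
  | succ m ih =>
    have h := var_mul_mem ih
    rw [mul_sub, ← mul_assoc, ← pow_succ', var_mul_smul, ← pow_succ'] at h
    unfold Lead
    rw [show m + 1 + n = m + n + 1 by omega]
    have h2 : dδ k S c • dX k S ^ (m + n) ∈ LT k S (m + n + 1) :=
      Submodule.smul_mem _ _ (pow_mem_LT (Nat.lt_succ_self _))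
    have := add_mem h h2
    have e : ∀ a b d : S, a - b = (a - (b + d)) + d := by intro a b d; abel
    rw [e _ _ (dδ k S c • dX k S ^ (m + n))]
    exact this

theorem Lead.mul {m n : ℕ} {c c' : k} {s t : S} (hs : Lead m c s) (ht : Lead n c' t) :
    Lead (m + n) (c * c') (s * t) := by
  unfold Lead
  have h1 : (s - c • dX k S ^ m) * t ∈ LT k S (m + n) := mul_mem_LT' hs ht.mem
  have h2 : (c • dX k S ^ m) * (t - c' • dX k S ^ n) ∈ LT k S (m + n) :=
    mul_mem_LT (Submodule.smul_mem _ _ (pow_mem_LT (Nat.lt_succ_self m))) ht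
  have h3 : c • (dX k S ^ m * (c' • dX k S ^ n) - c' • dX k S ^ (m + n)) ∈ LT k S (m + n) :=
    Submodule.smul_mem _ _ (lead_pow_smul m n c')
  have := add_mem (add_mem h1 h2) h3
  rw [sub_mul, mul_sub, smul_sub, smul_smul, smul_mul_assoc c (dX k S ^ m) (c' • dX k S ^ n)]
    at this
  have e : ∀ a b d f g : S, a - b + (b - d) + (d - f) = a - f := by intro a b d f _; abel
  rwa [e _ _ _ _ 0] at this

theorem lead_monomial (n : ℕ) (c : k) : Lead n c (c • dX k S ^ n) := by
  simp [Lead]

theorem Lead.unit {n : ℕ} {c : k} {s : S} (h : Lead n c s) :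
    (evE k S).symm s - monomial n c ∈ degreeLT k n := by
  have := (mem_LT_iff n _).1 h
  rwa [map_sub, ← evE_monomial, LinearEquiv.symm_apply_apply] at this

/-- The degree. -/
noncomputable def deg (k : Type u) {S : Type u} [Field k] [Ring S] [DP k S] (s : S) : ℕ :=
  ((evE k S).symm s).natDegree

theorem Lead.deg_eq {n : ℕ} {c : k} {s : S} (h : Lead n c s) (hc : c ≠ 0) :
    s ≠ 0 ∧ deg k s = n := by
  have h1 := mem_degreeLT.1 h.unit
  set p := (evE k S).symm s with hp
  have h2 : p = (p - monomial n c) + monomial n c := by abel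
  have h3 : (monomial n c : k[X]).degree = n := degree_monomial n hc
  have h4 : p.degree = n := by
    rw [h2, degree_add_eq_right_of_degree_lt (by rw [h3]; exact h1), h3]
  constructor
  · rintro rfl
    rw [map_zero] at hp
    rw [hp, degree_zero] at h4
    exact absurd h4 (by simp)
  · exact natDegree_eq_of_degree_eq_some h4

theorem exists_lead {s : S} (hs : s ≠ 0) : ∃ c : k, c ≠ 0 ∧ Lead (deg k s) c s := by
  set p := (evE k S).symm s with hp
  have hp0 : p ≠ 0 := by
    intro h
    apply hs
    have := congrArg (evE k S) h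
    rwa [hp, LinearEquiv.apply_symm_apply, map_zero] at this
  refine ⟨p.leadingCoeff, leadingCoeff_ne_zero.2 hp0, ?_⟩
  unfold Lead
  rw [mem_LT_iff, map_sub, ← evE_monomial, LinearEquiv.symm_apply_apply, mem_degreeLT]
  have h1 : deg k s = p.natDegree := rfl
  rw [h1, ← hp]
  calc (p - monomial p.natDegree p.leadingCoeff).degree < p.degree := by
        apply degree_sub_lt_left
        · rw [degree_monomial _ (leadingCoeff_ne_zero.2 hp0), degree_eq_natDegree hp0]
        · exact hp0
        · rw [leadingCoeff_monomial]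
    _ = p.natDegree := degree_eq_natDegree hp0

theorem deg_lt_of_mem {n : ℕ} {s : S} (h : s ∈ LT k S n) : s = 0 ∨ deg k s < n := by
  by_cases hs : s = 0
  · exact Or.inl hs
  · right
    have h1 := mem_degreeLT.1 ((mem_LT_iff n s).1 h)
    have hp0 : (evE k S).symm s ≠ 0 := by
      intro h
      exact hs ((evE k S).symm.map_eq_zero_iff.1 h)
    exact (natDegree_lt_iff_degree_lt hp0).2 h1

theorem mem_LT_deg (s : S) : s ∈ LT k S (deg k s + 1) := by
  rw [mem_LT_iff, mem_degreeLT]
  exact lt_of_le_of_lt degree_le_natDegree (by exact_mod_cast Nat.lt_succ_self _)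

theorem right_div {n : ℕ} {c : k} (hc : c ≠ 0) {b : S} (hb : Lead n c b) :
    ∀ (m : ℕ) (a : S), a ∈ LT k S m → ∃ q r : S, a = q * b + r ∧ r ∈ LT k S n := by
  intro m
  induction m with
  | zero =>
    intro a ha
    rw [LT_zero, Submodule.mem_bot] at ha
    exact ⟨0, 0, by simp [ha], zero_mem _⟩
  | succ m ih =>
    intro a ha
    by_cases hmn : m + 1 ≤ n
    · exact ⟨0, a, by simp, LT_mono hmn ha⟩
    · obtain ⟨α, hα⟩ := mem_LT_succ ha
      have h1 := (lead_monomial (S := S) (m - n) (α * c⁻¹)).mul hb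
      rw [show m - n + n = m by omega, mul_assoc, inv_mul_cancel₀ hc, mul_one] at h1
      set q₀ := (α * c⁻¹) • dX k S ^ (m - n) with hq₀
      have h2 : a - q₀ * b ∈ LT k S m := by
        have := sub_mem hα h1
        rwa [sub_sub_sub_cancel_right] at this
      obtain ⟨q, r, hqr, hr⟩ := ih _ h2
      refine ⟨q + q₀, r, ?_, hr⟩
      rw [add_mul]
      rw [sub_eq_iff_eq_add] at hqr
      rw [hqr]
      abel

theorem left_div {n : ℕ} {c : k} (hc : c ≠ 0) {b : S} (hb : Lead n c b) :
    ∀ (m : ℕ) (a : S), a ∈ LT k S m → ∃ q r : S, a = b * q + r ∧ r ∈ LT k S n := by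
  intro m
  induction m with
  | zero =>
    intro a ha
    rw [LT_zero, Submodule.mem_bot] at ha
    exact ⟨0, 0, by simp [ha], zero_mem _⟩
  | succ m ih =>
    intro a ha
    by_cases hmn : m + 1 ≤ n
    · exact ⟨0, a, by simp, LT_mono hmn ha⟩
    · obtain ⟨α, hα⟩ := mem_LT_succ ha
      have h1 := hb.mul (lead_monomial (S := S) (m - n) (c⁻¹ * α))
      rw [show n + (m - n) = m by omega, ← mul_assoc, mul_inv_cancel₀ hc, one_mul] at h1
      set q₀ := (c⁻¹ * α) • dX k S ^ (m - n) with hq₀
      have h2 : a - b * q₀ ∈ LT k S m := by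
        have := sub_mem hα h1
        rwa [sub_sub_sub_cancel_right] at this
      obtain ⟨q, r, hqr, hr⟩ := ih _ h2
      refine ⟨q + q₀, r, ?_, hr⟩
      rw [mul_add]
      rw [sub_eq_iff_eq_add] at hqr
      rw [hqr]
      abel

end Ring

theorem exists_degree (k S : Type u) [Field k] [Ring S] [DP k S] :
    ∃ d : S → ℕ, d 1 = 0 ∧
      (∀ a b : S, a ≠ 0 → b ≠ 0 → a * b ≠ 0 ∧ d (a * b) = d a + d b) ∧
      (∀ a : S, a ≠ 0 → d a = 0 → ∃ c : k, c ≠ 0 ∧ a = c • (1 : S)) ∧
      (∀ a b : S, b ≠ 0 → ∃ q r : S, a = q * b + r ∧ (r = 0 ∨ d r < d b)) ∧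
      (∀ a b : S, b ≠ 0 → ∃ q r : S, a = b * q + r ∧ (r = 0 ∨ d r < d b)) := by
  refine ⟨deg k, ?_, ?_, ?_, ?_, ?_⟩
  · have h := lead_monomial (S := S) 0 (1 : k)
    rw [one_smul, pow_zero] at h
    exact (h.deg_eq one_ne_zero).2
  · intro a b ha hb
    obtain ⟨c, hc, hl⟩ := exists_lead (k := k) ha
    obtain ⟨c', hc', hl'⟩ := exists_lead (k := k) hb
    exact (hl.mul hl').deg_eq (mul_ne_zero hc hc')
  · intro a ha hd
    obtain ⟨c, hc, hl⟩ := exists_lead (k := k) ha
    refine ⟨c, hc, ?_⟩
    unfold Lead at hl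
    rw [hd, LT_zero, Submodule.mem_bot, pow_zero] at hl
    exact sub_eq_zero.1 hl
  · intro a b hb
    obtain ⟨c, hc, hl⟩ := exists_lead (k := k) hb
    obtain ⟨q, r, h, hr⟩ := right_div hc hl _ a (mem_LT_deg a)
    exact ⟨q, r, h, deg_lt_of_mem hr⟩
  · intro a b hb
    obtain ⟨c, hc, hl⟩ := exists_lead (k := k) hb
    obtain ⟨q, r, h, hr⟩ := left_div hc hl _ a (mem_LT_deg a)
    exact ⟨q, r, h, deg_lt_of_mem hr⟩

theorem nontrivial_dp (k S : Type u) [Field k] [Ring S] [DP k S] : Nontrivial S :=
  (evE k S).toEquiv.symm.nontrivial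

theorem finite_of_torsion {k S : Type u} [Field k] [Ring S] [DP k S] {M : Type u} [AddCommGroup M]
    [Module S M] [Module k M] [IsScalarTower k S M] [Module.Finite S M]
    (h : ∀ m : M, ∃ s : S, s ≠ 0 ∧ s • m = 0) : Module.Finite k M := by
  classical
  -- each cyclic submodule is finite over `k`
  have key : ∀ x : M, ∃ N : Submodule k M, N.FG ∧ ∀ s : S, s • x ∈ N := by
    intro x
    obtain ⟨b, hb, hbx⟩ := h x
    obtain ⟨c, hc, hl⟩ := exists_lead (k := k) hb
    refine ⟨Submodule.span k ((fun i => dX k S ^ i • x) '' Set.Iio (deg k b)),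
      Submodule.fg_span ((Set.finite_Iio _).image _), ?_⟩
    intro s
    obtain ⟨q, r, hs, hr⟩ := right_div hc hl _ s (mem_LT_deg s)
    have h1 : s • x = r • x := by
      rw [hs, add_smul, mul_smul, hbx, smul_zero, zero_add]
    rw [h1]
    clear h1 hs
    induction hr using Submodule.span_induction with
    | mem y hy =>
      obtain ⟨i, hi, rfl⟩ := hy
      exact Submodule.subset_span ⟨i, hi, rfl⟩
    | zero => simp
    | add y z _ _ hy hz => rw [add_smul]; exact add_mem hy hz
    | smul a y _ hy => rw [smul_assoc]; exact Submodule.smul_mem _ _ hy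
  choose N hN hsN using key
  obtain ⟨T, hT⟩ := (Module.Finite.fg_top : (⊤ : Submodule S M).FG)
  refine ⟨?_⟩
  have h2 : (⊤ : Submodule k M) = ⨆ x ∈ T, N x := by
    symm
    rw [eq_top_iff]
    intro m _
    have hm : m ∈ Submodule.span S (T : Set M) := by rw [hT]; trivial
    obtain ⟨f, _, rfl⟩ := Submodule.mem_span_finset.1 hm
    refine Submodule.sum_mem _ fun x hx => ?_
    exact Submodule.mem_iSup_of_mem x (Submodule.mem_iSup_of_mem hx (hsN x (f x)))
  rw [h2]
  exact Submodule.fg_biSup T _ fun x _ => hN x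

theorem torsion_of_finite {k S : Type u} [Field k] [Ring S] [DP k S] {M : Type u} [AddCommGroup M]
    [Module S M] [Module k M] [IsScalarTower k S M] [Module.Finite k M] (m : M) :
    ∃ s : S, s ≠ 0 ∧ s • m = 0 := by
  by_contra hcon
  push Not at hcon
  let φ : S →ₗ[k] M :=
    { toFun := fun s => s • m
      map_add' := fun s t => add_smul s t m
      map_smul' := fun a s => smul_assoc a s m }
  have hinj : Function.Injective φ := by
    rw [injective_iff_map_eq_zero]
    intro s hs
    by_contra h0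
    exact hcon s h0 hs
  have h1 : Module.Finite k S := Module.Finite.of_injective φ hinj
  have h2 : Module.Finite k k[X] := Module.Finite.equiv (evE k S).symm
  exact Polynomial.not_finite h2

section Op

variable {k S : Type u} [Field k] [Ring S] [DP k S]

theorem lead_sum {ε : ℕ → k} {g : ℕ → k → S}
    (h0 : ∀ i, g i 0 = 0) (hadd : ∀ i a b, g i (a + b) = g i a + g i b)
    (hg : ∀ i a, Lead i (ε i * a) (g i a)) {n : ℕ} {p : k[X]} (hp : p ∈ degreeLT k (n + 1)) :
    Lead n (ε n * p.coeff n) (p.sum g) := by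
  have hlt : ∀ q : k[X], q ∈ degreeLT k n → q.sum g ∈ LT k S n := by
    intro q hq
    rw [Polynomial.sum_def]
    refine Submodule.sum_mem _ fun i hi => ?_
    have hin : i < n := by
      have h1 := mem_degreeLT.1 hq
      have h2 := le_degree_of_mem_supp i hi
      exact_mod_cast lt_of_le_of_lt h2 h1
    exact LT_mono hin (hg i (q.coeff i)).mem
  have h1 : p = (p - monomial n (p.coeff n)) + monomial n (p.coeff n) := by abel
  have h2 : p - monomial n (p.coeff n) ∈ degreeLT k n := by
    rw [mem_degreeLT, degree_lt_iff_coeff_zero]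
    intro m hm
    rcases eq_or_lt_of_le hm with rfl | hlt'
    · simp
    · rw [coeff_sub, coeff_monomial, if_neg (by omega), sub_zero]
      have h3 := mem_degreeLT.1 hp
      rw [degree_lt_iff_coeff_zero] at h3
      exact h3 m (by omega)
  have h3 : p.sum g = (p - monomial n (p.coeff n)).sum g + g n (p.coeff n) := by
    conv_lhs => rw [h1]
    rw [Polynomial.sum_add_index _ _ _ h0 hadd, Polynomial.sum_monomial_index _ _ (h0 n)]
  unfold Lead
  rw [h3, add_sub_assoc]
  exact add_mem (hlt _ h2) (hg n (p.coeff n))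

theorem bijective_sum {ε : ℕ → k} (hε : ∀ i, ε i ≠ 0) {g : ℕ → k → S}
    (h0 : ∀ i, g i 0 = 0) (hadd : ∀ i a b, g i (a + b) = g i a + g i b)
    (hg : ∀ i a, Lead i (ε i * a) (g i a)) :
    Function.Bijective (fun p : k[X] => p.sum g) := by
  have hzero : ∀ p : k[X], p.sum g = 0 → p = 0 := by
    intro p hp
    by_contra hp0
    have hmem : p ∈ degreeLT k (p.natDegree + 1) := by
      rw [mem_degreeLT]
      exact lt_of_le_of_lt degree_le_natDegree (by exact_mod_cast Nat.lt_succ_self _)
    have h1 := lead_sum h0 hadd hg hmem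
    refine (h1.deg_eq (mul_ne_zero (hε _) ?_)).1 hp
    exact leadingCoeff_ne_zero.2 hp0
  constructor
  · intro p q hpq
    have hpq' : p.sum g = q.sum g := hpq
    have h1 : p = (p - q) + q := by abel
    have h2 : p.sum g = (p - q).sum g + q.sum g := by
      conv_lhs => rw [h1]
      rw [Polynomial.sum_add_index _ _ _ h0 hadd]
    have h3 : (p - q).sum g = 0 := by
      rw [h2] at hpq'
      exact add_eq_right.1 hpq'
    exact sub_eq_zero.1 (hzero _ h3)
  · intro s
    have key : ∀ (n : ℕ) (s : S), s ∈ LT k S n → ∃ p : k[X], p.sum g = s := by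
      intro n
      induction n with
      | zero =>
        intro s hs
        rw [LT_zero, Submodule.mem_bot] at hs
        exact ⟨0, by rw [hs]; simp⟩
      | succ n ih =>
        intro s hs
        obtain ⟨c, hc⟩ := mem_LT_succ hs
        have h1 := hg n ((ε n)⁻¹ * c)
        rw [← mul_assoc, mul_inv_cancel₀ (hε n), one_mul] at h1
        unfold Lead at h1
        obtain ⟨q, hq⟩ := ih (s - g n ((ε n)⁻¹ * c)) (by
          have h2 := sub_mem hc h1
          rwa [sub_sub_sub_cancel_right] at h2)
        refine ⟨q + monomial n ((ε n)⁻¹ * c), ?_⟩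
        rw [Polynomial.sum_add_index _ _ _ h0 hadd, Polynomial.sum_monomial_index _ _ (h0 n), hq]
        abel
    exact key _ s (mem_LT_deg s)

end Op

theorem exists_op {k R : Type u} [Field k] [Ring R] {δ : Derivation ℤ k k} {ι : k →+* R} {X : R}
    (h : IsDiffPolyRing δ ι X) :
    ∃ (ι' : k →+* Rᵐᵒᵖ) (X' : Rᵐᵒᵖ), IsDiffPolyRing δ ι' X' := by
  let _ : DP k R := dpOf h
  refine ⟨ι.toOpposite fun x y => ?_, -MulOpposite.op X, ?_, ?_⟩
  · show ι x * ι y = ι y * ι x
    rw [← map_mul, ← map_mul, mul_comm]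
  · intro a
    apply MulOpposite.unop_injective
    show ι a * -X - -X * ι a = ι (δ a)
    rw [← h.comm a, mul_neg, neg_mul]
    abel
  · intro s
    have hsm : ∀ (a : k) (r : R), a • r = ι a * r := fun _ _ => rfl
    have hX : dX k R = X := rfl
    let g : ℕ → k → R := fun i a => (-X) ^ i * ι a
    have h0 : ∀ i, g i 0 = 0 := by
      intro i
      simp [g]
    have hadd : ∀ i a b, g i (a + b) = g i a + g i b := by
      intro i a b
      simp [g, mul_add]
    have hg : ∀ i a, Lead i ((-1) ^ i * a) (g i a) := by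
      intro i a
      have h1 := lead_pow_smul (S := R) i 0 a
      unfold Lead at h1 ⊢
      have h2 := Submodule.smul_mem (LT k R (i + 0)) ((-1 : k) ^ i) h1
      have h3 : (-1 : k) ^ i • (dX k R ^ i * a • dX k R ^ 0 - a • dX k R ^ (i + 0)) =
          g i a - ((-1 : k) ^ i * a) • dX k R ^ i := by
        rw [smul_sub, smul_smul, add_zero]
        congr 1
        rw [hsm, hsm, pow_zero, mul_one, hX, map_pow, map_neg, map_one, ← mul_assoc,
          ← (Commute.neg_one_left X).mul_pow, neg_one_mul]
      rw [h3] at h2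
      exact h2
    have hb := bijective_sum (k := k) (S := R) (ε := fun i => (-1) ^ i)
      (fun i => pow_ne_zero _ (neg_ne_zero.2 one_ne_zero)) h0 hadd hg
    have hconv : ∀ p : k[X], MulOpposite.unop (p.sum fun i a =>
        (ι.toOpposite fun x y => (by rw [commute_iff_eq, ← map_mul, ← map_mul, mul_comm] :
          Commute (ι x) (ι y))) a * (-MulOpposite.op X) ^ i) = p.sum g := by
      intro p
      rw [Polynomial.sum_def, Polynomial.sum_def, Finset.unop_sum]
      rfl
    obtain ⟨p, hp⟩ := hb.2 (MulOpposite.unop s)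
    refine ⟨p, ?_, ?_⟩
    · apply MulOpposite.unop_injective
      rw [hconv]
      exact hp.symm
    · intro q hq
      apply hb.1
      show q.sum g = p.sum g
      have h1 := congrArg MulOpposite.unop hq
      rw [hconv] at h1
      rw [← h1]
      exact hp.symm

end Pool.Agent.Lib.MP_a53fda_al
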