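import Mathlib

/-!
# Ziegler spectrum and Cantor-Bendixson rank: definitions

Everything is written for left modules over an arbitrary ring `S`; right modules over a ring `R`
are the left modules over `Rᵐᵒᵖ`.
-/

set_option autoImplicit false

namespace Pool.Agent.Lib.MP_a53fda_al

universe u

/-- The additive map `y ↦ r y` attached to a matrix `r` with entries in `S`:
`(act r y) j = ∑ i, r j i • y i`. -/
def act {S : Type u} [Ring S] {n m : ℕ} (r : Matrix (Fin n) (Fin m) S)
    {N : Type u} [AddCommGroup N] [Module S N] : (Fin m → N) →+ (Fin n → N) where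
  toFun y := fun j => ∑ i, r j i • y i
  map_zero' := by
    funext j
    simp
  map_add' y y' := by
    funext j
    simp [smul_add, Finset.sum_add_distrib]

/-- A positive primitive (pp) formula in one free variable `x` over the ring `S`:
a finite system of linear equations `s j • x = ∑ i, r j i • y i` (`j < n`) with bound variables
`y i` (`i < m`). -/
structure PPFormula (S : Type u) where
  /-- number of equations -/
  n : ℕ
  /-- number of bound variables -/
  m : ℕ
  /-- coefficients of the free variable -/
  s : Fin n → S
  /-- coefficients of the bound variables -/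
  r : Matrix (Fin n) (Fin m) S

/-- `φ.Holds x`: the element `x` of the `S`-module `N` satisfies the pp formula `φ`. -/
def PPFormula.Holds {S : Type u} [Ring S] (φ : PPFormula S) {N : Type u} [AddCommGroup N]
    [Module S N] (x : N) : Prop :=
  ∃ y : Fin φ.m → N, ∀ j, φ.s j • x = ∑ i, φ.r j i • y i

/-- A linear map `f : A → B` is a pure embedding if every finite system of linear equations with
constants in `A` which is solvable in `B` is solvable in `A`. (Taking no unknowns one sees that
such a map is injective.) -/
def IsPure {S : Type u} [Ring S] {A B : Type u} [AddCommGroup A] [Module S A] [AddCommGroup B]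
    [Module S B] (f : A →ₗ[S] B) : Prop :=
  ∀ (n m : ℕ) (r : Matrix (Fin n) (Fin m) S) (c : Fin n → A),
    (∃ y : Fin m → B, act r y = fun j => f (c j)) → ∃ y : Fin m → A, act r y = c

/-- `P` is pure-injective: every linear map from `A` to `P` extends along every pure embedding
`A → B`. -/
def IsPureInjective (S : Type u) [Ring S] (P : Type u) [AddCommGroup P] [Module S P] : Prop :=
  ∀ (A B : Type u) [AddCommGroup A] [Module S A] [AddCommGroup B] [Module S B]
    (i : A →ₗ[S] B), IsPure i → ∀ f : A →ₗ[S] P, ∃ g : B →ₗ[S] P, ∀ a, g (i a) = f a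

/-- `M` is indecomposable: it is nonzero and is not the direct sum of two nonzero submodules. -/
def IsIndecomposable (S : Type u) [Ring S] (M : Type u) [AddCommGroup M] [Module S M] : Prop :=
  Nontrivial M ∧ ∀ A B : Submodule S M, IsCompl A B → A = ⊥ ∨ B = ⊥

/-- An indecomposable pure-injective module over `S`. -/
structure IndecPureInj (S : Type u) [Ring S] where
  /-- underlying type -/
  carrier : Type u
  /-- the additive group structure -/
  [grp : AddCommGroup carrier]
  /-- the module structure -/
  [mod : Module S carrier]
  pureInjective : IsPureInjective S carrier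
  indecomposable : IsIndecomposable S carrier

attribute [instance] IndecPureInj.grp IndecPureInj.mod

/-- Isomorphism of indecomposable pure-injective modules. -/
def indecPureInjSetoid (S : Type u) [Ring S] : Setoid (IndecPureInj S) where
  r M N := Nonempty (M.carrier ≃ₗ[S] N.carrier)
  iseqv := ⟨fun _ => ⟨LinearEquiv.refl _ _⟩, fun ⟨e⟩ => ⟨e.symm⟩, fun ⟨e⟩ ⟨f⟩ => ⟨e.trans f⟩⟩

/-- The points of the Ziegler spectrum of the left `S`-modules: isomorphism classes of
indecomposable pure-injective modules. -/
def Zg (S : Type u) [Ring S] : Type (u + 1) := Quotient (indecPureInjSetoid S)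

/-- The set `(φ/ψ)` of all points `N` with `φ(N) ⊄ ψ(N)`. -/
def basicOpen {S : Type u} [Ring S] (φ ψ : PPFormula S) : Set (Zg S) :=
  {p | ∃ N : IndecPureInj S, Quotient.mk (indecPureInjSetoid S) N = p ∧
    ∃ x : N.carrier, φ.Holds x ∧ ¬ ψ.Holds x}

/-- The Ziegler topology, generated by the sets `(φ/ψ)` (they form a basis, see
`isTopologicalBasis_basicOpen`). -/
instance instTopologicalSpaceZg (S : Type u) [Ring S] : TopologicalSpace (Zg S) :=
  TopologicalSpace.generateFrom {U | ∃ φ ψ : PPFormula S, U = basicOpen φ ψ}

/-- Remove from `A` its isolated points (isolated for the relative topology of `A`). -/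
def removeIsolated {X : Type*} [TopologicalSpace X] (A : Set X) : Set X :=
  {x ∈ A | ¬ ∃ U : Set X, IsOpen U ∧ U ∩ A = {x}}

/-- The Cantor-Bendixson filtration `X^(α)`: `X^(0) = X`, `X^(α+1)` is `X^(α)` without its
isolated points, intersections at limit ordinals. -/
noncomputable def cbLevel (X : Type u) [TopologicalSpace X] (α : Ordinal.{u}) : Set X :=
  Ordinal.limitRecOn α (motive := fun _ => Set X) Set.univ (fun _ A => removeIsolated A)
    (fun β _ A => ⋂ γ : Set.Iio β, A γ.1 γ.2)

/-- `IsCBRank X v`: the Cantor-Bendixson rank of `X` is `v`. If some `X^(α)` is empty, this is the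
maximum of the ranks of points (`x` has rank `β` if it lies in `X^(β) \ X^(β+1)`); otherwise it
is `⊤`. -/
def IsCBRank (X : Type u) [TopologicalSpace X] (v : WithTop Ordinal.{u}) : Prop :=
  ((∀ α : Ordinal.{u}, (cbLevel X α).Nonempty) ∧ v = ⊤) ∨
  ((∃ α : Ordinal.{u}, cbLevel X α = ∅) ∧
    ∃ β : Ordinal.{u}, v = β ∧
      IsGreatest {γ : Ordinal.{u} | (cbLevel X γ \ cbLevel X (γ + 1)).Nonempty} β)

/-- `R` (with `ι : k → R` and `X ∈ R`) is the differential polynomial ring `k[X, δ]`: every element
is uniquely of the form `∑ i, ι (a i) * X ^ i`, and `X a - a X = δ a`. -/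
structure IsDiffPolyRing {k R : Type u} [Field k] [Ring R] (δ : Derivation ℤ k k)
    (ι : k →+* R) (X : R) : Prop where
  comm : ∀ a : k, X * ι a - ι a * X = ι (δ a)
  repr : ∀ s : R, ∃! p : Polynomial k, s = p.sum fun i a => ι a * X ^ i

end Pool.Agent.Lib.MP_a53fda_al
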