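import Pool.Agent.Lib.MP_a53fda_al.Basic

set_option autoImplicit false

namespace Pool.Agent.Lib.MP_a53fda_al

universe u

section Solve

variable {S : Type u} [Ring S] {A B : Type u} [AddCommGroup A] [Module S A]
  [AddCommGroup B] [Module S B]

/-- Finite systems indexed by arbitrary finite sets. -/
theorem IsPure.solve {f : A →ₗ[S] B} (hf : IsPure f) {T κ : Type*} (F : Finset T)
    (e : T → κ →₀ S) (c : T → A) (y : κ → B)
    (hy : ∀ t ∈ F, Finsupp.linearCombination S y (e t) = f (c t)) :
    ∃ y' : κ → A, ∀ t ∈ F, Finsupp.linearCombination S y' (e t) = c t := by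
  classical
  let K : Finset κ := F.biUnion fun t => (e t).support
  let α : Fin F.card ≃ F := F.equivFin.symm
  let β : Fin K.card ≃ K := K.equivFin.symm
  have key : ∀ {G : Type u} [AddCommGroup G] [Module S G] (y : κ → G), ∀ t ∈ F,
      Finsupp.linearCombination S y (e t) = ∑ i, e t (β i) • y (β i) := by
    intro G _ _ y t ht
    have hsub : (e t).support ⊆ K := by
      intro x hx
      exact Finset.mem_biUnion.mpr ⟨t, ht, hx⟩
    rw [Finsupp.linearCombination_apply, Finsupp.sum_of_support_subset _ hsub _ (by simp)]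
    rw [← Finset.sum_coe_sort K]
    exact (Equiv.sum_comp β (fun i : K => e t i • y i)).symm
  let r : Matrix (Fin F.card) (Fin K.card) S := fun j i => e (α j) (β i)
  obtain ⟨z, hz⟩ := hf F.card K.card r (fun j => c (α j)) ⟨fun i => y (β i), by
    funext j
    rw [act_apply]
    rw [← hy (α j) (α j).2, key y (α j) (α j).2]⟩
  refine ⟨fun x => if h : x ∈ K then z (β.symm ⟨x, h⟩) else 0, fun t ht => ?_⟩
  rw [key _ t ht]
  have := congrFun hz (α.symm ⟨t, ht⟩)
  rw [act_apply] at this
  simp only [r, Equiv.apply_symm_apply] at this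
  rw [← this]
  refine Finset.sum_congr rfl fun i _ => ?_
  simp

end Solve

section Compact

variable {S : Type u} [Ring S]

/-- A module with a compact Hausdorff topology such that all operations are continuous is
pure-injective. -/
theorem isPureInjective_of_compact {P : Type u} [AddCommGroup P] [Module S P]
    [TopologicalSpace P] [CompactSpace P] [T2Space P] [ContinuousAdd P]
    (hs : ∀ s : S, Continuous fun p : P => s • p) : IsPureInjective S P := by
  classical
  intro A B _ _ _ _ i hi f
  let K : ((B × B) ⊕ (S × B) ⊕ A) → Set (B → P) := fun c => match c with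
    | Sum.inl (b, b') => {g | g (b + b') = g b + g b'}
    | Sum.inr (Sum.inl (s, b)) => {g | g (s • b) = s • g b}
    | Sum.inr (Sum.inr a) => {g | g (i a) = f a}
  have hclosed : ∀ c, IsClosed (K c) := by
    rintro (⟨b, b'⟩ | ⟨s, b⟩ | a)
    · exact isClosed_eq (continuous_apply _)
        (show Continuous fun g : B → P => g b + g b' by fun_prop)
    · exact isClosed_eq (continuous_apply _) ((hs s).comp (continuous_apply _))
    · exact isClosed_eq (continuous_apply _) continuous_const
  have hfin : ∀ F : Finset ((B × B) ⊕ (S × B) ⊕ A), (⋂ c ∈ F, K c).Nonempty := by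
    intro F
    let e : ((B × B) ⊕ (S × B) ⊕ A) → B →₀ S := fun c => match c with
      | Sum.inl (b, b') => Finsupp.single (b + b') 1 - Finsupp.single b 1 - Finsupp.single b' 1
      | Sum.inr (Sum.inl (s, b)) => Finsupp.single (s • b) 1 - Finsupp.single b s
      | Sum.inr (Sum.inr a) => Finsupp.single (i a) 1
    let cst : ((B × B) ⊕ (S × B) ⊕ A) → A := fun c => match c with
      | Sum.inl _ => 0
      | Sum.inr (Sum.inl _) => 0
      | Sum.inr (Sum.inr a) => a
    obtain ⟨y, hy⟩ := hi.solve F e cst id (by
      rintro (⟨b, b'⟩ | ⟨s, b⟩ | a) -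
      · simp [e, cst]
      · simp [e, cst]
      · simp [e, cst])
    refine ⟨fun b => f (y b), ?_⟩
    rw [Set.mem_iInter₂]
    rintro (⟨b, b'⟩ | ⟨s, b⟩ | a) hc
    · have := hy _ hc
      simp only [e, cst, map_sub, Finsupp.linearCombination_single, one_smul] at this
      change f (y (b + b')) = f (y b) + f (y b')
      rw [← map_add]
      congr 1
      rw [sub_sub, sub_eq_zero] at this
      exact this
    · have := hy _ hc
      simp only [e, cst, map_sub, Finsupp.linearCombination_single, one_smul] at this
      change f (y (s • b)) = s • f (y b)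
      rw [← map_smul]
      congr 1
      rw [sub_eq_zero] at this
      exact this
    · have := hy _ hc
      simp only [e, cst, Finsupp.linearCombination_single, one_smul] at this
      change f (y (i a)) = f a
      rw [this]
  obtain ⟨g, hg⟩ := CompactSpace.iInter_nonempty hclosed hfin
  rw [Set.mem_iInter] at hg
  refine ⟨{ toFun := g, map_add' := fun b b' => hg (Sum.inl (b, b')),
            map_smul' := fun s b => hg (Sum.inr (Sum.inl (s, b))) }, fun a => ?_⟩
  exact hg (Sum.inr (Sum.inr a))

end Compact

section Characters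

theorem exists_char_ne {A : Type u} [AddCommGroup A] {a : A} (ha : a ≠ 0) :
    ∃ c : A →+ UnitAddCircle, c a ≠ 0 := by
  obtain ⟨c, hc⟩ := CharacterModule.exists_character_apply_ne_zero_of_ne_zero ha
  let j : AddCircle (1 : ℚ) →+ UnitAddCircle :=
    QuotientAddGroup.map (AddSubgroup.zmultiples (1 : ℚ)) (AddSubgroup.zmultiples (1 : ℝ))
      (Rat.castHom ℝ).toAddMonoidHom (by
        rintro x ⟨n, rfl⟩
        exact ⟨n, by simp⟩)
  have hj : Function.Injective j := by
    rw [injective_iff_map_eq_zero]
    intro x hx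
    induction x using QuotientAddGroup.induction_on with
    | H q =>
      have h1 : ((q : ℝ) : UnitAddCircle) = 0 := hx
      rw [AddCircle.coe_eq_zero_iff] at h1
      obtain ⟨n, hn⟩ := h1
      rw [AddCircle.coe_eq_zero_iff]
      refine ⟨n, ?_⟩
      have : ((n • (1 : ℚ) : ℚ) : ℝ) = (q : ℝ) := by
        rw [← hn]
        simp
      exact_mod_cast this
  refine ⟨j.comp (show A →+ AddCircle (1 : ℚ) from c), fun h => hc ?_⟩
  exact hj (h.trans (map_zero j).symm)

theorem char_factor {A B : Type u} [AddCommGroup A] [AddCommGroup B] (g : A →+ B)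
    (χ : A →+ UnitAddCircle) (h : ∀ a, g a = 0 → χ a = 0) :
    ∃ χ' : B →+ UnitAddCircle, ∀ a, χ' (g a) = χ a := by
  let χ₁ : A ⧸ g.ker →+ UnitAddCircle := QuotientAddGroup.lift g.ker χ (by
    intro a ha
    exact h a ha)
  obtain ⟨χ', hχ'⟩ := (Module.Baer.of_divisible UnitAddCircle).extension_property_addMonoidHom
    (QuotientAddGroup.kerLift g) (QuotientAddGroup.kerLift_injective g) χ₁
  refine ⟨χ', fun a => ?_⟩
  have := DFunLike.congr_fun hχ' (a : A ⧸ g.ker)
  exact this

end Characters

section BiDual

variable (S : Type u) [Ring S] (M : Type u) [AddCommGroup M] [Module S M]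

/-- The double character dual of `M`. -/
def BiDual : Type u := (M →+ UnitAddCircle) →+ UnitAddCircle

namespace BiDual

noncomputable instance : AddCommGroup (BiDual M) :=
  inferInstanceAs (AddCommGroup ((M →+ UnitAddCircle) →+ UnitAddCircle))

variable {S M}

/-- underlying additive map -/
def toHom (F : BiDual M) : (M →+ UnitAddCircle) →+ UnitAddCircle := F

theorem toHom_add (F G : BiDual M) (η : M →+ UnitAddCircle) :
    (F + G).toHom η = F.toHom η + G.toHom η := rfl

theorem ext' {F G : BiDual M} (h : ∀ η, F.toHom η = G.toHom η) : F = G :=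
  AddMonoidHom.ext h

/-- `η * s` -/
noncomputable def rmul (η : M →+ UnitAddCircle) (s : S) : M →+ UnitAddCircle :=
  η.comp (DistribSMul.toAddMonoidHom M s)

theorem rmul_apply (η : M →+ UnitAddCircle) (s : S) (m : M) : rmul η s m = η (s • m) := rfl

/-- `η ↦ η * s` as an additive map -/
noncomputable def rmulHom (s : S) : (M →+ UnitAddCircle) →+ (M →+ UnitAddCircle) where
  toFun η := rmul η s
  map_zero' := rfl
  map_add' _ _ := rfl

noncomputable instance : Module S (BiDual M) where
  smul s F := (AddMonoidHom.comp (F.toHom) (rmulHom s) : (M →+ UnitAddCircle) →+ UnitAddCircle)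
  one_smul F := by
    refine ext' fun η => ?_
    change F.toHom (rmul η (1 : S)) = F.toHom η
    congr 1
    ext m
    rw [rmul_apply, one_smul]
  mul_smul s t F := by
    refine ext' fun η => ?_
    change F.toHom (rmul η (s * t)) = F.toHom (rmul (rmul η s) t)
    congr 1
    ext m
    rw [rmul_apply, rmul_apply, rmul_apply, mul_smul]
  smul_zero s := rfl
  smul_add s F G := rfl
  add_smul s t F := by
    refine ext' fun η => ?_
    change F.toHom (rmul η (s + t)) = F.toHom (rmul η s) + F.toHom (rmul η t)
    rw [← map_add]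
    congr 1
    ext m
    rw [AddMonoidHom.add_apply, rmul_apply, rmul_apply, rmul_apply, add_smul, map_add]
  zero_smul F := by
    refine ext' fun η => ?_
    change F.toHom (rmul η (0 : S)) = 0
    rw [← map_zero F.toHom]
    congr 1
    ext m
    rw [rmul_apply, zero_smul, map_zero, AddMonoidHom.zero_apply]

theorem smul_toHom (s : S) (F : BiDual M) (η : M →+ UnitAddCircle) :
    (s • F).toHom η = F.toHom (rmul η s) := rfl

noncomputable instance : TopologicalSpace (BiDual M) :=
  TopologicalSpace.induced (fun F : BiDual M => fun η => F.toHom η) inferInstance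

theorem continuous_toHom (η : M →+ UnitAddCircle) :
    Continuous fun F : BiDual M => F.toHom η :=
  (continuous_apply η).comp continuous_induced_dom

theorem isClosedEmbedding :
    Topology.IsClosedEmbedding (fun F : BiDual M => fun η => F.toHom η) := by
  refine ⟨⟨⟨rfl⟩, ?_⟩, ?_⟩
  · intro F G h
    exact ext' fun η => congrFun h η
  · have : Set.range (fun F : BiDual M => fun η => F.toHom η) =
        ⋂ (η : M →+ UnitAddCircle) (η' : M →+ UnitAddCircle),
          {g : (M →+ UnitAddCircle) → UnitAddCircle | g (η + η') = g η + g η'} := by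
      ext g
      constructor
      · rintro ⟨F, rfl⟩
        simp only [Set.mem_iInter]
        intro η η'
        exact map_add F.toHom η η'
      · intro h
        simp only [Set.mem_iInter] at h
        exact ⟨AddMonoidHom.mk' g h, rfl⟩
    rw [this]
    exact isClosed_iInter fun η => isClosed_iInter fun η' =>
      isClosed_eq (continuous_apply _)
        (show Continuous fun g : (M →+ UnitAddCircle) → UnitAddCircle => g η + g η' by fun_prop)

instance : CompactSpace (BiDual M) := isClosedEmbedding.compactSpace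

instance : T2Space (BiDual M) := isClosedEmbedding.isEmbedding.t2Space

theorem continuous_iff {X : Type*} [TopologicalSpace X] {f : X → BiDual M} :
    Continuous f ↔ ∀ η, Continuous fun x => (f x).toHom η := by
  rw [isClosedEmbedding.isEmbedding.isInducing.continuous_iff, continuous_pi_iff]
  rfl

instance : ContinuousAdd (BiDual M) where
  continuous_add := by
    rw [continuous_iff]
    intro η
    exact ((continuous_toHom η).comp continuous_fst).add ((continuous_toHom η).comp continuous_snd)

theorem isPureInjective : IsPureInjective S (BiDual M) :=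
  isPureInjective_of_compact fun s => by
    rw [continuous_iff]
    intro η
    exact continuous_toHom (rmul η s)

/-- evaluation at `η` -/
noncomputable def evalAt (η : M →+ UnitAddCircle) : BiDual M →+ UnitAddCircle where
  toFun F := F.toHom η
  map_zero' := rfl
  map_add' _ _ := rfl

theorem toHom_sum {κ : Type*} (s : Finset κ) (F : κ → BiDual M) (η : M →+ UnitAddCircle) :
    (∑ i ∈ s, F i).toHom η = ∑ i ∈ s, (F i).toHom η :=
  map_sum (evalAt η) F s

/-- `η ↦ (∑ j, η j * r j i)_i` -/
noncomputable def dualAct {n m : ℕ} (r : Matrix (Fin n) (Fin m) S) :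
    (Fin n → (M →+ UnitAddCircle)) →+ (Fin m → (M →+ UnitAddCircle)) where
  toFun η := fun i => ∑ j, rmulHom (r j i) (η j)
  map_zero' := by
    funext i
    simp
  map_add' η η' := by
    funext i
    simp [Finset.sum_add_distrib]

theorem dualAct_apply {n m : ℕ} (r : Matrix (Fin n) (Fin m) S)
    (η : Fin n → (M →+ UnitAddCircle)) (i : Fin m) :
    dualAct r η i = ∑ j, rmulHom (r j i) (η j) := rfl

/-- `η ↦ ∑ j, F j (η j)` -/
noncomputable def pairing {n : ℕ} (F : Fin n → BiDual M) :
    (Fin n → (M →+ UnitAddCircle)) →+ UnitAddCircle where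
  toFun η := ∑ j, (F j).toHom (η j)
  map_zero' := by simp
  map_add' η η' := by simp [Finset.sum_add_distrib]

theorem pairing_apply {n : ℕ} (F : Fin n → BiDual M) (η : Fin n → (M →+ UnitAddCircle)) :
    pairing F η = ∑ j, (F j).toHom (η j) := rfl

theorem mem_rng_iff {n m : ℕ} (r : Matrix (Fin n) (Fin m) S) (F : Fin n → BiDual M) :
    F ∈ rng r (BiDual M) ↔ ∀ η : Fin n → (M →+ UnitAddCircle), dualAct r η = 0 →
      pairing F η = 0 := by
  classical
  constructor
  · rintro ⟨G, rfl⟩ η hη
    rw [pairing_apply]
    have h1 : ∀ j, (act r G j).toHom (η j) = ∑ i, (G i).toHom (rmulHom (r j i) (η j)) := by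
      intro j
      rw [act_apply, toHom_sum]
      rfl
    simp only [h1]
    rw [Finset.sum_comm]
    refine Finset.sum_eq_zero fun i _ => ?_
    rw [← map_sum, ← dualAct_apply, hη, Pi.zero_apply, map_zero]
  · intro h
    obtain ⟨χ, hχ⟩ := char_factor (dualAct r) (pairing F) h
    let G : Fin m → BiDual M := fun i =>
      (χ.comp (AddMonoidHom.single (fun _ : Fin m => (M →+ UnitAddCircle)) i) :
        (M →+ UnitAddCircle) →+ UnitAddCircle)
    have hG : ∀ i η, (G i).toHom η = χ (Pi.single i η) := fun i η => rfl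
    refine ⟨G, ?_⟩
    funext j
    refine ext' fun η => ?_
    rw [act_apply, toHom_sum]
    have h2 : ∀ i, (r j i • G i).toHom η = χ (Pi.single i (rmulHom (r j i) η)) := fun i => rfl
    simp only [h2]
    have h3 := hχ (Pi.single j η)
    have h4 : pairing F (Pi.single j η) = (F j).toHom η := by
      rw [pairing_apply, Finset.sum_eq_single j]
      · rw [Pi.single_eq_same]
      · intro b _ hb
        rw [Pi.single_eq_of_ne hb, map_zero]
      · simp
    rw [h4] at h3
    rw [← h3, ← map_sum]
    congr 1
    funext i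
    rw [dualAct_apply, Finset.sum_apply, Finset.sum_eq_single i, Finset.sum_eq_single j]
    · rw [Pi.single_eq_same, Pi.single_eq_same]
    · intro b _ hb
      rw [Pi.single_eq_of_ne hb, map_zero]
    · simp
    · intro b _ hb
      rw [Pi.single_eq_of_ne hb.symm]
    · simp

/-- the canonical map `M → M⁺⁺` -/
noncomputable def ev : M →ₗ[S] BiDual M where
  toFun m := (({ toFun := fun η => η m, map_zero' := rfl, map_add' := fun _ _ => rfl } :
    (M →+ UnitAddCircle) →+ UnitAddCircle))
  map_add' m m' := ext' fun η => map_add η m m'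
  map_smul' _ _ := ext' fun _ => rfl

theorem ev_toHom (m : M) (η : M →+ UnitAddCircle) : (ev (S := S) m).toHom η = η m := rfl

/-- the quotient of `M ^ n` by `r M ^ m`, and the induced characters -/
theorem char_of_rng {n m : ℕ} (r : Matrix (Fin n) (Fin m) S)
    (χ : (Fin n → M) ⧸ rng r M →+ UnitAddCircle) :
    ∃ η : Fin n → (M →+ UnitAddCircle), dualAct r η = 0 ∧
      ∀ c : Fin n → M, χ (QuotientAddGroup.mk c) = ∑ j, η j (c j) := by
  classical
  let η : Fin n → (M →+ UnitAddCircle) := fun j =>
    (χ.comp (QuotientAddGroup.mk' (rng r M))).comp (AddMonoidHom.single (fun _ : Fin n => M) j)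
  have hη : ∀ c : Fin n → M, χ (QuotientAddGroup.mk c) = ∑ j, η j (c j) := by
    intro c
    have h1 : ∀ j, η j (c j) = (χ.comp (QuotientAddGroup.mk' (rng r M))) (Pi.single j (c j)) :=
      fun j => rfl
    simp only [h1]
    rw [← map_sum, Finset.univ_sum_single]
    rfl
  refine ⟨η, ?_, hη⟩
  funext i
  ext m₀
  rw [dualAct_apply, AddMonoidHom.finsetSum_apply]
  have h2 := hη (act r (Pi.single i m₀))
  have h3 : (QuotientAddGroup.mk (act r (Pi.single i m₀)) : (Fin n → M) ⧸ rng r M) = 0 := by
    rw [QuotientAddGroup.eq_zero_iff]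
    exact act_mem_rng r _
  rw [h3, map_zero] at h2
  rw [Pi.zero_apply, AddMonoidHom.zero_apply, h2]
  refine Finset.sum_congr rfl fun j _ => ?_
  change η j (r j i • m₀) = _
  congr 1
  rw [act_apply, Finset.sum_eq_single i]
  · rw [Pi.single_eq_same]
  · intro b _ hb
    rw [Pi.single_eq_of_ne hb, smul_zero]
  · simp

theorem isPure_ev : IsPure (ev : M →ₗ[S] BiDual M) := by
  intro n m r c hc
  have hc' := (mem_rng_iff r _).mp hc
  by_contra hcon
  have hne : (QuotientAddGroup.mk c : (Fin n → M) ⧸ rng r M) ≠ 0 := by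
    intro h
    rw [QuotientAddGroup.eq_zero_iff] at h
    exact hcon h
  obtain ⟨χ, hχ⟩ := exists_char_ne hne
  obtain ⟨η, hη0, hη⟩ := char_of_rng r χ
  apply hχ
  rw [hη]
  exact hc' η hη0

/-- Inclusions between pp-definable subgroups pass from `M` to `M⁺⁺`. -/
theorem holds_of_holds {φ ψ : PPFormula S} (h : ∀ x : M, φ.Holds x → ψ.Holds x)
    (F : BiDual M) (hF : φ.Holds F) : ψ.Holds F := by
  rw [PPFormula.holds_iff, mem_rng_iff] at hF ⊢
  intro η hη
  let η₀ : M →+ UnitAddCircle := ∑ j, rmulHom (ψ.s j) (η j)
  have h0 : ∀ x : M, ψ.Holds x → η₀ x = 0 := by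
    intro x hx
    obtain ⟨y, hy⟩ := hx
    have h1 : η₀ x = ∑ j, η j (ψ.s j • x) := by
      rw [AddMonoidHom.finsetSum_apply]
      rfl
    rw [h1]
    simp only [hy, map_sum]
    rw [Finset.sum_comm]
    refine Finset.sum_eq_zero fun i _ => ?_
    have h2 := DFunLike.congr_fun (congrFun hη i) (y i)
    rw [dualAct_apply, AddMonoidHom.finsetSum_apply, Pi.zero_apply,
      AddMonoidHom.zero_apply] at h2
    exact h2
  let g : M →+ (Fin φ.n → M) ⧸ rng φ.r M := (QuotientAddGroup.mk' (rng φ.r M)).comp
    (AddMonoidHom.pi fun j => DistribSMul.toAddMonoidHom M (φ.s j))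
  have hg : ∀ x : M, g x = QuotientAddGroup.mk (fun j => φ.s j • x) := fun x => rfl
  obtain ⟨χ, hχ⟩ := char_factor g η₀ (by
    intro x hx
    apply h0
    apply h
    rw [PPFormula.holds_iff]
    rw [hg, QuotientAddGroup.eq_zero_iff] at hx
    exact hx)
  obtain ⟨ζ, hζ0, hζ⟩ := char_of_rng φ.r χ
  have h5 := hF ζ hζ0
  have h6 : η₀ = ∑ j, rmulHom (φ.s j) (ζ j) := by
    ext x
    rw [← hχ x, hg, hζ, AddMonoidHom.finsetSum_apply]
    rfl
  have h7 : ∀ (l : ℕ) (s : Fin l → S) (ξ : Fin l → (M →+ UnitAddCircle)),
      pairing (fun j => s j • F) ξ = F.toHom (∑ j, rmulHom (s j) (ξ j)) := by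
    intro _ _ _
    rw [pairing_apply, map_sum]
    rfl
  rw [h7] at h5 ⊢
  change F.toHom η₀ = 0
  rw [h6, h5]

end BiDual

end BiDual

end Pool.Agent.Lib.MP_a53fda_al
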