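import Pool.Agent.Lib.MP_a53fda_al.Cond

/-!
# Existence of a linearly closed differential field
-/

set_option autoImplicit false

namespace Pool.Agent.Lib.MP_a53fda_al

universe u

/-- A derivation of a domain with values in its fraction field extends to the fraction field. -/
theorem exists_derivation_extend {A K : Type*} [CommRing A] [IsDomain A] [Field K] [Algebra A K]
    [IsFractionRing A K] (d : Derivation ℤ A K) :
    ∃ D : Derivation ℤ K K, ∀ a, D (algebraMap A K a) = d a := by
  classical
  let φ : A →+* TrivSqZeroExt K K :=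
    { toFun := fun a => TrivSqZeroExt.inl (algebraMap A K a) + TrivSqZeroExt.inr (d a)
      map_one' := by
        ext
        · simp
        · simp
      map_mul' := by
        intro a b
        ext
        · simp
        · simp only [TrivSqZeroExt.snd_add, TrivSqZeroExt.snd_inl, TrivSqZeroExt.snd_inr, zero_add,
            TrivSqZeroExt.snd_mul, TrivSqZeroExt.fst_add, TrivSqZeroExt.fst_inl,
            TrivSqZeroExt.fst_inr, add_zero, Derivation.leibniz, Algebra.smul_def (A := K)
            (R := A), smul_eq_mul, MulOpposite.smul_eq_mul_unop, MulOpposite.unop_op]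
          ring
      map_zero' := by
        ext
        · simp
        · simp
      map_add' := by
        intro a b
        ext
        · simp
        · simp }
  have hφ : ∀ y : nonZeroDivisors A, IsUnit (φ y) := by
    intro y
    rw [TrivSqZeroExt.isUnit_iff_isUnit_fst]
    have h1 : (φ y).fst = algebraMap A K y := by
      simp [φ]
    rw [h1]
    exact IsLocalization.map_units K y
  let ψ : K →+* TrivSqZeroExt K K := IsLocalization.lift hφ
  have hψ : ∀ a, ψ (algebraMap A K a) = φ a := fun a => IsLocalization.lift_eq hφ a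
  have hfst : ∀ x : K, (ψ x).fst = x := by
    have h2 : ((TrivSqZeroExt.fstHom K K K).toRingHom.comp ψ) = RingHom.id K := by
      apply IsLocalization.ringHom_ext (nonZeroDivisors A)
      ext a
      simp [hψ, φ]
    intro x
    have := congrArg (fun f : K →+* K => f x) h2
    simpa using this
  refine ⟨Derivation.mk' (AddMonoidHom.toIntLinearMap
    { toFun := fun x => (ψ x).snd
      map_zero' := by simp
      map_add' := fun x y => by simp }) ?_, ?_⟩
  · intro a b
    change (ψ (a * b)).snd = a • (ψ b).snd + b • (ψ a).snd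
    rw [map_mul, TrivSqZeroExt.snd_mul, hfst, hfst, op_smul_eq_smul]
  · intro a
    simp [hψ, φ]

/-- There is a linearly closed differential field: a differential field of characteristic zero
such that every connection on a finite-dimensional space is surjective. -/
theorem exists_condA : ∃ (k : Type u) (_ : Field k) (_ : CharZero k) (δ : Derivation ℤ k k),
    CondA δ := by
  classical
  have hcA : Countable (MvPolynomial (ULift.{u} ℕ) ℚ) := by
    rw [← Cardinal.mk_le_aleph0_iff]
    refine (MvPolynomial.cardinalMk_le_max_lift).trans ?_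
    simp
  have hcK : Countable (FractionRing (MvPolynomial (ULift.{u} ℕ) ℚ)) := by
    have hs : Function.Surjective (fun p : MvPolynomial (ULift.{u} ℕ) ℚ ×
        MvPolynomial (ULift.{u} ℕ) ℚ =>
        (algebraMap _ (FractionRing (MvPolynomial (ULift.{u} ℕ) ℚ)) p.1 /
          algebraMap _ (FractionRing (MvPolynomial (ULift.{u} ℕ) ℚ)) p.2)) := by
      intro x
      obtain ⟨a, b, _, h⟩ := IsFractionRing.div_surjective
        (A := MvPolynomial (ULift.{u} ℕ) ℚ) x
      exact ⟨(a, b), h⟩
    exact hs.countable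
  have hch : CharZero (FractionRing (MvPolynomial (ULift.{u} ℕ) ℚ)) := by
    infer_instance
  obtain ⟨J, hJ⟩ := Countable.exists_injective_nat
    (Σ n : ℕ, (((Fin n → Fin n → FractionRing (MvPolynomial (ULift.{u} ℕ) ℚ)) ×
      (Fin n → FractionRing (MvPolynomial (ULift.{u} ℕ) ℚ))) × Fin n))
  let x : ℕ → FractionRing (MvPolynomial (ULift.{u} ℕ) ℚ) := fun i =>
    algebraMap _ _ (MvPolynomial.X (ULift.up i) : MvPolynomial (ULift.{u} ℕ) ℚ)
  let g : (Σ n : ℕ, (((Fin n → Fin n → FractionRing (MvPolynomial (ULift.{u} ℕ) ℚ)) ×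
      (Fin n → FractionRing (MvPolynomial (ULift.{u} ℕ) ℚ))) × Fin n)) →
      FractionRing (MvPolynomial (ULift.{u} ℕ) ℚ) := fun t =>
    t.2.1.2 t.2.2 - ∑ j, t.2.1.1 t.2.2 j * x (J ⟨t.1, t.2.1, j⟩)
  let f : ULift.{u} ℕ → FractionRing (MvPolynomial (ULift.{u} ℕ) ℚ) := fun s =>
    Function.extend J g 0 s.down
  obtain ⟨δ, hδ⟩ := exists_derivation_extend
    ((MvPolynomial.mkDerivation ℚ f).restrictScalars ℤ)
  have hx : ∀ t, δ (x (J t)) = g t := by
    intro t
    have h1 := hδ (MvPolynomial.X (ULift.up (J t)))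
    have h2 : ((MvPolynomial.mkDerivation ℚ f).restrictScalars ℤ)
        (MvPolynomial.X (ULift.up (J t)) : MvPolynomial (ULift.{u} ℕ) ℚ) = f (ULift.up (J t)) :=
      MvPolynomial.mkDerivation_X _ _ _
    have h5 : δ (x (J t)) = Function.extend J g 0 (J t) := h1.trans h2
    rw [hJ.extend_apply] at h5
    exact h5
  refine ⟨FractionRing (MvPolynomial (ULift.{u} ℕ) ℚ), inferInstance, hch, δ, ?_⟩
  intro Z _ _ _ D hD z
  let b := Module.finBasis (FractionRing (MvPolynomial (ULift.{u} ℕ) ℚ)) Z
  let n := Module.finrank (FractionRing (MvPolynomial (ULift.{u} ℕ) ℚ)) Z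
  let M : Fin n → Fin n → FractionRing (MvPolynomial (ULift.{u} ℕ) ℚ) := fun i j =>
    b.repr (D (b j)) i
  let c : Fin n → FractionRing (MvPolynomial (ULift.{u} ℕ) ℚ) := fun i => b.repr z i
  let y : Fin n → FractionRing (MvPolynomial (ULift.{u} ℕ) ℚ) := fun j => x (J ⟨n, (M, c), j⟩)
  have hy : ∀ i, δ (y i) = c i - ∑ j, M i j * y j := fun i => hx ⟨n, (M, c), i⟩
  refine ⟨∑ j, y j • b j, ?_⟩
  rw [map_sum]
  have h3 : ∀ j, D (y j • b j) = (∑ i, (M i j * y j) • b i) +
      (c j • b j - (∑ l, (M j l * y l)) • b j) := by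
    intro j
    rw [hD, hy, sub_smul]
    congr 1
    conv_lhs => rw [← b.sum_repr (D (b j)), Finset.smul_sum]
    refine Finset.sum_congr rfl fun i _ => ?_
    rw [smul_smul, mul_comm]
  rw [Finset.sum_congr rfl fun j _ => h3 j, Finset.sum_add_distrib, Finset.sum_sub_distrib,
    Finset.sum_comm]
  have h4 : ∀ i, ∑ j, (M i j * y j) • b i = (∑ l, (M i l * y l)) • b i := by
    intro i
    rw [Finset.sum_smul]
  rw [Finset.sum_congr rfl fun j _ => h4 j, add_sub_cancel]
  exact b.sum_repr z

end Pool.Agent.Lib.MP_a53fda_al
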