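import Mathlib
import Pool.Agent.Lib.MP_a53fda_al.Defs

/-!
# Existence of the differential polynomial ring
-/

set_option autoImplicit false

namespace Pool.Agent.Lib.MP_a53fda_al

open Polynomial

universe u

section

variable {k : Type u} [Field k] (δ : Derivation ℤ k k)

/-- The derivation applied to all coefficients. -/
noncomputable def dcoef : k[X] →+ k[X] where
  toFun p := ∑ i ∈ p.support, monomial i (δ (p.coeff i))
  map_zero' := by simp
  map_add' := by
    have key : ∀ (p : k[X]) (n : ℕ),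
        (∑ i ∈ p.support, monomial i (δ (p.coeff i))).coeff n = δ (p.coeff n) := by
      intro p n
      rw [finsetSum_coeff]
      simp only [coeff_monomial]
      rw [Finset.sum_ite_eq']
      split_ifs with h
      · rfl
      · rw [notMem_support_iff.mp h, map_zero]
    intro p q
    ext n
    rw [coeff_add, key, key, key, coeff_add, map_add]

theorem coeff_dcoef (p : k[X]) (n : ℕ) : (dcoef δ p).coeff n = δ (p.coeff n) := by
  change (∑ i ∈ p.support, monomial i (δ (p.coeff i))).coeff n = δ (p.coeff n)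
  rw [finsetSum_coeff]
  simp only [coeff_monomial]
  rw [Finset.sum_ite_eq']
  split_ifs with h
  · rfl
  · rw [notMem_support_iff.mp h, map_zero]

theorem dcoef_smul (a : k) (p : k[X]) : dcoef δ (a • p) = a • dcoef δ p + δ a • p := by
  ext n
  simp only [coeff_dcoef, coeff_add, coeff_smul, smul_eq_mul, Derivation.leibniz]
  ring

theorem dcoef_X_pow (n : ℕ) : dcoef δ (X ^ n) = 0 := by
  ext m
  rw [coeff_dcoef, coeff_X_pow]
  split_ifs <;> simp

theorem end_mul_apply {M : Type u} [AddCommGroup M] (f g : AddMonoid.End M) (x : M) :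
    (f * g) x = f (g x) := rfl

theorem end_add_apply {M : Type u} [AddCommGroup M] (f g : AddMonoid.End M) (x : M) :
    (f + g) x = f x + g x := rfl

theorem toEnd_apply (a : k) (p : k[X]) :
    (Module.toAddMonoidEnd k k[X] a : AddMonoid.End k[X]) p = a • p := rfl

/-- The endomorphism `p ↦ δ(p) + T p`. -/
noncomputable def tEnd : AddMonoid.End k[X] := dcoef δ + AddMonoidHom.mulLeft X

theorem tEnd_apply (p : k[X]) : tEnd δ p = dcoef δ p + X * p := rfl

theorem tEnd_comm (a : k) : tEnd δ * Module.toAddMonoidEnd k k[X] a =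
    Module.toAddMonoidEnd k k[X] a * tEnd δ + Module.toAddMonoidEnd k k[X] (δ a) := by
  ext p : 1
  rw [end_mul_apply, end_add_apply, end_mul_apply]
  simp only [toEnd_apply, tEnd_apply, dcoef_smul, smul_add,
    mul_smul_comm]
  abel

theorem tEnd_pow_one (n : ℕ) : (tEnd δ ^ n) (1 : k[X]) = X ^ n := by
  induction n with
  | zero => simp
  | succ n ih =>
    rw [pow_succ', end_mul_apply, ih, tEnd_apply, dcoef_X_pow, zero_add, pow_succ']

theorem eval₂_tEnd_one (p : k[X]) :
    (eval₂ (Module.toAddMonoidEnd k k[X]) (tEnd δ) p) (1 : k[X]) = p := by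
  induction p using Polynomial.induction_on' with
  | add p q hp hq => rw [eval₂_add, end_add_apply, hp, hq]
  | monomial n a =>
    rw [eval₂_monomial, end_mul_apply, tEnd_pow_one,
      toEnd_apply, smul_X_eq_monomial]

theorem toEnd_mul_mem (a : k) (m : AddMonoid.End k[X])
    (hm : m ∈ Set.range (eval₂ (Module.toAddMonoidEnd k k[X]) (tEnd δ))) :
    Module.toAddMonoidEnd k k[X] a * m ∈
      Set.range (eval₂ (Module.toAddMonoidEnd k k[X]) (tEnd δ)) := by
  obtain ⟨q, rfl⟩ := hm
  exact ⟨a • q, eval₂_smul _ _ _⟩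

theorem tEnd_mul_mem (m : AddMonoid.End k[X])
    (hm : m ∈ Set.range (eval₂ (Module.toAddMonoidEnd k k[X]) (tEnd δ))) :
    tEnd δ * m ∈ Set.range (eval₂ (Module.toAddMonoidEnd k k[X]) (tEnd δ)) := by
  obtain ⟨q, rfl⟩ := hm
  induction q using Polynomial.induction_on' with
  | add p q hp hq =>
    obtain ⟨p', hp'⟩ := hp
    obtain ⟨q', hq'⟩ := hq
    exact ⟨p' + q', by rw [eval₂_add, eval₂_add, mul_add, hp', hq']⟩
  | monomial n a =>
    refine ⟨monomial (n + 1) a + monomial n (δ a), ?_⟩
    rw [eval₂_add, eval₂_monomial, eval₂_monomial, eval₂_monomial, ← mul_assoc, tEnd_comm,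
      add_mul, mul_assoc, ← pow_succ']

theorem tEnd_pow_mul_mem (n : ℕ) (m : AddMonoid.End k[X])
    (hm : m ∈ Set.range (eval₂ (Module.toAddMonoidEnd k k[X]) (tEnd δ))) :
    tEnd δ ^ n * m ∈ Set.range (eval₂ (Module.toAddMonoidEnd k k[X]) (tEnd δ)) := by
  induction n with
  | zero => simpa using hm
  | succ n ih =>
    rw [pow_succ', mul_assoc]
    exact tEnd_mul_mem δ _ ih

/-- The subring of all differential operators `∑ a_i T^i`. -/
noncomputable def opRing : Subring (AddMonoid.End k[X]) where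
  carrier := Set.range (eval₂ (Module.toAddMonoidEnd k k[X]) (tEnd δ))
  mul_mem' := by
    rintro x y ⟨p, rfl⟩ hy
    induction p using Polynomial.induction_on' with
    | add p q hp hq =>
      obtain ⟨p', hp'⟩ := hp
      obtain ⟨q', hq'⟩ := hq
      exact ⟨p' + q', by rw [eval₂_add, eval₂_add, add_mul, hp', hq']⟩
    | monomial n a =>
      rw [eval₂_monomial, mul_assoc]
      exact toEnd_mul_mem δ _ _ (tEnd_pow_mul_mem δ _ _ hy)
  one_mem' := ⟨1, eval₂_one _ _⟩
  add_mem' := by
    rintro x y ⟨p, rfl⟩ ⟨q, rfl⟩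
    exact ⟨p + q, eval₂_add _ _⟩
  zero_mem' := ⟨0, eval₂_zero _ _⟩
  neg_mem' := by
    rintro x ⟨p, rfl⟩
    refine ⟨-p, ?_⟩
    rw [eq_neg_iff_add_eq_zero, ← eval₂_add, neg_add_cancel, eval₂_zero]

end

theorem toEnd_mem {k : Type u} [Field k] (δ : Derivation ℤ k k) (a : k) :
    Module.toAddMonoidEnd k k[X] a ∈ opRing δ := ⟨C a, eval₂_C _ _⟩

theorem tEnd_mem {k : Type u} [Field k] (δ : Derivation ℤ k k) :
    tEnd δ ∈ opRing δ := ⟨X, eval₂_X _ _⟩

/-- The differential polynomial ring exists. -/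
theorem exists_isDiffPolyRing {k : Type u} [Field k] (δ : Derivation ℤ k k) :
    ∃ (R : Type u) (_ : Ring R) (ι : k →+* R) (X : R), IsDiffPolyRing δ ι X := by
  refine ⟨opRing δ, inferInstance,
    (Module.toAddMonoidEnd k k[X]).codRestrict (opRing δ) (toEnd_mem δ),
    ⟨tEnd δ, tEnd_mem δ⟩, ?_, ?_⟩
  · intro a
    apply Subtype.ext
    have h := tEnd_comm δ a
    change tEnd δ * Module.toAddMonoidEnd k k[X] a - Module.toAddMonoidEnd k k[X] a * tEnd δ =
      Module.toAddMonoidEnd k k[X] (δ a)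
    rw [h]
    abel
  · have key : ∀ p : k[X], ((p.sum fun i a =>
        ((Module.toAddMonoidEnd k k[X]).codRestrict (opRing δ) (toEnd_mem δ)) a *
        (⟨tEnd δ, tEnd_mem δ⟩ : opRing δ) ^ i : opRing δ) : AddMonoid.End k[X]) =
        eval₂ (Module.toAddMonoidEnd k k[X]) (tEnd δ) p := by
      intro p
      rw [← eval₂_eq_sum]
      exact hom_eval₂ p _ (opRing δ).subtype _
    rintro ⟨s, p, rfl⟩
    refine ⟨p, ?_, ?_⟩
    · apply Subtype.ext
      rw [key]
    · intro q hq
      have h1 := congrArg Subtype.val hq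
      rw [key] at h1
      change eval₂ (Module.toAddMonoidEnd k k[X]) (tEnd δ) p = _ at h1
      have h2 := congrArg (fun f : AddMonoid.End k[X] => f (1 : k[X])) h1
      simp only [eval₂_tEnd_one] at h2
      exact h2.symm

end Pool.Agent.Lib.MP_a53fda_al
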