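import Mathlib

/-!
# Extension of a derivation to the fraction field
-/

set_option autoImplicit false

namespace Pool.Agent.Lib.MP_a53fda_al

/-- A derivation of a domain with values in its fraction field extends to the fraction field. -/
theorem exists_derivation_extend {A K : Type*} [CommRing A] [IsDomain A] [Field K] [Algebra A K]
    [IsFractionRing A K] (d : Derivation ℤ A K) :
    ∃ D : Derivation ℤ K K, ∀ a, D (algebraMap A K a) = d a := by
  let f : A →+* TrivSqZeroExt K K :=
    { toFun := fun a => TrivSqZeroExt.inl (algebraMap A K a) + TrivSqZeroExt.inr (d a)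
      map_one' := by simp
      map_zero' := by simp
      map_add' := by
        intro a b
        ext <;> simp
      map_mul' := by
        intro a b
        have h : d (a * b) = algebraMap A K a * d b + algebraMap A K b * d a := by
          rw [d.leibniz, Algebra.smul_def, Algebra.smul_def]
        ext
        · simp
        · simp only [TrivSqZeroExt.snd_add, TrivSqZeroExt.snd_inl, TrivSqZeroExt.snd_inr, h,
            TrivSqZeroExt.snd_mul, TrivSqZeroExt.fst_add, TrivSqZeroExt.fst_inl,
            TrivSqZeroExt.fst_inr, smul_eq_mul, MulOpposite.smul_eq_mul_unop,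
            MulOpposite.unop_op, zero_add, add_zero]
          ring }
  have hf : ∀ y : nonZeroDivisors A, IsUnit (f y) := by
    intro y
    rw [TrivSqZeroExt.isUnit_iff_isUnit_fst]
    simp [f]
  let g : K →+* TrivSqZeroExt K K := IsLocalization.lift hf
  have hg : ∀ a : A, g (algebraMap A K a) = f a := fun a => IsLocalization.lift_eq hf a
  have hfst : ∀ x : K, (g x).fst = x := by
    intro x
    have h1 : ((TrivSqZeroExt.fstHom K K K).toRingHom.comp g) = RingHom.id K := by
      apply IsLocalization.ringHom_ext (nonZeroDivisors A)
      ext a
      simp [hg, f]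
    have h2 := RingHom.congr_fun h1 x
    simpa using h2
  refine ⟨Derivation.mk' (AddMonoidHom.toIntLinearMap
    { toFun := fun x => (g x).snd
      map_zero' := by simp
      map_add' := by intro x y; simp }) ?_, ?_⟩
  · intro x y
    simp [hfst]
    exact mul_comm _ _
  · intro a
    simp [hg, f]

end Pool.Agent.Lib.MP_a53fda_al
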