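import Mathlib
import Pool.Agent.Lib.MP_a53fda_al.Cond
import Pool.Agent.Lib.MP_a53fda_al.Extend

/-!
# A differential field with neither condition A nor condition B

The field is `Q(t)` with the derivation `d/dt`.
-/

set_option autoImplicit false

namespace Pool.Agent.Lib.MP_a53fda_al

open Polynomial

universe u

section

variable {F K : Type u} [Field F] [CharZero F] [Field K] [Algebra F[X] K] [IsFractionRing F[X] K]
  {δ : Derivation ℤ K K}

/-- The quotient rule. -/
theorem deriv_div (p q : K) (hq : q ≠ 0) (δ : Derivation ℤ K K) :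
    δ (p / q) * q ^ 2 = δ p * q - p * δ q := by
  have h1 : δ (p / q * q) = (p / q) • δ q + q • δ (p / q) := δ.leibniz _ _
  rw [div_mul_cancel₀ p hq] at h1
  simp only [smul_eq_mul] at h1
  rw [h1]
  field_simp
  ring

theorem no_primitive (hδ : ∀ p : F[X], δ (algebraMap F[X] K p) = algebraMap F[X] K (derivative p))
    (c : F) (a : K) :
    δ a + algebraMap F[X] K (C c) * a ≠ (algebraMap F[X] K X)⁻¹ := by
  intro h
  obtain ⟨p, ⟨q, hqm⟩, hpq, rfl⟩ := IsFractionRing.exists_reduced_fraction (A := F[X]) a
  have hq0 : q ≠ 0 := nonZeroDivisors.ne_zero hqm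
  have hqK : algebraMap F[X] K q ≠ 0 := by
    intro h0
    exact hq0 ((IsFractionRing.injective F[X] K) (by rw [h0, map_zero]))
  have hXK : algebraMap F[X] K X ≠ 0 := by
    intro h0
    exact X_ne_zero ((IsFractionRing.injective F[X] K) (by rw [h0, map_zero]))
  rw [IsFractionRing.mk'_eq_div] at h
  simp only at h hpq
  have h2 := deriv_div (algebraMap F[X] K p) (algebraMap F[X] K q) hqK δ
  rw [hδ, hδ] at h2
  have h3 : algebraMap F[X] K (X * (derivative p * q - p * derivative q + C c * p * q))
      = algebraMap F[X] K (q ^ 2) := by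
    simp only [map_mul, map_add, map_sub, map_pow]
    rw [← h2]
    have h4 : δ (algebraMap F[X] K p / algebraMap F[X] K q) =
        (algebraMap F[X] K X)⁻¹ - algebraMap F[X] K (C c) *
          (algebraMap F[X] K p / algebraMap F[X] K q) := by
      rw [← h]; ring
    rw [h4]
    field_simp
    ring
  have h5 : X * (derivative p * q - p * derivative q + C c * p * q) = q ^ 2 :=
    (IsFractionRing.injective F[X] K) h3
  have hXq : (X : F[X]) ∣ q := by
    have : (X : F[X]) ∣ q ^ 2 := ⟨_, h5.symm⟩
    exact prime_X.dvd_of_dvd_pow this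
  have hXp : ¬ (X : F[X]) ∣ p := by
    intro hp
    exact not_isUnit_X (hpq hp hXq)
  obtain ⟨q1, hq1, hq1'⟩ := exists_eq_pow_rootMultiplicity_mul_and_not_dvd q hq0 0
  rw [C_0, sub_zero] at hq1 hq1'
  set m := rootMultiplicity 0 q with hm
  have hm1 : m ≠ 0 := by
    intro h0
    rw [h0, pow_zero, one_mul] at hq1
    exact hq1' (hq1 ▸ hXq)
  obtain ⟨r, hr⟩ : ∃ r, m = r + 1 := Nat.exists_eq_succ_of_ne_zero hm1
  rw [hr] at hq1
  rw [hq1] at h5
  have h6 : X ^ (r + 1) * (X * derivative p * q1 - C ((r : F) + 1) * p * q1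
      - X * p * derivative q1 + C c * X * p * q1) = X ^ (r + 1) * (X ^ (r + 1) * q1 ^ 2) := by
    have h7 : derivative (X ^ (r + 1) * q1) = C ((r : F) + 1) * X ^ r * q1 +
        X ^ (r + 1) * derivative q1 := by
      rw [derivative_mul, derivative_X_pow]
      simp
    rw [h7] at h5
    calc _ = X * (derivative p * (X ^ (r + 1) * q1) - p * (C ((r : F) + 1) * X ^ r * q1 +
        X ^ (r + 1) * derivative q1) + C c * p * (X ^ (r + 1) * q1)) := by ring
      _ = _ := by rw [h5]; ring
  have h8 := mul_left_cancel₀ (pow_ne_zero (r + 1) (X_ne_zero (R := F))) h6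
  have h9 := congrArg (eval 0) h8
  simp at h9
  rw [X_dvd_iff, coeff_zero_eq_eval_zero] at hXp hq1'
  rcases h9 with (h9 | h9) | h9
  · exact (Nat.cast_add_one_ne_zero r) h9
  · exact hXp h9
  · exact hq1' h9

omit [CharZero F] in
theorem no_exp (hδ : ∀ p : F[X], δ (algebraMap F[X] K p) = algebraMap F[X] K (derivative p))
    (y : K) (hy : δ y = y) : y = 0 := by
  by_contra hy0
  obtain ⟨p, ⟨q, hqm⟩, hpq, rfl⟩ := IsFractionRing.exists_reduced_fraction (A := F[X]) y
  have hq0 : q ≠ 0 := nonZeroDivisors.ne_zero hqm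
  have hqK : algebraMap F[X] K q ≠ 0 := by
    intro h0
    exact hq0 ((IsFractionRing.injective F[X] K) (by rw [h0, map_zero]))
  rw [IsFractionRing.mk'_eq_div] at hy hy0
  simp only at hy hy0
  have hp0 : p ≠ 0 := by
    rintro rfl
    simp at hy0
  have h2 := deriv_div (algebraMap F[X] K p) (algebraMap F[X] K q) hqK δ
  rw [hδ, hδ, hy] at h2
  have h3 : algebraMap F[X] K (p * q) =
      algebraMap F[X] K (derivative p * q - p * derivative q) := by
    simp only [map_mul, map_sub]
    rw [← h2]
    field_simp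
  have h5 : p * q = derivative p * q - p * derivative q :=
    (IsFractionRing.injective F[X] K) h3
  have hpb : degree p ≠ ⊥ := by rwa [Ne, degree_eq_bot]
  have hqb : degree q ≠ ⊥ := by rwa [Ne, degree_eq_bot]
  have h6 : degree (derivative p * q) < degree (p * q) := by
    rw [degree_mul, degree_mul]
    exact WithBot.add_lt_add_right hqb (degree_derivative_lt hp0)
  have h7 : degree (p * derivative q) < degree (p * q) := by
    rw [degree_mul, degree_mul]
    exact WithBot.add_lt_add_left hpb (degree_derivative_lt hq0)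
  have h8 := lt_of_le_of_lt (degree_sub_le (derivative p * q) (p * derivative q))
    (max_lt h6 h7)
  rw [← h5] at h8
  exact lt_irrefl _ h8

omit [CharZero F] in
theorem exists_deriv : ∃ δ : Derivation ℤ K K,
    ∀ p : F[X], δ (algebraMap F[X] K p) = algebraMap F[X] K (derivative p) := by
  obtain ⟨δ, hδ⟩ := exists_derivation_extend (A := F[X]) (K := K)
    (Derivation.mk' (AddMonoidHom.toIntLinearMap
      { toFun := fun p => algebraMap F[X] K (derivative p)
        map_zero' := by simp
        map_add' := by intro x y; simp }) (by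
      intro p q
      simp only [AddMonoidHom.coe_toIntLinearMap, AddMonoidHom.coe_mk, ZeroHom.coe_mk,
        derivative_mul, map_add, map_mul, Algebra.smul_def]
      ring))
  exact ⟨δ, fun p => by rw [hδ p]; rfl⟩

theorem not_condA_of_rat
    (hδ : ∀ p : F[X], δ (algebraMap F[X] K p) = algebraMap F[X] K (derivative p)) :
    ¬ CondA δ := by
  intro h
  obtain ⟨z', hz'⟩ := h K (δ : K →+ K) (by
    intro a z
    simp [mul_comm]) (algebraMap F[X] K X)⁻¹
  apply no_primitive hδ 0 z'
  simpa using hz'

theorem not_condB_of_rat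
    (hδ : ∀ p : F[X], δ (algebraMap F[X] K p) = algebraMap F[X] K (derivative p)) :
    ¬ CondB δ := by
  rintro ⟨c, e, hce, h⟩
  obtain ⟨θ, hθ1, a', hθ2⟩ := h K (δ : K →+ K) (by
    intro a z
    simp [mul_comm]) (algebraMap F[X] K X)⁻¹ (by
    intro z' hz'
    apply no_primitive hδ 0 z'
    simpa using hz')
  obtain ⟨η, hη1, b', hη2⟩ := h K ((δ : K →+ K) + AddMonoidHom.id K) (by
    intro a z
    simp
    ring) (algebraMap F[X] K X)⁻¹ (by
    intro z' hz'
    apply no_primitive hδ 1 z'
    simpa using hz')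
  have ha : δ (θ 1) = - c * θ 1 := by
    have := hθ1 1
    simp at this
    linear_combination -this
  have hb : δ (η 1) = (1 - c) * η 1 := by
    have := hη1 1
    simp at this
    linear_combination -this
  have ha0 : θ 1 ≠ 0 := by
    intro h0
    have h1 : ∀ x, θ x = 0 := by
      intro x
      have : θ (x • (1 : K)) = x • θ 1 := θ.map_smul x 1
      rw [h0, smul_zero, smul_eq_mul, mul_one] at this
      exact this
    rw [h1] at hθ2
    apply hce (-a')
    rw [map_neg]
    linear_combination hθ2
  have hb0 : η 1 ≠ 0 := by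
    intro h0
    have h1 : ∀ x, η x = 0 := by
      intro x
      have : η (x • (1 : K)) = x • η 1 := η.map_smul x 1
      rw [h0, smul_zero, smul_eq_mul, mul_one] at this
      exact this
    rw [h1] at hη2
    apply hce (-b')
    rw [map_neg]
    linear_combination hη2
  have h3 := deriv_div (η 1) (θ 1) ha0 δ
  rw [ha, hb] at h3
  have h4 : δ (η 1 / θ 1) = η 1 / θ 1 := by
    have h5 : θ 1 ^ 2 ≠ 0 := pow_ne_zero 2 ha0
    apply mul_right_cancel₀ h5
    rw [h3]
    field_simp
    ring
  have h6 := no_exp hδ _ h4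
  rcases div_eq_zero_iff.mp h6 with h7 | h7
  · exact hb0 h7
  · exact ha0 h7

end

theorem exists_not_condA_not_condB : ∃ (k : Type u) (_ : Field k) (_ : CharZero k)
    (δ : Derivation ℤ k k), ¬ CondA δ ∧ ¬ CondB δ := by
  have h1 : CharZero (ULift.{u} ℚ) :=
    charZero_of_injective_ringHom (f := (ULift.ringEquiv (R := ℚ)).symm.toRingHom)
      (ULift.ringEquiv (R := ℚ)).symm.injective
  obtain ⟨δ, hδ⟩ := exists_deriv (F := ULift.{u} ℚ) (K := FractionRing (ULift.{u} ℚ)[X])
  have hchar : CharZero (FractionRing (ULift.{u} ℚ)[X]) :=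
    charZero_of_injective_algebraMap (IsFractionRing.injective (ULift.{u} ℚ)[X] _)
  exact ⟨FractionRing (ULift.{u} ℚ)[X], inferInstance, hchar, δ, not_condA_of_rat hδ,
    not_condB_of_rat hδ⟩

end Pool.Agent.Lib.MP_a53fda_al
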