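import Pool.Agent.Lib.MP_a53fda_al.Cond

/-!
# A universal class forces condition B
-/

set_option autoImplicit false

namespace Pool.Agent.Lib.MP_a53fda_al

universe u

section

variable {k : Type u} [Field k] (δ : Derivation ℤ k k)

/-- `(W, D, ε)` is a universal class. -/
structure IsUniv {W : Type u} [AddCommGroup W] [Module k W] (D : W →+ W) (ε : W) : Prop where
  conn : IsConn δ D
  out : ∀ w, D w ≠ ε
  univ : ∀ (Z : Type u) [AddCommGroup Z] [Module k Z] [Module.Finite k Z] (D' : Z →+ Z),
      IsConn δ D' → ∀ z : Z, (∀ z', D' z' ≠ z) →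
        ∃ ν : Z →ₗ[k] W, (∀ x, ν (D' x) = D (ν x)) ∧ ∃ w, ν z = ε + D w

/-- `n` is at most the dimension of every universal class. -/
def MinDim (n : ℕ) : Prop :=
  ∀ (W : Type u) [AddCommGroup W] [Module k W] [Module.Finite k W] (D : W →+ W) (ε : W),
    IsUniv δ D ε → n ≤ Module.finrank k W

variable {δ}

theorem m1 {W : Type u} [AddCommGroup W] [Module k W] [Module.Finite k W] {D : W →+ W} {ε : W}
    (hU : IsUniv δ D ε) (hmin : MinDim δ (Module.finrank k W))
    {W' : Type u} [AddCommGroup W'] [Module k W'] [Module.Finite k W'] (D' : W' →+ W')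
    (hD' : IsConn δ D') (u : W →ₗ[k] W') (hu : ∀ x, u (D x) = D' (u x))
    (hout : ∀ z, D' z ≠ u ε) :
    ∃ ν : W' →ₗ[k] W, (∀ x, ν (D' x) = D (ν x)) ∧ Function.Bijective (ν ∘ₗ u) := by
  obtain ⟨ν, hν, w0, hw0⟩ := hU.univ W' D' hD' (u ε) hout
  refine ⟨ν, hν, ?_⟩
  set g : W →ₗ[k] W := ν ∘ₗ u with hg
  have hgD : ∀ x, g (D x) = D (g x) := by
    intro x
    rw [hg, LinearMap.comp_apply, hu, hν, LinearMap.comp_apply]
  have hgε : g ε = ε + D w0 := by rw [hg, LinearMap.comp_apply, hw0]
  let D2 : LinearMap.range g →+ LinearMap.range g :=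
    { toFun := fun y => ⟨D y.1, by
        obtain ⟨x, hx⟩ := y.2
        exact ⟨D x, by rw [hgD, hx]⟩⟩
      map_zero' := by
        apply Subtype.ext
        simp
      map_add' := fun x y => by
        apply Subtype.ext
        simp }
  have hD2 : ∀ y, ((D2 y : LinearMap.range g) : W) = D y.1 := fun y => rfl
  have hrr : ∀ y, ((g.rangeRestrict y : LinearMap.range g) : W) = g y := fun y => rfl
  have hU2 : IsUniv δ D2 ⟨g ε, ⟨ε, rfl⟩⟩ := by
    refine ⟨?_, ?_, ?_⟩
    · intro a z
      apply Subtype.ext
      rw [hD2, Submodule.coe_add, Submodule.coe_smul, Submodule.coe_smul, Submodule.coe_smul, hD2]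
      exact hU.conn a z.1
    · intro w h
      have h1 := congrArg Subtype.val h
      rw [hD2] at h1
      simp only [hgε] at h1
      apply hU.out (w.1 - w0)
      rw [map_sub, h1]
      abel
    · intro Z _ _ _ DZ hDZ z hz
      obtain ⟨ν', hν', w, hw⟩ := hU.univ Z DZ hDZ z hz
      refine ⟨g.rangeRestrict ∘ₗ ν', ?_, ⟨g w, ⟨w, rfl⟩⟩, ?_⟩
      · intro x
        apply Subtype.ext
        rw [hD2, LinearMap.comp_apply, LinearMap.comp_apply, hrr, hrr, hν', hgD]
      · apply Subtype.ext
        rw [Submodule.coe_add, hD2, LinearMap.comp_apply, hrr, hw, map_add, hgD]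
  have h1 := hmin (LinearMap.range g) D2 _ hU2
  have hsurj : Function.Surjective g := by
    rw [← LinearMap.range_eq_top]
    exact Submodule.eq_top_of_finrank_eq (le_antisymm (Submodule.finrank_le _) h1)
  exact ⟨LinearMap.injective_iff_surjective.mpr hsurj, hsurj⟩

theorem m2 {W : Type u} [AddCommGroup W] [Module k W] [Module.Finite k W] {D : W →+ W} {ε : W}
    (hU : IsUniv δ D ε) (hmin : MinDim δ (Module.finrank k W))
    {Z : Type u} [AddCommGroup Z] [Module k Z] (DZ : Z →+ Z)
    (ν : Z →ₗ[k] W) (hν : ∀ x, ν (DZ x) = D (ν x)) (hne : ν ≠ 0) :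
    ∃ z w, ν z = ε + D w := by
  set I : Submodule k W := LinearMap.range ν with hI
  have hDI : ∀ w ∈ I, D w ∈ I := by
    rintro w ⟨z, rfl⟩
    exact ⟨DZ z, hν z⟩
  let D' : (W ⧸ I) →+ (W ⧸ I) :=
    QuotientAddGroup.map I.toAddSubgroup I.toAddSubgroup D (by
      intro w hw
      exact hDI w hw)
  have hD' : ∀ w : W, D' (I.mkQ w) = I.mkQ (D w) := fun w => rfl
  have hconn : IsConn δ D' := by
    intro a z
    obtain ⟨w, rfl⟩ := I.mkQ_surjective z
    rw [← map_smul, hD', hD', hU.conn a w, map_add, map_smul, map_smul]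
  by_cases hout : ∀ z, D' z ≠ I.mkQ ε
  · exfalso
    obtain ⟨ν', hν', hb⟩ := m1 hU hmin D' hconn I.mkQ (fun x => (hD' x).symm) hout
    apply hne
    ext z
    have h1 : I.mkQ (ν z) = 0 := by
      rw [Submodule.mkQ_apply, Submodule.Quotient.mk_eq_zero]
      exact ⟨z, rfl⟩
    have h2 : (ν' ∘ₗ I.mkQ) (ν z) = 0 := by
      rw [LinearMap.comp_apply, h1, map_zero]
    have h3 : ν z = 0 := hb.1 (by rw [h2, map_zero])
    rw [h3, LinearMap.zero_apply]
  · push Not at hout
    obtain ⟨z, hz⟩ := hout
    obtain ⟨w, rfl⟩ := I.mkQ_surjective z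
    rw [hD'] at hz
    have h1 : ε - D w ∈ I := by
      rw [← Submodule.Quotient.mk_eq_zero, ← Submodule.mkQ_apply, map_sub, hz, sub_self]
    obtain ⟨z, hz⟩ := h1
    refine ⟨z, -w, ?_⟩
    rw [hz, map_neg, sub_eq_add_neg]

/-- The connection on `Hom(Y, W)`. -/
def homConn {Y W : Type u} [AddCommGroup Y] [Module k Y] [AddCommGroup W] [Module k W]
    (DY : Y →+ Y) (D : W →+ W) (hY : IsConn δ DY) (hW : IsConn δ D) :
    (Y →ₗ[k] W) →+ (Y →ₗ[k] W) where
  toFun f :=
    { toFun := fun y => D (f y) - f (DY y)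
      map_add' := fun x y => by
        simp only [map_add]
        abel
      map_smul' := fun a y => by
        simp only [map_smul, RingHom.id_apply, smul_sub]
        rw [hY a y, hW a (f y), map_add, map_smul, map_smul]
        abel }
  map_zero' := by
    ext y
    simp
  map_add' f g := by
    ext y
    simp only [LinearMap.coe_mk, AddHom.coe_mk, LinearMap.add_apply, map_add]
    abel

theorem homConn_apply {Y W : Type u} [AddCommGroup Y] [Module k Y] [AddCommGroup W] [Module k W]
    (DY : Y →+ Y) (D : W →+ W) (hY : IsConn δ DY) (hW : IsConn δ D) (f : Y →ₗ[k] W) (y : Y) :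
    homConn DY D hY hW f y = D (f y) - f (DY y) := rfl

theorem homConn_conn {Y W : Type u} [AddCommGroup Y] [Module k Y] [AddCommGroup W] [Module k W]
    (DY : Y →+ Y) (D : W →+ W) (hY : IsConn δ DY) (hW : IsConn δ D) :
    IsConn δ (homConn DY D hY hW) := by
  intro a f
  ext y
  rw [homConn_apply, LinearMap.add_apply, LinearMap.smul_apply, LinearMap.smul_apply,
    LinearMap.smul_apply, LinearMap.smul_apply, homConn_apply, hW]
  rw [smul_sub]
  abel

theorem dd {W : Type u} [AddCommGroup W] [Module k W] [Module.Finite k W] {D : W →+ W} {ε : W}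
    (hU : IsUniv δ D ε) (hmin : MinDim δ (Module.finrank k W))
    {Y : Type u} [AddCommGroup Y] [Module k Y] [Module.Finite k Y] (DY : Y →+ Y)
    (hY : IsConn δ DY) (ξ : Y →ₗ[k] W) :
    (∃ f : Y →ₗ[k] W, homConn DY D hY hU.conn f = ξ) ∨
      ∃ y, DY y = 0 ∧ ∃ w, ξ y = ε + D w := by
  let DV : (W × Y) →+ (W × Y) :=
    { toFun := fun p => (D p.1 + ξ p.2, DY p.2)
      map_zero' := by simp
      map_add' := fun p q => by
        apply Prod.ext
        · simp only [Prod.fst_add, Prod.snd_add, map_add]
          abel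
        · simp only [Prod.snd_add, map_add] }
  have hDV : ∀ p, DV p = (D p.1 + ξ p.2, DY p.2) := fun p => rfl
  have hconn : IsConn δ DV := by
    intro a p
    rw [hDV, hDV]
    apply Prod.ext
    · simp only [Prod.smul_fst, Prod.smul_snd, Prod.fst_add, map_smul, smul_add]
      rw [hU.conn]
      abel
    · simp only [Prod.smul_snd, Prod.snd_add]
      rw [hY]
  by_cases hout : ∀ z, DV z ≠ (LinearMap.inl k W Y) ε
  · left
    obtain ⟨ν, hν, hb⟩ := m1 hU hmin DV hconn (LinearMap.inl k W Y)
      (fun x => by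
        rw [hDV]
        simp) hout
    set g : W →ₗ[k] W := ν ∘ₗ LinearMap.inl k W Y with hg
    have hgD : ∀ x, g (D x) = D (g x) := by
      intro x
      have := hν (x, 0)
      rw [hDV] at this
      simpa [hg] using this
    let G : W ≃ₗ[k] W := LinearEquiv.ofBijective g hb
    have hG : ∀ x, G x = g x := fun x => rfl
    have hGs : ∀ x, G.symm (D x) = D (G.symm x) := by
      intro x
      apply G.injective
      rw [LinearEquiv.apply_symm_apply, hG, hgD, ← hG, LinearEquiv.apply_symm_apply]
    let r : (W × Y) →ₗ[k] W := G.symm.toLinearMap ∘ₗ ν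
    have hr : ∀ x, r x = G.symm (ν x) := fun x => rfl
    have hrD : ∀ x, r (DV x) = D (r x) := by
      intro x
      rw [hr, hr, hν, hGs]
    have hr1 : ∀ w, r (w, 0) = w := by
      intro w
      rw [hr]
      apply G.injective
      rw [LinearEquiv.apply_symm_apply]
      rfl
    refine ⟨r ∘ₗ LinearMap.inr k W Y, ?_⟩
    ext y
    rw [homConn_apply]
    simp only [LinearMap.comp_apply, LinearMap.inr_apply]
    have h1 := hrD (0, y)
    rw [hDV] at h1
    simp only [map_zero, zero_add] at h1
    have h2 : ((ξ y, DY y) : W × Y) = (ξ y, 0) + (0, DY y) := by simp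
    rw [h2, map_add, hr1] at h1
    rw [← h1]
    abel
  · right
    push Not at hout
    obtain ⟨⟨w, y⟩, hz⟩ := hout
    rw [hDV] at hz
    simp only [LinearMap.inl_apply, Prod.mk.injEq] at hz
    refine ⟨y, hz.2, -w, ?_⟩
    rw [map_neg, ← hz.1]
    abel

variable (δ) in
/-- The field of constants. -/
def constField : Subfield k where
  carrier := {a | δ a = 0}
  mul_mem' {a b} ha hb := by
    simp only [Set.mem_ofPred_eq] at ha hb ⊢
    rw [Derivation.leibniz, ha, hb, smul_zero, smul_zero, add_zero]
  one_mem' := by simp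
  add_mem' {a b} ha hb := by
    simp only [Set.mem_ofPred_eq] at ha hb ⊢
    rw [map_add, ha, hb, add_zero]
  zero_mem' := by simp
  neg_mem' {a} ha := by
    simp only [Set.mem_ofPred_eq] at ha ⊢
    rw [map_neg, ha, neg_zero]
  inv_mem' a ha := by
    simp only [Set.mem_ofPred_eq] at ha ⊢
    rw [Derivation.leibniz_inv, ha, smul_zero]

theorem mem_constField {a : k} : a ∈ constField δ ↔ δ a = 0 := Iff.rfl

theorem conn_const {Y : Type u} [AddCommGroup Y] [Module k Y] {DY : Y →+ Y}
    (hY : IsConn δ DY) (c : constField δ) (y : Y) : DY (c • y) = c • DY y := by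
  have h : DY ((c : k) • y) = (c : k) • DY y + δ (c : k) • y := hY _ _
  rw [mem_constField.mp c.2, zero_smul, add_zero] at h
  exact h

/-- The horizontal vectors. -/
def horVec {Y : Type u} [AddCommGroup Y] [Module k Y] (DY : Y →+ Y) (hY : IsConn δ DY) :
    Submodule (constField δ) Y where
  carrier := {y | DY y = 0}
  add_mem' {a b} ha hb := by
    simp only [Set.mem_ofPred_eq] at ha hb ⊢
    rw [map_add, ha, hb, add_zero]
  zero_mem' := by simp
  smul_mem' c y hy := by
    simp only [Set.mem_ofPred_eq] at hy ⊢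
    rw [conn_const hY, hy, smul_zero]

theorem mem_horVec {Y : Type u} [AddCommGroup Y] [Module k Y] {DY : Y →+ Y} {hY : IsConn δ DY}
    {y : Y} : y ∈ horVec DY hY ↔ DY y = 0 := Iff.rfl

theorem linInd_hor {Y : Type u} [AddCommGroup Y] [Module k Y] (DY : Y →+ Y) (hY : IsConn δ DY)
    {ι : Type u} (v : ι → horVec DY hY) (hv : LinearIndependent (constField δ) v) :
    LinearIndependent k (fun i => (v i : Y)) := by
  classical
  rw [linearIndependent_iff']
  intro s
  induction s using Finset.induction_on with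
  | empty =>
    intro g _ i hi
    simp at hi
  | insert a s has ih =>
    intro g hg
    rw [Finset.sum_insert has] at hg
    by_cases h0 : g a = 0
    · rw [h0, zero_smul, zero_add] at hg
      intro i hi
      rcases Finset.mem_insert.mp hi with rfl | hi
      · exact h0
      · exact ih g hg i hi
    · exfalso
      set g' : ι → k := fun i => (g a)⁻¹ * g i with hg'
      have h1 : (v a : Y) + ∑ i ∈ s, g' i • (v i : Y) = 0 := by
        have h2 : (g a)⁻¹ • (g a • (v a : Y) + ∑ i ∈ s, g i • (v i : Y)) = 0 := by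
          rw [hg, smul_zero]
        rw [smul_add, smul_smul, inv_mul_cancel₀ h0, one_smul, Finset.smul_sum] at h2
        rw [← h2]
        congr 1
        apply Finset.sum_congr rfl
        intro i _
        rw [hg', smul_smul]
      have h3 : ∑ i ∈ s, δ (g' i) • (v i : Y) = 0 := by
        have h4 := congrArg DY h1
        rw [map_add, map_zero, map_sum, mem_horVec.mp (v a).2, zero_add] at h4
        rw [← h4]
        apply Finset.sum_congr rfl
        intro i _
        rw [hY, mem_horVec.mp (v i).2, smul_zero, zero_add]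
      have h5 := ih (fun i => δ (g' i)) h3
      rw [linearIndependent_iff'] at hv
      have h6 : ∀ i, i ∈ insert a s → (if i = a then (1 : k) else g' i) ∈ constField δ := by
        intro i hi
        rw [mem_constField]
        by_cases hia : i = a
        · rw [if_pos hia]
          simp
        · rw [if_neg hia]
          exact h5 i (Finset.mem_of_mem_insert_of_ne hi hia)
      let G : ι → constField δ := fun i =>
        if hi : i ∈ insert a s then ⟨_, h6 i hi⟩ else 0
      have h7 := hv (insert a s) G (by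
        apply Subtype.ext
        rw [Finset.sum_insert has]
        rw [Submodule.coe_add, Submodule.coe_smul, Submodule.coe_sum, Submodule.coe_zero]
        rw [← h1]
        congr 1
        · have : ((G a : constField δ) : k) = 1 := by simp [G]
          change ((G a : constField δ) : k) • (v a : Y) = v a
          rw [this, one_smul]
        · apply Finset.sum_congr rfl
          intro i hi
          have hia : i ≠ a := by
            rintro rfl
            exact has hi
          have : ((G i : constField δ) : k) = g' i := by simp [G, hi, hia]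
          change ((G i : constField δ) : k) • (v i : Y) = _
          rw [this]) a (Finset.mem_insert_self _ _)
      have h8 : ((G a : constField δ) : k) = 1 := by simp [G]
      rw [h7] at h8
      simp at h8

theorem finite_hor {Y : Type u} [AddCommGroup Y] [Module k Y] [Module.Finite k Y] (DY : Y →+ Y)
    (hY : IsConn δ DY) : Module.Finite (constField δ) (horVec DY hY) := by
  let b := Module.Basis.ofVectorSpace (constField δ) (horVec DY hY)
  have h := linInd_hor DY hY b b.linearIndependent
  have := h.finite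
  exact Module.Finite.of_basis b

theorem hor_eq_eval {W : Type u} [AddCommGroup W] [Module k W] [Module.Finite k W] {D : W →+ W}
    {ε : W} (hU : IsUniv δ D ε) (hmin : MinDim δ (Module.finrank k W))
    {Y : Type u} [AddCommGroup Y] [Module k Y] [Module.Finite k Y] (DY : Y →+ Y)
    (hY : IsConn δ DY) (ν : (Y →ₗ[k] W) →ₗ[k] W)
    (hν : ∀ f, ν (homConn DY D hY hU.conn f) = D (ν f)) :
    ∃ y, DY y = 0 ∧ ∀ f, ν f = f y := by
  let DC : W →ₗ[constField δ] W :=
    { toFun := D
      map_add' := fun x y => map_add D x y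
      map_smul' := fun c y => conn_const hU.conn c y }
  have hε : (LinearMap.range DC).mkQ ε ≠ 0 := by
    rw [Submodule.mkQ_apply, Ne, Submodule.Quotient.mk_eq_zero]
    rintro ⟨w, hw⟩
    exact hU.out w hw
  obtain ⟨φ, hφ⟩ : ∃ φ : Module.Dual (constField δ) (W ⧸ LinearMap.range DC),
      φ ((LinearMap.range DC).mkQ ε) ≠ 0 := by
    by_contra hcon
    push Not at hcon
    exact hε ((Module.forall_dual_apply_eq_zero_iff (constField δ) _).mp hcon)
  let ρ : W →ₗ[constField δ] constField δ := φ ∘ₗ (LinearMap.range DC).mkQ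
  have hρε : ρ ε ≠ 0 := hφ
  have hρD : ∀ w, ρ (D w) = 0 := by
    intro w
    change φ ((LinearMap.range DC).mkQ (DC w)) = 0
    have h0 : (LinearMap.range DC).mkQ (DC w) = 0 := by
      rw [Submodule.mkQ_apply, Submodule.Quotient.mk_eq_zero]
      exact ⟨w, rfl⟩
    rw [h0, map_zero]
  have := finite_hor DY hY
  let Φ : (Y →ₗ[k] W) →ₗ[constField δ] Module.Dual (constField δ) (horVec DY hY) :=
    { toFun := fun ξ =>
        { toFun := fun y => ρ (ξ y.1)
          map_add' := fun x y => by
            rw [Submodule.coe_add, map_add, map_add]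
          map_smul' := fun c y => by
            have h : ξ ((c • y : horVec DY hY) : Y) = c • ξ y.1 := by
              change ξ ((c : k) • y.1) = (c : k) • ξ y.1
              rw [map_smul]
            rw [h, map_smul]
            rfl }
      map_add' := fun ξ ξ' => by
        ext y
        simp only [LinearMap.coe_mk, AddHom.coe_mk, LinearMap.add_apply, map_add]
      map_smul' := fun c ξ => by
        ext y
        simp only [LinearMap.coe_mk, AddHom.coe_mk, LinearMap.smul_apply, RingHom.id_apply]
        rw [map_smul] }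
  have hΦ : ∀ ξ (y : horVec DY hY), Φ ξ y = ρ (ξ y.1) := fun ξ y => rfl
  let R : Module.Dual (constField δ) (Y →ₗ[k] W) :=
    { toFun := fun ξ => ρ (ν ξ)
      map_add' := fun x y => by rw [map_add, map_add]
      map_smul' := fun c ξ => by
        have h : ν (c • ξ) = c • ν ξ := by
          change ν ((c : k) • ξ) = (c : k) • ν ξ
          rw [map_smul]
        rw [h, map_smul]
        rfl }
  have hR : ∀ ξ, R ξ = ρ (ν ξ) := fun ξ => rfl
  have hker : R ∈ (LinearMap.ker Φ).dualAnnihilator := by
    rw [Submodule.mem_dualAnnihilator]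
    intro ξ hξ
    rw [LinearMap.mem_ker] at hξ
    rw [hR]
    rcases dd hU hmin DY hY ξ with ⟨f, rfl⟩ | ⟨y, hy, w, hw⟩
    · rw [hν, hρD]
    · exfalso
      have h1 : Φ ξ ⟨y, hy⟩ = 0 := by rw [hξ]; rfl
      rw [hΦ, hw, map_add, hρD, add_zero] at h1
      exact hρε h1
  rw [← LinearMap.range_dualMap_eq_dualAnnihilator_ker] at hker
  obtain ⟨L, hL⟩ := hker
  set y := (Module.evalEquiv (constField δ) (horVec DY hY)).symm L with hy
  have hLy : ∀ f, f y = L f := fun f => Module.apply_evalEquiv_symm_apply (constField δ) (horVec DY hY) f L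
  have hρν : ∀ ξ, ρ (ν ξ) = ρ (ξ y.1) := by
    intro ξ
    rw [← hR, ← hL, ← hΦ, hLy]
    rfl
  refine ⟨y.1, mem_horVec.mp y.2, ?_⟩
  by_contra hcon
  push Not at hcon
  obtain ⟨f0, hf0⟩ := hcon
  have hne : ν - LinearMap.applyₗ (R := k) y.1 ≠ 0 := by
    intro h
    apply hf0
    have := congrArg (fun g => g f0) h
    simpa [sub_eq_zero] using this
  obtain ⟨ξ, w, hw⟩ := m2 hU hmin (homConn DY D hY hU.conn) (ν - LinearMap.applyₗ (R := k) y.1)
    (by
      intro f
      rw [LinearMap.sub_apply, LinearMap.sub_apply, hν, map_sub]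
      congr 1
      change homConn DY D hY hU.conn f y.1 = D (f y.1)
      rw [homConn_apply, mem_horVec.mp y.2, map_zero, sub_zero]) hne
  have h1 : ν ξ - ξ y.1 = ε + D w := hw
  have h2 := congrArg ρ h1
  rw [map_sub, hρν, sub_self, map_add, hρD, add_zero] at h2
  exact hρε h2.symm

/-- The dual connection. -/
def dualConn {W : Type u} [AddCommGroup W] [Module k W] (D : W →+ W) (hW : IsConn δ D)
    (φ : Module.Dual k W) : Module.Dual k W where
  toFun v := δ (φ v) - φ (D v)
  map_add' x y := by
    simp only [map_add]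
    abel
  map_smul' a v := by
    simp only [map_smul, RingHom.id_apply, smul_eq_mul]
    rw [hW, map_add, map_smul, map_smul, Derivation.leibniz, smul_eq_mul, smul_eq_mul,
      smul_eq_mul, smul_eq_mul]
    ring

theorem dualConn_apply {W : Type u} [AddCommGroup W] [Module k W] (D : W →+ W) (hW : IsConn δ D)
    (φ : Module.Dual k W) (v : W) : dualConn D hW φ v = δ (φ v) - φ (D v) := rfl

theorem homConn_smulRight {W : Type u} [AddCommGroup W] [Module k W] (D : W →+ W)
    (hW : IsConn δ D) (φ : Module.Dual k W) (w : W) :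
    homConn D D hW hW (φ.smulRight w) =
      φ.smulRight (D w) + (dualConn D hW φ).smulRight w := by
  ext x
  rw [homConn_apply, LinearMap.add_apply, LinearMap.smulRight_apply, LinearMap.smulRight_apply,
    LinearMap.smulRight_apply, LinearMap.smulRight_apply, hW, dualConn_apply, sub_smul]
  abel

theorem trace_homConn {W : Type u} [AddCommGroup W] [Module k W] [Module.Finite k W] (D : W →+ W)
    (hW : IsConn δ D) (g : W →ₗ[k] W) :
    LinearMap.trace k W (homConn D D hW hW g) = δ (LinearMap.trace k W g) := by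
  have h1 : ∀ (φ : Module.Dual k W) (w : W),
      LinearMap.trace k W (homConn D D hW hW (φ.smulRight w)) =
        δ (LinearMap.trace k W (φ.smulRight w)) := by
    intro φ w
    rw [homConn_smulRight, map_add, LinearMap.trace_smulRight, LinearMap.trace_smulRight,
      LinearMap.trace_smulRight, dualConn_apply]
    ring
  let b := Module.finBasis k W
  have hg : g = ∑ i, (b.coord i).smulRight (g (b i)) := by
    apply b.ext
    intro j
    rw [LinearMap.sum_apply]
    simp only [LinearMap.smulRight_apply, Module.Basis.coord_apply, Module.Basis.repr_self]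
    rw [Finset.sum_eq_single j]
    · rw [Finsupp.single_eq_same, one_smul]
    · intro i _ hij
      rw [Finsupp.single_eq_of_ne hij, zero_smul]
    · intro h
      exact absurd (Finset.mem_univ _) h
  rw [hg]
  simp only [map_sum]
  exact Finset.sum_congr rfl fun i _ => h1 _ _

/-- The pairing used to define the partial trace. -/
noncomputable def ptPair (W : Type u) [AddCommGroup W] [Module k W] :
    ((W →ₗ[k] W) →ₗ[k] W) →ₗ[k] Module.Dual k (Module.Dual k W) :=
  LinearMap.mk₂ k (fun f φ => LinearMap.trace k W (f ∘ₗ LinearMap.smulRightₗ φ))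
    (fun f f' φ => by rw [LinearMap.add_comp, map_add])
    (fun c f φ => by rw [LinearMap.smul_comp, map_smul])
    (fun f φ φ' => by rw [map_add, LinearMap.comp_add, map_add])
    (fun c f φ => by rw [map_smul, LinearMap.comp_smul, map_smul])

/-- The partial trace. -/
noncomputable def ptr (W : Type u) [AddCommGroup W] [Module k W] [Module.Finite k W] :
    ((W →ₗ[k] W) →ₗ[k] W) →ₗ[k] W :=
  (Module.evalEquiv k W).symm.toLinearMap ∘ₗ ptPair W

theorem apply_ptr {W : Type u} [AddCommGroup W] [Module k W] [Module.Finite k W]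
    (f : (W →ₗ[k] W) →ₗ[k] W) (φ : Module.Dual k W) :
    φ (ptr W f) = LinearMap.trace k W (f ∘ₗ LinearMap.smulRightₗ φ) :=
  Module.apply_evalEquiv_symm_apply k W φ (ptPair W f)

theorem ptr_hor {W : Type u} [AddCommGroup W] [Module k W] [Module.Finite k W] (D : W →+ W)
    (hW : IsConn δ D) (f : (W →ₗ[k] W) →ₗ[k] W) :
    ptr W (homConn (homConn D D hW hW) D (homConn_conn D D hW hW) hW f) = D (ptr W f) := by
  rw [← sub_eq_zero, ← Module.forall_dual_apply_eq_zero_iff k]
  intro φ
  rw [map_sub, sub_eq_zero, apply_ptr]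
  set g : W →ₗ[k] W := f ∘ₗ LinearMap.smulRightₗ φ with hg
  have h1 : (homConn (homConn D D hW hW) D (homConn_conn D D hW hW) hW f) ∘ₗ
      LinearMap.smulRightₗ φ = homConn D D hW hW g -
        f ∘ₗ LinearMap.smulRightₗ (dualConn D hW φ) := by
    ext w
    rw [LinearMap.sub_apply, LinearMap.comp_apply, LinearMap.comp_apply, homConn_apply,
      homConn_apply, hg, LinearMap.comp_apply, LinearMap.comp_apply]
    change D (f (φ.smulRight w)) - f (homConn D D hW hW (φ.smulRight w)) =
      D (f (φ.smulRight w)) - f (φ.smulRight (D w)) - f ((dualConn D hW φ).smulRight w)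
    rw [homConn_smulRight, map_add]
    abel
  rw [h1, map_sub, trace_homConn, ← apply_ptr, ← apply_ptr, dualConn_apply]
  abel

theorem condB_of_min {W : Type u} [AddCommGroup W] [Module k W] [Module.Finite k W] {D : W →+ W}
    {ε : W} (hU : IsUniv δ D ε) (hmin : MinDim δ (Module.finrank k W)) : CondB δ := by
  obtain ⟨y, -, hy⟩ := hor_eq_eval hU hmin (homConn D D hU.conn hU.conn)
    (homConn_conn D D hU.conn hU.conn) (ptr W) (ptr_hor D hU.conn)
  have hkey : ∀ (φ : Module.Dual k W) (v : W), φ.smulRight v = φ v • y := by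
    intro φ v
    rw [← sub_eq_zero, ← Module.forall_dual_apply_eq_zero_iff k]
    intro l
    rw [map_sub, sub_eq_zero, map_smul, smul_eq_mul]
    have h1 := apply_ptr (l.smulRight v) φ
    rw [hy, LinearMap.smulRight_apply, map_smul, smul_eq_mul] at h1
    have h2 : (l.smulRight v) ∘ₗ LinearMap.smulRightₗ φ =
        (l ∘ₗ LinearMap.smulRightₗ φ).smulRight v := by
      ext w
      rfl
    rw [h2, LinearMap.trace_smulRight, LinearMap.comp_apply] at h1
    have h3 : l (φ.smulRight v) = l (LinearMap.smulRightₗ φ v) := rfl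
    rw [h3, ← h1, mul_comm]
  have hε0 : ε ≠ 0 := by
    rintro rfl
    exact hU.out 0 (map_zero D)
  have hspan : Submodule.span k {ε} = ⊤ := by
    by_contra hne
    obtain ⟨φ, hφ, hle⟩ := Submodule.exists_le_ker_of_lt_top _ (lt_top_iff_ne_top.mpr hne)
    apply hφ
    have h0 : φ ε = 0 := by
      have : ε ∈ LinearMap.ker φ := hle (Submodule.mem_span_singleton_self ε)
      exact this
    ext x
    have h1 := congrArg (fun g : W →ₗ[k] W => g x) (hkey φ ε)
    simp only [LinearMap.smulRight_apply, h0, zero_smul, LinearMap.zero_apply] at h1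
    rcases smul_eq_zero.mp h1 with h | h
    · exact h
    · exact absurd h hε0
  obtain ⟨φ, hφ⟩ : ∃ φ : Module.Dual k W, φ ε = 1 := by
    obtain ⟨φ, hφ⟩ : ∃ φ : Module.Dual k W, φ ε ≠ 0 := by
      by_contra hcon
      push Not at hcon
      exact hε0 ((Module.forall_dual_apply_eq_zero_iff k _).mp hcon)
    exact ⟨(φ ε)⁻¹ • φ, by rw [LinearMap.smul_apply, smul_eq_mul, inv_mul_cancel₀ hφ]⟩
  have hw : ∀ w : W, w = φ w • ε := by
    intro w
    have : w ∈ Submodule.span k {ε} := by rw [hspan]; exact Submodule.mem_top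
    obtain ⟨a, rfl⟩ := Submodule.mem_span_singleton.mp this
    rw [map_smul, hφ, smul_eq_mul, mul_one]
  set c : k := φ (D ε) with hc
  have hD : ∀ a : k, D (a • ε) = (δ a + c * a) • ε := by
    intro a
    rw [hU.conn, hw (D ε), ← hc, smul_smul, ← add_smul]
    congr 1
    ring
  refine ⟨c, 1, ?_, ?_⟩
  · intro a ha
    apply hU.out (a • ε)
    rw [hD, ha, one_smul]
  · intro Z _ _ _ DZ hDZ z hz
    obtain ⟨ν, hν, w, hνz⟩ := hU.univ Z DZ hDZ z hz
    refine ⟨φ ∘ₗ ν, ?_, φ w, ?_⟩
    · intro x
      rw [LinearMap.comp_apply, LinearMap.comp_apply, hν, hw (ν x), hD, map_smul, hφ, map_smul,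
        hφ, smul_eq_mul, smul_eq_mul, mul_one, mul_one]
    · rw [LinearMap.comp_apply, hνz, map_add, hφ]
      congr 1
      conv_lhs => rw [hw w]
      rw [hD, map_smul, hφ, smul_eq_mul, mul_one]

end

theorem condB_of_universal {k : Type u} [Field k] [CharZero k] (δ : Derivation ℤ k k)
    {W : Type u} [AddCommGroup W] [Module k W] [Module.Finite k W] (D : W →+ W)
    (hD : IsConn δ D) (ε : W) (hε : ∀ w, D w ≠ ε)
    (huniv : ∀ (Z : Type u) [AddCommGroup Z] [Module k Z] [Module.Finite k Z] (D' : Z →+ Z),
      IsConn δ D' → ∀ z : Z, (∀ z', D' z' ≠ z) →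
        ∃ ν : Z →ₗ[k] W, (∀ x, ν (D' x) = D (ν x)) ∧ ∃ w, ν z = ε + D w) :
    CondB δ := by
  have key : ∀ (n : ℕ) (W : Type u) [AddCommGroup W] [Module k W] [Module.Finite k W]
      (D : W →+ W) (ε : W), Module.finrank k W = n → IsUniv δ D ε → CondB δ := by
    intro n
    induction n using Nat.strong_induction_on with
    | _ n ih =>
      intro W _ _ _ D ε hn hU
      by_cases hmin : MinDim δ (Module.finrank k W)
      · exact condB_of_min hU hmin
      · unfold MinDim at hmin
        push Not at hmin
        obtain ⟨W', i1, i2, i3, D', ε', hU', hlt⟩ := hmin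
        exact ih _ (by omega) W' D' ε' rfl hU'
  exact key _ W D ε rfl ⟨hD, hε, huniv⟩

end Pool.Agent.Lib.MP_a53fda_al
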