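import Pool.Agent.Lib.MP_a53fda_al.ConnMod
import Pool.Agent.Lib.MP_a53fda_al.Univ

/-!
# Extensions of finite-dimensional modules over a differential polynomial ring
-/

set_option autoImplicit false

namespace Pool.Agent.Lib.MP_a53fda_al

universe u

open Polynomial

/-! ### The general partial trace -/

section

variable {k : Type u} [Field k] {δ : Derivation ℤ k k}

theorem homConn_smulRight' {Z M : Type u} [AddCommGroup Z] [Module k Z] [AddCommGroup M]
    [Module k M] (DZ : Z →+ Z) (DM : M →+ M) (hZ : IsConn δ DZ) (hM : IsConn δ DM)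
    (φ : Module.Dual k Z) (m : M) :
    homConn DZ DM hZ hM (φ.smulRight m) =
      φ.smulRight (DM m) + (dualConn DZ hZ φ).smulRight m := by
  ext x
  rw [homConn_apply, LinearMap.add_apply, LinearMap.smulRight_apply, LinearMap.smulRight_apply,
    LinearMap.smulRight_apply, LinearMap.smulRight_apply, hM, dualConn_apply, sub_smul]
  abel

/-- The pairing used to define the partial trace. -/
noncomputable def ptPair' (Z M : Type u) [AddCommGroup Z] [Module k Z] [AddCommGroup M]
    [Module k M] : ((Z →ₗ[k] M) →ₗ[k] M) →ₗ[k] Module.Dual k (Module.Dual k Z) :=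
  LinearMap.mk₂ k (fun f φ => LinearMap.trace k M (f ∘ₗ LinearMap.smulRightₗ φ))
    (fun f f' φ => by rw [LinearMap.add_comp, map_add])
    (fun c f φ => by rw [LinearMap.smul_comp, map_smul])
    (fun f φ φ' => by rw [map_add, LinearMap.comp_add, map_add])
    (fun c f φ => by rw [map_smul, LinearMap.comp_smul, map_smul])

/-- The partial trace. -/
noncomputable def ptr' (Z M : Type u) [AddCommGroup Z] [Module k Z] [Module.Finite k Z]
    [AddCommGroup M] [Module k M] : ((Z →ₗ[k] M) →ₗ[k] M) →ₗ[k] Z :=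
  (Module.evalEquiv k Z).symm.toLinearMap ∘ₗ ptPair' Z M

theorem apply_ptr' {Z M : Type u} [AddCommGroup Z] [Module k Z] [Module.Finite k Z]
    [AddCommGroup M] [Module k M]
    (f : (Z →ₗ[k] M) →ₗ[k] M) (φ : Module.Dual k Z) :
    φ (ptr' Z M f) = LinearMap.trace k M (f ∘ₗ LinearMap.smulRightₗ φ) :=
  Module.apply_evalEquiv_symm_apply k Z φ (ptPair' Z M f)

theorem ptr_hor' {Z M : Type u} [AddCommGroup Z] [Module k Z] [Module.Finite k Z]
    [AddCommGroup M] [Module k M] [Module.Finite k M] (DZ : Z →+ Z) (DM : M →+ M)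
    (hZ : IsConn δ DZ) (hM : IsConn δ DM) (f : (Z →ₗ[k] M) →ₗ[k] M) :
    ptr' Z M (homConn (homConn DZ DM hZ hM) DM (homConn_conn DZ DM hZ hM) hM f) =
      DZ (ptr' Z M f) := by
  rw [← sub_eq_zero, ← Module.forall_dual_apply_eq_zero_iff k]
  intro φ
  rw [map_sub, sub_eq_zero, apply_ptr']
  set g : M →ₗ[k] M := f ∘ₗ LinearMap.smulRightₗ φ with hg
  have h1 : (homConn (homConn DZ DM hZ hM) DM (homConn_conn DZ DM hZ hM) hM f) ∘ₗ
      LinearMap.smulRightₗ φ = homConn DM DM hM hM g -
        f ∘ₗ LinearMap.smulRightₗ (dualConn DZ hZ φ) := by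
    ext w
    rw [LinearMap.sub_apply, LinearMap.comp_apply, LinearMap.comp_apply, homConn_apply,
      homConn_apply, hg, LinearMap.comp_apply, LinearMap.comp_apply]
    change DM (f (φ.smulRight w)) - f (homConn DZ DM hZ hM (φ.smulRight w)) =
      DM (f (φ.smulRight w)) - f (φ.smulRight (DM w)) - f ((dualConn DZ hZ φ).smulRight w)
    rw [homConn_smulRight', map_add]
    abel
  rw [h1, map_sub, trace_homConn, ← apply_ptr', ← apply_ptr', dualConn_apply]
  abel

theorem ptr_ev' {Z M : Type u} [AddCommGroup Z] [Module k Z] [Module.Finite k Z]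
    [AddCommGroup M] [Module k M] [Module.Finite k M] (z : Z) :
    ptr' Z M (LinearMap.applyₗ (R := k) z) = (Module.finrank k M : k) • z := by
  rw [← sub_eq_zero, ← Module.forall_dual_apply_eq_zero_iff k]
  intro φ
  rw [map_sub, sub_eq_zero, apply_ptr', map_smul, smul_eq_mul]
  have h : (LinearMap.applyₗ (R := k) z : (Z →ₗ[k] M) →ₗ[k] M) ∘ₗ LinearMap.smulRightₗ φ =
      φ z • LinearMap.id := by
    ext m
    rfl
  rw [h, map_smul, LinearMap.trace_id, smul_eq_mul, mul_comm]

/-- If evaluation at `z` is in the image of the connection, so is `z`. -/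
theorem exists_of_ev [CharZero k] {Z M : Type u} [AddCommGroup Z] [Module k Z]
    [Module.Finite k Z] [AddCommGroup M] [Module k M] [Module.Finite k M] [Nontrivial M]
    (DZ : Z →+ Z) (DM : M →+ M) (hZ : IsConn δ DZ) (hM : IsConn δ DM) (z : Z)
    (f : (Z →ₗ[k] M) →ₗ[k] M)
    (hf : ∀ v, DM (f v) - f (homConn DZ DM hZ hM v) = v z) : ∃ z', DZ z' = z := by
  have h1 : homConn (homConn DZ DM hZ hM) DM (homConn_conn DZ DM hZ hM) hM f =
      LinearMap.applyₗ (R := k) z := by
    ext v
    exact hf v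
  have h2 := ptr_hor' DZ DM hZ hM f
  rw [h1, ptr_ev'] at h2
  set n := Module.finrank k M with hn
  have hn0 : (n : k) ≠ 0 := by
    have : 0 < n := Module.finrank_pos
    exact_mod_cast this.ne'
  refine ⟨(n : k)⁻¹ • ptr' Z M f, ?_⟩
  rw [hZ, ← h2, smul_smul, inv_mul_cancel₀ hn0, one_smul, Derivation.leibniz_inv]
  simp

/-- The connection on `M × Hom(Z, M)` attached to `z`. -/
def extConn {Z M : Type u} [AddCommGroup Z] [Module k Z] [AddCommGroup M] [Module k M]
    (DZ : Z →+ Z) (DM : M →+ M) (hZ : IsConn δ DZ) (hM : IsConn δ DM) (z : Z) :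
    (M × (Z →ₗ[k] M)) →+ (M × (Z →ₗ[k] M)) where
  toFun p := (DM p.1 + p.2 z, homConn DZ DM hZ hM p.2)
  map_zero' := by simp
  map_add' p q := by
    apply Prod.ext
    · simp only [Prod.fst_add, Prod.snd_add, map_add, LinearMap.add_apply]
      abel
    · simp only [Prod.snd_add, map_add]

theorem extConn_apply {Z M : Type u} [AddCommGroup Z] [Module k Z] [AddCommGroup M] [Module k M]
    (DZ : Z →+ Z) (DM : M →+ M) (hZ : IsConn δ DZ) (hM : IsConn δ DM) (z : Z)
    (p : M × (Z →ₗ[k] M)) :
    extConn DZ DM hZ hM z p = (DM p.1 + p.2 z, homConn DZ DM hZ hM p.2) := rfl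

theorem extConn_conn {Z M : Type u} [AddCommGroup Z] [Module k Z] [AddCommGroup M] [Module k M]
    (DZ : Z →+ Z) (DM : M →+ M) (hZ : IsConn δ DZ) (hM : IsConn δ DM) (z : Z) :
    IsConn δ (extConn DZ DM hZ hM z) := by
  intro a p
  rw [extConn_apply, extConn_apply]
  apply Prod.ext
  · simp only [Prod.smul_fst, Prod.smul_snd, Prod.fst_add, LinearMap.smul_apply, smul_add]
    rw [hM]
    abel
  · simp only [Prod.smul_snd, Prod.snd_add]
    rw [homConn_conn DZ DM hZ hM]

end

section

variable {k S : Type u} [Field k] [Ring S] [DP k S]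

theorem smul_linearMap {M N : Type u} [AddCommGroup M] [Module S M] [Module k M]
    [IsScalarTower k S M] [AddCommGroup N] [Module S N] [Module k N] [IsScalarTower k S N]
    (f : M →ₗ[S] N) (a : k) (m : M) : f (a • m) = a • f m := by
  rw [← smul_one_smul' (S := S) a m, map_smul, smul_one_smul']

/-- The underlying `k`-linear map of an `S`-linear map. -/
def resK {M N : Type u} [AddCommGroup M] [Module S M] [Module k M]
    [IsScalarTower k S M] [AddCommGroup N] [Module S N] [Module k N] [IsScalarTower k S N]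
    (f : M →ₗ[S] N) : M →ₗ[k] N where
  toFun := f
  map_add' := map_add f
  map_smul' := smul_linearMap f

theorem resK_apply {M N : Type u} [AddCommGroup M] [Module S M] [Module k M]
    [IsScalarTower k S M] [AddCommGroup N] [Module S N] [Module k N] [IsScalarTower k S N]
    (f : M →ₗ[S] N) (m : M) : (resK f : M →ₗ[k] N) m = f m := rfl

/-- A class outside the image of a connection gives a non-split extension of `M`. -/
theorem exists_ext [CharZero k] {M : Type u} [AddCommGroup M] [Module S M] [Module k M]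
    [IsScalarTower k S M] [Module.Finite k M] [Nontrivial M]
    {Z : Type u} [AddCommGroup Z] [Module k Z] [Module.Finite k Z] (DZ : Z →+ Z)
    (hZ : IsConn (dδ k S) DZ) (z : Z) (hz : ∀ z', DZ z' ≠ z) :
    ∃ (_ : Module S (M × (Z →ₗ[k] M))) (_ : IsScalarTower k S (M × (Z →ₗ[k] M)))
      (j : M →ₗ[S] (M × (Z →ₗ[k] M))),
      (∀ p : M × (Z →ₗ[k] M), dX k S • p = extConn DZ (conn k S M) hZ isConn_conn z p) ∧
      (∀ m, j m = (m, 0)) ∧ ¬ ∃ ρ : (M × (Z →ₗ[k] M)) →ₗ[S] M, ∀ x, ρ (j x) = x := by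
  obtain ⟨i1, i2, h1⟩ := exists_module_of_conn S (extConn DZ (conn k S M) hZ isConn_conn z)
    (extConn_conn DZ (conn k S M) hZ isConn_conn z)
  obtain ⟨j, hj⟩ := exists_linearMap (S := S) (LinearMap.inl k M (Z →ₗ[k] M)) (by
    intro m
    rw [h1, extConn_apply]
    simp [conn_apply])
  refine ⟨i1, i2, j, h1, fun m => by rw [hj]; rfl, ?_⟩
  rintro ⟨ρ, hρ⟩
  have h2 : ∀ m : M, ρ (m, 0) = m := by
    intro m
    have := hρ m
    rw [hj] at this
    exact this
  obtain ⟨z', hz'⟩ := exists_of_ev DZ (conn k S M) hZ isConn_conn z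
    (resK ρ ∘ₗ LinearMap.inr k M (Z →ₗ[k] M)) (by
      intro v
      rw [LinearMap.comp_apply, LinearMap.comp_apply, resK_apply, resK_apply]
      simp only [LinearMap.inr_apply]
      have h3 : ρ (dX k S • ((0 : M), v)) = dX k S • ρ (0, v) := map_smul ρ _ _
      rw [h1, extConn_apply] at h3
      simp only [map_zero, zero_add] at h3
      have h4 : ((v z, homConn DZ (conn k S M) hZ isConn_conn v) : M × (Z →ₗ[k] M)) =
          (v z, 0) + (0, homConn DZ (conn k S M) hZ isConn_conn v) := by simp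
      rw [h4, map_add, h2] at h3
      rw [conn_apply, ← h3]
      abel)
  exact hz z' hz'


/-! ### Left ideals are principal -/

variable (k S) in
/-- The elements of degree less than `n`. -/
noncomputable def lowDeg (n : ℕ) : Submodule k S :=
  Submodule.span k {t | ∃ i < n, t = dX k S ^ i}

theorem pow_mem_lowDeg {i n : ℕ} (h : i < n) : dX k S ^ i ∈ lowDeg k S n :=
  Submodule.subset_span ⟨i, h, rfl⟩

theorem lowDeg_mono {m n : ℕ} (h : m ≤ n) : lowDeg k S m ≤ lowDeg k S n := by
  apply Submodule.span_mono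
  rintro t ⟨i, hi, rfl⟩
  exact ⟨i, by omega, rfl⟩

theorem lowDeg_zero : lowDeg k S 0 = ⊥ := by
  rw [lowDeg, Submodule.span_eq_bot]
  rintro t ⟨i, hi, -⟩
  omega

theorem lowDeg_succ {n : ℕ} {t : S} (h : t ∈ lowDeg k S (n + 1)) :
    ∃ a : k, t - a • dX k S ^ n ∈ lowDeg k S n := by
  induction h using Submodule.span_induction with
  | mem x hx =>
    obtain ⟨i, hi, rfl⟩ := hx
    rcases Nat.lt_succ_iff_lt_or_eq.mp hi with h | rfl
    · exact ⟨0, by rw [zero_smul, sub_zero]; exact pow_mem_lowDeg h⟩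
    · exact ⟨1, by rw [one_smul, sub_self]; exact Submodule.zero_mem _⟩
  | zero => exact ⟨0, by rw [zero_smul, sub_zero]; exact Submodule.zero_mem _⟩
  | add x y _ _ hx hy =>
    obtain ⟨a, ha⟩ := hx
    obtain ⟨b, hb⟩ := hy
    refine ⟨a + b, ?_⟩
    have := Submodule.add_mem _ ha hb
    rw [add_smul]
    rwa [sub_add_sub_comm] at this
  | smul c x _ hx =>
    obtain ⟨a, ha⟩ := hx
    refine ⟨c * a, ?_⟩
    have := Submodule.smul_mem _ c ha
    rw [mul_smul]
    rwa [smul_sub] at this

theorem exists_lowDeg (t : S) : ∃ n, t ∈ lowDeg k S n := by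
  refine dp_induction (k := k) (P := fun t => ∃ n, t ∈ lowDeg k S n) ?_ ?_ t
  · rintro s t ⟨m, hm⟩ ⟨n, hn⟩
    exact ⟨max m n, Submodule.add_mem _ (lowDeg_mono (le_max_left _ _) hm)
      (lowDeg_mono (le_max_right _ _) hn)⟩
  · intro i a
    exact ⟨i + 1, Submodule.smul_mem _ _ (pow_mem_lowDeg (Nat.lt_succ_self i))⟩

theorem dX_mul_lowDeg {n : ℕ} {t : S} (h : t ∈ lowDeg k S n) :
    dX k S * t ∈ lowDeg k S (n + 1) := by
  induction h using Submodule.span_induction with
  | mem x hx =>
    obtain ⟨i, hi, rfl⟩ := hx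
    rw [← pow_succ']
    exact pow_mem_lowDeg (by omega)
  | zero => rw [mul_zero]; exact Submodule.zero_mem _
  | add x y _ _ hx hy => rw [mul_add]; exact Submodule.add_mem _ hx hy
  | smul c x hx' hx =>
    rw [dX_mul_smul]
    exact Submodule.add_mem _ (Submodule.smul_mem _ _ hx)
      (Submodule.smul_mem _ _ (lowDeg_mono (Nat.le_succ n) hx'))

theorem pow_mul_monic {n : ℕ} {s : S} (hs : s - dX k S ^ n ∈ lowDeg k S n) (i : ℕ) :
    dX k S ^ i * s - dX k S ^ (i + n) ∈ lowDeg k S (i + n) := by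
  induction i with
  | zero => simpa using hs
  | succ i ih =>
    have h := dX_mul_lowDeg ih
    rw [mul_sub, ← mul_assoc, ← pow_succ', ← pow_succ'] at h
    have e : i + n + 1 = i + 1 + n := by omega
    rwa [e] at h

theorem exists_quot {n : ℕ} {s : S} (hs : s - dX k S ^ n ∈ lowDeg k S n) (m : ℕ) :
    ∀ t ∈ lowDeg k S m, ∃ q, t - q * s ∈ lowDeg k S n := by
  induction m with
  | zero =>
    intro t ht
    refine ⟨0, ?_⟩
    rw [zero_mul, sub_zero]
    exact lowDeg_mono (Nat.zero_le _) ht
  | succ m ih =>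
    intro t ht
    by_cases hmn : m < n
    · refine ⟨0, ?_⟩
      rw [zero_mul, sub_zero]
      exact lowDeg_mono hmn ht
    · push Not at hmn
      obtain ⟨a, ha⟩ := lowDeg_succ ht
      obtain ⟨i, rfl⟩ := Nat.exists_eq_add_of_le' hmn
      have h1 := Submodule.smul_mem _ a (pow_mul_monic hs i)
      have h2 := Submodule.sub_mem _ ha h1
      obtain ⟨q, hq⟩ := ih _ h2
      refine ⟨q + a • dX k S ^ i, ?_⟩
      have e : t - (q + a • dX k S ^ i) * s = t - a • dX k S ^ (i + n) -
          a • (dX k S ^ i * s - dX k S ^ (i + n)) - q * s := by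
        rw [add_mul, smul_mul_assoc, smul_sub]
        abel
      rwa [e]

theorem ideal_principal (k : Type u) {S : Type u} [Field k] [Ring S] [DP k S] (I : Ideal S) :
    ∃ s : S, I = Ideal.span {s} := by
  classical
  by_cases hI : ∃ t ∈ I, t ≠ 0
  · obtain ⟨t, ht, ht0⟩ := hI
    have hex : ∃ n, ∃ t ∈ I, t ≠ 0 ∧ t ∈ lowDeg k S (n + 1) := by
      obtain ⟨n, hn⟩ := exists_lowDeg (k := k) t
      exact ⟨n, t, ht, ht0, lowDeg_mono (Nat.le_succ n) hn⟩
    obtain ⟨s, hsI, hs0, hs⟩ := Nat.find_spec hex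
    set n := Nat.find hex with hn
    have hmin : ∀ t ∈ I, t ∈ lowDeg k S n → t = 0 := by
      intro t ht htn
      by_contra h0
      rcases Nat.eq_zero_or_pos n with h | h
      · rw [h, lowDeg_zero, Submodule.mem_bot] at htn
        exact h0 htn
      · refine Nat.find_min hex (m := n - 1) (by omega) ⟨t, ht, h0, ?_⟩
        have e : n - 1 + 1 = n := by omega
        rwa [e]
    obtain ⟨a, ha⟩ := lowDeg_succ hs
    have ha0 : a ≠ 0 := by
      rintro rfl
      rw [zero_smul, sub_zero] at ha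
      exact hs0 (hmin s hsI ha)
    have haI : a⁻¹ • s ∈ I := by
      rw [smul_eq]
      exact I.mul_mem_left _ hsI
    have ha' : a⁻¹ • s - dX k S ^ n ∈ lowDeg k S n := by
      have := Submodule.smul_mem _ a⁻¹ ha
      rwa [smul_sub, smul_smul, inv_mul_cancel₀ ha0, one_smul] at this
    refine ⟨a⁻¹ • s, le_antisymm ?_ ?_⟩
    · intro t ht
      obtain ⟨m, hm⟩ := exists_lowDeg (k := k) t
      obtain ⟨q, hq⟩ := exists_quot ha' m t hm
      have h0 : t - q * a⁻¹ • s = 0 :=
        hmin _ (I.sub_mem ht (I.mul_mem_left _ haI)) hq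
      rw [Ideal.mem_span_singleton']
      exact ⟨q, (sub_eq_zero.mp h0).symm⟩
    · rw [Ideal.span_le, Set.singleton_subset_iff]
      exact haI
  · push Not at hI
    refine ⟨0, ?_⟩
    rw [Ideal.span_singleton_zero, eq_bot_iff]
    intro t ht
    rw [Submodule.mem_bot]
    exact hI t ht

/-- Divisible modules are injective. -/
theorem baer_of_divisible (k : Type u) {S : Type u} [Field k] [Ring S] [DP k S]
    {M : Type u} [AddCommGroup M] [Module S M]
    (h : ∀ (s : S) (m : M), s ≠ 0 → ∃ m', s • m' = m) : Module.Baer S M := by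
  intro I g
  obtain ⟨s, rfl⟩ := ideal_principal k I
  by_cases hs : s = 0
  · subst hs
    refine ⟨0, ?_⟩
    intro x hx
    have hx0 : x = 0 := by
      rwa [Ideal.span_singleton_zero, Submodule.mem_bot] at hx
    subst hx0
    rw [map_zero]
    exact (map_zero g).symm
  · have hmem : s ∈ Ideal.span {s} := Ideal.mem_span_singleton_self s
    obtain ⟨m', hm'⟩ := h s (g ⟨s, hmem⟩) hs
    refine ⟨LinearMap.toSpanSingleton S M m', ?_⟩
    intro x hx
    obtain ⟨q, rfl⟩ := Ideal.mem_span_singleton'.mp hx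
    rw [LinearMap.toSpanSingleton_apply, mul_smul, hm', ← map_smul]
    rfl

theorem condA_of_divisible {k S : Type u} [Field k] [CharZero k] [Ring S] [DP k S]
    {M : Type u} [AddCommGroup M] [Module S M] [Module k M] [IsScalarTower k S M]
    [Module.Finite k M] [Nontrivial M] (h : ∀ (s : S) (m : M), s ≠ 0 → ∃ m', s • m' = m) :
    CondA (dδ k S) := by
  intro Z _ _ _ DZ hZ z
  by_contra hz
  push Not at hz
  obtain ⟨i1, i2, j, h1, h2, h3⟩ := exists_ext (M := M) DZ hZ z hz
  apply h3
  have hinj : Module.Injective S M := (baer_of_divisible k h).injective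
  obtain ⟨ρ, hρ⟩ := hinj.out j (by
    intro x y hxy
    rw [h2, h2] at hxy
    exact congrArg Prod.fst hxy) LinearMap.id
  exact ⟨ρ, hρ⟩

end

/-- The connection on a quotient. -/
def quotConn {k : Type u} [Field k] {K : Type u} [AddCommGroup K] [Module k K] (D : K →+ K)
    (P : Submodule k K) (hP : ∀ x ∈ P, D x ∈ P) : (K ⧸ P) →+ (K ⧸ P) :=
  QuotientAddGroup.map P.toAddSubgroup P.toAddSubgroup D (by
    intro w hw
    exact hP w hw)

theorem quotConn_mkQ {k : Type u} [Field k] {K : Type u} [AddCommGroup K] [Module k K]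
    (D : K →+ K) (P : Submodule k K) (hP : ∀ x ∈ P, D x ∈ P) (x : K) :
    quotConn D P hP (P.mkQ x) = P.mkQ (D x) := rfl

theorem quotConn_conn {k : Type u} [Field k] {δ : Derivation ℤ k k} {K : Type u}
    [AddCommGroup K] [Module k K] {D : K →+ K} (hD : IsConn δ D)
    (P : Submodule k K) (hP : ∀ x ∈ P, D x ∈ P) : IsConn δ (quotConn D P hP) := by
  intro a z
  obtain ⟨w, rfl⟩ := P.mkQ_surjective z
  rw [← map_smul, quotConn_mkQ, quotConn_mkQ, hD a w, map_add, map_smul, map_smul]

theorem condA_or_condB {k S : Type u} [Field k] [CharZero k] [Ring S] [DP k S]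
    {M K : Type u} [AddCommGroup M] [Module S M] [Module k M] [IsScalarTower k S M]
    [Module.Finite k M] [Nontrivial M] [AddCommGroup K] [Module S K] [Module k K]
    [IsScalarTower k S K] [Module.Finite k K] (i : M →ₗ[S] K)
    (hi : ¬ ∃ ρ : K →ₗ[S] M, ∀ x, ρ (i x) = x)
    (hext : ∀ (C : Type u) [AddCommGroup C] [Module S C] [Module k C] [IsScalarTower k S C]
      [Module.Finite k C] (f : M →ₗ[S] C), (¬ ∃ ρ : C →ₗ[S] M, ∀ x, ρ (f x) = x) →
        ∃ g : K →ₗ[S] C, ∀ x, g (i x) = f x) :
    CondA (dδ k S) ∨ CondB (dδ k S) := by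
  by_cases hA : CondA (dδ k S)
  · exact Or.inl hA
  right
  have hinj : Function.Injective i := by
    unfold CondA at hA
    push Not at hA
    obtain ⟨Z, _, _, _, DZ, hZ, z, hz⟩ := hA
    obtain ⟨i1, i2, j, h1, h2, h3⟩ := exists_ext (M := M) DZ hZ z hz
    obtain ⟨g, hg⟩ := hext _ j h3
    intro x y hxy
    have h4 := hg x
    rw [hxy, hg y, h2, h2] at h4
    exact (congrArg Prod.fst h4).symm
  set i' : M →ₗ[k] K := resK i with hi'
  have hi'X : ∀ m, dX k S • i m = i (dX k S • m) := fun m => (map_smul i _ _).symm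
  obtain ⟨r, hr⟩ := i'.exists_leftInverse_of_injective (LinearMap.ker_eq_bot.mpr hinj)
  have hri : ∀ m, r (i m) = m := by
    intro m
    have := congrArg (fun f : M →ₗ[k] M => f m) hr
    exact this
  set P : Submodule k K := LinearMap.range i' with hPdef
  have hP : ∀ x ∈ P, conn k S K x ∈ P := by
    rintro x ⟨m, rfl⟩
    exact ⟨dX k S • m, (hi'X m).symm⟩
  set DL := quotConn (conn k S K) P hP with hDL
  have hL : IsConn (dδ k S) DL := quotConn_conn isConn_conn P hP
  have hDLk : ∀ x : K, DL (P.mkQ x) = P.mkQ (dX k S • x) := fun x => rfl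
  -- lift of maps vanishing on the image
  have hlift : ∀ {N : Type u} [AddCommGroup N] [Module k N] (φ : K →ₗ[k] N),
      (∀ m, φ (i m) = 0) → ∃ ψ : (K ⧸ P) →ₗ[k] N, ∀ x, ψ (P.mkQ x) = φ x := by
    intro N _ _ φ hφ
    refine ⟨P.liftQ φ ?_, fun x => rfl⟩
    rintro x ⟨m, rfl⟩
    exact hφ m
  obtain ⟨ε, hε⟩ := hlift (homConn (conn k S K) (conn k S M) isConn_conn isConn_conn r) (by
    intro m
    rw [homConn_apply, conn_apply, conn_apply, hri, hi'X, hri, sub_self])
  have hε' : ∀ x, ε (P.mkQ x) = dX k S • r x - r (dX k S • x) := hε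
  refine condB_of_universal (dδ k S) (homConn DL (conn k S M) hL isConn_conn)
    (homConn_conn DL (conn k S M) hL isConn_conn) ε ?_ ?_
  · intro f hf
    apply hi
    obtain ⟨ρ, hρ⟩ := exists_linearMap (S := S) (r - f ∘ₗ P.mkQ) (by
      intro x
      have h1 := congrArg (fun g : (K ⧸ P) →ₗ[k] M => g (P.mkQ x)) hf
      simp only [homConn_apply, hε', hDLk, conn_apply] at h1
      rw [LinearMap.sub_apply, LinearMap.sub_apply, LinearMap.comp_apply, LinearMap.comp_apply,
        smul_sub, ← sub_eq_zero]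
      rw [← sub_eq_zero] at h1
      rw [← h1]
      abel)
    refine ⟨ρ, ?_⟩
    intro m
    rw [hρ, LinearMap.sub_apply, LinearMap.comp_apply, hri]
    have h0 : P.mkQ (i m) = 0 := by
      rw [Submodule.mkQ_apply, Submodule.Quotient.mk_eq_zero]
      exact ⟨m, rfl⟩
    rw [h0, map_zero, sub_zero]
  · intro Z _ _ _ DZ hZ z hz
    obtain ⟨i1, i2, j, h1, h2, h3⟩ := exists_ext (M := M) DZ hZ z hz
    obtain ⟨g, hg⟩ := hext _ j h3
    set g' : K →ₗ[k] (M × (Z →ₗ[k] M)) := resK g with hg'
    have hgX : ∀ x, g' (dX k S • x) = extConn DZ (conn k S M) hZ isConn_conn z (g' x) := by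
      intro x
      rw [← h1]
      exact map_smul g _ _
    set g1 : K →ₗ[k] M := LinearMap.fst k _ _ ∘ₗ g' with hg1
    set g2 : K →ₗ[k] (Z →ₗ[k] M) := LinearMap.snd k _ _ ∘ₗ g' with hg2
    have hg1X : ∀ x, g1 (dX k S • x) = dX k S • g1 x + g2 x z := by
      intro x
      have := congrArg Prod.fst (hgX x)
      exact this
    have hg2X : ∀ x, g2 (dX k S • x) = homConn DZ (conn k S M) hZ isConn_conn (g2 x) := by
      intro x
      have := congrArg Prod.snd (hgX x)
      exact this
    have hgi : ∀ m, g' (i m) = (m, 0) := by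
      intro m
      rw [hg', resK_apply, hg, h2]
    have hg1i : ∀ m, g1 (i m) = m := by
      intro m
      rw [hg1, LinearMap.comp_apply, hgi]
      rfl
    have hg2i : ∀ m, g2 (i m) = 0 := by
      intro m
      rw [hg2, LinearMap.comp_apply, hgi]
      rfl
    obtain ⟨h, hh⟩ := hlift g2 hg2i
    obtain ⟨f0, hf0⟩ := hlift (g1 - r) (by
      intro m
      rw [LinearMap.sub_apply, hg1i, hri, sub_self])
    have hhX : ∀ l, h (DL l) = homConn DZ (conn k S M) hZ isConn_conn (h l) := by
      intro l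
      obtain ⟨x, rfl⟩ := P.mkQ_surjective l
      rw [hDLk, hh, hh, hg2X]
    refine ⟨-h.flip, ?_, f0, ?_⟩
    · intro x
      apply LinearMap.ext
      intro l
      have h5 := congrArg (fun f : Z →ₗ[k] M => f x) (hhX l)
      simp only [homConn_apply] at h5
      simp only [homConn_apply, LinearMap.neg_apply, LinearMap.flip_apply, map_neg]
      rw [h5]
      abel
    · apply LinearMap.ext
      intro l
      obtain ⟨x, rfl⟩ := P.mkQ_surjective l
      simp only [LinearMap.neg_apply, LinearMap.flip_apply, LinearMap.add_apply, homConn_apply]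
      rw [hh, hε', hDLk, hf0, hf0, LinearMap.sub_apply, LinearMap.sub_apply, hg1X, conn_apply,
        smul_sub]
      abel

/-- The companion connection. -/
def compConn {k : Type u} [Field k] {M : Type u} [AddCommGroup M] [Module k M] (D : M →+ M)
    (n : ℕ) (a : ℕ → k) : (Fin n → M) →+ (Fin n → M) where
  toFun z := fun i => D (z i) -
    (if h : i.1 + 1 < n then z ⟨i.1 + 1, h⟩ else -∑ j : Fin n, a j • z j)
  map_zero' := by
    funext i
    split_ifs <;> simp
  map_add' x y := by
    funext i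
    simp only [Pi.add_apply, map_add]
    split_ifs
    · abel
    · simp only [smul_add, Finset.sum_add_distrib]
      abel

theorem compConn_apply {k : Type u} [Field k] {M : Type u} [AddCommGroup M] [Module k M]
    (D : M →+ M) (n : ℕ) (a : ℕ → k) (z : Fin n → M) (i : Fin n) :
    compConn D n a z i = D (z i) -
      (if h : i.1 + 1 < n then z ⟨i.1 + 1, h⟩ else -∑ j : Fin n, a j • z j) := rfl

theorem compConn_conn {k : Type u} [Field k] {δ : Derivation ℤ k k} {M : Type u}
    [AddCommGroup M] [Module k M] {D : M →+ M} (hD : IsConn δ D)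
    (n : ℕ) (a : ℕ → k) : IsConn δ (compConn D n a) := by
  intro c z
  funext i
  rw [Pi.add_apply, Pi.smul_apply, Pi.smul_apply, compConn_apply, compConn_apply, Pi.smul_apply,
    hD]
  split_ifs with h
  · rw [Pi.smul_apply, smul_sub]
    abel
  · have e : ∑ j : Fin n, a j • (c • z) j = c • ∑ j : Fin n, a j • z j := by
      rw [Finset.smul_sum]
      apply Finset.sum_congr rfl
      intro j _
      rw [Pi.smul_apply, smul_comm]
    rw [e, smul_sub, smul_neg]
    abel

theorem divisible_of_condA {k S : Type u} [Field k] [CharZero k] [Ring S] [DP k S]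
    (hA : CondA (dδ k S)) {M : Type u} [AddCommGroup M] [Module S M] [Module k M]
    [IsScalarTower k S M] [Module.Finite k M] (s : S) (m : M) (hs : s ≠ 0) :
    ∃ m', s • m' = m := by
  obtain ⟨p, rfl⟩ := (evS_bijective (k := k) (S := S)).2 s
  have hp0 : p ≠ 0 := by
    rintro rfl
    exact hs (map_zero _)
  set n := p.natDegree with hn
  set c := p.leadingCoeff with hc
  have hc0 : c ≠ 0 := by
    rw [hc]
    exact leadingCoeff_ne_zero.mpr hp0
  have hact : ∀ y : M, evS k S p • y =
      c • (dX k S ^ n • y) + ∑ j : Fin n, p.coeff j • (dX k S ^ (j : ℕ) • y) := by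
    intro y
    rw [evS_apply, Polynomial.sum_over_range]
    · rw [Finset.sum_range_succ, add_comm, add_smul, Finset.sum_smul, Finset.sum_range]
      congr 1
      · rw [smul_assoc]
        rfl
      · apply Finset.sum_congr rfl
        intro j _
        rw [smul_assoc]
    · intro j
      rw [zero_smul]
  by_cases hn0 : n = 0
  · refine ⟨c⁻¹ • m, ?_⟩
    rw [hact]
    have e : ∀ w : M, ∑ j : Fin n, p.coeff j • (dX k S ^ (j : ℕ) • w) = 0 := by
      intro w
      apply Finset.sum_eq_zero
      intro j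
      exact absurd j.2 (by omega)
    rw [e, add_zero, hn0, pow_zero]
    have e1 : (1 : S) • (c⁻¹ • m) = c⁻¹ • m := one_smul S _
    rw [e1, smul_smul, mul_inv_cancel₀ hc0, one_smul]
  · obtain ⟨l, hl⟩ := Nat.exists_eq_succ_of_ne_zero hn0
    have hln : l < n := by omega
    obtain ⟨z, hz⟩ := hA (Fin n → M) (compConn (conn k S M) n (fun j => c⁻¹ * p.coeff j))
      (compConn_conn isConn_conn n _)
      (fun i => if i.1 = l then c⁻¹ • m else 0)
    have h1 : ∀ (j : ℕ) (hj : j < n), z ⟨j, hj⟩ = dX k S ^ j • z ⟨0, by omega⟩ := by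
      intro j
      induction j with
      | zero =>
        intro hj
        rw [pow_zero, one_smul]
      | succ j ih =>
        intro hj
        have h2 := congrFun hz ⟨j, by omega⟩
        rw [compConn_apply, dif_pos hj, if_neg (by
          change ¬ j = l
          omega), sub_eq_zero] at h2
        rw [← h2, conn_apply, ih, pow_succ', mul_smul]
    refine ⟨z ⟨0, by omega⟩, ?_⟩
    have h3 := congrFun hz ⟨l, hln⟩
    rw [compConn_apply, dif_neg (by
      change ¬ l + 1 < n
      omega), if_pos rfl, sub_neg_eq_add, conn_apply, h1 l hln, ← mul_smul, ← pow_succ'] at h3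
    have hl' : l + 1 = n := by omega
    rw [hl'] at h3
    rw [hact]
    have h4 := congrArg (fun w : M => c • w) h3
    simp only [smul_add, Finset.smul_sum] at h4
    rw [smul_smul c c⁻¹ m, mul_inv_cancel₀ hc0, one_smul] at h4
    rw [← h4]
    congr 1
    apply Finset.sum_congr rfl
    intro j _
    rw [smul_smul, ← mul_assoc, mul_inv_cancel₀ hc0, one_mul, h1 j.1 j.2]

end Pool.Agent.Lib.MP_a53fda_al
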