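import Pool.Agent.Lib.MP_a53fda_al.Uniform
import Pool.Agent.Lib.MP_a53fda_al.Dual

set_option autoImplicit false

namespace Pool.Agent.Lib.MP_a53fda_al

universe u

open Pool.Agent.Lib.MP_a53fda_al.Sub

section Split

variable {S : Type u} [Ring S] {M C N A B M' : Type u} [AddCommGroup M] [Module S M]
  [AddCommGroup C] [Module S C] [AddCommGroup N] [Module S N] [AddCommGroup A] [Module S A]
  [AddCommGroup B] [Module S B] [AddCommGroup M'] [Module S M']

/-- A pure embedding of a finitely generated module into a finitely generated module over a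
noetherian ring splits. -/
theorem IsPure.exists_retraction [IsNoetherianRing S] [Module.Finite S M] [Module.Finite S C]
    {i : M →ₗ[S] C} (hi : IsPure i) : ∃ ρ : C →ₗ[S] M, ∀ x, ρ (i x) = x := by
  classical
  obtain ⟨p, g, hg⟩ := Module.Finite.exists_fin (R := S) (M := C)
  let G : (Fin p →₀ S) →ₗ[S] C := Finsupp.linearCombination S g
  have hG : Function.Surjective G := by
    rw [← LinearMap.range_eq_top, Finsupp.range_linearCombination, hg]
  obtain ⟨E, hE⟩ := IsNoetherian.noetherian (LinearMap.ker G)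
  obtain ⟨F, hF⟩ := (Module.finite_def (R := S) (M := M)).mp inferInstance
  choose d hd using fun m : M => hG (i m)
  let T : Finset ((Fin p →₀ S) × M) := E.image (fun e => (e, 0)) ∪ F.image (fun m => (d m, m))
  obtain ⟨y, hy⟩ := hi.solve T (fun t => t.1) (fun t => t.2) g (by
    intro t ht
    rw [Finset.mem_union, Finset.mem_image, Finset.mem_image] at ht
    rcases ht with ⟨e, he, rfl⟩ | ⟨m, hm, rfl⟩
    · rw [map_zero]
      have : e ∈ LinearMap.ker G := by
        rw [← hE]
        exact Submodule.subset_span he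
      exact this
    · exact hd m)
  let Y : (Fin p →₀ S) →ₗ[S] M := Finsupp.linearCombination S y
  have hker : LinearMap.ker G ≤ LinearMap.ker Y := by
    rw [← hE, Submodule.span_le]
    intro e he
    exact hy (e, 0) (Finset.mem_union_left _ (Finset.mem_image_of_mem _ he))
  let ρ : C →ₗ[S] M := ((LinearMap.ker G).liftQ Y hker) ∘ₗ
    (G.quotKerEquivOfSurjective hG).symm.toLinearMap
  have hρ : ∀ e, ρ (G e) = Y e := by
    intro e
    have : (G.quotKerEquivOfSurjective hG).symm (G e) = Submodule.Quotient.mk e := by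
      rw [LinearEquiv.symm_apply_eq]
      rfl
    change ((LinearMap.ker G).liftQ Y hker) ((G.quotKerEquivOfSurjective hG).symm (G e)) = Y e
    rw [this]
    rfl
  refine ⟨ρ, fun x => ?_⟩
  have hid : ρ ∘ₗ i = LinearMap.id := by
    apply LinearMap.ext_on hF
    intro m hm
    have h1 := hy (d m, m) (Finset.mem_union_right _ (Finset.mem_image_of_mem _ hm))
    change ρ (i m) = m
    rw [← hd m, hρ]
    exact h1
  exact LinearMap.congr_fun hid x

/-- Split monomorphisms from nonzero modules to indecomposable ones are bijective. -/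
theorem bijective_of_split [Nontrivial M] (hN : IsIndecomposable S N) (f : M →ₗ[S] N)
    (g : N →ₗ[S] M) (h : ∀ x, g (f x) = x) : Function.Bijective f := by
  rcases hN.idempotent (f ∘ₗ g) (fun x => by simp [h]) with h' | h'
  · exfalso
    obtain ⟨x, hx⟩ := exists_ne (0 : M)
    have h2 := h' (f x)
    simp only [LinearMap.comp_apply, h] at h2
    have h3 := h x
    rw [h2, map_zero] at h3
    exact hx h3.symm
  · exact ⟨fun x y hxy => by rw [← h x, hxy, h], fun y => ⟨g y, h' y⟩⟩

/-- Fitting: endomorphism rings of indecomposable modules of finite length are local. -/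
theorem fitting [IsNoetherian S M] [IsArtinian S M] (hM : IsIndecomposable S M)
    (f : M →ₗ[S] M) :
    Function.Bijective f ∨ Function.Bijective (LinearMap.id - f : M →ₗ[S] M) := by
  obtain ⟨n, hn⟩ := (LinearMap.eventually_isCompl_ker_pow_range_pow f).exists_forall_of_atTop
  have hc := hn (n + 1) (Nat.le_succ n)
  rcases hM.2 _ _ hc with h | h
  · left
    have hinj : Function.Injective f := by
      rw [← LinearMap.ker_eq_bot, eq_bot_iff, ← h]
      intro x hx
      rw [LinearMap.mem_ker] at hx ⊢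
      rw [pow_succ, Module.End.mul_apply, hx, map_zero]
    exact ⟨hinj, IsArtinian.surjective_of_injective_endomorphism f hinj⟩
  · right
    have hnil : IsNilpotent (f : Module.End S M) := ⟨n + 1, by
      ext x
      have : (f ^ (n + 1)) x ∈ LinearMap.range (f ^ (n + 1)) := ⟨x, rfl⟩
      rw [h] at this
      simpa using this⟩
    have hu : IsUnit (1 - f : Module.End S M) := hnil.isUnit_one_sub
    rw [Module.End.isUnit_iff] at hu
    exact hu

theorem fitting_add [IsNoetherian S M] [IsArtinian S M] (hM : IsIndecomposable S M)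
    (f g : M →ₗ[S] M) (h : ∀ x, f x + g x = x) : Function.Bijective f ∨ Function.Bijective g := by
  have : g = LinearMap.id - f := by
    ext x
    rw [LinearMap.sub_apply, LinearMap.id_apply, eq_sub_iff_add_eq, add_comm]
    exact h x
  rw [this]
  exact fitting hM f

/-- The module `C = (M ⊕ S ^ m) / (x j - r j)`. -/
theorem exists_solving [Module.Finite S M] {n₀ m₀ : ℕ} (r₀ : Matrix (Fin n₀) (Fin m₀) S)
    (x₀ : Fin n₀ → M) :
    ∃ (C : Type u) (_ : AddCommGroup C) (_ : Module S C) (_ : Module.Finite S C)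
      (i : M →ₗ[S] C), (fun j => i (x₀ j)) ∈ rng r₀ C ∧
      (∀ {n m : ℕ} (r : Matrix (Fin n) (Fin m) S) (x : Fin n → M),
        (fun j => i (x j)) ∈ rng r C → x ∈ (gen r₀ x₀).K r) ∧
      (∀ (N : Type u) [AddCommGroup N] [Module S N] (f : M →ₗ[S] N),
        (fun j => f (x₀ j)) ∈ rng r₀ N → ∃ g : C →ₗ[S] N, ∀ x, g (i x) = f x) := by
  classical
  let W : Submodule S (M × (Fin m₀ → S)) :=
    Submodule.span S (Set.range fun j => (x₀ j, -(r₀ j : Fin m₀ → S)))
  let q : (M × (Fin m₀ → S)) →ₗ[S] (M × (Fin m₀ → S)) ⧸ W := W.mkQ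
  refine ⟨(M × (Fin m₀ → S)) ⧸ W, inferInstance, inferInstance, inferInstance,
    q ∘ₗ LinearMap.inl S M (Fin m₀ → S), ?_, ?_, ?_⟩
  · refine ⟨fun i => q (0, Pi.single i 1), ?_⟩
    funext j
    rw [act_apply]
    change _ = q (x₀ j, 0)
    have h1 : ∑ i, r₀ j i • q (0, Pi.single i 1) = q (0, (r₀ j : Fin m₀ → S)) := by
      have : ((0 : M), (r₀ j : Fin m₀ → S)) =
          ∑ i, r₀ j i • ((0 : M), (Pi.single i (1 : S) : Fin m₀ → S)) := by
        refine Prod.ext ?_ ?_
        · simp [Prod.fst_sum]
        · rw [Prod.snd_sum]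
          funext l
          rw [Finset.sum_apply, Finset.sum_eq_single l]
          · simp
          · intro b _ hb
            simp [hb.symm]
          · simp
      rw [this, map_sum]
      simp only [map_smul]
    rw [h1, ← sub_eq_zero, ← map_sub]
    change W.mkQ _ = 0
    rw [Submodule.mkQ_apply, Submodule.Quotient.mk_eq_zero]
    have : ((0 : M), (r₀ j : Fin m₀ → S)) - (x₀ j, 0) = -(x₀ j, -(r₀ j : Fin m₀ → S)) := by
      ext <;> simp
    rw [this]
    exact Submodule.neg_mem _ (Submodule.subset_span ⟨j, rfl⟩)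
  · intro n m r x hx
    obtain ⟨Y, hY⟩ := hx
    have hsurj : Function.Surjective q := W.mkQ_surjective
    choose Yt hYt using fun i => hsurj (Y i)
    have hk : ∀ k : Fin n, ∃ z : Fin n₀ → S,
        ∑ j, z j • ((x₀ j, -(r₀ j : Fin m₀ → S)) : M × (Fin m₀ → S)) =
          (x k, 0) - ∑ i, r k i • Yt i := by
      intro k
      rw [← Submodule.mem_span_range_iff_exists_fun]
      change _ ∈ W
      rw [← Submodule.Quotient.mk_eq_zero, ← Submodule.mkQ_apply]
      change q _ = 0
      rw [map_sub, map_sum, sub_eq_zero]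
      have := congrFun hY k
      simp only [act_apply] at this
      simp only [map_smul, hYt]
      rw [this]
      rfl
    choose z hz using hk
    refine ⟨fun k j => z k j, fun i l => (Yt i).2 l, ?_, ?_⟩
    · ext k l
      have h1 := congrArg (fun e : M × (Fin m₀ → S) => e.2 l) (hz k)
      simp only [Prod.snd_sum, Prod.snd_sub, Finset.sum_apply, Pi.sub_apply, Prod.smul_snd,
        Pi.smul_apply, Pi.neg_apply, smul_eq_mul, Pi.zero_apply, zero_sub, mul_neg,
        Finset.sum_neg_distrib, neg_inj] at h1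
      simp only [Matrix.mul_apply]
      exact h1
    · refine ⟨fun i => (Yt i).1, ?_⟩
      funext k
      have h1 := congrArg (fun e : M × (Fin m₀ → S) => e.1) (hz k)
      simp only [Prod.fst_sum, Prod.fst_sub, Prod.smul_fst] at h1
      rw [act_apply, Pi.sub_apply, act_apply, h1]
      abel
  · intro N _ _ f hf
    obtain ⟨Y, hY⟩ := hf
    let F : (M × (Fin m₀ → S)) →ₗ[S] N := f.coprod (Fintype.linearCombination S Y)
    have hW : W ≤ LinearMap.ker F := by
      rw [Submodule.span_le]
      rintro _ ⟨j, rfl⟩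
      have := congrFun hY j
      rw [act_apply] at this
      rw [SetLike.mem_coe, LinearMap.mem_ker, LinearMap.coprod_apply, map_neg,
        Fintype.linearCombination_apply, this, add_neg_cancel]
    refine ⟨W.liftQ F hW, fun x => ?_⟩
    change W.liftQ F hW (W.mkQ (x, 0)) = f x
    rw [Submodule.mkQ_apply, Submodule.liftQ_apply, LinearMap.coprod_apply, map_zero, add_zero]

/-- `M ⊗ -` is uniform for an indecomposable finite length module `M` over a noetherian ring. -/
theorem uniform_fg [IsNoetherianRing S] [IsNoetherian S M] [IsArtinian S M]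
    (hM : IsIndecomposable S M) (U V : Sub S M) (h : U.Disj V) :
    U ≤ bot S M ∨ V ≤ bot S M := by
  by_contra hcon
  rw [not_or] at hcon
  obtain ⟨h1, h2⟩ := hcon
  rw [Sub.le_def] at h1 h2
  push Not at h1 h2
  obtain ⟨n₁, m₁, r₁, h1⟩ := h1
  obtain ⟨n₂, m₂, r₂, h2⟩ := h2
  obtain ⟨x₁, hx₁, hx₁'⟩ := Set.not_subset.mp h1
  obtain ⟨x₂, hx₂, hx₂'⟩ := Set.not_subset.mp h2
  have gle : ∀ {n m : ℕ} (r : Matrix (Fin n) (Fin m) S) (x : Fin n → M) (U : Sub S M),
      x ∈ U.K r → gen r x ≤ U := by
    intro n m r x U hx n' m' r' y hy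
    obtain ⟨z, w, hzw, hy⟩ := hy
    have h5 := AddSubgroup.add_mem _ (U.rng_le r' hy) (U.mor hzw x hx)
    rwa [sub_add_cancel] at h5
  obtain ⟨C₁, _, _, _, i₁, hi₁, hC₁, -⟩ := exists_solving r₁ x₁
  obtain ⟨C₂, _, _, _, i₂, hi₂, hC₂, -⟩ := exists_solving r₂ x₂
  have hpure : IsPure (i₁.prod i₂) := by
    intro n m r x hx
    have h3 := map_mem_rng (LinearMap.fst S C₁ C₂) hx
    have h4 := map_mem_rng (LinearMap.snd S C₁ C₂) hx
    exact h r x (gle r₁ x₁ U hx₁ r (hC₁ r x h3)) (gle r₂ x₂ V hx₂ r (hC₂ r x h4))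
  obtain ⟨ρ, hρ⟩ := hpure.exists_retraction
  have hsum : ∀ x, (ρ ∘ₗ LinearMap.inl S C₁ C₂ ∘ₗ i₁) x + (ρ ∘ₗ LinearMap.inr S C₁ C₂ ∘ₗ i₂) x
      = x := by
    intro x
    have h5 : (i₁.prod i₂) x = LinearMap.inl S C₁ C₂ (i₁ x) + LinearMap.inr S C₁ C₂ (i₂ x) := by
      simp
    have h6 := hρ x
    rw [h5, map_add] at h6
    exact h6
  rcases fitting_add hM _ _ hsum with h3 | h3
  · apply hx₁'
    have h4 := map_mem_rng (ρ ∘ₗ LinearMap.inl S C₁ C₂) hi₁
    have h5 := map_mem_rng (LinearEquiv.ofBijective _ h3).symm.toLinearMap h4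
    have h6 : (fun j => (LinearEquiv.ofBijective _ h3).symm.toLinearMap
        ((ρ ∘ₗ LinearMap.inl S C₁ C₂) (i₁ (x₁ j)))) = x₁ := by
      funext j
      exact (LinearEquiv.ofBijective _ h3).symm_apply_apply (x₁ j)
    rw [h6] at h5
    exact h5
  · apply hx₂'
    have h4 := map_mem_rng (ρ ∘ₗ LinearMap.inr S C₁ C₂) hi₂
    have h5 := map_mem_rng (LinearEquiv.ofBijective _ h3).symm.toLinearMap h4
    have h6 : (fun j => (LinearEquiv.ofBijective _ h3).symm.toLinearMap
        ((ρ ∘ₗ LinearMap.inr S C₁ C₂) (i₂ (x₂ j)))) = x₂ := by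
      funext j
      exact (LinearEquiv.ofBijective _ h3).symm_apply_apply (x₂ j)
    rw [h6] at h5
    exact h5

end Split

section Hull

variable {S : Type u} [Ring S]

theorem mem_zero_cols {N : Type u} [AddCommGroup N] [Module S N] {U : Sub S N}
    (hU : U ≤ bot S N) {x : N} (hx : (fun _ => x) ∈ U.K (0 : Matrix (Fin 1) (Fin 0) S)) :
    x = 0 := congrFun (rng_zero_cols (hU _ hx)) 0

/-- Pure-injective hulls of indecomposable modules of finite length. -/
theorem exists_hull [IsNoetherianRing S] (M : Type u) [AddCommGroup M] [Module S M]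
    [IsNoetherian S M] [IsArtinian S M] (hM : IsIndecomposable S M) :
    ∃ (N : IndecPureInj S) (i : M →ₗ[S] N.carrier), IsPure i ∧
      ∀ φ ψ : PPFormula S, (∀ x : M, φ.Holds x → ψ.Holds x) →
        ∀ x : N.carrier, φ.Holds x → ψ.Holds x := by
  let P := BiDual M
  have hP : IsPureInjective S P := BiDual.isPureInjective
  let e : M →ₗ[S] P := BiDual.ev
  have he : IsPure e := BiDual.isPure_ev
  let U : Sub S P := im e
  have hdis : U.Disj (bot S P) := fun r x _ hx => hx
  obtain ⟨π, K, L, hπ, hUK, -, hK, -, hess⟩ := Sub.exists_idempotent hP U (bot S P) hdis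
  have hπe : ∀ m, π (e m) = e m := by
    intro m
    let r : Matrix (Fin 1) (Fin 0) S := 0
    have h1 : (fun _ => e m) ∈ U.K r := mem_im.mpr ⟨fun _ => m, by
      have : (fun _ => e m) - mapv e 1 (fun _ => m) = 0 := by
        funext j
        simp [mapv_apply]
      rw [this]
      exact AddSubgroup.zero_mem _⟩
    have h2 := congrFun (rng_zero_cols ((hK r _).mp (hUK r h1))) 0
    simp only [Pi.sub_apply, mapv_apply, Pi.zero_apply, sub_eq_zero] at h2
    exact h2.symm
  let Nc := LinearMap.range π
  let p : P →ₗ[S] Nc := π.rangeRestrict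
  let j : Nc →ₗ[S] P := Nc.subtype
  have hpj : ∀ x : Nc, p (j x) = x := by
    rintro ⟨_, ⟨x, rfl⟩⟩
    exact Subtype.ext (hπ x)
  have hjp : ∀ x : P, j (p x) = π x := fun x => rfl
  have hNP : IsPureInjective S Nc := hP.of_retract j p hpj
  let i : M →ₗ[S] Nc := p ∘ₗ e
  have hji : ∀ m, j (i m) = e m := fun m => hπe m
  have hi : IsPure i := by
    apply IsPure.of_comp (g := j)
    have : j ∘ₗ i = e := LinearMap.ext hji
    rw [this]
    exact he
  have hind : IsIndecomposable S Nc := by
    have hMn : Nontrivial M := hM.1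
    refine ⟨hi.injective.nontrivial, ?_⟩
    -- for a submodule `A` of `N`, the subfunctor of `P ⊗ -` generated by it
    let V : Submodule S Nc → Sub S P := fun A => im (j ∘ₗ A.subtype)
    have hVK : ∀ A, V A ≤ K := by
      intro A n m r x hx
      obtain ⟨y, hy⟩ := mem_im.mp hx
      rw [hK]
      have h1 : mapv π n (mapv (j ∘ₗ A.subtype) n y) = mapv (j ∘ₗ A.subtype) n y := by
        funext l
        simp only [mapv_apply, LinearMap.comp_apply]
        rw [← hjp, hpj]
      have h2 := mapv_mem_rng π hy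
      rw [map_sub, h1] at h2
      have := AddSubgroup.sub_mem _ hy h2
      rw [sub_sub_sub_cancel_right] at this
      exact this
    intro A B hAB
    have hdisM : ((V A).comap e).Disj ((V B).comap e) := by
      intro n m r x hx hx'
      obtain ⟨a, ha⟩ := mem_im.mp (mem_comap.mp hx)
      obtain ⟨b, hb⟩ := mem_im.mp (mem_comap.mp hx')
      apply he.mem_rng
      -- project to `A`
      let pA : Nc →ₗ[S] A := A.projectionOnto B hAB
      have h1 := AddSubgroup.sub_mem _ hb ha
      rw [sub_sub_sub_cancel_left] at h1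
      have h2 := mapv_mem_rng (j ∘ₗ A.subtype ∘ₗ pA ∘ₗ p) h1
      have h3 : mapv (j ∘ₗ A.subtype ∘ₗ pA ∘ₗ p) n
          (mapv (j ∘ₗ A.subtype) n a - mapv (j ∘ₗ B.subtype) n b) =
          mapv (j ∘ₗ A.subtype) n a := by
        funext l
        simp only [map_sub, Pi.sub_apply, mapv_apply, LinearMap.comp_apply, hpj]
        have h4 : pA (A.subtype (a l)) = a l := Submodule.projectionOnto_apply_left hAB (a l)
        have h5 : pA (B.subtype (b l)) = 0 := Submodule.projectionOnto_apply_right hAB (b l)
        rw [h4, h5, map_zero, map_zero, sub_zero]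
      rw [h3] at h2
      have h6 := AddSubgroup.add_mem _ ha h2
      rw [sub_add_cancel] at h6
      exact h6
    have key : ∀ A : Submodule S Nc, (V A).comap e ≤ bot S M → A = ⊥ := by
      intro A hA
      have h1 : (V A).Disj U := by
        intro n m r x hx hx'
        obtain ⟨y, hy⟩ := mem_im.mp hx'
        have h2 : mapv e n y ∈ (V A).K r := by
          have := AddSubgroup.sub_mem _ hx ((V A).rng_le r hy)
          rwa [sub_sub_cancel] at this
        have h3 := mapv_mem_rng e (hA r (mem_comap.mpr h2))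
        have := AddSubgroup.add_mem _ hy h3
        rwa [sub_add_cancel] at this
      have h2 : V A ≤ bot S P := hess _ (hVK A) h1
      rw [eq_bot_iff]
      intro a ha
      have h3 : j a = 0 := mem_zero_cols h2 (mem_im.mpr ⟨fun _ => ⟨a, ha⟩, by
        have : (fun _ => j a) - mapv (j ∘ₗ A.subtype) 1 (fun _ => ⟨a, ha⟩) = 0 := by
          funext l
          simp [mapv_apply]
        rw [this]
        exact AddSubgroup.zero_mem _⟩)
      have h4 : a = 0 := by
        rw [← hpj a, h3, map_zero]
      rw [h4]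
      exact Submodule.zero_mem _
    rcases uniform_fg hM _ _ hdisM with h | h
    · exact Or.inl (key A h)
    · exact Or.inr (key B h)
  refine ⟨⟨Nc, hNP, hind⟩, i, hi, ?_⟩
  intro φ ψ h x hx
  have h1 : φ.Holds (j x) := PPFormula.Holds.map hx j
  have h2 : ψ.Holds (j x) := BiDual.holds_of_holds h (j x) h1
  have h3 := h2.map p
  rw [hpj] at h3
  exact h3

/-- Non-isomorphic finite length modules have non-isomorphic hulls. -/
theorem iso_of_pure_pure [IsNoetherianRing S] {M M' : Type u} [AddCommGroup M] [Module S M]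
    [IsNoetherian S M] [IsArtinian S M] (hM : IsIndecomposable S M) [AddCommGroup M']
    [Module S M'] [IsNoetherian S M'] [IsArtinian S M'] (hM' : IsIndecomposable S M')
    {N : Type u} [AddCommGroup N] [Module S N] (hP : IsPureInjective S N)
    (hN : IsIndecomposable S N) (i : M →ₗ[S] N) (hi : IsPure i) (i' : M' →ₗ[S] N)
    (hi' : IsPure i') : Nonempty (M' ≃ₗ[S] M) := by
  classical
  have hMn : Nontrivial M := hM.1
  have hMn' : Nontrivial M' := hM'.1
  -- the two images are not disjoint
  have hnot : ¬ (im i).Disj (im i') := by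
    intro h
    have key : ∀ {M : Type u} [AddCommGroup M] [Module S M] [Nontrivial M] (i : M →ₗ[S] N),
        IsPure i → ¬ im i ≤ bot S N := by
      intro M _ _ _ i hi hle
      obtain ⟨x, hx⟩ := exists_ne (0 : M)
      have h1 : i x = 0 := mem_zero_cols hle (mem_im.mpr ⟨fun _ => x, by
        have : (fun _ => i x) - mapv i 1 (fun _ => x) = 0 := by
          funext l
          simp [mapv_apply]
        rw [this]
        exact AddSubgroup.zero_mem _⟩)
      exact hx (hi.injective (by rw [h1, map_zero]))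
    rcases uniform hP hN _ _ h with h | h
    · exact key i hi h
    · exact key i' hi' h
  unfold Sub.Disj at hnot
  push Not at hnot
  obtain ⟨n, m, r, x, hx1, hx2, hx⟩ := hnot
  obtain ⟨a, ha⟩ := mem_im.mp hx1
  obtain ⟨a', ha'⟩ := mem_im.mp hx2
  have h1 := AddSubgroup.sub_mem _ ha' ha
  rw [sub_sub_sub_cancel_left] at h1
  obtain ⟨y, hy⟩ := h1
  -- a finitely generated submodule containing everything
  let C : Submodule S N := LinearMap.range i ⊔ LinearMap.range i' ⊔
    Submodule.span S (Set.range y)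
  have hCfg : C.FG := by
    refine Submodule.FG.sup (Submodule.FG.sup ?_ ?_) ?_
    · rw [LinearMap.range_eq_map]
      exact (IsNoetherian.noetherian _).map _
    · rw [LinearMap.range_eq_map]
      exact (IsNoetherian.noetherian _).map _
    · exact Submodule.fg_span (Set.finite_range y)
  have : Module.Finite S C := Module.Finite.of_fg hCfg
  let j : M →ₗ[S] C := i.codRestrict C (fun x => Submodule.mem_sup_left
    (Submodule.mem_sup_left ⟨x, rfl⟩))
  let j' : M' →ₗ[S] C := i'.codRestrict C (fun x => Submodule.mem_sup_left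
    (Submodule.mem_sup_right ⟨x, rfl⟩))
  let yC : Fin m → C := fun l => ⟨y l, Submodule.mem_sup_right (Submodule.subset_span ⟨l, rfl⟩)⟩
  have hj : IsPure j := IsPure.of_comp (g := C.subtype) (by
    have : C.subtype ∘ₗ j = i := by
      ext x
      rfl
    rw [this]
    exact hi)
  have hj' : IsPure j' := IsPure.of_comp (g := C.subtype) (by
    have : C.subtype ∘ₗ j' = i' := by
      ext x
      rfl
    rw [this]
    exact hi')
  obtain ⟨ρ, hρ⟩ := hj.exists_retraction
  obtain ⟨ρ', hρ'⟩ := hj'.exists_retraction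
  have hsum : ∀ x, (ρ' ∘ₗ j ∘ₗ ρ ∘ₗ j') x + (ρ' ∘ₗ (LinearMap.id - j ∘ₗ ρ) ∘ₗ j') x = x := by
    intro x
    simp [hρ']
  have hyC : act r yC = mapv j n a - mapv j' n a' := by
    funext l
    have h2 := congrFun hy l
    apply Subtype.ext
    rw [act_apply] at h2 ⊢
    simp only [Submodule.coe_sum, Submodule.coe_smul]
    rw [h2]
    rfl
  rcases fitting_add hM' _ _ hsum with h2 | h2
  · -- `ρ j'` is a split monomorphism
    let e := LinearEquiv.ofBijective _ h2
    have h3 := bijective_of_split hM (ρ ∘ₗ j') (e.symm.toLinearMap ∘ₗ ρ' ∘ₗ j)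
      (fun x => e.symm_apply_apply x)
    exact ⟨LinearEquiv.ofBijective _ h3⟩
  · exfalso
    let e := LinearEquiv.ofBijective _ h2
    have h3 : mapv (LinearMap.id - j ∘ₗ ρ) n (mapv j' n a') ∈ rng r C := by
      have h4 := mapv_mem_rng (LinearMap.id - j ∘ₗ ρ) (act_mem_rng r yC)
      rw [hyC, map_sub] at h4
      have h5 : mapv (LinearMap.id - j ∘ₗ ρ) n (mapv j n a) = 0 := by
        funext l
        simp [mapv_apply, hρ]
      rw [h5, zero_sub] at h4
      simpa using AddSubgroup.neg_mem _ h4
    have h4 := mapv_mem_rng (e.symm.toLinearMap ∘ₗ ρ') h3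
    have h5 : mapv (e.symm.toLinearMap ∘ₗ ρ') n
        (mapv (LinearMap.id - j ∘ₗ ρ) n (mapv j' n a')) = a' := by
      funext l
      exact e.symm_apply_apply (a' l)
    rw [h5] at h4
    apply hx
    have h6 := AddSubgroup.add_mem _ ha' (mapv_mem_rng i' h4)
    rwa [sub_add_cancel] at h6

end Hull

end Pool.Agent.Lib.MP_a53fda_al
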