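import Pool.Agent.Lib.MP_a53fda_al.DP
import Pool.Agent.Lib.MP_a53fda_al.Univ

/-!
# Extension of maps in case B
-/

set_option autoImplicit false

namespace Pool.Agent.Lib.MP_a53fda_al

universe u

section

variable {k S : Type u} [Field k] [Ring S] [DP k S]

/-- A subgroup stable under `k` and the variable is stable under `S`. -/
theorem ks_smul_mem {M : Type u} [AddCommGroup M] [Module S M] [Module k M] [IsScalarTower k S M]
    (P : AddSubgroup M) (hk : ∀ (a : k), ∀ m ∈ P, a • m ∈ P)
    (hX : ∀ m ∈ P, dX k S • m ∈ P) (s : S) {m : M} (hm : m ∈ P) : s • m ∈ P := by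
  obtain ⟨p, hp, -⟩ := DP.repr (k := k) s
  have hpow : ∀ i : ℕ, (dX k S) ^ i • m ∈ P := by
    intro i
    induction i with
    | zero => rwa [pow_zero, one_smul]
    | succ i ih =>
      rw [pow_succ', mul_smul]
      exact hX _ ih
  rw [hp, Polynomial.sum, Finset.sum_smul]
  apply P.sum_mem
  intro i _
  rw [smul_assoc]
  exact hk _ _ (hpow i)

/-- A `k`-linear map commuting with the variable is `S`-linear. -/
theorem ks_exists_linearMap
    {M N : Type u} [AddCommGroup M] [Module S M] [Module k M] [IsScalarTower k S M]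
    [AddCommGroup N] [Module S N] [Module k N] [IsScalarTower k S N]
    (f : M →ₗ[k] N) (hf : ∀ m, f (dX k S • m) = dX k S • f m) :
    ∃ g : M →ₗ[S] N, ∀ m, g m = f m := by
  have hpow : ∀ (i : ℕ) (m : M), f ((dX k S) ^ i • m) = (dX k S) ^ i • f m := by
    intro i
    induction i with
    | zero => intro m; rw [pow_zero, one_smul, one_smul]
    | succ i ih =>
      intro m
      rw [pow_succ', mul_smul, hf, ih, mul_smul]
  refine ⟨{ toFun := f, map_add' := map_add f, map_smul' := ?_ }, fun m => rfl⟩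
  intro s m
  obtain ⟨p, hp, -⟩ := DP.repr (k := k) s
  rw [RingHom.id_apply, hp, Polynomial.sum, Finset.sum_smul, Finset.sum_smul, map_sum]
  apply Finset.sum_congr rfl
  intro i _
  rw [smul_assoc, smul_assoc, map_smul, hpow]

end

section

variable {k : Type u} [Field k]

theorem ks_lift {V W Z : Type u} [AddCommGroup V] [Module k V] [AddCommGroup W] [Module k W]
    [AddCommGroup Z] [Module k Z] (π : V →ₗ[k] W) (hπ : Function.Surjective π) (ζ : V →ₗ[k] Z)
    (h : ∀ x, π x = 0 → ζ x = 0) : ∃ ξ : W →ₗ[k] Z, ∀ x, ξ (π x) = ζ x := by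
  obtain ⟨s, hs⟩ := π.exists_rightInverse_of_surjective (LinearMap.range_eq_top.mpr hπ)
  refine ⟨ζ ∘ₗ s, fun x => ?_⟩
  have h1 : π (s (π x) - x) = 0 := by
    have h2 := LinearMap.congr_fun hs (π x)
    rw [LinearMap.comp_apply, LinearMap.id_apply] at h2
    rw [map_sub, h2, sub_self]
  have h3 := h _ h1
  rw [map_sub, sub_eq_zero] at h3
  exact h3

variable {δ : Derivation ℤ k k}

theorem ks_homConn_smulRight {Y C : Type u} [AddCommGroup Y] [Module k Y] [AddCommGroup C]
    [Module k C] (DY : Y →+ Y) (DC : C →+ C)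
    (hY : IsConn δ DY) (hC : IsConn δ DC) (φ : Module.Dual k Y) (w : C) :
    homConn DY DC hY hC (φ.smulRight w) =
      φ.smulRight (DC w) + (dualConn DY hY φ).smulRight w := by
  ext x
  rw [homConn_apply, LinearMap.add_apply, LinearMap.smulRight_apply, LinearMap.smulRight_apply,
    LinearMap.smulRight_apply, LinearMap.smulRight_apply, hC, dualConn_apply, sub_smul]
  abel

theorem ks_exists_u {Y C : Type u} [AddCommGroup Y] [Module k Y] [Module.Finite k Y]
    [AddCommGroup C] [Module k C] (DY : Y →+ Y) (DC : C →+ C)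
    (hY : IsConn δ DY) (hC : IsConn δ DC) (c : k) (θ : (Y →ₗ[k] C) →ₗ[k] k)
    (hθ : ∀ f, θ (homConn DY DC hY hC f) = δ (θ f) + c * θ f) :
    ∃ u : C →ₗ[k] Y, (∀ v, u (DC v) = DY (u v) + c • u v) ∧
      ∀ f : Y →ₗ[k] C, θ f = LinearMap.trace k Y (u ∘ₗ f) := by
  let B : C →ₗ[k] Module.Dual k (Module.Dual k Y) :=
    LinearMap.mk₂ k (fun v φ => θ (φ.smulRight v))
      (fun v v' φ => by
        rw [← map_add]
        congr 1
        ext y
        simp [smul_add])
      (fun a v φ => by
        rw [← map_smul]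
        congr 1
        ext y
        rw [LinearMap.smulRight_apply, LinearMap.smul_apply, LinearMap.smulRight_apply,
          smul_comm])
      (fun v φ φ' => by
        rw [← map_add]
        congr 1
        ext y
        simp [add_smul])
      (fun a v φ => by
        rw [← map_smul]
        congr 1
        ext y
        simp [smul_smul])
  let u : C →ₗ[k] Y := (Module.evalEquiv k Y).symm.toLinearMap ∘ₗ B
  have hu : ∀ (φ : Module.Dual k Y) (v : C), φ (u v) = θ (φ.smulRight v) := fun φ v =>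
    Module.apply_evalEquiv_symm_apply k Y φ (B v)
  refine ⟨u, ?_, ?_⟩
  · intro v
    rw [← sub_eq_zero, ← Module.forall_dual_apply_eq_zero_iff k]
    intro φ
    have h1 := hθ (φ.smulRight v)
    rw [ks_homConn_smulRight, map_add, ← hu, ← hu, ← hu, dualConn_apply] at h1
    rw [map_sub, map_add, map_smul, smul_eq_mul]
    linear_combination h1
  · intro f
    let b := Module.finBasis k Y
    have hg : f = ∑ i, (b.coord i).smulRight (f (b i)) := by
      apply b.ext
      intro j
      rw [LinearMap.sum_apply]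
      simp only [LinearMap.smulRight_apply, Module.Basis.coord_apply, Module.Basis.repr_self]
      rw [Finset.sum_eq_single j]
      · rw [Finsupp.single_eq_same, one_smul]
      · intro i _ hij
        rw [Finsupp.single_eq_of_ne hij, zero_smul]
      · intro h
        exact absurd (Finset.mem_univ _) h
    conv_lhs => rw [hg]
    conv_rhs => rw [hg]
    rw [map_sum]
    have h2 : u ∘ₗ (∑ i, (b.coord i).smulRight (f (b i))) =
        ∑ i, (b.coord i).smulRight (u (f (b i))) := by
      ext y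
      simp [LinearMap.sum_apply]
    rw [h2, map_sum]
    apply Finset.sum_congr rfl
    intro i _
    rw [LinearMap.trace_smulRight, hu]

end

theorem extends_of_not_split {k S : Type u} [Field k] [CharZero k] [Ring S] [DP k S]
    (hB : CondB (dδ k S))
    {M₀ C : Type u} [AddCommGroup M₀] [Module S M₀] [Module k M₀] [IsScalarTower k S M₀]
    [Module.Finite k M₀] [AddCommGroup C] [Module S C] [Module k C] [IsScalarTower k S C]
    [Module.Finite k C] (S₀ M₁ : Submodule S M₀) (hS : IsSimpleModule S S₀)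
    (hess : ∀ A : Submodule S M₀, A ≠ ⊥ → S₀ ≤ A) (h01 : S₀ ≤ M₁) (hM₁ : IsCoatom M₁)
    (g : M₁ →ₗ[S] C) (hg : ¬ ∃ ρ : C →ₗ[S] M₁, ∀ x, ρ (g x) = x) :
    ∃ g₀ : M₀ →ₗ[S] C, ∀ x : M₀, ∀ hx : x ∈ S₀, g₀ x = g ⟨x, h01 hx⟩ := by
  classical
  by_contra hno
  obtain ⟨c, e, hce, hB⟩ := hB
  let π : M₀ →ₗ[k] (M₀ ⧸ S₀) := S₀.mkQ.restrictScalars k
  have hπ : ∀ x, π x = S₀.mkQ x := fun x => rfl
  have hπs : Function.Surjective π := S₀.mkQ_surjective
  have hπ0 : ∀ x, π x = 0 ↔ x ∈ S₀ := by
    intro x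
    rw [hπ, Submodule.mkQ_apply, Submodule.Quotient.mk_eq_zero]
  have hfin : Module.Finite k (M₀ ⧸ S₀) := Module.Finite.of_surjective π hπs
  have hπX : ∀ x, π (dX k S • x) = dX k S • π x := by
    intro x
    rw [hπ, hπ, map_smul]
  -- the extension
  obtain ⟨G, hG⟩ : ∃ G : M₀ →ₗ[k] C, ∀ x (hx : x ∈ M₁), G x = g ⟨x, hx⟩ := by
    obtain ⟨G, hG⟩ := LinearMap.exists_extend (p := M₁.restrictScalars k)
      (g.restrictScalars k : M₁ →ₗ[k] C)
    refine ⟨G, fun x hx => ?_⟩
    have := LinearMap.congr_fun hG ⟨x, hx⟩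
    exact this
  set D0 := conn k S M₀ with hD0
  set DC := conn k S C with hDC
  set DY := conn k S (M₀ ⧸ S₀) with hDY
  have h0 : IsConn (dδ k S) D0 := isConn_conn
  have hC : IsConn (dδ k S) DC := isConn_conn
  have hY : IsConn (dδ k S) DY := isConn_conn
  have hζ : ∀ x ∈ M₁, homConn D0 DC h0 hC G x = 0 := by
    intro x hx
    rw [homConn_apply, hD0, hDC, conn_apply, conn_apply, hG x hx, hG _ (M₁.smul_mem _ hx),
      ← map_smul]
    exact sub_self _
  obtain ⟨ξ, hξ⟩ := ks_lift π hπs (homConn D0 DC h0 hC G)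
    (fun x hx => hζ x (h01 ((hπ0 x).mp hx)))
  have hout : ∀ f, homConn DY DC hY hC f ≠ ξ := by
    intro f hf
    apply hno
    obtain ⟨g₀, hg₀⟩ := ks_exists_linearMap (S := S) (G - f ∘ₗ π) (by
      intro m
      have h1 := hξ m
      rw [← hf, homConn_apply, homConn_apply, hD0, hDC, hDY, conn_apply, conn_apply, conn_apply,
        conn_apply] at h1
      rw [LinearMap.sub_apply, LinearMap.sub_apply, LinearMap.comp_apply, LinearMap.comp_apply,
        smul_sub, hπX]
      rw [sub_eq_sub_iff_add_eq_add] at h1 ⊢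
      rw [add_comm (G _), add_comm (dX k S • G m), h1]
      abel)
    refine ⟨g₀, fun x hx => ?_⟩
    rw [hg₀, LinearMap.sub_apply, LinearMap.comp_apply, (hπ0 x).mpr hx, map_zero, sub_zero,
      hG x (h01 hx)]
  obtain ⟨θ, hθ, a, hθξ⟩ := hB ((M₀ ⧸ S₀) →ₗ[k] C) (homConn DY DC hY hC)
    (homConn_conn DY DC hY hC) ξ hout
  obtain ⟨u, huD, hutr⟩ := ks_exists_u DY DC hY hC c θ hθ
  let h : M₁ →ₗ[k] (M₀ ⧸ S₀) := u ∘ₗ (g.restrictScalars k : M₁ →ₗ[k] C)
  have hh : ∀ x, h x = u (g x) := fun x => rfl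
  have hhX : ∀ x : M₁, h (dX k S • x) = dX k S • h x + c • h x := by
    intro x
    rw [hh, map_smul, ← conn_apply (k := k), huD, hDY, conn_apply, hh]
  by_cases hvan : ∀ x (hx : x ∈ S₀), h ⟨x, h01 hx⟩ = 0
  · -- case (i)
    obtain ⟨h', hh'⟩ := ks_lift π hπs (u ∘ₗ G) (by
      intro x hx
      rw [hπ0] at hx
      rw [LinearMap.comp_apply, hG x (h01 hx)]
      exact hvan x hx)
    have hkey : u ∘ₗ ξ = homConn DY DY hY hY h' + c • h' := by
      ext y
      obtain ⟨x, rfl⟩ := hπs y
      rw [LinearMap.comp_apply, hξ, homConn_apply, map_sub, huD, LinearMap.add_apply,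
        homConn_apply, LinearMap.smul_apply, hh']
      have h1 : DY (π x) = π (D0 x) := by
        rw [hD0, hDY, conn_apply, conn_apply, hπX]
      rw [h1, hh', LinearMap.comp_apply, LinearMap.comp_apply]
      abel
    have h2 := hutr ξ
    rw [hkey, map_add, trace_homConn, map_smul, smul_eq_mul, hθξ] at h2
    apply hce (LinearMap.trace k (M₀ ⧸ S₀) h' - a)
    rw [map_sub]
    linear_combination -h2
  · -- case (ii)
    push Not at hvan
    obtain ⟨x₀, hx₀, hne⟩ := hvan
    let P : AddSubgroup M₀ :=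
      { carrier := {x | ∃ hx : x ∈ M₁, h ⟨x, hx⟩ = 0}
        add_mem' := by
          rintro x y ⟨hx, hx'⟩ ⟨hy, hy'⟩
          refine ⟨M₁.add_mem hx hy, ?_⟩
          have : (⟨x + y, M₁.add_mem hx hy⟩ : M₁) = ⟨x, hx⟩ + ⟨y, hy⟩ := rfl
          rw [this, map_add, hx', hy', add_zero]
        zero_mem' := ⟨M₁.zero_mem, by
          have : (⟨0, M₁.zero_mem⟩ : M₁) = 0 := rfl
          rw [this, map_zero]⟩
        neg_mem' := by
          rintro x ⟨hx, hx'⟩
          refine ⟨M₁.neg_mem hx, ?_⟩
          have : (⟨-x, M₁.neg_mem hx⟩ : M₁) = -⟨x, hx⟩ := rfl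
          rw [this, map_neg, hx', neg_zero] }
    have hP : ∀ x, x ∈ P ↔ ∃ hx : x ∈ M₁, h ⟨x, hx⟩ = 0 := fun x => Iff.rfl
    have hsm : ∀ (s : S) (x : M₀), x ∈ P → s • x ∈ P := by
      intro s x hx
      refine ks_smul_mem (k := k) P ?_ ?_ s hx
      · rintro b m ⟨hm, hm'⟩
        have h1 : b • m ∈ M₁ := by
          rw [← smul_one_smul' (S := S)]
          exact M₁.smul_mem _ hm
        refine ⟨h1, ?_⟩
        have : (⟨b • m, h1⟩ : M₁) = b • (⟨m, hm⟩ : M₁) := rfl
        rw [this, map_smul, hm', smul_zero]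
      · rintro m ⟨hm, hm'⟩
        refine ⟨M₁.smul_mem _ hm, ?_⟩
        have : (⟨dX k S • m, M₁.smul_mem _ hm⟩ : M₁) = dX k S • (⟨m, hm⟩ : M₁) := rfl
        rw [this, hhX, hm', smul_zero, smul_zero, add_zero]
    let K : Submodule S M₀ := { P with smul_mem' := fun s x hx => hsm s x hx }
    have hK : ∀ x, x ∈ K ↔ ∃ hx : x ∈ M₁, h ⟨x, hx⟩ = 0 := fun x => Iff.rfl
    have hKbot : K = ⊥ := by
      by_contra hK0
      obtain ⟨h2, h3⟩ := (hK x₀).mp (hess K hK0 hx₀)
      exact hne h3
    have hinj : Function.Injective h := by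
      rw [← LinearMap.ker_eq_bot, LinearMap.ker_eq_bot']
      intro m hm
      have h3 : (m : M₀) ∈ K := (hK _).mpr ⟨m.2, hm⟩
      rw [hKbot, Submodule.mem_bot] at h3
      exact Subtype.ext h3
    -- images of submodules
    let im : Submodule S M₁ → Submodule S (M₀ ⧸ S₀) := fun N =>
      { carrier := h '' N
        add_mem' := by
          rintro _ _ ⟨x, hx, rfl⟩ ⟨y, hy, rfl⟩
          exact ⟨x + y, N.add_mem hx hy, map_add _ _ _⟩
        zero_mem' := ⟨0, N.zero_mem, map_zero _⟩
        smul_mem' := by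
          rintro s _ ⟨x, hx, rfl⟩
          let Q : AddSubgroup (M₀ ⧸ S₀) := (N.toAddSubgroup).map h.toAddMonoidHom
          have hQ : ∀ y, y ∈ Q ↔ ∃ x ∈ N, h x = y := fun y => Iff.rfl
          have h4 : s • h x ∈ Q := by
            refine ks_smul_mem (k := k) Q ?_ ?_ s ((hQ _).mpr ⟨x, hx, rfl⟩)
            · rintro b m hm
              obtain ⟨y, hy, rfl⟩ := (hQ _).mp hm
              refine (hQ _).mpr ⟨b • y, ?_, map_smul _ _ _⟩
              rw [← smul_one_smul' (S := S)]
              exact N.smul_mem _ hy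
            · rintro m hm
              obtain ⟨y, hy, rfl⟩ := (hQ _).mp hm
              refine (hQ _).mpr ⟨dX k S • y - c • y, ?_, ?_⟩
              · refine N.sub_mem (N.smul_mem _ hy) ?_
                rw [← smul_one_smul' (S := S)]
                exact N.smul_mem _ hy
              · rw [map_sub, hhX, map_smul]
                abel
          obtain ⟨y, hy, hy'⟩ := (hQ _).mp h4
          exact ⟨y, hy, hy'⟩ }
    have him : ∀ N y, y ∈ im N ↔ ∃ x ∈ N, h x = y := fun N y => Iff.rfl
    have hmono : StrictMono im := by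
      intro N N' hlt
      obtain ⟨hle, x, hx, hx'⟩ := SetLike.lt_iff_le_and_exists.mp hlt
      refine SetLike.lt_iff_le_and_exists.mpr ⟨?_, h x, ⟨x, hx, rfl⟩, ?_⟩
      · intro y hy
        obtain ⟨z, hz, rfl⟩ := (him _ _).mp hy
        exact ⟨z, hle hz, rfl⟩
      · intro hmem
        obtain ⟨z, hz, hz'⟩ := (him _ _).mp hmem
        rw [hinj hz'] at hz
        exact hx' hz
    -- finiteness over S
    have hnoeth : ∀ (M : Type u) [AddCommGroup M] [Module S M] [Module k M] [IsScalarTower k S M]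
        [Module.Finite k M], IsNoetherian S M ∧ IsArtinian S M := by
      intro M _ _ _ _ _
      have e : StrictMono (Submodule.restrictScalars k : Submodule S M → Submodule k M) := by
        intro A B hAB
        obtain ⟨hle, x, hx, hx'⟩ := SetLike.lt_iff_le_and_exists.mp hAB
        exact SetLike.lt_iff_le_and_exists.mpr ⟨fun y hy => hle hy, x, hx, hx'⟩
      constructor
      · rw [isNoetherian_iff']
        exact e.wellFoundedGT
      · exact e.wellFoundedLT
    have hYN := (hnoeth (M₀ ⧸ S₀)).1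
    have hYA := (hnoeth (M₀ ⧸ S₀)).2
    have hMN := (hnoeth M₀).1
    have hMA := (hnoeth M₀).2
    have hl1 : Module.length S M₀ = Module.length S S₀ + Module.length S (M₀ ⧸ S₀) :=
      Module.length_eq_add_of_exact S₀.subtype S₀.mkQ S₀.subtype_injective S₀.mkQ_surjective
        (LinearMap.exact_subtype_mkQ S₀)
    have hl2 : Module.length S M₀ = Module.length S M₁ + Module.length S (M₀ ⧸ M₁) :=
      Module.length_eq_add_of_exact M₁.subtype M₁.mkQ M₁.subtype_injective M₁.mkQ_surjective
        (LinearMap.exact_subtype_mkQ M₁)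
    have hs1 : Module.length S S₀ = 1 := Module.length_eq_one_iff.mpr hS
    have hs2 : Module.length S (M₀ ⧸ M₁) = 1 :=
      Module.length_eq_one_iff.mpr (isSimpleModule_iff_isCoatom.mpr hM₁)
    have hfinY : Module.length S (M₀ ⧸ S₀) ≠ ⊤ := Module.length_ne_top
    have hfin1 : Module.length S M₁ ≠ ⊤ := Module.length_ne_top
    have hlen : Module.length S (M₀ ⧸ S₀) = Module.length S M₁ := by
      rw [hl1, hs1, hs2] at hl2
      rw [add_comm] at hl2
      exact (ENat.add_left_injective_of_ne_top (by simp)) hl2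
    have hsurj : im ⊤ = ⊤ := by
      by_contra hne'
      have h5 := Submodule.length_lt hne'
      have h6 : Module.length S M₁ ≤ Module.length S (im ⊤) := by
        rw [Module.length_eq_height, Module.length_submodule]
        exact Order.height_le_height_apply_of_strictMono im hmono ⊤
      rw [hlen] at h5
      exact absurd (lt_of_le_of_lt h6 h5) (lt_irrefl _)
    have hbij : Function.Bijective h := by
      refine ⟨hinj, fun y => ?_⟩
      have : y ∈ im ⊤ := by
        rw [hsurj]
        exact Submodule.mem_top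
      obtain ⟨x, -, hx⟩ := (him _ _).mp this
      exact ⟨x, hx⟩
    let E : M₁ ≃ₗ[k] (M₀ ⧸ S₀) := LinearEquiv.ofBijective h hbij
    have hE : ∀ x, E x = h x := fun x => rfl
    obtain ⟨ρ, hρ⟩ := ks_exists_linearMap (S := S) (E.symm.toLinearMap ∘ₗ u : C →ₗ[k] M₁) (by
      intro v
      change E.symm (u (dX k S • v)) = dX k S • E.symm (u v)
      apply E.injective
      rw [LinearEquiv.apply_symm_apply, hE, hhX, ← hE, LinearEquiv.apply_symm_apply,
        ← conn_apply (k := k), huD, hDY, conn_apply])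
    apply hg
    refine ⟨ρ, fun x => ?_⟩
    rw [hρ]
    change E.symm (u (g x)) = x
    apply E.injective
    rw [LinearEquiv.apply_symm_apply, hE, hh]

end Pool.Agent.Lib.MP_a53fda_al
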