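import Pool.Agent.Lib.MP_a53fda_al.DPMod
import Pool.Agent.Lib.MP_a53fda_al.Ext
import Pool.Agent.Lib.MP_a53fda_al.KS
import Pool.Agent.Lib.MP_a53fda_al.Hull

/-!
# Finitely generated torsion modules over `k[X; δ]`
-/

set_option autoImplicit false

namespace Pool.Agent.Lib.MP_a53fda_al

universe u

section KMod

variable (k : Type u) {S : Type u} [Field k] [Ring S] [DP k S]

variable (S) in
/-- `a ↦ a • 1` as a ring homomorphism. -/
noncomputable def kHom : k →+* S where
  toFun a := a • (1 : S)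
  map_one' := one_smul _ _
  map_mul' a b := by rw [mul_smul, smul_eq a (b • (1 : S))]
  map_zero' := zero_smul _ _
  map_add' a b := add_smul _ _ _

/-- The `k`-module structure of an `S`-module. -/
noncomputable abbrev kMod (N : Type u) [AddCommGroup N] [Module S N] : Module k N :=
  Module.compHom N (kHom k S)

theorem kMod_tower (N : Type u) [AddCommGroup N] [Module S N] :
    letI := kMod k (S := S) N
    IsScalarTower k S N :=
  letI := kMod k (S := S) N
  ⟨fun a s n => by
    change (a • s) • n = (a • (1 : S)) • (s • n)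
    rw [smul_eq a s, mul_smul]⟩

end KMod

/-- Finitely generated torsion modules. -/
def FT (S : Type u) [Ring S] (M : Type u) [AddCommGroup M] [Module S M] : Prop :=
  Module.Finite S M ∧ ∀ m : M, ∃ s : S, s ≠ 0 ∧ s • m = 0

section Basic

variable (k : Type u) {S : Type u} [Field k] [Ring S] [DP k S] {M A : Type u} [AddCommGroup M]
  [Module S M] [AddCommGroup A] [Module S A]

theorem FT.finite_k (h : FT S M) :
    letI := kMod k (S := S) M
    Module.Finite k M := by
  letI := kMod k (S := S) M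
  have := kMod_tower k (S := S) M
  have := h.1
  exact finite_of_torsion (S := S) h.2

theorem ft_of_finite [Module k M] [IsScalarTower k S M] [Module.Finite k M] : FT S M :=
  ⟨Module.Finite.of_restrictScalars_finite k S M, torsion_of_finite (k := k)⟩

include k in
theorem FT.isNoetherian (h : FT S M) : IsNoetherian S M := by
  letI := kMod k (S := S) M
  have := kMod_tower k (S := S) M
  have := h.finite_k k
  exact isNoetherian_of_tower k inferInstance

include k in
theorem FT.isArtinian (h : FT S M) : IsArtinian S M := by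
  letI := kMod k (S := S) M
  have := kMod_tower k (S := S) M
  have := h.finite_k k
  exact isArtinian_of_tower k inferInstance

include k in
theorem FT.of_injective (h : FT S M) (f : A →ₗ[S] M) (hf : Function.Injective f) : FT S A := by
  have := h.isNoetherian k
  refine ⟨Module.Finite.of_injective f hf, fun a => ?_⟩
  obtain ⟨s, hs, hsa⟩ := h.2 (f a)
  refine ⟨s, hs, hf ?_⟩
  rw [map_smul, hsa, map_zero]

theorem FT.of_surjective (h : FT S M) (f : M →ₗ[S] A) (hf : Function.Surjective f) : FT S A := by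
  have := h.1
  refine ⟨Module.Finite.of_surjective f hf, fun a => ?_⟩
  obtain ⟨m, rfl⟩ := hf a
  obtain ⟨s, hs, hsa⟩ := h.2 m
  exact ⟨s, hs, by rw [← map_smul, hsa, map_zero]⟩

include k in
theorem ideal_principal_left (I : Submodule S S) : ∃ b : S, I = Submodule.span S {b} := by
  obtain ⟨d, -, -, -, hd, -⟩ := exists_degree k S
  classical
  by_cases h : I = ⊥
  · exact ⟨0, by rw [h, Submodule.span_zero_singleton]⟩
  · obtain ⟨b₀, hb₀, hb₀'⟩ := Submodule.exists_mem_ne_zero_of_ne_bot h
    have hex : ∃ n, ∃ b ∈ I, b ≠ 0 ∧ d b = n := ⟨_, b₀, hb₀, hb₀', rfl⟩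
    obtain ⟨b, hb, hb', hdb⟩ := Nat.find_spec hex
    refine ⟨b, le_antisymm ?_ ?_⟩
    · intro a ha
      obtain ⟨q, r, haq, hr⟩ := hd a b hb'
      have hrI : r ∈ I := by
        have : r = a - q • b := by rw [haq, smul_eq_mul, add_sub_cancel_left]
        rw [this]
        exact Submodule.sub_mem _ ha (Submodule.smul_mem _ _ hb)
      by_cases hr0 : r = 0
      · rw [haq, hr0, add_zero]
        exact Submodule.smul_mem _ q (Submodule.mem_span_singleton_self b)
      · exfalso
        have hr' := hr.resolve_left hr0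
        exact Nat.find_min hex (m := d r) (by rw [← hdb]; exact hr') ⟨r, hrI, hr0, rfl⟩
    · rw [Submodule.span_le, Set.singleton_subset_iff]
      exact hb

include k in
theorem isNoetherianRing_dp : IsNoetherianRing S := by
  rw [isNoetherianRing_iff_ideal_fg]
  intro I
  obtain ⟨b, hb⟩ := ideal_principal_left k I
  exact ⟨{b}, by rw [Finset.coe_singleton]; exact hb.symm⟩

include k in
theorem mul_ne_zero_dp {a b : S} (ha : a ≠ 0) (hb : b ≠ 0) : a * b ≠ 0 := by
  obtain ⟨d, -, hd, -⟩ := exists_degree k S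
  exact (hd a b ha hb).1

include k in
/-- Left Ore condition. -/
theorem ore (a b : S) (ha : a ≠ 0) (hb : b ≠ 0) : ∃ u v : S, u * a = v * b ∧ u * a ≠ 0 := by
  let C := S ⧸ (Submodule.span S {b} : Submodule S S)
  obtain ⟨T, p, -, hT⟩ := exists_torsion_retraction k (S := S) (C := C)
  have h1 : (Submodule.Quotient.mk 1 : C) ∈ T := by
    rw [hT]
    refine ⟨b, hb, ?_⟩
    rw [← Submodule.Quotient.mk_smul, Submodule.Quotient.mk_eq_zero, smul_eq_mul, mul_one]
    exact Submodule.mem_span_singleton_self b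
  have h2 : (Submodule.Quotient.mk a : C) ∈ T := by
    have : (Submodule.Quotient.mk a : C) = a • Submodule.Quotient.mk 1 := by
      rw [← Submodule.Quotient.mk_smul, smul_eq_mul, mul_one]
    rw [this]
    exact Submodule.smul_mem _ _ h1
  rw [hT] at h2
  obtain ⟨u, hu, h2⟩ := h2
  rw [← Submodule.Quotient.mk_smul, Submodule.Quotient.mk_eq_zero,
    Submodule.mem_span_singleton] at h2
  obtain ⟨v, hv⟩ := h2
  refine ⟨u, v, ?_, mul_ne_zero_dp k hu ha⟩
  simpa using hv.symm

include k in
theorem torsion_smul {x : M} (hx : ∃ s : S, s ≠ 0 ∧ s • x = 0) (t : S) :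
    ∃ s : S, s ≠ 0 ∧ s • (t • x) = 0 := by
  obtain ⟨s, hs, hsx⟩ := hx
  by_cases ht : t = 0
  · exact ⟨s, hs, by rw [ht, zero_smul, smul_zero]⟩
  · obtain ⟨u, v, huv, hne⟩ := ore k t s ht hs
    refine ⟨u, fun h => hne (by rw [h, zero_mul]), ?_⟩
    rw [← mul_smul, huv, mul_smul, hsx, smul_zero]

include k in
theorem torsion_add {x y : M} (hx : ∃ s : S, s ≠ 0 ∧ s • x = 0)
    (hy : ∃ s : S, s ≠ 0 ∧ s • y = 0) : ∃ s : S, s ≠ 0 ∧ s • (x + y) = 0 := by
  obtain ⟨s, hs, hsx⟩ := hx
  obtain ⟨t, ht, hty⟩ := hy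
  obtain ⟨u, v, huv, hne⟩ := ore k s t hs ht
  refine ⟨u * s, hne, ?_⟩
  rw [smul_add, mul_smul, hsx, smul_zero, huv, mul_smul, hty, smul_zero, add_zero]

variable (S M) in
/-- The torsion submodule. -/
def tors : Submodule S M where
  carrier := {x | ∃ s : S, s ≠ 0 ∧ s • x = 0}
  zero_mem' := by
    have := nontrivial_dp k S
    exact ⟨1, one_ne_zero, smul_zero _⟩
  add_mem' hx hy := torsion_add k hx hy
  smul_mem' t _ hx := torsion_smul k hx t

theorem mem_tors {x : M} : x ∈ tors k S M ↔ ∃ s : S, s ≠ 0 ∧ s • x = 0 := Iff.rfl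

include k in
theorem ft_span_singleton {x : M} (hx : ∃ s : S, s ≠ 0 ∧ s • x = 0) :
    FT S (Submodule.span S {x}) := by
  refine ⟨inferInstance, ?_⟩
  rintro ⟨y, hy⟩
  obtain ⟨t, rfl⟩ := Submodule.mem_span_singleton.mp hy
  obtain ⟨s, hs, hsx⟩ := torsion_smul k hx t
  exact ⟨s, hs, Subtype.ext hsx⟩

end Basic

section Interface

variable {k S : Type u} [Field k] [CharZero k] [Ring S] [DP k S]

theorem ks_ft (hB : CondB (dδ k S)) {M₀ C : Type u} [AddCommGroup M₀] [Module S M₀]
    (hM₀ : FT S M₀) [AddCommGroup C] [Module S C] (hC : FT S C) (S₀ M₁ : Submodule S M₀)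
    (hS : IsSimpleModule S S₀) (hess : ∀ A : Submodule S M₀, A ≠ ⊥ → S₀ ≤ A) (h01 : S₀ ≤ M₁)
    (hM₁ : IsCoatom M₁) (g : M₁ →ₗ[S] C) (hg : ¬ ∃ ρ : C →ₗ[S] M₁, ∀ x, ρ (g x) = x) :
    ∃ g₀ : M₀ →ₗ[S] C, ∀ x : M₀, ∀ hx : x ∈ S₀, g₀ x = g ⟨x, h01 hx⟩ := by
  letI := kMod k (S := S) M₀
  have := kMod_tower k (S := S) M₀
  have := hM₀.finite_k k
  letI := kMod k (S := S) C
  have := kMod_tower k (S := S) C
  have := hC.finite_k k
  exact extends_of_not_split hB S₀ M₁ hS hess h01 hM₁ g hg

theorem cond_ft {M K : Type u} [AddCommGroup M] [Module S M] (hM : FT S M) [Nontrivial M]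
    [AddCommGroup K] [Module S K] [Module.Finite S K] (i : M →ₗ[S] K)
    (hi : ¬ ∃ ρ : K →ₗ[S] M, ∀ x, ρ (i x) = x)
    (hext : ∀ (C : Type u) [AddCommGroup C] [Module S C], FT S C → ∀ f : M →ₗ[S] C,
      (¬ ∃ ρ : C →ₗ[S] M, ∀ x, ρ (f x) = x) → ∃ g : K →ₗ[S] C, ∀ x, g (i x) = f x) :
    CondA (dδ k S) ∨ CondB (dδ k S) := by
  obtain ⟨T, p, hp, hT⟩ := exists_torsion_retraction k (S := S) (C := K)
  have hTft : FT S T := by
    refine ⟨Module.Finite.of_surjective p fun x => ⟨x, hp x⟩, ?_⟩
    rintro ⟨x, hx⟩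
    obtain ⟨s, hs, hsx⟩ := (hT x).mp hx
    exact ⟨s, hs, Subtype.ext hsx⟩
  have hpi : ∀ x, ((p (i x) : T) : K) = i x := by
    intro x
    have hx : i x ∈ T := by
      rw [hT]
      obtain ⟨s, hs, hsx⟩ := hM.2 x
      exact ⟨s, hs, by rw [← map_smul, hsx, map_zero]⟩
    exact congrArg Subtype.val (hp ⟨i x, hx⟩)
  letI := kMod k (S := S) M
  have := kMod_tower k (S := S) M
  have := hM.finite_k k
  letI := kMod k (S := S) T
  have := kMod_tower k (S := S) T
  have := hTft.finite_k k
  refine condA_or_condB (M := M) (K := T) (p ∘ₗ i) ?_ ?_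
  · rintro ⟨ρ, hρ⟩
    exact hi ⟨ρ ∘ₗ p, hρ⟩
  · intro C _ _ _ _ _ f hf
    obtain ⟨g, hg⟩ := hext C (ft_of_finite k) f hf
    refine ⟨g ∘ₗ T.subtype, fun x => ?_⟩
    rw [LinearMap.comp_apply, LinearMap.comp_apply, Submodule.subtype_apply, hpi]
    exact hg x

theorem condA_of_divisible_ft {M : Type u} [AddCommGroup M] [Module S M] (hM : FT S M)
    [Nontrivial M] (h : ∀ (s : S) (m : M), s ≠ 0 → ∃ m', s • m' = m) : CondA (dδ k S) := by
  letI := kMod k (S := S) M
  have := kMod_tower k (S := S) M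
  have := hM.finite_k k
  exact condA_of_divisible h

theorem divisible_of_condA_ft (hA : CondA (dδ k S)) {M : Type u} [AddCommGroup M] [Module S M]
    (hM : FT S M) (s : S) (m : M) (hs : s ≠ 0) : ∃ m', s • m' = m := by
  letI := kMod k (S := S) M
  have := kMod_tower k (S := S) M
  have := hM.finite_k k
  exact divisible_of_condA (k := k) hA s m hs

omit [CharZero k] in
/-- There is a simple torsion module. -/
theorem exists_simple (k S : Type u) [Field k] [Ring S] [DP k S] :
    ∃ (V : Type u) (_ : AddCommGroup V) (_ : Module S V), FT S V ∧ IsSimpleModule S V := by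
  let D : k →+ k := (dδ k S : k →ₗ[ℤ] k).toAddMonoidHom
  have hD : IsConn (dδ k S) D := by
    intro a z
    have := (dδ k S).leibniz a z
    simp only [smul_eq_mul] at this ⊢
    change dδ k S (a * z) = a * dδ k S z + dδ k S a * z
    rw [this]
    ring
  obtain ⟨inst, ht, -⟩ := exists_module_of_conn S D hD
  refine ⟨k, inferInstance, inst, ?_, ?_⟩
  · exact ft_of_finite k
  · have h1 : ∀ A : Submodule S k, A = ⊥ ∨ A = ⊤ := by
      intro A
      by_cases hA : A = ⊥
      · exact Or.inl hA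
      · right
        obtain ⟨a, ha, ha0⟩ := Submodule.exists_mem_ne_zero_of_ne_bot hA
        rw [eq_top_iff]
        intro b _
        have h2 : b = ((b * a⁻¹) • (1 : S)) • a := by
          rw [smul_one_smul', smul_eq_mul, mul_assoc, inv_mul_cancel₀ ha0, mul_one]
        rw [h2]
        exact Submodule.smul_mem _ _ ha
    have : Nontrivial (Submodule S k) := inferInstance
    exact { eq_bot_or_eq_top := h1 }

omit [CharZero k] in
theorem not_condA_of_condB {δ : Derivation ℤ k k} (hB : CondB δ) : ¬ CondA δ := by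
  intro hA
  obtain ⟨c, e, hce, -⟩ := hB
  let D : k →+ k :=
    { toFun := fun a => δ a + c * a
      map_zero' := by simp
      map_add' := fun a b => by rw [map_add]; ring }
  obtain ⟨a, ha⟩ := hA k D (fun a z => by
    change δ (a • z) + c * (a • z) = a • (δ z + c * z) + δ a • z
    simp only [smul_eq_mul, Derivation.leibniz]
    ring) e
  exact hce a ha

end Interface

end Pool.Agent.Lib.MP_a53fda_al
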