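import Pool.Agent.Lib.MP_a53fda_al.FT

/-!
# Divisible points and torsion-free points
-/

set_option autoImplicit false

namespace Pool.Agent.Lib.MP_a53fda_al

universe u

/-- Divisible modules. -/
def Div (S : Type u) [Ring S] (N : Type u) [AddCommGroup N] [Module S N] : Prop :=
  ∀ (s : S) (x : N), s ≠ 0 → ∃ y, s • y = x

/-- Torsion-free modules. -/
def TF (S : Type u) [Ring S] (N : Type u) [AddCommGroup N] [Module S N] : Prop :=
  ∀ (s : S) (x : N), s • x = 0 → s = 0 ∨ x = 0

section Common

variable {S : Type u} [Ring S] {M N N' : Type u} [AddCommGroup M] [Module S M]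
  [AddCommGroup N] [Module S N] [AddCommGroup N'] [Module S N']

theorem not_isPure_of_fix {f : M →ₗ[S] N} (hf : Function.Injective f) [Nontrivial M]
    {h : N →ₗ[S] N} (hh : ∀ x, h (f x) = f x) : ¬ IsPure (LinearMap.id - h) := by
  intro hp
  obtain ⟨x, hx⟩ := exists_ne (0 : M)
  apply hx
  apply hf
  apply hp.injective
  rw [LinearMap.sub_apply, LinearMap.id_apply, hh, map_zero, map_zero, sub_self]

/-- Two points with a common nonzero pure submodule are isomorphic. -/
theorem iso_of_common_pure [Nontrivial M] (hN : IsPureInjective S N) (hNi : IsIndecomposable S N)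
    (hN' : IsPureInjective S N') (hNi' : IsIndecomposable S N') (f : M →ₗ[S] N) (hf : IsPure f)
    (g : M →ₗ[S] N') (hg : IsPure g) : Nonempty (N ≃ₗ[S] N') := by
  obtain ⟨h, hh⟩ := hN' M N f hf g
  obtain ⟨h', hh'⟩ := hN M N' g hg f
  refine nonempty_equiv_of_not_pure hN hNi hNi' h h' ?_
  exact not_isPure_of_fix hf.injective (fun x => by rw [LinearMap.comp_apply, hh, hh'])

/-- Two indecomposable injective modules with a common nonzero submodule are isomorphic. -/
theorem iso_of_common [Nontrivial M] [hN : Module.Injective S N] (hNi : IsIndecomposable S N)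
    [hN' : Module.Injective S N'] (hNi' : IsIndecomposable S N') (f : M →ₗ[S] N)
    (hf : Function.Injective f) (g : M →ₗ[S] N') (hg : Function.Injective g) :
    Nonempty (N ≃ₗ[S] N') := by
  obtain ⟨h, hh⟩ := hN'.out f hf g
  obtain ⟨h', hh'⟩ := hN.out g hg f
  refine nonempty_equiv_of_not_pure isPureInjective_of_injective hNi hNi' h h' ?_
  exact not_isPure_of_fix hf (fun x => by rw [LinearMap.comp_apply, hh, hh'])

/-- The cyclic module `S / S r` embeds if the annihilator of `x` is `S r`. -/
theorem exists_embedding (r : S) (x : N)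
    (h : ∀ t : S, t • x = 0 ↔ t ∈ (Submodule.span S {r} : Submodule S S)) :
    ∃ f : (S ⧸ (Submodule.span S {r} : Submodule S S)) →ₗ[S] N, Function.Injective f := by
  have hker : (Submodule.span S {r} : Submodule S S) = LinearMap.ker (LinearMap.toSpanSingleton S N x) := by
    ext t
    rw [← h t, LinearMap.mem_ker, LinearMap.toSpanSingleton_apply]
  refine ⟨(Submodule.span S {r} : Submodule S S).liftQ (LinearMap.toSpanSingleton S N x)
    hker.le, ?_⟩
  rw [← LinearMap.ker_eq_bot]
  exact Submodule.ker_liftQ_eq_bot _ _ _ hker.ge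

theorem div_of_equiv (e : N ≃ₗ[S] N') (h : Div S N) : Div S N' := by
  intro s x hs
  obtain ⟨y, hy⟩ := h s (e.symm x) hs
  exact ⟨e y, by rw [← map_smul, hy, LinearEquiv.apply_symm_apply]⟩

theorem tf_of_equiv (e : N ≃ₗ[S] N') (h : TF S N) : TF S N' := by
  intro s x hs
  have := h s (e.symm x) (by rw [← map_smul, hs, map_zero])
  simpa using this

/-- Homomorphisms with prescribed value on one tuple. -/
theorem exists_hom_of_gen (hN' : IsPureInjective S N') {n₀ m₀ : ℕ}
    (r₀ : Matrix (Fin n₀) (Fin m₀) S) (x₀ : Fin n₀ → N) (p₀ : Fin n₀ → N')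
    (hsep : ∀ {n m : ℕ} (r : Matrix (Fin n) (Fin m) S) (z : Matrix (Fin n) (Fin n₀) S)
      (w : Matrix (Fin m) (Fin m₀) S), z * r₀ = r * w → act z x₀ ∈ rng r N →
        act z p₀ ∈ rng r N') :
    ∃ g : N →ₗ[S] N', (fun j => g (x₀ j) - p₀ j) ∈ rng r₀ N' := by
  let Γ : PPRel S N N' :=
    { R := fun {n m} r x p => ∃ (z : Matrix (Fin n) (Fin n₀) S) (w : Matrix (Fin m) (Fin m₀) S),
        z * r₀ = r * w ∧ x - act z x₀ ∈ rng r N ∧ p - act z p₀ ∈ rng r N'
      zero := by
        intro n m r
        refine ⟨0, 0, by simp, ?_, ?_⟩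
        · have : act (0 : Matrix (Fin n) (Fin n₀) S) x₀ = 0 := by
            funext j
            simp [act_apply]
          rw [this, sub_zero]
          exact AddSubgroup.zero_mem _
        · have : act (0 : Matrix (Fin n) (Fin n₀) S) p₀ = 0 := by
            funext j
            simp [act_apply]
          rw [this, sub_zero]
          exact AddSubgroup.zero_mem _
      add := by
        rintro n m r x x' p p' ⟨z, w, h, hx, hp⟩ ⟨z', w', h', hx', hp'⟩
        refine ⟨z + z', w + w', by rw [Matrix.add_mul, Matrix.mul_add, h, h'], ?_, ?_⟩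
        · have : act (z + z') x₀ = act z x₀ + act z' x₀ := by
            funext j
            simp [act_apply, add_smul, Finset.sum_add_distrib]
          rw [this, add_sub_add_comm]
          exact AddSubgroup.add_mem _ hx hx'
        · have : act (z + z') p₀ = act z p₀ + act z' p₀ := by
            funext j
            simp [act_apply, add_smul, Finset.sum_add_distrib]
          rw [this, add_sub_add_comm]
          exact AddSubgroup.add_mem _ hp hp'
      mor := by
        rintro n m n' m' r r' z w hzw x p ⟨z₁, w₁, h, hx, hp⟩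
        refine ⟨z * z₁, w * w₁, ?_, ?_, ?_⟩
        · rw [Matrix.mul_assoc, h, ← Matrix.mul_assoc, hzw, Matrix.mul_assoc]
        · rw [act_mul, ← map_sub]
          exact rng_mor hzw hx
        · rw [act_mul, ← map_sub]
          exact rng_mor hzw hp
      sep := by
        rintro n m r x p ⟨z, w, h, hx, hp⟩ hxr
        have h1 := AddSubgroup.sub_mem _ hxr hx
        rw [sub_sub_cancel] at h1
        have h2 := AddSubgroup.add_mem _ hp (hsep r z w h h1)
        rwa [sub_add_cancel] at h2 }
  obtain ⟨g, hg⟩ := Γ.exists_hom hN'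
  refine ⟨g, hg _ _ r₀ x₀ p₀ ⟨1, 1, by simp, ?_, ?_⟩⟩
  · have : act (1 : Matrix (Fin n₀) (Fin n₀) S) x₀ = x₀ := by
      funext j
      simp [act_apply, Matrix.one_apply]
    rw [this, sub_self]
    exact AddSubgroup.zero_mem _
  · have : act (1 : Matrix (Fin n₀) (Fin n₀) S) p₀ = p₀ := by
      funext j
      simp [act_apply, Matrix.one_apply]
    rw [this, sub_self]
    exact AddSubgroup.zero_mem _

end Common

section DivPoints

variable (k : Type u) {S : Type u} [Field k] [Ring S] [DP k S]

include k in
theorem Div.injective {N : Type u} [AddCommGroup N] [Module S N] (h : Div S N) :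
    Module.Injective S N := injective_of_divisible k h

include k in
theorem div_of_injective {N : Type u} [AddCommGroup N] [Module S N] [Module.Injective S N] :
    Div S N := fun s x hs => divisible_of_injective k s x hs

include k in
/-- The generic point. -/
theorem exists_generic : ∃ Q : IndecPureInj S, TF S Q.carrier ∧ Div S Q.carrier ∧
    (∀ N : IndecPureInj S, TF S N.carrier → Div S N.carrier → pt N = pt Q) ∧
    (∀ N : IndecPureInj S, Div S N.carrier → ∀ φ ψ : PPFormula S, pt Q ∈ basicOpen φ ψ →
      pt N ∈ basicOpen φ ψ) := by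
  have hSn : Nontrivial S := nontrivial_dp k S
  obtain ⟨E, _, _, i, hE, hi, hess⟩ := exists_essential_hull k (S := S) S
  have hdiv : Div S E := div_of_injective k
  have htf : TF S E := by
    intro s x hsx
    by_contra hcon
    rw [not_or] at hcon
    obtain ⟨a, ha, hax⟩ := hess (Submodule.span S {x}) (by
      rw [Ne, Submodule.span_singleton_eq_bot]
      exact hcon.2)
    obtain ⟨t, ht⟩ := Submodule.mem_span_singleton.mp hax
    obtain ⟨s', hs', h⟩ := torsion_smul k ⟨s, hcon.1, hsx⟩ t
    rw [ht, ← map_smul] at h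
    have h2 := hi (h.trans (map_zero i).symm)
    exact mul_ne_zero_dp k hs' ha h2
  have hind : IsIndecomposable S E := by
    refine ⟨hi.nontrivial, ?_⟩
    intro A B hAB
    by_contra hcon
    rw [not_or] at hcon
    obtain ⟨a, ha, haA⟩ := hess A hcon.1
    obtain ⟨b, hb, hbB⟩ := hess B hcon.2
    obtain ⟨u, v, huv, hne⟩ := ore k a b ha hb
    have h1 : i (u * a) ∈ A := by
      rw [← smul_eq_mul, map_smul]
      exact Submodule.smul_mem _ _ haA
    have h2 : i (u * a) ∈ B := by
      rw [huv, ← smul_eq_mul, map_smul]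
      exact Submodule.smul_mem _ _ hbB
    have h3 := (Submodule.disjoint_def.mp hAB.disjoint) _ h1 h2
    exact hne (hi (h3.trans (map_zero i).symm))
  have hpi : IsPureInjective S E := isPureInjective_of_injective
  refine ⟨⟨E, hpi, hind⟩, htf, hdiv, ?_, ?_⟩
  · intro N hN hN'
    have := hN'.injective k
    obtain ⟨x, hx⟩ := @exists_ne _ N.indecomposable.1 (0 : N.carrier)
    rw [pt_eq]
    refine iso_of_common (M := S) N.indecomposable hind (LinearMap.toSpanSingleton S N.carrier x)
      ?_ i hi
    rw [injective_iff_map_eq_zero]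
    intro t ht
    rw [LinearMap.toSpanSingleton_apply] at ht
    exact (hN t x ht).resolve_right hx
  · intro N hN φ ψ hmem
    rw [pt_mem_basicOpen] at hmem
    obtain ⟨x, hx, hx'⟩ := hmem
    obtain ⟨x₀, hx₀⟩ := @exists_ne _ N.indecomposable.1 (0 : N.carrier)
    have hch : ∀ s : S, ∃ y : N.carrier, s ≠ 0 → s • y = x₀ := by
      intro s
      by_cases hs : s = 0
      · exact ⟨0, fun h => absurd hs h⟩
      · obtain ⟨y, hy⟩ := hN s x₀ hs
        exact ⟨y, fun _ => hy⟩
    choose e he using hch
    let P := S → N.carrier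
    have hPdiv : Div S P := by
      intro s y hs
      choose z hz using fun t : S => hN s (y t) hs
      exact ⟨z, funext hz⟩
    have hPinj := hPdiv.injective k
    let g : S →ₗ[S] P := LinearMap.toSpanSingleton S P e
    have hg : ∀ t, g t = 0 → t = 0 := by
      intro t ht
      by_contra htne
      have h1 : t • e t = 0 := congrFun ht t
      rw [he t htne] at h1
      exact hx₀ h1
    obtain ⟨F, hF⟩ := hPinj.out i hi g
    have hFinj : Function.Injective F := by
      rw [← LinearMap.ker_eq_bot]
      by_contra hne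
      obtain ⟨a, ha, hak⟩ := hess _ hne
      rw [LinearMap.mem_ker, hF] at hak
      exact ha (hg a hak)
    obtain ⟨ρ, hρ⟩ := hE.out F hFinj LinearMap.id
    rw [pt_mem_basicOpen]
    by_contra hcon
    push Not at hcon
    have h1 : ∀ s : S, ψ.Holds (F x s) := by
      intro s
      exact hcon _ ((PPFormula.Holds.map hx F).map (LinearMap.proj s))
    choose y hy using h1
    have h2 : ψ.Holds (F x) := ⟨fun i s => y s i, fun j => by
      funext s
      rw [Finset.sum_apply]
      exact hy s j⟩
    have h3 := h2.map ρ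
    rw [hρ] at h3
    exact hx' h3

include k in
/-- Divisible points with torsion are isolated among the divisible points. -/
theorem exists_sep_div (N : IndecPureInj S) (hdiv : Div S N.carrier) (htf : ¬ TF S N.carrier) :
    ∃ φ ψ : PPFormula S, pt N ∈ basicOpen φ ψ ∧
      ∀ N' : IndecPureInj S, pt N' ∈ basicOpen φ ψ → ¬ TF S N'.carrier ∧
        (Div S N'.carrier → pt N' = pt N) := by
  classical
  have hSn : Nontrivial S := nontrivial_dp k S
  obtain ⟨d, -, hmul, hunit, hd, -⟩ := exists_degree k S
  unfold TF at htf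
  push Not at htf
  obtain ⟨s₀, x₀, hsx₀, hs₀, hx₀⟩ := htf
  have hex : ∃ n, ∃ r : S, r ≠ 0 ∧ d r = n ∧ ∃ x : N.carrier, x ≠ 0 ∧ r • x = 0 :=
    ⟨_, s₀, hs₀, rfl, x₀, hx₀, hsx₀⟩
  obtain ⟨r, hr, hdr, x₁, hx₁, hrx₁⟩ := Nat.find_spec hex
  have hmin : ∀ (s : S) (x : N.carrier), s ≠ 0 → x ≠ 0 → s • x = 0 → d r ≤ d s := by
    intro s x hs hx hsx
    by_contra hlt
    rw [not_le, hdr] at hlt
    exact Nat.find_min hex hlt ⟨s, hs, rfl, x, hx, hsx⟩
  refine ⟨annFormula r, annFormula 1, ?_, ?_⟩
  · rw [pt_mem_basicOpen]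
    exact ⟨x₁, holds_annFormula.mpr hrx₁, fun h => hx₁ (by
      simpa using holds_annFormula.mp h)⟩
  · intro N' hN'
    rw [pt_mem_basicOpen] at hN'
    obtain ⟨x', hx', hx'0⟩ := hN'
    rw [holds_annFormula] at hx' hx'0
    rw [one_smul] at hx'0
    refine ⟨fun htf' => ?_, fun hdiv' => ?_⟩
    · rcases htf' r x' hx' with h | h
      · exact hr h
      · exact hx'0 h
    have hann : ∀ t : S, t • x₁ = 0 ↔ t ∈ (Submodule.span S {r} : Submodule S S) := by
      intro t
      constructor
      · intro ht
        obtain ⟨q, r', hq, hr'⟩ := hd t r hr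
        by_cases hr0 : r' = 0
        · rw [hq, hr0, add_zero]
          exact Submodule.mem_span_singleton.mpr ⟨q, rfl⟩
        · exfalso
          have h1 : r' • x₁ = 0 := by
            rw [hq, add_smul, mul_smul, hrx₁, smul_zero, zero_add] at ht
            exact ht
          have h2 := hmin r' x₁ hr0 hx₁ h1
          have h3 := hr'.resolve_left hr0
          omega
      · intro ht
        obtain ⟨q, rfl⟩ := Submodule.mem_span_singleton.mp ht
        rw [smul_eq_mul, mul_smul, hrx₁, smul_zero]
    have hann' : ∀ t : S, t • x' = 0 ↔ t ∈ (Submodule.span S {r} : Submodule S S) := by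
      let I : Submodule S S := LinearMap.ker (LinearMap.toSpanSingleton S N'.carrier x')
      have hI : ∀ t : S, t ∈ I ↔ t • x' = 0 := fun t => by
        rw [LinearMap.mem_ker, LinearMap.toSpanSingleton_apply]
      obtain ⟨b, hb⟩ := ideal_principal_left k I
      have hrI : r ∈ I := (hI r).mpr hx'
      rw [hb] at hrI
      obtain ⟨c, hc⟩ := Submodule.mem_span_singleton.mp hrI
      rw [smul_eq_mul] at hc
      have hb0 : b ≠ 0 := by
        rintro rfl
        rw [mul_zero] at hc
        exact hr hc.symm
      have hc0 : c ≠ 0 := by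
        rintro rfl
        rw [zero_mul] at hc
        exact hr hc.symm
      have hdeg := (hmul c b hc0 hb0).2
      rw [hc] at hdeg
      have hbx' : b • x' = 0 := by
        rw [← hI b, hb]
        exact Submodule.mem_span_singleton_self b
      have hdb : d b ≠ 0 := by
        intro h0
        obtain ⟨κ, hκ, hbκ⟩ := hunit b hb0 h0
        apply hx'0
        have h1 : (κ⁻¹ • (1 : S)) * b = 1 := by
          rw [hbκ, smul_mul_assoc, one_mul, smul_smul, inv_mul_cancel₀ hκ, one_smul]
        rw [← one_smul S x', ← h1, mul_smul, hbx', smul_zero]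
      have hdc : d c = 0 := by
        by_cases hbx : b • x₁ = 0
        · have := hmin b x₁ hb0 hx₁ hbx
          omega
        · have := hmin c (b • x₁) hc0 hbx (by rw [← mul_smul, hc, hrx₁])
          omega
      obtain ⟨κ, hκ, hcκ⟩ := hunit c hc0 hdc
      have hbr : b = (κ⁻¹ • (1 : S)) * r := by
        rw [← hc, hcκ, smul_mul_assoc, one_mul, smul_mul_assoc, one_mul, smul_smul,
          inv_mul_cancel₀ hκ, one_smul]
      intro t
      rw [← hI t, hb]
      constructor
      · intro ht
        obtain ⟨q, rfl⟩ := Submodule.mem_span_singleton.mp ht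
        rw [smul_eq_mul, hbr, ← mul_assoc]
        exact Submodule.mem_span_singleton.mpr ⟨_, rfl⟩
      · intro ht
        obtain ⟨q, rfl⟩ := Submodule.mem_span_singleton.mp ht
        rw [smul_eq_mul, ← hc, ← mul_assoc]
        exact Submodule.mem_span_singleton.mpr ⟨_, rfl⟩
    obtain ⟨f, hf⟩ := exists_embedding r x₁ hann
    obtain ⟨f', hf'⟩ := exists_embedding r x' hann'
    have := hdiv.injective k
    have := hdiv'.injective k
    have hMn : Nontrivial (S ⧸ (Submodule.span S {r} : Submodule S S)) := by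
      refine ⟨⟨Submodule.Quotient.mk 1, 0, ?_⟩⟩
      rw [Ne, Submodule.Quotient.mk_eq_zero, ← hann 1, one_smul]
      exact hx₁
    rw [pt_eq]
    exact iso_of_common N'.indecomposable N.indecomposable f' hf' f hf

end DivPoints

section TFPoints

variable (k : Type u) {S : Type u} [Field k] [Ring S] [DP k S]

include k in
/-- Torsion-free modules are flat. -/
theorem holds_of_tf {N : Type u} [AddCommGroup N] [Module S N] (hN : TF S N) (θ : PPFormula S)
    (a : N) (ha : θ.Holds a) :
    ∃ (p : ℕ) (t : Fin p → S) (e : Fin p → N), a = ∑ l, t l • e l ∧ ∀ l, θ.Holds (t l) := by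
  classical
  obtain ⟨y, hy⟩ := ha
  let N₀ : Submodule S N := Submodule.span S (insert a (Set.range y))
  have hfin : Module.Finite S N₀ :=
    Module.Finite.of_fg (Submodule.fg_span ((Set.finite_range y).insert a))
  have htf : ∀ (s : S) (m : N₀), s • m = 0 → s = 0 ∨ m = 0 := by
    intro s m h
    rcases hN s m (congrArg Subtype.val h) with h1 | h1
    · exact Or.inl h1
    · exact Or.inr (Subtype.ext h1)
  obtain ⟨p, ⟨e⟩⟩ := free_of_torsionFree k htf
  let a₀ : N₀ := ⟨a, Submodule.subset_span (Set.mem_insert _ _)⟩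
  let y₀ : Fin θ.m → N₀ := fun i => ⟨y i, Submodule.subset_span (Set.mem_insert_of_mem _ ⟨i, rfl⟩)⟩
  have h0 : θ.Holds a₀ := ⟨y₀, fun j => Subtype.ext (by
    have := hy j
    simpa [a₀, y₀] using this)⟩
  refine ⟨p, e a₀, fun l => (e.symm (Pi.single l 1) : N₀), ?_, ?_⟩
  · have h1 : e a₀ = ∑ l, e a₀ l • (Pi.single l (1 : S) : Fin p → S) := by
      funext j
      rw [Finset.sum_apply, Finset.sum_eq_single j]
      · simp
      · intro b _ hb
        simp [hb.symm]
      · simp
    have h2 : a₀ = ∑ l, e a₀ l • e.symm (Pi.single l 1) := by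
      apply e.injective
      rw [map_sum]
      simp only [map_smul, LinearEquiv.apply_symm_apply]
      exact h1
    have h3 := congrArg (Subtype.val : N₀ → N) h2
    rw [Submodule.coe_sum] at h3
    exact h3
  · intro l
    exact (PPFormula.Holds.map h0 e.toLinearMap).map (LinearMap.proj l)

include k in
theorem holds_principal (θ : PPFormula S) {r : S} (hr : r ≠ 0) (hθr : θ.Holds r) :
    ∃ b : S, b ≠ 0 ∧ θ.Holds b ∧ ∀ t : S, θ.Holds t → ∃ q, t = b * q := by
  classical
  obtain ⟨d, -, -, -, -, hd⟩ := exists_degree k S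
  have hex : ∃ n, ∃ b : S, b ≠ 0 ∧ θ.Holds b ∧ d b = n := ⟨_, r, hr, hθr, rfl⟩
  obtain ⟨b, hb, hθb, hdb⟩ := Nat.find_spec hex
  refine ⟨b, hb, hθb, ?_⟩
  intro t ht
  obtain ⟨q, r', hq, hr'⟩ := hd t b hb
  by_cases h0 : r' = 0
  · exact ⟨q, by rw [hq, h0, add_zero]⟩
  · exfalso
    have h1 : θ.Holds r' := by
      have h2 : r' = t - b * q := by rw [hq, add_sub_cancel_left]
      rw [h2]
      refine PPFormula.Holds.sub ht ?_
      have := PPFormula.Holds.map hθb (LinearMap.toSpanSingleton S S q)
      rwa [LinearMap.toSpanSingleton_apply, smul_eq_mul] at this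
    have h3 := hr'.resolve_left h0
    rw [hdb] at h3
    exact Nat.find_min hex h3 ⟨r', h0, h1, rfl⟩

include k in
/-- Torsion-free points which are not divisible are isolated among the torsion-free points. -/
theorem exists_sep_tf (N : IndecPureInj S) (htf : TF S N.carrier) (hdiv : ¬ Div S N.carrier) :
    ∃ φ ψ : PPFormula S, pt N ∈ basicOpen φ ψ ∧
      ∀ N' : IndecPureInj S, pt N' ∈ basicOpen φ ψ → ¬ Div S N'.carrier ∧
        (TF S N'.carrier → pt N' = pt N) := by
  classical
  obtain ⟨d, -, hmul, hunit, -, -⟩ := exists_degree k S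
  unfold Div at hdiv
  push Not at hdiv
  obtain ⟨s₀, x₀, hs₀, hx₀⟩ := hdiv
  have hex : ∃ n, ∃ r : S, r ≠ 0 ∧ d r = n ∧ ∃ x : N.carrier, ∀ y, r • y ≠ x :=
    ⟨_, s₀, hs₀, rfl, x₀, hx₀⟩
  obtain ⟨r, hr, hdr, a, ha⟩ := Nat.find_spec hex
  have hmin : ∀ s : S, s ≠ 0 → d s < d r → ∀ x : N.carrier, ∃ y, s • y = x := by
    intro s hs hlt x
    by_contra hcon
    push Not at hcon
    rw [hdr] at hlt
    exact Nat.find_min hex hlt ⟨s, hs, rfl, x, hcon⟩
  have hirr : ∀ b q : S, r = b * q → d b = 0 ∨ d q = 0 := by
    intro b q hbq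
    by_contra hcon
    rw [not_or] at hcon
    have hb0 : b ≠ 0 := by
      rintro rfl
      rw [zero_mul] at hbq
      exact hr hbq
    have hq0 : q ≠ 0 := by
      rintro rfl
      rw [mul_zero] at hbq
      exact hr hbq
    have h1 := (hmul b q hb0 hq0).2
    rw [← hbq] at h1
    obtain ⟨y, hy⟩ := hmin b hb0 (by omega) a
    obtain ⟨z, hz⟩ := hmin q hq0 (by omega) y
    exact ha z (by rw [hbq, mul_smul, hz, hy])
  -- the key property of `r`
  have hone : ∀ (N' : Type u) [AddCommGroup N'] [Module S N'], TF S N' → ∀ a' : N',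
      (∀ y, r • y ≠ a') → ∀ θ : PPFormula S, θ.Holds r → θ.Holds a' → θ.Holds (1 : S) := by
    intro N' _ _ htf' a' ha' θ hθr hθa
    obtain ⟨b, hb0, hθb, hb⟩ := holds_principal k θ hr hθr
    obtain ⟨q, hq⟩ := hb r hθr
    rcases hirr b q hq with h0 | h0
    · obtain ⟨κ, hκ, hbκ⟩ := hunit b hb0 h0
      have h1 := PPFormula.Holds.map hθb (LinearMap.toSpanSingleton S S (κ⁻¹ • (1 : S)))
      rw [LinearMap.toSpanSingleton_apply, smul_eq_mul, hbκ, smul_mul_assoc, one_mul, smul_smul,
        mul_inv_cancel₀ hκ, one_smul] at h1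
      exact h1
    · exfalso
      have hq0 : q ≠ 0 := by
        rintro rfl
        rw [mul_zero] at hq
        exact hr hq
      obtain ⟨κ, hκ, hqκ⟩ := hunit q hq0 h0
      obtain ⟨p, t, e, hae, ht⟩ := holds_of_tf k htf' θ a' hθa
      choose q' hq' using fun l => hb (t l) (ht l)
      have hb' : b = r * (κ⁻¹ • (1 : S)) := by
        rw [hq, hqκ, mul_assoc, smul_mul_assoc, one_mul, smul_smul, mul_inv_cancel₀ hκ, one_smul,
          mul_one]
      apply ha' ((κ⁻¹ • (1 : S)) • ∑ l, q' l • e l)
      rw [← mul_smul, ← hb', Finset.smul_sum, hae]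
      refine Finset.sum_congr rfl fun l _ => ?_
      rw [← mul_smul, ← hq']
  -- maps between such modules
  have hmap : ∀ (N₁ N₂ : IndecPureInj S), TF S N₁.carrier → ∀ (a₁ : N₁.carrier)
      (a₂ : N₂.carrier), (∀ y, r • y ≠ a₁) → ∃ (f : N₁.carrier →ₗ[S] N₂.carrier)
        (y : N₂.carrier), f a₁ = a₂ + r • y := by
    intro N₁ N₂ h₁ a₁ a₂ ha₁
    obtain ⟨f, hf⟩ := exists_hom_of_gen (N := N₁.carrier) N₂.pureInjective
      (n₀ := 1) (m₀ := 1) (fun _ _ => r) (fun _ => a₁) (fun _ => a₂) (by
        intro n m r' z w hzw hz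
        let θ : PPFormula S := ⟨n, m, fun j => z j 0, r'⟩
        have h1 : θ.Holds a₁ := by
          rw [PPFormula.holds_iff]
          have : (fun j => z j 0 • a₁) = act z (fun _ => a₁) := by
            funext j
            simp [act_apply]
          change (fun j => z j 0 • a₁) ∈ rng r' _
          rw [this]
          exact hz
        have h2 : θ.Holds r := by
          refine ⟨fun i => w i 0, fun j => ?_⟩
          have := congrFun (congrFun hzw j) 0
          simp only [Matrix.mul_apply, Finset.univ_unique, Fin.default_eq_zero, Fin.isValue,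
            Finset.sum_singleton] at this
          exact this
        have h3 := hone _ h₁ a₁ ha₁ θ h2 h1
        have h4 := PPFormula.Holds.map h3 (LinearMap.toSpanSingleton S N₂.carrier a₂)
        rw [LinearMap.toSpanSingleton_apply, one_smul, PPFormula.holds_iff] at h4
        have : (fun j => z j 0 • a₂) = act z (fun _ => a₂) := by
          funext j
          simp [act_apply]
        rw [← this]
        exact h4)
    obtain ⟨y, hy⟩ := hf
    refine ⟨f, y 0, ?_⟩
    have := congrFun hy 0
    simp only [act_apply, Finset.univ_unique, Fin.default_eq_zero, Fin.isValue,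
      Finset.sum_singleton] at this
    rw [this]
    abel
  refine ⟨topFormula S, divFormula r, ?_, ?_⟩
  · rw [pt_mem_basicOpen]
    refine ⟨a, holds_topFormula a, fun h => ?_⟩
    obtain ⟨y, hy⟩ := holds_divFormula.mp h
    exact ha y hy.symm
  · intro N' hN'
    rw [pt_mem_basicOpen] at hN'
    obtain ⟨a', -, ha'⟩ := hN'
    rw [holds_divFormula] at ha'
    push Not at ha'
    refine ⟨fun hdiv' => ?_, fun htf' => ?_⟩
    · obtain ⟨y, hy⟩ := hdiv' r a' hr
      exact ha' y hy.symm
    · obtain ⟨f, y, hf⟩ := hmap N' N htf' a' a (fun z hz => ha' z hz.symm)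
      obtain ⟨g, z, hg⟩ := hmap N N' htf a a' ha
      rw [pt_eq]
      refine nonempty_equiv_of_not_pure N'.pureInjective N'.indecomposable N.indecomposable f g ?_
      intro hp
      have h1 : (LinearMap.id - g ∘ₗ f : N'.carrier →ₗ[S] N'.carrier) a' = r • (-(z + g y)) := by
        rw [LinearMap.sub_apply, LinearMap.id_apply, LinearMap.comp_apply, hf, map_add, hg,
          map_smul, smul_neg, smul_add]
        abel
      obtain ⟨w, hw⟩ := hp 1 1 (fun _ _ => r) (fun _ => a') ⟨fun _ => -(z + g y), by
        funext j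
        simp only [act_apply, Finset.univ_unique, Fin.default_eq_zero, Fin.isValue,
          Finset.sum_const, Finset.card_singleton, one_smul]
        exact h1.symm⟩
      have := congrFun hw 0
      simp only [act_apply, Finset.univ_unique, Fin.default_eq_zero, Fin.isValue,
        Finset.sum_singleton] at this
      exact ha' (w 0) this.symm

end TFPoints

end Pool.Agent.Lib.MP_a53fda_al
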