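import Pool.Agent.Lib.MP_a53fda_al.Basic

set_option autoImplicit false

namespace Pool.Agent.Lib.MP_a53fda_al

universe u

/-- A natural relation between (a subfunctor of) `N ⊗ -` and `P ⊗ -`. -/
structure PPRel (S : Type u) [Ring S] (N P : Type u) [AddCommGroup N] [Module S N]
    [AddCommGroup P] [Module S P] where
  R : ∀ {n m : ℕ}, Matrix (Fin n) (Fin m) S → (Fin n → N) → (Fin n → P) → Prop
  zero : ∀ {n m : ℕ} (r : Matrix (Fin n) (Fin m) S), R r 0 0
  add : ∀ {n m : ℕ} {r : Matrix (Fin n) (Fin m) S} {x x' : Fin n → N} {p p' : Fin n → P},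
    R r x p → R r x' p' → R r (x + x') (p + p')
  mor : ∀ {n m n' m' : ℕ} {r : Matrix (Fin n) (Fin m) S} {r' : Matrix (Fin n') (Fin m') S}
    {z : Matrix (Fin n') (Fin n) S} {w : Matrix (Fin m') (Fin m) S}, z * r = r' * w →
    ∀ {x : Fin n → N} {p : Fin n → P}, R r x p → R r' (act z x) (act z p)
  sep : ∀ {n m : ℕ} {r : Matrix (Fin n) (Fin m) S} {x : Fin n → N} {p : Fin n → P},
    R r x p → x ∈ rng r N → p ∈ rng r P

namespace PPRel

variable {S : Type u} [Ring S] {N P : Type u} [AddCommGroup N] [Module S N] [AddCommGroup P]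
  [Module S P]

theorem sum (Γ : PPRel S N P) {n m : ℕ} {r : Matrix (Fin n) (Fin m) S} {T : Type u}
    (s : Finset T) (x : T → Fin n → N) (p : T → Fin n → P) (h : ∀ t ∈ s, Γ.R r (x t) (p t)) :
    Γ.R r (∑ t ∈ s, x t) (∑ t ∈ s, p t) := by
  classical
  induction s using Finset.induction_on with
  | empty => simpa using Γ.zero r
  | insert a s ha ih =>
    rw [Finset.sum_insert ha, Finset.sum_insert ha]
    exact Γ.add (h a (Finset.mem_insert_self _ _))
      (ih fun t ht => h t (Finset.mem_insert_of_mem ht))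

/-- index type of the constraints -/
structure Idx (Γ : PPRel S N P) where
  n : ℕ
  m : ℕ
  r : Matrix (Fin n) (Fin m) S
  x : Fin n → N
  p : Fin n → P
  h : Γ.R r x p

/-- The free part. -/
abbrev Fr (Γ : PPRel S N P) : Type u := (Σ t : Γ.Idx, Fin t.m) →₀ S

/-- The relations. -/
noncomputable def rel (Γ : PPRel S N P) (a : Σ t : Γ.Idx, Fin t.n) : N × P × Γ.Fr :=
  (a.1.x a.2, -a.1.p a.2, -∑ i, Finsupp.single (⟨a.1, i⟩ : Σ t : Γ.Idx, Fin t.m) (a.1.r a.2 i))

/-- The span of the relations. -/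
noncomputable def W (Γ : PPRel S N P) : Submodule S (N × P × Γ.Fr) :=
  Submodule.span S (Set.range Γ.rel)

theorem exists_extension (Γ : PPRel S N P) :
    ∃ (C : Type u) (_ : AddCommGroup C) (_ : Module S C) (iN : N →ₗ[S] C) (iP : P →ₗ[S] C),
      IsPure iP ∧ ∀ (n m : ℕ) (r : Matrix (Fin n) (Fin m) S) (x : Fin n → N) (p : Fin n → P),
        Γ.R r x p → (fun j => iN (x j) - iP (p j)) ∈ rng r C := by
  classical
  let E := N × P × Γ.Fr
  let π : E →ₗ[S] (E ⧸ Γ.W) := Γ.W.mkQ
  let jN : N →ₗ[S] E := LinearMap.inl S N (P × Γ.Fr)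
  let jP : P →ₗ[S] E := (LinearMap.inr S N (P × Γ.Fr)) ∘ₗ (LinearMap.inl S P Γ.Fr)
  refine ⟨E ⧸ Γ.W, inferInstance, inferInstance, π ∘ₗ jN, π ∘ₗ jP, ?_, ?_⟩
  · intro n' m' r' c hY
    obtain ⟨Y, hY⟩ := hY
    have hsurj : Function.Surjective π := Γ.W.mkQ_surjective
    choose Yt hYt using fun i => hsurj (Y i)
    -- the differences are combinations of relations
    have hk : ∀ k : Fin n', ∃ z : (Σ t : Γ.Idx, Fin t.n) →₀ S,
        (z.sum fun i a => a • Γ.rel i) = (∑ i, r' k i • Yt i) - jP (c k) := by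
      intro k
      rw [← Finsupp.mem_span_range_iff_exists_finsupp]
      change _ ∈ Γ.W
      rw [← Submodule.Quotient.mk_eq_zero, ← Submodule.mkQ_apply]
      change π _ = 0
      rw [map_sub, map_sum, sub_eq_zero]
      have := congrFun hY k
      simp only [act_apply] at this
      simp only [map_smul, hYt]
      rw [this]
      rfl
    choose z hz using hk
    let 𝒯 : Finset Γ.Idx := Finset.univ.biUnion fun k => (z k).support.image Sigma.fst
    have hsum : ∀ {G : Type u} [AddCommGroup G] [Module S G]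
        (g : (Σ t : Γ.Idx, Fin t.n) → G) (k : Fin n'),
        ((z k).sum fun i a => a • g i) = ∑ t ∈ 𝒯, ∑ j, z k ⟨t, j⟩ • g ⟨t, j⟩ := by
      intro G _ _ g k
      have hsub : (z k).support ⊆ 𝒯.sigma fun t => (Finset.univ : Finset (Fin t.n)) := by
        intro a ha
        rw [Finset.mem_sigma]
        refine ⟨?_, Finset.mem_univ _⟩
        rw [Finset.mem_biUnion]
        exact ⟨k, Finset.mem_univ _, Finset.mem_image_of_mem _ ha⟩
      rw [Finsupp.sum_of_support_subset _ hsub _ (by simp), Finset.sum_sigma]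
    have hf : ∀ {G : Type u} [AddCommGroup G] [Module S G] (f : E →ₗ[S] G) (k : Fin n'),
        ∑ t ∈ 𝒯, ∑ j, z k ⟨t, j⟩ • f (Γ.rel ⟨t, j⟩) =
          ∑ i, r' k i • f (Yt i) - f (jP (c k)) := by
      intro G _ _ f k
      rw [← hsum (fun i => f (Γ.rel i)) k]
      have := congrArg f (hz k)
      rw [map_finsuppSum, map_sub, map_sum] at this
      simpa only [map_smul] using this
    -- the components
    let Z : (t : Γ.Idx) → Matrix (Fin n') (Fin t.n) S := fun t k j => z k ⟨t, j⟩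
    let Wm : (t : Γ.Idx) → Matrix (Fin m') (Fin t.m) S := fun t i i0 => -(Yt i).2.2 ⟨t, i0⟩
    have h1 : ∀ k, ∑ i, r' k i • (Yt i).1 = ∑ t ∈ 𝒯, act (Z t) t.x k := by
      intro k
      have := hf (LinearMap.fst S N (P × Γ.Fr)) k
      have h0 : LinearMap.fst S N (P × Γ.Fr) (jP (c k)) = 0 := rfl
      rw [h0, sub_zero] at this
      exact this.symm
    have h2 : ∀ k, (∑ i, r' k i • (Yt i).2.1) - c k = -∑ t ∈ 𝒯, act (Z t) t.p k := by
      intro k
      have := hf (LinearMap.fst S P Γ.Fr ∘ₗ LinearMap.snd S N (P × Γ.Fr)) k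
      have h0 : (LinearMap.fst S P Γ.Fr ∘ₗ LinearMap.snd S N (P × Γ.Fr)) (jP (c k)) = c k := rfl
      rw [h0] at this
      refine Eq.trans this.symm ?_
      rw [← Finset.sum_neg_distrib]
      refine Finset.sum_congr rfl fun t _ => ?_
      rw [act_apply, ← Finset.sum_neg_distrib]
      refine Finset.sum_congr rfl fun j _ => ?_
      rw [← smul_neg]
      rfl
    have h3 : ∀ t ∈ 𝒯, Z t * t.r = r' * Wm t := by
      intro t ht
      ext k i0
      have := hf ((Finsupp.lapply (R := S) (M := S) (⟨t, i0⟩ : Σ t : Γ.Idx, Fin t.m)) ∘ₗ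
        (LinearMap.snd S P Γ.Fr ∘ₗ LinearMap.snd S N (P × Γ.Fr))) k
      have h0 : ((Finsupp.lapply (R := S) (M := S) (⟨t, i0⟩ : Σ t : Γ.Idx, Fin t.m)) ∘ₗ
        (LinearMap.snd S P Γ.Fr ∘ₗ LinearMap.snd S N (P × Γ.Fr))) (jP (c k)) = 0 := rfl
      rw [h0, sub_zero] at this
      have h4 : ∀ (t' : Γ.Idx) (j : Fin t'.n),
          ((Finsupp.lapply (R := S) (M := S) (⟨t, i0⟩ : Σ t : Γ.Idx, Fin t.m)) ∘ₗ
            (LinearMap.snd S P Γ.Fr ∘ₗ LinearMap.snd S N (P × Γ.Fr))) (Γ.rel ⟨t', j⟩) =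
          -∑ i, (Finsupp.single (⟨t', i⟩ : Σ t : Γ.Idx, Fin t.m) (t'.r j i)) ⟨t, i0⟩ := by
        intro t' j
        simp only [rel, LinearMap.comp_apply, LinearMap.snd_apply, Finsupp.lapply_apply,
          Finsupp.coe_neg, Pi.neg_apply, Finsupp.coe_finsetSum, Finset.sum_apply]
      simp only [h4, smul_eq_mul] at this
      have hleft : ∑ t' ∈ 𝒯, ∑ j, z k ⟨t', j⟩ *
          -∑ i, (Finsupp.single (⟨t', i⟩ : Σ t : Γ.Idx, Fin t.m) (t'.r j i)) ⟨t, i0⟩ =
          -∑ j, z k ⟨t, j⟩ * t.r j i0 := by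
        rw [Finset.sum_eq_single t]
        · rw [← Finset.sum_neg_distrib]
          refine Finset.sum_congr rfl fun j _ => ?_
          rw [Finset.sum_eq_single i0]
          · simp
          · intro b _ hb
            rw [Finsupp.single_apply, if_neg]
            intro h
            apply hb
            simpa using h
          · simp
        · intro t' _ ht'
          refine Finset.sum_eq_zero fun j _ => ?_
          rw [Finset.sum_eq_zero, neg_zero, mul_zero]
          intro i _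
          rw [Finsupp.single_apply, if_neg]
          intro h
          apply ht'
          exact congrArg Sigma.fst h
        · intro h
          exact absurd ht h
      rw [hleft] at this
      simp only [Matrix.mul_apply, Z, Wm, mul_neg, Finset.sum_neg_distrib]
      rw [neg_eq_iff_eq_neg.mp this]
      rfl
    have hR : Γ.R r' (∑ t ∈ 𝒯, act (Z t) t.x) (∑ t ∈ 𝒯, act (Z t) t.p) :=
      Γ.sum 𝒯 _ _ fun t ht => Γ.mor (h3 t ht) t.h
    have hxr : (∑ t ∈ 𝒯, act (Z t) t.x) ∈ rng r' N := by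
      refine ⟨fun i => (Yt i).1, ?_⟩
      funext k
      rw [act_apply, h1 k, Finset.sum_apply]
    obtain ⟨V, hV⟩ := Γ.sep hR hxr
    refine ⟨fun i => (Yt i).2.1 + V i, ?_⟩
    funext k
    have hVk := congrFun hV k
    rw [Finset.sum_apply] at hVk
    have := h2 k
    rw [act_apply] at hVk ⊢
    simp only [smul_add, Finset.sum_add_distrib]
    rw [hVk]
    rw [sub_eq_iff_eq_add] at this
    rw [this]
    abel
  · intro n m r x p h
    let t : Γ.Idx := ⟨n, m, r, x, p, h⟩
    let jF : Γ.Fr →ₗ[S] E := (LinearMap.inr S N (P × Γ.Fr)) ∘ₗ (LinearMap.inr S P Γ.Fr)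
    refine ⟨fun i => π (jF (Finsupp.single ⟨t, i⟩ 1)), ?_⟩
    funext j
    have hrel : π (Γ.rel ⟨t, j⟩) = 0 := by
      change Γ.W.mkQ _ = 0
      rw [Submodule.mkQ_apply, Submodule.Quotient.mk_eq_zero]
      exact Submodule.subset_span ⟨_, rfl⟩
    have hs : ∑ i, r j i • jF (Finsupp.single (⟨t, i⟩ : Σ t : Γ.Idx, Fin t.m) (1 : S)) =
        jF (∑ i, Finsupp.single (⟨t, i⟩ : Σ t : Γ.Idx, Fin t.m) (r j i)) := by
      rw [map_sum]
      refine Finset.sum_congr rfl fun i _ => ?_
      rw [← map_smul, Finsupp.smul_single, smul_eq_mul, mul_one]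
    have hdec : Γ.rel ⟨t, j⟩ = jN (x j) - jP (p j) -
        ∑ i, r j i • jF (Finsupp.single (⟨t, i⟩ : Σ t : Γ.Idx, Fin t.m) (1 : S)) := by
      rw [hs]
      have gen : ∀ (a : N) (b : P) (w : Γ.Fr), ((a, -b, -w) : E) = jN a - jP b - jF w := by
        intro a b w
        refine Prod.ext ?_ (Prod.ext ?_ ?_)
        · change a = a - 0 - 0
          rw [sub_zero, sub_zero]
        · change -b = 0 - b - 0
          rw [sub_zero, zero_sub]
        · change -w = 0 - 0 - w
          rw [sub_zero, zero_sub]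
      exact gen _ _ _
    rw [hdec, map_sub, map_sub, sub_eq_zero, map_sum] at hrel
    rw [act_apply]
    simp only [map_smul] at hrel
    exact hrel.symm

/-- **Extension lemma.** -/
theorem exists_hom (Γ : PPRel S N P) (hP : IsPureInjective S P) :
    ∃ g : N →ₗ[S] P, ∀ (n m : ℕ) (r : Matrix (Fin n) (Fin m) S) (x : Fin n → N) (p : Fin n → P),
      Γ.R r x p → (fun j => g (x j) - p j) ∈ rng r P := by
  obtain ⟨C, _, _, iN, iP, hpure, hC⟩ := Γ.exists_extension
  obtain ⟨ρ, hρ⟩ := hP.exists_retraction hpure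
  refine ⟨ρ ∘ₗ iN, fun n m r x p h => ?_⟩
  have := map_mem_rng ρ (hC n m r x p h)
  simpa [hρ] using this

end PPRel

end Pool.Agent.Lib.MP_a53fda_al
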