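import Pool.Agent.Lib.MP_a53fda_al.Rel

set_option autoImplicit false

namespace Pool.Agent.Lib.MP_a53fda_al

universe u

/-- A subfunctor of `N ⊗ -`. -/
structure Sub (S : Type u) [Ring S] (N : Type u) [AddCommGroup N] [Module S N] where
  K : ∀ {n m : ℕ}, Matrix (Fin n) (Fin m) S → AddSubgroup (Fin n → N)
  rng_le : ∀ {n m : ℕ} (r : Matrix (Fin n) (Fin m) S), rng r N ≤ K r
  mor : ∀ {n m n' m' : ℕ} {r : Matrix (Fin n) (Fin m) S} {r' : Matrix (Fin n') (Fin m') S}
    {z : Matrix (Fin n') (Fin n) S} {w : Matrix (Fin m') (Fin m) S}, z * r = r' * w →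
    ∀ x ∈ K r, act z x ∈ K r'

namespace Sub

variable {S : Type u} [Ring S] {N P : Type u} [AddCommGroup N] [Module S N] [AddCommGroup P]
  [Module S P]

instance : Preorder (Sub S N) where
  le U V := ∀ {n m : ℕ} (r : Matrix (Fin n) (Fin m) S), U.K r ≤ V.K r
  le_refl _ _ _ _ := le_rfl
  le_trans _ _ _ h h' _ _ r := (h r).trans (h' r)

theorem le_def {U V : Sub S N} :
    U ≤ V ↔ ∀ {n m : ℕ} (r : Matrix (Fin n) (Fin m) S), U.K r ≤ V.K r := Iff.rfl

/-- The zero subfunctor. -/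
def bot (S : Type u) [Ring S] (N : Type u) [AddCommGroup N] [Module S N] : Sub S N where
  K r := rng r N
  rng_le _ := le_rfl
  mor h _ hx := rng_mor h hx

/-- Two subfunctors intersect in zero. -/
def Disj (U V : Sub S N) : Prop :=
  ∀ {n m : ℕ} (r : Matrix (Fin n) (Fin m) S) (x : Fin n → N), x ∈ U.K r → x ∈ V.K r →
    x ∈ rng r N

theorem Disj.symm {U V : Sub S N} (h : U.Disj V) : V.Disj U := fun r x hx hx' => h r x hx' hx

theorem Disj.mono {U V U' V' : Sub S N} (h : U.Disj V) (hU : U' ≤ U) (hV : V' ≤ V) :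
    U'.Disj V' := fun r x hx hx' => h r x (hU r hx) (hV r hx')

/-- The sum of two subfunctors. -/
def sum (U V : Sub S N) : Sub S N where
  K r := U.K r ⊔ V.K r
  rng_le r := (U.rng_le r).trans le_sup_left
  mor h x hx := by
    rw [AddSubgroup.mem_sup] at hx ⊢
    obtain ⟨y, hy, z, hz, rfl⟩ := hx
    exact ⟨_, U.mor h y hy, _, V.mor h z hz, (map_add _ _ _).symm⟩

theorem le_sum_left (U V : Sub S N) : U ≤ U.sum V := fun _ => le_sup_left

theorem le_sum_right (U V : Sub S N) : V ≤ U.sum V := fun _ => le_sup_right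

theorem mem_sum {U V : Sub S N} {n m : ℕ} {r : Matrix (Fin n) (Fin m) S} {x : Fin n → N} :
    x ∈ (U.sum V).K r ↔ ∃ y ∈ U.K r, ∃ z ∈ V.K r, y + z = x := AddSubgroup.mem_sup

/-- `f` applied coordinatewise. -/
def mapv (f : N →ₗ[S] P) (n : ℕ) : (Fin n → N) →+ (Fin n → P) where
  toFun x := fun j => f (x j)
  map_zero' := by
    funext j
    simp
  map_add' x y := by
    funext j
    simp

theorem mapv_apply (f : N →ₗ[S] P) {n : ℕ} (x : Fin n → N) (j : Fin n) :
    mapv f n x j = f (x j) := rfl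

theorem mapv_act (f : N →ₗ[S] P) {n m : ℕ} (r : Matrix (Fin n) (Fin m) S) (y : Fin m → N) :
    mapv f n (act r y) = act r (mapv f m y) := map_act f r y

theorem mapv_mem_rng (f : N →ₗ[S] P) {n m : ℕ} {r : Matrix (Fin n) (Fin m) S} {x : Fin n → N}
    (hx : x ∈ rng r N) : mapv f n x ∈ rng r P := map_mem_rng f hx

/-- The preimage of a subfunctor. -/
def comap (f : N →ₗ[S] P) (U : Sub S P) : Sub S N where
  K {n _} r := (U.K r).comap (mapv f n)
  rng_le r x hx := U.rng_le r (mapv_mem_rng f hx)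
  mor h x hx := by
    rw [AddSubgroup.mem_comap] at hx ⊢
    rw [mapv_act]
    exact U.mor h _ hx

theorem mem_comap {f : N →ₗ[S] P} {U : Sub S P} {n m : ℕ} {r : Matrix (Fin n) (Fin m) S}
    {x : Fin n → N} : x ∈ (U.comap f).K r ↔ mapv f n x ∈ U.K r := Iff.rfl

/-- The kernel of `f ⊗ -`. -/
def kr (f : N →ₗ[S] P) : Sub S N := (bot S P).comap f

theorem mem_kr {f : N →ₗ[S] P} {n m : ℕ} {r : Matrix (Fin n) (Fin m) S} {x : Fin n → N} :
    x ∈ (kr f).K r ↔ mapv f n x ∈ rng r P := Iff.rfl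

theorem isPure_iff_kr {f : N →ₗ[S] P} : IsPure f ↔ kr f ≤ bot S N := by
  constructor
  · intro h n m r x hx
    exact h n m r x hx
  · intro h n m r x hx
    exact h r hx

/-- The image of a subfunctor. -/
def map (f : N →ₗ[S] P) (U : Sub S N) : Sub S P where
  K {n _} r := (U.K r).map (mapv f n) ⊔ rng r P
  rng_le r := le_sup_right
  mor h x hx := by
    rw [AddSubgroup.mem_sup] at hx ⊢
    obtain ⟨y, ⟨y', hy', rfl⟩, z, hz, rfl⟩ := hx
    exact ⟨_, ⟨_, U.mor h _ hy', rfl⟩, _, rng_mor h hz, by rw [map_add, mapv_act]⟩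

/-- The full functor. -/
def top (S : Type u) [Ring S] (N : Type u) [AddCommGroup N] [Module S N] : Sub S N where
  K _ := ⊤
  rng_le _ := le_top
  mor _ _ _ := AddSubgroup.mem_top _

/-- The image of `f ⊗ -`. -/
def im (f : N →ₗ[S] P) : Sub S P := (top S N).map f

theorem mem_im {f : N →ₗ[S] P} {n m : ℕ} {r : Matrix (Fin n) (Fin m) S} {x : Fin n → P} :
    x ∈ (im f).K r ↔ ∃ y : Fin n → N, x - mapv f n y ∈ rng r P := by
  constructor
  · intro h
    obtain ⟨_, ⟨y, -, rfl⟩, z, hz, rfl⟩ := AddSubgroup.mem_sup.mp h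
    exact ⟨y, by simpa using hz⟩
  · rintro ⟨y, hy⟩
    exact AddSubgroup.mem_sup.mpr ⟨_, ⟨y, AddSubgroup.mem_top _, rfl⟩, _, hy, by abel⟩

/-- The subfunctor generated by one element. -/
def gen {n₀ m₀ : ℕ} (r₀ : Matrix (Fin n₀) (Fin m₀) S) (x₀ : Fin n₀ → N) : Sub S N where
  K {n m} r :=
    { carrier := {x | ∃ (z : Matrix (Fin n) (Fin n₀) S) (w : Matrix (Fin m) (Fin m₀) S),
        z * r₀ = r * w ∧ x - act z x₀ ∈ rng r N}
      zero_mem' := ⟨0, 0, by simp, by
        have : (act (0 : Matrix (Fin n) (Fin n₀) S) x₀) = 0 := by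
          funext j
          simp [act_apply]
        rw [this, sub_zero]
        exact AddSubgroup.zero_mem _⟩
      add_mem' := by
        rintro x y ⟨z, w, h, hx⟩ ⟨z', w', h', hy⟩
        refine ⟨z + z', w + w', by rw [Matrix.add_mul, Matrix.mul_add, h, h'], ?_⟩
        have : act (z + z') x₀ = act z x₀ + act z' x₀ := by
          funext j
          simp [act_apply, add_smul, Finset.sum_add_distrib]
        rw [this, add_sub_add_comm]
        exact AddSubgroup.add_mem _ hx hy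
      neg_mem' := by
        rintro x ⟨z, w, h, hx⟩
        refine ⟨-z, -w, by rw [Matrix.neg_mul, Matrix.mul_neg, h], ?_⟩
        have : act (-z) x₀ = -act z x₀ := by
          funext j
          simp [act_apply]
        rw [this, ← neg_sub']
        exact AddSubgroup.neg_mem _ hx }
  rng_le {n m} r x hx := ⟨0, 0, by simp, by
    have : (act (0 : Matrix (Fin n) (Fin n₀) S) x₀) = 0 := by
      funext j
      simp [act_apply]
    rw [this, sub_zero]
    exact hx⟩
  mor := by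
    rintro n m n' m' r r' z w h x ⟨z₁, w₁, h₁, hx⟩
    refine ⟨z * z₁, w * w₁, ?_, ?_⟩
    · rw [Matrix.mul_assoc, h₁, ← Matrix.mul_assoc, h, Matrix.mul_assoc]
    · rw [act_mul, ← map_sub]
      exact rng_mor h hx

theorem mem_gen {n₀ m₀ : ℕ} {r₀ : Matrix (Fin n₀) (Fin m₀) S} {x₀ : Fin n₀ → N} {n m : ℕ}
    {r : Matrix (Fin n) (Fin m) S} {x : Fin n → N} :
    x ∈ (gen r₀ x₀).K r ↔ ∃ (z : Matrix (Fin n) (Fin n₀) S) (w : Matrix (Fin m) (Fin m₀) S),
      z * r₀ = r * w ∧ x - act z x₀ ∈ rng r N := Iff.rfl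

theorem self_mem_gen {n₀ m₀ : ℕ} (r₀ : Matrix (Fin n₀) (Fin m₀) S) (x₀ : Fin n₀ → N) :
    x₀ ∈ (gen r₀ x₀).K r₀ := by
  refine ⟨1, 1, by simp, ?_⟩
  have : act (1 : Matrix (Fin n₀) (Fin n₀) S) x₀ = x₀ := by
    funext j
    simp [act_apply, Matrix.one_apply]
  rw [this, sub_self]
  exact AddSubgroup.zero_mem _

/-- The union of a chain. -/
def chainUnion (c : Set (Sub S N)) (hc : IsChain (· ≤ ·) c) (y : Sub S N) (hy : y ∈ c) :
    Sub S N where
  K r :=
    { carrier := {x | ∃ A ∈ c, x ∈ A.K r}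
      zero_mem' := ⟨y, hy, AddSubgroup.zero_mem _⟩
      add_mem' := by
        rintro x x' ⟨A, hA, hx⟩ ⟨B, hB, hx'⟩
        rcases hc.total hA hB with h | h
        · exact ⟨B, hB, AddSubgroup.add_mem _ (h r hx) hx'⟩
        · exact ⟨A, hA, AddSubgroup.add_mem _ hx (h r hx')⟩
      neg_mem' := by
        rintro x ⟨A, hA, hx⟩
        exact ⟨A, hA, AddSubgroup.neg_mem _ hx⟩ }
  rng_le r x hx := ⟨y, hy, y.rng_le r hx⟩
  mor := by
    rintro n m n' m' r r' z w h x ⟨A, hA, hx⟩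
    exact ⟨A, hA, A.mor h x hx⟩

theorem exists_max_disj (U V : Sub S N) (h : U.Disj V) :
    ∃ L : Sub S N, V ≤ L ∧ U.Disj L ∧ ∀ L', L ≤ L' → U.Disj L' → L' ≤ L := by
  obtain ⟨L, hVL, hL⟩ := zorn_le_nonempty₀ {L : Sub S N | U.Disj L} (by
    intro c hcs hc y hy
    refine ⟨chainUnion c hc y hy, ?_, ?_⟩
    · intro n m r x hx hx'
      obtain ⟨A, hA, hxA⟩ := hx'
      exact hcs hA r x hx hxA
    · intro z hz n m r x hx
      exact ⟨z, hz, hx⟩) V h
  exact ⟨L, hVL, hL.prop, fun L' hLL' hd => hL.le_of_ge hd hLL'⟩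

/-- **Complement lemma**. -/
theorem exists_idempotent (hP : IsPureInjective S P) (U V : Sub S P) (hUV : U.Disj V) :
    ∃ (π : P →ₗ[S] P) (K L : Sub S P), (∀ x, π (π x) = π x) ∧ U ≤ K ∧ V ≤ L ∧
      (∀ {n m : ℕ} (r : Matrix (Fin n) (Fin m) S) (x : Fin n → P),
        x ∈ K.K r ↔ x - mapv π n x ∈ rng r P) ∧
      (∀ {n m : ℕ} (r : Matrix (Fin n) (Fin m) S) (x : Fin n → P),
        x ∈ L.K r ↔ mapv π n x ∈ rng r P) ∧
      (∀ V' : Sub S P, V' ≤ K → V'.Disj U → V' ≤ bot S P) := by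
  obtain ⟨L, hVL, hUL, hLmax⟩ := exists_max_disj U V hUV
  obtain ⟨K, hUK, hLK, hKmax⟩ := exists_max_disj L U hUL.symm
  let Γ : PPRel S P P :=
    { R := fun {n m} r x p => ∃ k ∈ K.K r, ∃ l ∈ L.K r, x = k + l ∧ p - k ∈ rng r P
      zero := fun r => ⟨0, AddSubgroup.zero_mem _, 0, AddSubgroup.zero_mem _, by simp, by simp⟩
      add := by
        rintro n m r x x' p p' ⟨k, hk, l, hl, rfl, h⟩ ⟨k', hk', l', hl', rfl, h'⟩
        refine ⟨k + k', AddSubgroup.add_mem _ hk hk', l + l', AddSubgroup.add_mem _ hl hl', by abel,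
          ?_⟩
        rw [add_sub_add_comm]
        exact AddSubgroup.add_mem _ h h'
      mor := by
        rintro n m n' m' r r' z w hz x p ⟨k, hk, l, hl, rfl, h⟩
        refine ⟨_, K.mor hz k hk, _, L.mor hz l hl, map_add _ _ _, ?_⟩
        rw [← map_sub]
        exact rng_mor hz h
      sep := by
        rintro n m r x p ⟨k, hk, l, hl, rfl, h⟩ hx
        have hkL : k ∈ L.K r := by
          have := AddSubgroup.sub_mem _ (L.rng_le r hx) hl
          simpa using this
        have hk' := hLK r k hkL hk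
        have := AddSubgroup.add_mem _ h hk'
        simpa using this }
  obtain ⟨π, hπ⟩ := Γ.exists_hom hP
  have h1 : ∀ {n m : ℕ} (r : Matrix (Fin n) (Fin m) S) (x : Fin n → P), x ∈ K.K r →
      mapv π n x - x ∈ rng r P := fun r x hx =>
    hπ _ _ r x x ⟨x, hx, 0, AddSubgroup.zero_mem _, by simp, by simp⟩
  have h2 : ∀ {n m : ℕ} (r : Matrix (Fin n) (Fin m) S) (x : Fin n → P), x ∈ L.K r →
      mapv π n x ∈ rng r P := by
    intro n m r x hx
    have := hπ _ _ r x 0 ⟨0, AddSubgroup.zero_mem _, x, hx, by simp, by simp⟩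
    simp only [Pi.zero_apply, sub_zero] at this
    exact this
  have hLmax' : ∀ L', L ≤ L' → K.Disj L' → L' ≤ L := fun L' hL' hd =>
    hLmax L' hL' (hd.mono hUK (fun _ => le_rfl))
  have h3 : kr π ≤ L := by
    refine hLmax' _ (fun r x hx => mem_kr.mpr (h2 r x hx)) ?_
    intro n m r x hx hx'
    have := AddSubgroup.sub_mem _ (mem_kr.mp hx') (h1 r x hx)
    simpa using this
  have h4 : L.comap π ≤ L := by
    refine hLmax' _ (fun r x hx => mem_comap.mpr (L.rng_le r (h2 r x hx))) ?_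
    intro n m r x hx hx'
    have hx2 : mapv π n x ∈ L.K r := hx'
    have := AddSubgroup.sub_mem _ hx2 (L.rng_le r (h1 r x hx))
    rw [sub_sub_cancel] at this
    exact hLK r x this hx
  have h5 : im π ≤ K := by
    refine hKmax _ ?_ ?_
    · intro n m r x hx
      rw [mem_im]
      refine ⟨x, ?_⟩
      rw [← neg_sub]
      exact AddSubgroup.neg_mem _ (h1 r x hx)
    · intro n m r x hx hx'
      obtain ⟨y, hy⟩ := mem_im.mp hx'
      have h6 : mapv π n y ∈ L.K r := by
        have := AddSubgroup.sub_mem _ hx (L.rng_le r hy)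
        simpa using this
      have h7 := h2 r y (h4 r h6)
      have := AddSubgroup.add_mem _ hy h7
      simpa using this
  refine ⟨π, K, L, ?_, hUK, hVL, ?_, ?_, ?_⟩
  · intro x
    let r : Matrix (Fin 1) (Fin 0) S := 0
    have h6 : mapv π 1 (fun _ => x) ∈ K.K r := h5 r (mem_im.mpr ⟨fun _ => x, by
      rw [sub_self]
      exact AddSubgroup.zero_mem _⟩)
    have h7 := rng_zero_cols (h1 r _ h6)
    have h8 := congrFun h7 0
    simp only [Pi.sub_apply, mapv_apply, Pi.zero_apply, sub_eq_zero] at h8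
    exact h8
  · intro n m r x
    constructor
    · intro hx
      rw [← neg_sub]
      exact AddSubgroup.neg_mem _ (h1 r x hx)
    · intro hx
      exact h5 r (mem_im.mpr ⟨x, hx⟩)
  · intro n m r x
    exact ⟨h2 r x, fun hx => h3 r hx⟩
  · intro V' hV'K hV'U
    have h6 : L.sum V' ≤ L := by
      refine hLmax _ (le_sum_left _ _) ?_
      intro n m r x hx hx'
      obtain ⟨l, hl, v, hv, rfl⟩ := mem_sum.mp hx'
      have h7 : l ∈ K.K r := by
        have := AddSubgroup.sub_mem _ (hUK r hx) (hV'K r hv)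
        simpa using this
      have h8 := hLK r l hl h7
      have h9 : v ∈ U.K r := by
        have := AddSubgroup.sub_mem _ hx (U.rng_le r h8)
        simpa using this
      exact AddSubgroup.add_mem _ h8 (hV'U r v hv h9)
    intro n m r x hx
    exact hLK r x (h6 r (le_sum_right _ _ r hx)) (hV'K r hx)

end Sub

end Pool.Agent.Lib.MP_a53fda_al
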