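import Pool.Agent.Lib.MP_a53fda_al.Sub

set_option autoImplicit false

namespace Pool.Agent.Lib.MP_a53fda_al

universe u

open Pool.Agent.Lib.MP_a53fda_al.Sub

section

variable {S : Type u} [Ring S] {N P P' N' : Type u} [AddCommGroup N] [Module S N]
  [AddCommGroup P] [Module S P] [AddCommGroup P'] [Module S P'] [AddCommGroup N'] [Module S N']

/-- The idempotent endomorphisms of an indecomposable module are `0` and `1`. -/
theorem IsIndecomposable.idempotent (h : IsIndecomposable S N) (π : N →ₗ[S] N)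
    (hπ : ∀ x, π (π x) = π x) : (∀ x, π x = 0) ∨ (∀ x, π x = x) := by
  have hc : IsCompl (LinearMap.range π) (LinearMap.ker π) := by
    rw [isCompl_iff, Submodule.disjoint_def, Submodule.codisjoint_iff_exists_add_eq]
    constructor
    · rintro x ⟨y, rfl⟩ hx
      rw [LinearMap.mem_ker, hπ] at hx
      exact hx
    · intro x
      exact ⟨π x, x - π x, ⟨x, rfl⟩, by rw [LinearMap.mem_ker, map_sub, hπ, sub_self], by abel⟩
  rcases h.2 _ _ hc with h | h
  · left
    intro x
    have : π x ∈ LinearMap.range π := ⟨x, rfl⟩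
    rw [h] at this
    simpa using this
  · right
    intro x
    have : x - π x ∈ LinearMap.ker π := by rw [LinearMap.mem_ker, map_sub, hπ, sub_self]
    rw [h] at this
    have h2 : x - π x = 0 := by simpa using this
    rw [sub_eq_zero] at h2
    exact h2.symm

/-- `N ⊗ -` is uniform for an indecomposable pure-injective `N`. -/
theorem uniform (hP : IsPureInjective S N) (hN : IsIndecomposable S N) (U V : Sub S N)
    (h : U.Disj V) : U ≤ bot S N ∨ V ≤ bot S N := by
  obtain ⟨π, K, L, hπ, hUK, hVL, hK, hL, -⟩ := Sub.exists_idempotent hP U V h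
  rcases hN.idempotent π hπ with h0 | h1
  · left
    intro n m r x hx
    have h2 := (hK r x).mp (hUK r hx)
    have h3 : mapv π n x = 0 := by
      funext j
      exact h0 _
    rw [h3, sub_zero] at h2
    exact h2
  · right
    intro n m r x hx
    have h2 := (hL r x).mp (hVL r hx)
    have h3 : mapv π n x = x := by
      funext j
      exact h1 _
    rw [h3] at h2
    exact h2

theorem pure_or_pure (hP : IsPureInjective S N) (hN : IsIndecomposable S N) (f : N →ₗ[S] P)
    (g : N →ₗ[S] P') (h : (kr f).Disj (kr g)) : IsPure f ∨ IsPure g := by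
  rw [isPure_iff_kr, isPure_iff_kr]
  exact uniform hP hN _ _ h

/-- The endomorphism ring of an indecomposable pure-injective module is local. -/
theorem pure_or_pure_sub (hP : IsPureInjective S N) (hN : IsIndecomposable S N)
    (f : N →ₗ[S] N) : IsPure f ∨ IsPure (LinearMap.id - f) := by
  refine pure_or_pure hP hN f _ ?_
  intro n m r x hx hx'
  rw [mem_kr] at hx hx'
  have : x = mapv f n x + mapv (LinearMap.id - f) n x := by
    funext j
    simp [mapv_apply]
  rw [this]
  exact AddSubgroup.add_mem _ hx hx'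

theorem bijective_of_pure (hP : IsPureInjective S N) (hN : Nontrivial N)
    (hN' : IsIndecomposable S N') (f : N →ₗ[S] N') (hf : IsPure f) : Function.Bijective f := by
  obtain ⟨ρ, hρ⟩ := hP.exists_retraction hf
  rcases hN'.idempotent (f ∘ₗ ρ) (fun x => by simp [hρ]) with h | h
  · exfalso
    obtain ⟨x, hx⟩ := exists_ne (0 : N)
    have := h (f x)
    simp only [LinearMap.comp_apply, hρ] at this
    exact hx (hf.injective (by rw [this, map_zero]))
  · exact ⟨hf.injective, fun y => ⟨ρ y, h y⟩⟩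

theorem nonempty_equiv_of_pure (hP : IsPureInjective S N) (hN : Nontrivial N)
    (hN' : IsIndecomposable S N') (f : N →ₗ[S] N') (hf : IsPure f) : Nonempty (N ≃ₗ[S] N') :=
  ⟨LinearEquiv.ofBijective f (bijective_of_pure hP hN hN' f hf)⟩

/-- Two indecomposable pure-injective modules with maps `f, g` in both directions are isomorphic
unless `1 - g f` is a pure embedding. -/
theorem nonempty_equiv_of_not_pure (hP : IsPureInjective S N) (hN : IsIndecomposable S N)
    (hN' : IsIndecomposable S N') (f : N →ₗ[S] N') (g : N' →ₗ[S] N)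
    (h : ¬ IsPure (LinearMap.id - g ∘ₗ f)) : Nonempty (N ≃ₗ[S] N') := by
  rcases pure_or_pure_sub hP hN (g ∘ₗ f) with h1 | h1
  · exact nonempty_equiv_of_pure hP hN.1 hN' f h1.of_comp
  · exact absurd h1 h

end

section Points

variable {S : Type u} [Ring S]

/-- The point of the Ziegler spectrum. -/
def pt (N : IndecPureInj S) : Zg S := Quotient.mk (indecPureInjSetoid S) N

theorem pt_eq {N N' : IndecPureInj S} : pt N = pt N' ↔ Nonempty (N.carrier ≃ₗ[S] N'.carrier) :=
  Quotient.eq (r := indecPureInjSetoid S)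

theorem exists_pt (p : Zg S) : ∃ N : IndecPureInj S, pt N = p := Quotient.exists_rep p

theorem PPFormula.holds_equiv {N N' : Type u} [AddCommGroup N] [Module S N] [AddCommGroup N']
    [Module S N'] (e : N ≃ₗ[S] N') (φ : PPFormula S) (x : N) : φ.Holds (e x) ↔ φ.Holds x := by
  constructor
  · intro h
    have := h.map e.symm.toLinearMap
    simpa using this
  · intro h
    exact h.map e.toLinearMap

theorem pt_mem_basicOpen {N : IndecPureInj S} {φ ψ : PPFormula S} :
    pt N ∈ basicOpen φ ψ ↔ ∃ x : N.carrier, φ.Holds x ∧ ¬ ψ.Holds x := by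
  constructor
  · rintro ⟨N', hN', x, hx, hx'⟩
    obtain ⟨e⟩ := pt_eq.mp hN'
    exact ⟨e x, (PPFormula.holds_equiv e φ x).mpr hx,
      fun h => hx' ((PPFormula.holds_equiv e ψ x).mp h)⟩
  · rintro ⟨x, hx, hx'⟩
    exact ⟨N, rfl, x, hx, hx'⟩

theorem isOpen_basicOpen (φ ψ : PPFormula S) : IsOpen (basicOpen φ ψ) :=
  TopologicalSpace.isOpen_generateFrom_of_mem ⟨φ, ψ, rfl⟩

end Points

section Formula

variable {S : Type u} [Ring S]

/-- A pp formula from a finite system of equations. -/
noncomputable def mkFormula {ι κ : Type} [Fintype ι] [Fintype κ] (s : ι → S) (r : ι → κ → S) :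
    PPFormula S where
  n := Fintype.card ι
  m := Fintype.card κ
  s j := s ((Fintype.equivFin ι).symm j)
  r := fun j i => r ((Fintype.equivFin ι).symm j) ((Fintype.equivFin κ).symm i)

theorem holds_mkFormula {ι κ : Type} [Fintype ι] [Fintype κ] {s : ι → S} {r : ι → κ → S}
    {N : Type u} [AddCommGroup N] [Module S N] {x : N} :
    (mkFormula s r).Holds x ↔ ∃ y : κ → N, ∀ j, s j • x = ∑ i, r j i • y i := by
  change (∃ y : Fin (Fintype.card κ) → N, ∀ j : Fin (Fintype.card ι),
    s ((Fintype.equivFin ι).symm j) • x = ∑ i : Fin (Fintype.card κ),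
      r ((Fintype.equivFin ι).symm j) ((Fintype.equivFin κ).symm i) • y i) ↔ _
  constructor
  · rintro ⟨y, hy⟩
    refine ⟨fun i => y (Fintype.equivFin κ i), fun j => ?_⟩
    have := hy (Fintype.equivFin ι j)
    simp only [Equiv.symm_apply_apply] at this
    rw [this]
    rw [← Equiv.sum_comp (Fintype.equivFin κ)]
    simp
  · rintro ⟨y, hy⟩
    refine ⟨fun i => y ((Fintype.equivFin κ).symm i), fun j => ?_⟩
    rw [hy ((Fintype.equivFin ι).symm j)]
    exact (Equiv.sum_comp (Fintype.equivFin κ).symm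
      (fun i => r ((Fintype.equivFin ι).symm j) i • y i)).symm

/-- The formula `x = x`. -/
def topFormula (S : Type u) [Ring S] : PPFormula S where
  n := 0
  m := 0
  s := Fin.elim0
  r := 0

theorem holds_topFormula {N : Type u} [AddCommGroup N] [Module S N] (x : N) :
    (topFormula S).Holds x := ⟨Fin.elim0, fun j => j.elim0⟩

/-- The formula `s x = 0`. -/
def annFormula (s : S) : PPFormula S where
  n := 1
  m := 0
  s := fun _ => s
  r := 0

theorem holds_annFormula {N : Type u} [AddCommGroup N] [Module S N] {s : S} {x : N} :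
    (annFormula s).Holds x ↔ s • x = 0 := by
  constructor
  · rintro ⟨y, hy⟩
    have := hy (0 : Fin 1)
    simpa [annFormula] using this
  · intro h
    exact ⟨Fin.elim0, fun j => by simpa [annFormula] using h⟩

/-- The formula `s ∣ x`. -/
def divFormula (s : S) : PPFormula S where
  n := 1
  m := 1
  s := fun _ => 1
  r := fun _ _ => s

theorem holds_divFormula {N : Type u} [AddCommGroup N] [Module S N] {s : S} {x : N} :
    (divFormula s).Holds x ↔ ∃ y, x = s • y := by
  constructor
  · rintro ⟨y, hy⟩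
    have := hy (0 : Fin 1)
    exact ⟨y (0 : Fin 1), by simpa [divFormula] using this⟩
  · rintro ⟨y, hy⟩
    exact ⟨fun _ => y, fun j => by simpa [divFormula] using hy⟩

end Formula

section Basis

variable {S : Type u} [Ring S]

theorem exists_basicOpen_subset_inter (φ₁ ψ₁ φ₂ ψ₂ : PPFormula S) (p : Zg S)
    (hp : p ∈ basicOpen φ₁ ψ₁ ∩ basicOpen φ₂ ψ₂) :
    ∃ φ ψ : PPFormula S, p ∈ basicOpen φ ψ ∧
      basicOpen φ ψ ⊆ basicOpen φ₁ ψ₁ ∩ basicOpen φ₂ ψ₂ := by
  obtain ⟨N, rfl⟩ := exists_pt p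
  obtain ⟨h1, h2⟩ := hp
  rw [pt_mem_basicOpen] at h1 h2
  obtain ⟨a₁, ha₁, hb₁⟩ := h1
  obtain ⟨a₂, ha₂, hb₂⟩ := h2
  rw [PPFormula.holds_iff] at hb₁ hb₂
  let U : Sub S N.carrier := Sub.gen ψ₁.r (fun j => ψ₁.s j • a₁)
  let V : Sub S N.carrier := Sub.gen ψ₂.r (fun j => ψ₂.s j • a₂)
  have hdis : ¬ U.Disj V := by
    intro h
    rcases uniform N.pureInjective N.indecomposable U V h with h | h
    · exact hb₁ (h _ (Sub.self_mem_gen _ _))
    · exact hb₂ (h _ (Sub.self_mem_gen _ _))
  unfold Sub.Disj at hdis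
  push Not at hdis
  obtain ⟨n, m, r, x, ⟨z₁, w₁, hzw₁, hx₁⟩, ⟨z₂, w₂, hzw₂, hx₂⟩, hx⟩ := hdis
  -- the coefficients
  let c₁ : Fin n → S := fun j => ∑ i, z₁ j i * ψ₁.s i
  let c₂ : Fin n → S := fun j => ∑ i, z₂ j i * ψ₂.s i
  have hc₁ : ∀ {N : Type u} [AddCommGroup N] [Module S N] (a : N),
      act z₁ (fun j => ψ₁.s j • a) = fun j => c₁ j • a := by
    intro N _ _ a
    funext j
    simp [act_apply, c₁, Finset.sum_smul, mul_smul]
  have hc₂ : ∀ {N : Type u} [AddCommGroup N] [Module S N] (a : N),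
      act z₂ (fun j => ψ₂.s j • a) = fun j => c₂ j • a := by
    intro N _ _ a
    funext j
    simp [act_apply, c₂, Finset.sum_smul, mul_smul]
  let φ : PPFormula S := mkFormula (ι := Fin φ₁.n ⊕ Fin φ₂.n ⊕ Fin n)
    (κ := Fin φ₁.m ⊕ Unit ⊕ Fin φ₂.m ⊕ Fin m)
    (fun j => match j with
      | Sum.inl j => φ₁.s j
      | Sum.inr (Sum.inl _) => 0
      | Sum.inr (Sum.inr j) => c₁ j)
    (fun j i => match j, i with
      | Sum.inl j, Sum.inl i => φ₁.r j i
      | Sum.inr (Sum.inl j), Sum.inr (Sum.inl _) => -φ₂.s j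
      | Sum.inr (Sum.inl j), Sum.inr (Sum.inr (Sum.inl i)) => φ₂.r j i
      | Sum.inr (Sum.inr j), Sum.inr (Sum.inl _) => c₂ j
      | Sum.inr (Sum.inr j), Sum.inr (Sum.inr (Sum.inr i)) => r j i
      | _, _ => 0)
  let ψ : PPFormula S := mkFormula (ι := Fin n) (κ := Fin m) c₁ (fun j i => r j i)
  have hφ : ∀ {N : Type u} [AddCommGroup N] [Module S N] (a : N), φ.Holds a ↔
      φ₁.Holds a ∧ ∃ b, φ₂.Holds b ∧ (fun j => c₁ j • a - c₂ j • b) ∈ rng r N := by
    intro N _ _ a
    rw [holds_mkFormula]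
    constructor
    · rintro ⟨y, hy⟩
      refine ⟨⟨fun i => y (Sum.inl i), fun j => ?_⟩, y (Sum.inr (Sum.inl ())),
        ⟨fun i => y (Sum.inr (Sum.inr (Sum.inl i))), fun j => ?_⟩,
        ⟨fun i => y (Sum.inr (Sum.inr (Sum.inr i))), ?_⟩⟩
      · have := hy (Sum.inl j)
        simpa [Fintype.sum_sum_type] using this
      · have := hy (Sum.inr (Sum.inl j))
        simp only [Fintype.sum_sum_type, zero_smul, Finset.sum_const_zero, zero_add,
          Finset.univ_unique, Finset.sum_singleton, neg_smul, add_zero] at this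
        exact (neg_add_eq_zero.mp this.symm)
      · funext j
        have := hy (Sum.inr (Sum.inr j))
        simp only [Fintype.sum_sum_type, zero_smul, Finset.sum_const_zero, zero_add,
          Finset.univ_unique, Finset.sum_singleton] at this
        rw [act_apply]
        change _ = c₁ j • a - _
        rw [this]
        simp
    · rintro ⟨⟨y₁, hy₁⟩, b, ⟨y₂, hy₂⟩, ⟨y₃, hy₃⟩⟩
      refine ⟨fun i => match i with
        | Sum.inl i => y₁ i
        | Sum.inr (Sum.inl _) => b
        | Sum.inr (Sum.inr (Sum.inl i)) => y₂ i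
        | Sum.inr (Sum.inr (Sum.inr i)) => y₃ i, ?_⟩
      rintro (j | j | j)
      · simpa [Fintype.sum_sum_type] using hy₁ j
      · simp only [Fintype.sum_sum_type, zero_smul, Finset.sum_const_zero, zero_add,
          Finset.univ_unique, Finset.sum_singleton, neg_smul, add_zero]
        rw [← hy₂ j]
        simp
      · simp only [Fintype.sum_sum_type, zero_smul, Finset.sum_const_zero, zero_add,
          Finset.univ_unique, Finset.sum_singleton]
        have := congrFun hy₃ j
        rw [act_apply] at this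
        rw [this]
        abel
  have hψ : ∀ {N : Type u} [AddCommGroup N] [Module S N] (a : N), ψ.Holds a ↔
      (fun j => c₁ j • a) ∈ rng r N := by
    intro N _ _ a
    rw [holds_mkFormula]
    constructor
    · rintro ⟨y, hy⟩
      exact ⟨y, by
        funext j
        rw [act_apply]
        exact (hy j).symm⟩
    · rintro ⟨y, hy⟩
      exact ⟨y, fun j => by
        have := congrFun hy j
        rw [act_apply] at this
        exact this.symm⟩
  refine ⟨φ, ψ, ?_, ?_⟩
  · rw [pt_mem_basicOpen]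
    refine ⟨a₁, (hφ a₁).mpr ⟨ha₁, a₂, ha₂, ?_⟩, fun h => ?_⟩
    · rw [hc₁] at hx₁
      rw [hc₂] at hx₂
      have := AddSubgroup.sub_mem _ hx₂ hx₁
      rw [sub_sub_sub_cancel_left] at this
      exact this
    · rw [hψ] at h
      rw [hc₁] at hx₁
      have := AddSubgroup.add_mem _ hx₁ h
      rw [sub_add_cancel] at this
      exact hx this
  · intro q hq
    obtain ⟨N', rfl⟩ := exists_pt q
    rw [pt_mem_basicOpen] at hq
    obtain ⟨a, ha, ha'⟩ := hq
    rw [hφ] at ha
    rw [hψ] at ha'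
    obtain ⟨ha₁', b, hb, hab⟩ := ha
    refine ⟨pt_mem_basicOpen.mpr ⟨a, ha₁', fun h => ?_⟩, pt_mem_basicOpen.mpr ⟨b, hb, fun h => ?_⟩⟩
    · apply ha'
      rw [← hc₁]
      exact rng_mor hzw₁ ((PPFormula.holds_iff _ _).mp h)
    · apply ha'
      have h3 := rng_mor hzw₂ ((PPFormula.holds_iff _ _).mp h)
      rw [hc₂] at h3
      have := AddSubgroup.add_mem _ hab h3
      convert this using 1
      funext j
      simp

theorem isTopologicalBasis_basicOpen :
    TopologicalSpace.IsTopologicalBasis {U : Set (Zg S) | ∃ φ ψ : PPFormula S, U = basicOpen φ ψ}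
    where
  exists_subset_inter := by
    rintro _ ⟨φ₁, ψ₁, rfl⟩ _ ⟨φ₂, ψ₂, rfl⟩ p hp
    obtain ⟨φ, ψ, h1, h2⟩ := exists_basicOpen_subset_inter φ₁ ψ₁ φ₂ ψ₂ p hp
    exact ⟨_, ⟨φ, ψ, rfl⟩, h1, h2⟩
  sUnion_eq := by
    rw [Set.sUnion_eq_univ_iff]
    intro p
    obtain ⟨N, rfl⟩ := exists_pt p
    refine ⟨_, ⟨topFormula S, annFormula 1, rfl⟩, ?_⟩
    rw [pt_mem_basicOpen]
    obtain ⟨x, hx⟩ := @exists_ne _ N.indecomposable.1 (0 : N.carrier)
    exact ⟨x, holds_topFormula x, fun h => hx (by simpa [holds_annFormula] using h)⟩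
  eq_generateFrom := rfl

theorem exists_basicOpen_subset {U : Set (Zg S)} (hU : IsOpen U) {p : Zg S} (hp : p ∈ U) :
    ∃ φ ψ : PPFormula S, p ∈ basicOpen φ ψ ∧ basicOpen φ ψ ⊆ U := by
  obtain ⟨_, ⟨φ, ψ, rfl⟩, h1, h2⟩ := isTopologicalBasis_basicOpen.exists_subset_of_mem_open hp hU
  exact ⟨φ, ψ, h1, h2⟩

end Basis

end Pool.Agent.Lib.MP_a53fda_al
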